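import Pool.Agent.Lib.MP_1acd66_nt.Gen.Engine
import Pool.Agent.Lib.MP_1acd66_nt.Gen.FormsMain

/-!
Any representation: blocks of weights, the condition on the coordinates, the weight criterion.
-/

namespace Pool.Agent.Lib.MP_1acd66_nt.AR

open Finset Pool.Agent.Lib.MP_1acd66_nt.Gen

variable {k : ℕ} {r : Fin k → ℕ} {W : Type} [Fintype W]

/-- The value of the slope vector `y` on the weight of `w`. -/
def pairN (ρ : FRep r W) (y : ∀ i, Fin (r i) → ℕ) (w : W) : ℕ := ∑ i, ∑ a, y i a * ρ.wt w i a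

/-- The number of pairs of different slopes: the dimension of the flag variety of `y`. -/
def flagDim (y : ∀ i, Fin (r i) → ℕ) : ℕ :=
  ∑ i, (univ.filter fun p : Fin (r i) × Fin (r i) => y i p.1 < y i p.2).card

/-- The sum of the differences of the slopes. -/
def spreadN (y : ∀ i, Fin (r i) → ℕ) : ℕ := ∑ i, ∑ a, ∑ b, (y i a - y i b)

/-- The block of the basis vectors of slope at least `u`. -/
def Blk (ρ : FRep r W) (y : ∀ i, Fin (r i) → ℕ) (u : ℕ) : Finset W :=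
  univ.filter fun w => u ≤ pairN ρ y w

/-- The block has more elements than the dimension of the flag variety of `y`. -/
def Big (ρ : FRep r W) (y : ∀ i, Fin (r i) → ℕ) (u : ℕ) : Prop :=
  (∀ i, Monotone (y i)) ∧ flagDim y < (Blk ρ y u).card

/-- In no rational frame do all coordinates of a big block vanish. -/
def Good (ρ : FRep r W) (A : W → ℚ) : Prop :=
  ∀ g : Grp ℚ r, (∀ i, (g i).det ≠ 0) → ∀ y u, Big ρ y u → ∃ w ∈ Blk ρ y u, ρ.pull ℚ g A w ≠ 0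

/-- The weight criterion. -/
def Crit (ρ : FRep r W) : Prop :=
  ∃ θ : ℝ, θ < 1 ∧ ∀ y : ∀ i, Fin (r i) → ℕ, (∀ i, Monotone (y i)) → ∀ s : ℕ,
    (∃ y' u', Big ρ y' u' ∧ ∀ w ∈ Blk ρ y' u', s < pairN ρ y w) ∨
      ((∑ w, (pairN ρ y w - s) : ℕ) : ℝ) ≤ θ * (spreadN y : ℕ)

/-! The rows. -/

/-- Row A: the decomposition over the field of `p`-adic numbers. -/
def StDecomp : Prop :=
  ∀ (p : ℕ) [Fact p.Prime] (n : ℕ) (y : Fin n → ℕ), Monotone y →
    ∀ g : Matrix (Fin n) (Fin n) ℚ_[p], g.det ≠ 0 →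
    ∃ (σ : Equiv.Perm (Fin n)) (h : Matrix (Fin n) (Fin n) ℚ_[p]) (V : Matrix (Fin n) (Fin n) ℤ_[p]),
      (∀ a b, y a < y b → h a b = 0) ∧ (∀ a, V a a = 1) ∧
      (∀ a b, a ≠ b → y b ≤ y a → V a b = 0) ∧
      ∀ a b, (g * h) (σ a) b = ((V a b : ℤ_[p]) : ℚ_[p])

/-- Row B1: block lower triangular matrices do not decrease the slope. -/
def StTri (ρ : FRep r W) : Prop :=
  ∀ (K : Type) [CommRing K] [DecidableEq W] (y : ∀ i, Fin (r i) → ℕ) (h : Grp K r),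
    (∀ i a b, y i a < y i b → h i a b = 0) → ∀ w w', ρ.pull K h (Pi.single w' 1) w ≠ 0 →
      pairN ρ y w ≤ pairN ρ y w'

/-- Row B2: the diagonal blocks of a unipotent matrix. -/
def StDiag (ρ : FRep r W) : Prop :=
  ∀ (K : Type) [CommRing K] [DecidableEq W] (y : ∀ i, Fin (r i) → ℕ) (h : Grp K r),
    (∀ i a, h i a a = 1) → (∀ i a b, a ≠ b → y i a ≤ y i b → h i a b = 0) →
    ∀ w w', pairN ρ y w = pairN ρ y w' →
      ρ.pull K h (Pi.single w' 1) w = if w = w' then 1 else 0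

/-- Row B3: vanishing on a block is preserved. -/
def StVan (ρ : FRep r W) : Prop :=
  ∀ (K : Type) [CommRing K] (y : ∀ i, Fin (r i) → ℕ) (u : ℕ) (h : Grp K r),
    (∀ i a b, y i a < y i b → h i a b = 0) → ∀ A : W → K, (∀ w ∈ Blk ρ y u, A w = 0) →
      ∀ w ∈ Blk ρ y u, ρ.pull K h A w = 0

/-- The product of a permutation matrix and a matrix. -/
def perm (K : Type) (σ : ∀ i, Equiv.Perm (Fin (r i))) (V : Grp K r) : Grp K r :=
  fun i a b => V i ((σ i).symm a) b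

/-- Row C: reduction modulo a prime. -/
def StRed (ρ : FRep r W) : Prop :=
  ∀ (p : ℕ) [Fact p.Prime] (A : W → ℤ), ¬ Good ρ (ratW A) →
    ∃ y u, Big ρ y u ∧ ∃ (σ : ∀ i, Equiv.Perm (Fin (r i))) (V : Grp (ZMod p) r),
      (∀ i a, V i a a = 1) ∧ (∀ i a b, a ≠ b → y i b ≤ y i a → V i a b = 0) ∧
      ∀ w ∈ Blk ρ y u, ρ.pull (ZMod p) (perm (ZMod p) σ V) (fun w => (A w : ZMod p)) w = 0

/-- Row D: the number of the bad residue classes. -/
def StCount (ρ : FRep r W) : Prop :=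
  ∃ C : ℕ, ∀ (p : ℕ) [Fact p.Prime], ∃ S : Finset (W → ZMod p),
    S.card * p ≤ C * p ^ Fintype.card W ∧
    ∀ (A : W → ZMod p) y u, Big ρ y u → ∀ (σ : ∀ i, Equiv.Perm (Fin (r i))) (V : Grp (ZMod p) r),
      (∀ i a, V i a a = 1) → (∀ i a b, a ≠ b → y i b ≤ y i a → V i a b = 0) →
      (∀ w ∈ Blk ρ y u, ρ.pull (ZMod p) (perm (ZMod p) σ V) A w = 0) → A ∈ S

/-- Row E: density zero. -/
def StDens (ρ : FRep r W) : Prop := DensityZero (Good ρ)

/-- Row F: the cusp bound. -/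
def StCusp (ρ : FRep r W) : Prop :=
  Crit ρ → Nonempty W → (∀ i, 0 < ρ.deg i) → CuspData ρ (Good ρ)

/-- The representation on `m` copies. -/
def StMult : Prop :=
  ∀ {k : ℕ} {r : Fin k → ℕ} {W : Type} [Fintype W] (ρ : FRep r W) (m : ℕ),
    ∃ ρ' : FRep r (Fin m × W),
      (∀ (K : Type) [CommRing K] (g : Grp K r) (A : Fin m × W → K) e w,
        ρ'.pull K g A (e, w) = ρ.pull K g (fun w => A (e, w)) w) ∧
      (∀ i, ρ'.b i = m * ρ.b i) ∧ ρ'.deg = ρ.deg ∧ ∀ e w, ρ'.wt (e, w) = ρ.wt w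

/-- Row G: the weight criterion for `m` copies (`ρ'` as in `StMult`). -/
def StCritMult (ρ : FRep r W) (m : ℕ) (ρ' : FRep r (Fin m × W)) : Prop :=
  (∀ e w, ρ'.wt (e, w) = ρ.wt w) →
    (∑ i, r i * (r i - 1) < 2 * m ∨ ∃ y0 u0, (∀ i, Monotone (y0 i)) ∧
      flagDim y0 < m * (Blk ρ y0 u0).card ∧ ∀ w ∈ Blk ρ y0 u0, ∀ y : ∀ i, Fin (r i) → ℕ,
        (∀ i, Monotone (y i)) → ∀ w', pairN ρ y w' ≤ pairN ρ y w) → Crit ρ'

end Pool.Agent.Lib.MP_1acd66_nt.AR
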