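import Pool.Agent.Lib.MP_1acd66_nt.AR.Defs

/-!
Second part: the Weyl group, top weights, and the closed set which contains the removed points.
-/

namespace Pool.Agent.Lib.MP_1acd66_nt.AR

open Finset Pool.Agent.Lib.MP_1acd66_nt.Gen

variable {k : ℕ} {r : Fin k → ℕ} {W : Type} [Fintype W]

/-- Row H: the weights are permuted by the Weyl group. -/
def StWeyl (ρ : FRep r W) : Prop :=
  ∀ (σ : ∀ i, Equiv.Perm (Fin (r i))) (w : W), ∃ w', ∀ i a, ρ.wt w' i a = ρ.wt w i (σ i a)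

/-- The weight of `w0` is the highest one for all nondecreasing slopes. -/
def Top (ρ : FRep r W) (w0 : W) : Prop :=
  ∀ y : ∀ i, Fin (r i) → ℕ, (∀ i, Monotone (y i)) → ∀ w, pairN ρ y w ≤ pairN ρ y w0

/-- Row I: the block of the highest weight. -/
def StTop (ρ : FRep r W) : Prop :=
  ∀ w0, Top ρ w0 → (∀ i, Monotone (ρ.wt w0 i)) ∧
    ∀ w ∈ Blk ρ (ρ.wt w0) (pairN ρ (ρ.wt w0) w0), ρ.wt w = ρ.wt w0

/-- Row J1: algebraic dependence. -/
def StAlg (ρ : FRep r W) : Prop :=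
  ∀ (Z : Finset W) (S : Finset (Σ i, Fin (r i) × Fin (r i))), S.card < Z.card →
    (∀ x ∈ S, x.2.1 < x.2.2) → ∀ σ : ∀ i, Equiv.Perm (Fin (r i)),
    ∃ F : MvPolynomial W ℚ, F ≠ 0 ∧ ∀ (K : Type) [Field K] [Algebra ℚ K] (A : W → K)
      (V : Grp K r), (∀ i a, V i a a = 1) → (∀ i a b, a ≠ b → ⟨i, a, b⟩ ∉ S → V i a b = 0) →
      (∀ w ∈ Z, ρ.pull K (perm K σ V) A w = 0) → MvPolynomial.aeval A F = 0

/-- Row J2: the vectors which do not satisfy the condition lie on a hypersurface. -/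
def StClosed (ρ : FRep r W) : Prop :=
  ∃ F : MvPolynomial W ℚ, F ≠ 0 ∧ ∀ A : W → ℚ, ¬ Good ρ A → MvPolynomial.eval A F = 0

end Pool.Agent.Lib.MP_1acd66_nt.AR
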