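import Pool.Agent.Lib.MP_1acd66_nt.AR.Defs2

/-!
Third part: blocks of the same size as the dimension of a product of projective spaces.
-/

namespace Pool.Agent.Lib.MP_1acd66_nt.AR

open Finset Pool.Agent.Lib.MP_1acd66_nt.Gen

open scoped LinearAlgebra.Projectivization

variable {k : ℕ} {r : Fin k → ℕ} {W : Type} [Fintype W]

/-- The slopes `(0, …, 0, 1)` in the factors `i ∈ I`, and `0` in the other ones. -/
def yE (r : Fin k → ℕ) (I : Finset (Fin k)) : ∀ i, Fin (r i) → ℕ :=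
  fun i a => if i ∈ I ∧ a.val + 1 = r i then 1 else 0

/-- The block of the basis vectors of weight `(0, …, 0, deg i)` in the factors `i ∈ I`. -/
def BlkE (ρ : FRep r W) (I : Finset (Fin k)) : Finset W := Blk ρ (yE r I) (∑ i ∈ I, ρ.deg i)

/-- A block `BlkE I` which has exactly as many elements as the dimension of the product of the
projective spaces of dimension `r i - 1`, `i ∈ I`, where `deg i ≥ 2` for `i ∈ I` if `r i ≥ 2`. -/
def Edge (ρ : FRep r W) (y : ∀ i, Fin (r i) → ℕ) (u : ℕ) : Prop :=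
  ∃ I : Finset (Fin k), y = yE r I ∧ u = ∑ i ∈ I, ρ.deg i ∧ 0 < (BlkE ρ I).card ∧
    (BlkE ρ I).card = ∑ i ∈ I, (r i - 1) ∧ ∀ i ∈ I, 2 ≤ r i → 2 ≤ ρ.deg i

/-- The admissible blocks. -/
def Adm (ρ : FRep r W) (y : ∀ i, Fin (r i) → ℕ) (u : ℕ) : Prop := Big ρ y u ∨ Edge ρ y u

/-- In no rational frame do all coordinates of an admissible block vanish. -/
def Good2 (ρ : FRep r W) (A : W → ℚ) : Prop :=
  ∀ g : Grp ℚ r, (∀ i, (g i).det ≠ 0) → ∀ y u, Adm ρ y u → ∃ w ∈ Blk ρ y u, ρ.pull ℚ g A w ≠ 0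

/-- The weight criterion. -/
def Crit2 (ρ : FRep r W) : Prop :=
  ∃ θ : ℝ, θ < 1 ∧ ∀ y : ∀ i, Fin (r i) → ℕ, (∀ i, Monotone (y i)) → ∀ s : ℕ,
    (∃ y' u', Adm ρ y' u' ∧ ∀ w ∈ Blk ρ y' u', s < pairN ρ y w) ∨
      ((∑ w, (pairN ρ y w - s) : ℕ) : ℝ) ≤ θ * (spreadN y : ℕ)

/-- The matrices with last column `x i` and zeros elsewhere for `i ∈ I`, and `1` for the other
`i`. -/
noncomputable def colM {K : Type} [CommRing K] (I : Finset (Fin k)) (x : ∀ i, Fin (r i) → K) :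
    Grp K r :=
  fun i => if i ∈ I then Matrix.of (fun a b => if b.val + 1 = r i then x i a else 0) else 1

/-- The matrices with last row `L i` and zeros elsewhere for `i ∈ I`, and `1` for the other
`i`. -/
noncomputable def rowM {K : Type} [CommRing K] (I : Finset (Fin k)) (L : ∀ i, Fin (r i) → K) :
    Grp K r :=
  fun i => if i ∈ I then Matrix.of (fun a b => if a.val + 1 = r i then L i b else 0) else 1

/-- Row L1: on `BlkE I` only the last columns of the factors `i ∈ I` matter. -/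
def StLast (ρ : FRep r W) : Prop :=
  ∀ (K : Type) [CommRing K] (I : Finset (Fin k)) (h h' : Grp K r),
    (∀ i ∈ I, ∀ a b, b.val + 1 = r i → h i a b = h' i a b) → (∀ i, i ∉ I → h i = h' i) →
    ∀ (A : W → K), ∀ w ∈ BlkE ρ I, ρ.pull K h A w = ρ.pull K h' A w

/-- Row L2: the values on pure powers. -/
def StPow (ρ : FRep r W) : Prop :=
  ∀ (K : Type) [CommRing K] (I : Finset (Fin k)) (x L : ∀ i, Fin (r i) → K) (B : W → K),
    ∀ w ∈ BlkE ρ I, ρ.pull K (colM I x) (ρ.pull K (rowM I L) B) w =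
      (∏ i ∈ I, (∑ a, L i a * x i a) ^ ρ.deg i) * B w

/-- Row L3: scaling the point. -/
def StScal (ρ : FRep r W) : Prop :=
  ∀ (K : Type) [CommRing K] (I : Finset (Fin k)) (x : ∀ i, Fin (r i) → K) (s : Fin k → K)
    (A : W → K), ∀ w ∈ BlkE ρ I, ρ.pull K (colM I fun i => s i • x i) A w =
      (∏ i ∈ I, s i ^ ρ.deg i) * ρ.pull K (colM I x) A w

/-- The points of the product of the projective spaces, `i ∈ I`. -/
abbrev PI (K : Type) [Field K] (r : Fin k → ℕ) (I : Finset (Fin k)) : Type :=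
  ∀ i : {i // i ∈ I}, ℙ K (Fin (r i) → K)

open Classical in
/-- Coordinates of a point. -/
noncomputable def PI.co {K : Type} [Field K] {I : Finset (Fin k)} (x : PI K r I) :
    ∀ i, Fin (r i) → K :=
  fun i => if h : i ∈ I then (x ⟨i, h⟩).rep else 0

/-- Row P: three points. -/
def StSep (r d : Fin k → ℕ) : Prop :=
  ∀ (I : Finset (Fin k)), (∀ i ∈ I, 2 ≤ r i → 2 ≤ d i) → ∀ (p : ℕ) [Fact p.Prime],
    (∀ i ∈ I, 2 ^ d i < p) → ∀ x y z : PI (ZMod p) r I, y ≠ x → z ≠ x →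
    ∃ (n : ℕ) (c : Fin n → ZMod p) (L : Fin n → ∀ i, Fin (r i) → ZMod p),
      ∑ j, c j * ∏ i ∈ I, (∑ a, L j i a * x.co i a) ^ d i = 1 ∧
      ∑ j, c j * ∏ i ∈ I, (∑ a, L j i a * y.co i a) ^ d i = 0 ∧
      ∑ j, c j * ∏ i ∈ I, (∑ a, L j i a * z.co i a) ^ d i = 0

/-- The condition for one set `I`. -/
def GoodE (ρ : FRep r W) (I : Finset (Fin k)) (A : W → ℚ) : Prop :=
  ∀ g : Grp ℚ r, (∀ i, (g i).det ≠ 0) → ∃ w ∈ BlkE ρ I, ρ.pull ℚ g A w ≠ 0

/-- Row R: reduction modulo a prime. -/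
def StRedE (ρ : FRep r W) : Prop :=
  (∀ i, 0 < r i) → ∀ (I : Finset (Fin k)) (p : ℕ) [Fact p.Prime] (A : W → ℤ),
    ¬ GoodE ρ I (ratW A) → ∃ x : PI (ZMod p) r I,
      ∀ w ∈ BlkE ρ I, ρ.pull (ZMod p) (colM I x.co) (fun w => (A w : ZMod p)) w = 0

/-- Row Q: density zero. -/
def StDensE (ρ : FRep r W) : Prop :=
  (∀ i, 0 < r i) → ∀ (I : Finset (Fin k)), 0 < (BlkE ρ I).card →
    (BlkE ρ I).card = ∑ i ∈ I, (r i - 1) → (∀ i ∈ I, 2 ≤ r i → 2 ≤ ρ.deg i) →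
    DensityZero (GoodE ρ I)

end Pool.Agent.Lib.MP_1acd66_nt.AR
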