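import Pool.Agent.Lib.MP_1acd66_nt.AR.RowG
import Pool.Agent.Lib.MP_1acd66_nt.AR.Defs3

/-!
Fourth part: fewer copies.
-/

namespace Pool.Agent.Lib.MP_1acd66_nt.AR

open Finset Pool.Agent.Lib.MP_1acd66_nt.Gen

variable {k : ℕ} {r : Fin k → ℕ} {W : Type} [Fintype W]

open Classical in
/-- The sum of `j (r i - j)` over the jumps `lam i (j - 1) < lam i j` (counted from `0`). -/
noncomputable def jumpSum (lam : ∀ i, Fin (r i) → ℕ) : ℕ :=
  ∑ i, ∑ b : Fin (r i), if ∃ a : Fin (r i), a.val + 1 = b.val ∧ lam i a < lam i b then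
    b.val * (r i - b.val) else 0

/-- Row X: fewer copies. -/
def StCritLow (ρ : FRep r W) (m : ℕ) : Prop :=
  ∀ (w0 : W), Top ρ w0 → ∑ i, r i * (r i - 1) < 4 * m → ∀ Z : Finset W,
    (∀ w, ρ.wt w = ρ.wt w0 → w ∈ Z) → m * Z.card < jumpSum (ρ.wt w0) → Crit (multRep ρ m)

end Pool.Agent.Lib.MP_1acd66_nt.AR
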