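import Pool.Agent.Lib.MP_1acd66_nt.AR.Defs3
import Mathlib

/-!
Fifth part: the blocks which generic vectors miss in some frame.
-/

namespace Pool.Agent.Lib.MP_1acd66_nt.AR

open Finset Pool.Agent.Lib.MP_1acd66_nt.Gen

variable {k : ℕ} {r : Fin k → ℕ} {W : Type} [Fintype W]

/-- The entries `(i, a, b)` with `y i b ≥ y i a + t`. -/
def stepsT (y : ∀ i, Fin (r i) → ℕ) (t : ℕ) : Finset (Σ i, Fin (r i) × Fin (r i)) :=
  univ.sigma fun i => univ.filter fun p : Fin (r i) × Fin (r i) => y i p.1 + t ≤ y i p.2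

/-- Row J0: derivations with given values on algebraically independent elements. -/
def StDual : Prop :=
  ∀ (L : Type) [Field L] [Algebra ℚ L] [Algebra.EssFiniteType ℚ L] (W : Type) [Fintype W]
    (A : W → L), AlgebraicIndependent ℚ A → ∀ c : W → L,
    ∃ φ : L →+* DualNumber L, (∀ x, TrivSqZeroExt.fst (φ x) = x) ∧
      ∀ w, TrivSqZeroExt.snd (φ (A w)) = c w

/-- The matrix `1 + ε X` over the dual numbers. -/
noncomputable def onePlus {L : Type} [CommRing L] (X : Grp L r) : Grp (DualNumber L) r :=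
  fun i => 1 + (X i).map fun x => TrivSqZeroExt.inr x

/-- The action of the Lie algebra. -/
noncomputable def lie (ρ : FRep r W) {L : Type} [CommRing L] (X : Grp L r) (B : W → L) (w : W) : L :=
  TrivSqZeroExt.snd (ρ.pull (DualNumber L) (onePlus X) (fun w => TrivSqZeroExt.inl (B w)) w)

/-- Row J1: (1) the action of `1 + ε X` on `B + ε C`; (2) if `X` is supported on `stepsT y 1`, and
`B` vanishes in all slopes `> s`, then in the slopes `≥ s + t` the vector `lie X B` is a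
combination of fixed vectors with coefficients `X i a b`, `(i, a, b)` in `stepsT y t`. -/
def StLie (ρ : FRep r W) : Prop :=
  ∀ (L : Type) [Field L],
    (∀ (X : Grp L r) (B C : W → L) (w : W),
      ρ.pull (DualNumber L) (onePlus X)
        (fun w => TrivSqZeroExt.inl (B w) + TrivSqZeroExt.inr (C w)) w =
        TrivSqZeroExt.inl (B w) + TrivSqZeroExt.inr (lie ρ X B w + C w)) ∧
    ∀ (y : ∀ i, Fin (r i) → ℕ) (s t : ℕ), 0 < t → ∀ B : W → L,
      (∀ w ∈ Blk ρ y (s + 1), B w = 0) →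
      ∃ e : (Σ i, Fin (r i) × Fin (r i)) → W → L,
        ∀ X : Grp L r, (∀ i a b, ¬ y i a < y i b → X i a b = 0) →
          ∀ w ∈ Blk ρ y (s + t), lie ρ X B w = ∑ x ∈ stepsT y t, X x.1 x.2.1 x.2.2 * e x w

/-- Row J2: algebraic dependence. -/
def StAlg2 (ρ : FRep r W) : Prop :=
  ∀ (y : ∀ i, Fin (r i) → ℕ) (s t : ℕ), (∀ i, Monotone (y i)) → 0 < t →
    (stepsT y t).card < (Blk ρ y (s + t)).card → ∀ σ : ∀ i, Equiv.Perm (Fin (r i)),
    ∃ F : MvPolynomial W ℚ, F ≠ 0 ∧ ∀ (K : Type) [Field K] [Algebra ℚ K] (A : W → K)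
      (V : Grp K r), (∀ i a, V i a a = 1) → (∀ i a b, a ≠ b → y i b ≤ y i a → V i a b = 0) →
      (∀ w ∈ Blk ρ y (s + 1), ρ.pull K (perm K σ V) A w = 0) → MvPolynomial.aeval A F = 0

/-- Row J3: the vectors which vanish on the block in some rational frame lie on a hypersurface. -/
def StThin1 (ρ : FRep r W) : Prop :=
  ∀ (y : ∀ i, Fin (r i) → ℕ) (s t : ℕ), (∀ i, Monotone (y i)) → 0 < t →
    (stepsT y t).card < (Blk ρ y (s + t)).card →
    ∃ F : MvPolynomial W ℚ, F ≠ 0 ∧ ∀ (A : W → ℚ) (g : Grp ℚ r), (∀ i, (g i).det ≠ 0) →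
      (∀ w ∈ Blk ρ y (s + 1), ρ.pull ℚ g A w = 0) → MvPolynomial.eval A F = 0

end Pool.Agent.Lib.MP_1acd66_nt.AR
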