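import Pool.Agent.Lib.MP_1acd66_nt.AR.Thin

/-!
Sixth part: blocks on which generic vectors vanish in several flags.
-/

namespace Pool.Agent.Lib.MP_1acd66_nt.AR

open Finset Pool.Agent.Lib.MP_1acd66_nt.Gen

variable {k : ℕ} {r : Fin k → ℕ} {W : Type} [Fintype W]

/-- The generic vector which vanishes on the block of slope at least `u` vanishes on it in one flag
only: for some polynomial `F` which does not vanish identically on these vectors, and all vectors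
of this kind over extension fields with `F ≠ 0`, every frame in which the vector vanishes on the
block belongs to the parabolic subgroup of `y`. -/
def Unique (ρ : FRep r W) (y : ∀ i, Fin (r i) → ℕ) (u : ℕ) : Prop :=
  ∃ F : MvPolynomial W ℚ,
    (∃ A : W → ℚ, (∀ w ∈ Blk ρ y u, A w = 0) ∧ MvPolynomial.eval A F ≠ 0) ∧
    ∀ (K : Type) [Field K] [Algebra ℚ K] (A : W → K), (∀ w ∈ Blk ρ y u, A w = 0) →
      MvPolynomial.aeval A F ≠ 0 → ∀ g : Grp K r, (∀ i, (g i).det ≠ 0) →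
        (∀ w ∈ Blk ρ y u, ρ.pull K g A w = 0) → ∀ i a b, y i a < y i b → g i a b = 0

/-- Row N1: the Bruhat decomposition. -/
def StBruhat : Prop :=
  ∀ (K : Type) [Field K] (n : ℕ) (g : Matrix (Fin n) (Fin n) K), g.det ≠ 0 →
    ∃ (σ : Equiv.Perm (Fin n)) (v h : Matrix (Fin n) (Fin n) K),
      (∀ a, v a a = 1) ∧ (∀ a b, a < b → v a b = 0) ∧ (∀ a b, a < b → h a b = 0) ∧ h.det ≠ 0 ∧
      ∀ a b, (g * h) a b = v a (σ b)

/-- Row N2: permutation matrices permute the blocks. -/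
def StPermVan (ρ : FRep r W) : Prop :=
  ∀ (K : Type) [Field K] (σ : ∀ i, Equiv.Perm (Fin (r i))) (y : ∀ i, Fin (r i) → ℕ) (u : ℕ)
    (A : W → K), (∀ w ∈ Blk ρ y u, ρ.pull K (perm K σ 1) A w = 0) ↔
      ∀ w ∈ Blk ρ (fun i a => y i ((σ i).symm a)) u, A w = 0

/-- Row N3: the image of a dominant polynomial map modulo the primes. -/
def StDom : Prop :=
  ∀ (ι τ : Type) [Fintype ι] [Fintype τ] (φ : ι → MvPolynomial τ ℤ),
    AlgebraicIndependent ℚ (fun i => MvPolynomial.map (Int.castRingHom ℚ) (φ i)) →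
    ∃ (δ : ℝ) (p0 : ℕ), 0 < δ ∧ ∀ (p : ℕ) [Fact p.Prime], p0 ≤ p →
      δ * (p:ℝ) ^ Fintype.card ι ≤
        ((Set.range fun (t : τ → ZMod p) (i : ι) => MvPolynomial.aeval t (φ i)).ncard : ℝ)

/-- A positive proportion of the vectors modulo `p` which vanish on the block vanish on it in
another flag too. -/
def Twice (ρ : FRep r W) (y : ∀ i, Fin (r i) → ℕ) (u : ℕ) : Prop :=
  ∃ (δ : ℝ) (p0 : ℕ), 0 < δ ∧ ∀ (p : ℕ) [Fact p.Prime], p0 ≤ p →
    δ * (p:ℝ) ^ Fintype.card W ≤ (p:ℝ) ^ (Blk ρ y u).card *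
      ({A : W → ZMod p | (∀ w ∈ Blk ρ y u, A w = 0) ∧ ∃ g : Grp (ZMod p) r,
        (∀ i, (g i).det ≠ 0) ∧ (∀ w ∈ Blk ρ y u, ρ.pull (ZMod p) g A w = 0) ∧
        ∃ i a b, y i a < y i b ∧ g i a b ≠ 0}.ncard : ℝ)

/-- Row N4: a positive proportion of the vectors modulo `p` vanish on the block in no frame. -/
def StGroup (ρ : FRep r W) : Prop :=
  ∀ (y : ∀ i, Fin (r i) → ℕ) (u : ℕ), (∀ i, Monotone (y i)) → flagDim y ≤ (Blk ρ y u).card →
    Twice ρ y u → ∃ (δ : ℝ) (p0 : ℕ), 0 < δ ∧ ∀ (p : ℕ) [Fact p.Prime], p0 ≤ p →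
      ({A : W → ZMod p | ∃ g : Grp (ZMod p) r, (∀ i, (g i).det ≠ 0) ∧
        ∀ w ∈ Blk ρ y u, ρ.pull (ZMod p) g A w = 0}.ncard : ℝ) ≤
        (1 - δ) * (p:ℝ) ^ Fintype.card W

/-- Row N5: the sieve. -/
def StSieve (ρ : FRep r W) : Prop :=
  ∀ (y : ∀ i, Fin (r i) → ℕ) (u : ℕ), (∀ i, Monotone (y i)) →
    (∃ (δ : ℝ) (p0 : ℕ), 0 < δ ∧ ∀ (p : ℕ) [Fact p.Prime], p0 ≤ p →
      ({A : W → ZMod p | ∃ g : Grp (ZMod p) r, (∀ i, (g i).det ≠ 0) ∧
        ∀ w ∈ Blk ρ y u, ρ.pull (ZMod p) g A w = 0}.ncard : ℝ) ≤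
        (1 - δ) * (p:ℝ) ^ Fintype.card W) → DensityZero fun A => ¬ Van ρ (Blk ρ y u) A

/-- Row N6: if the flag is not unique, a positive proportion of the vectors have two. -/
def StTwice (ρ : FRep r W) : Prop :=
  ∀ (y : ∀ i, Fin (r i) → ℕ) (u : ℕ), (∀ i, Monotone (y i)) → ¬ Unique ρ y u → Twice ρ y u

end Pool.Agent.Lib.MP_1acd66_nt.AR
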