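import Pool.Agent.Lib.MP_1acd66_nt.AR.Defs5

/-!
Row J1: the action of the Lie algebra.
-/

namespace Pool.Agent.Lib.MP_1acd66_nt.AR

open Finset Pool.Agent.Lib.MP_1acd66_nt.Gen TrivSqZeroExt

variable {k : ℕ} {r : Fin k → ℕ} {W : Type} [Fintype W]

namespace J41

variable {R S : Type} [CommRing R] [CommRing S]

/-- The ring homomorphism `a + b ε ↦ f a + c f b ε`. -/
noncomputable def dmap (f : R →+* S) (c : S) : DualNumber R →+* DualNumber S where
  toFun x := inl (f x.fst) + inr (c * f x.snd)
  map_one' := by ext <;> simp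
  map_mul' x y := by
    ext
    · simp
    · simp
      ring
  map_zero' := by ext <;> simp
  map_add' x y := by
    ext
    · simp
    · simp
      ring

/-- The first component. -/
def dfst : DualNumber R →+* R where
  toFun x := x.fst
  map_one' := rfl
  map_mul' x y := by simp
  map_zero' := rfl
  map_add' x y := by simp

theorem dmap_onePlus (f : R →+* S) (c : S) (X : Grp R r) :
    (fun i => (onePlus X i).map (dmap f c)) = onePlus (fun i => c • (X i).map f) := by
  funext i
  ext1 a b
  by_cases hab : a = b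
  · subst hab
    simp only [onePlus, Matrix.map_apply, Matrix.add_apply, Matrix.one_apply_eq,
      Matrix.smul_apply, smul_eq_mul, dmap, RingHom.coe_mk, MonoidHom.coe_mk, OneHom.coe_mk]
    ext <;> simp
  · simp only [onePlus, Matrix.map_apply, Matrix.add_apply, Matrix.one_apply_ne hab,
      Matrix.smul_apply, smul_eq_mul, dmap, RingHom.coe_mk, MonoidHom.coe_mk, OneHom.coe_mk]
    ext <;> simp

theorem dfst_onePlus (X : Grp R r) : (fun i => (onePlus X i).map dfst) = (1 : Grp R r) := by
  funext i
  ext1 a b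
  by_cases hab : a = b
  · subst hab
    change fst ((1 + (X i).map fun x => (inr x : DualNumber R)) a a) = (1 : Matrix _ _ R) a a
    rw [Matrix.add_apply, Matrix.one_apply_eq, Matrix.one_apply_eq, Matrix.map_apply]
    simp
  · change fst ((1 + (X i).map fun x => (inr x : DualNumber R)) a b) = (1 : Matrix _ _ R) a b
    rw [Matrix.add_apply, Matrix.one_apply_ne hab, Matrix.one_apply_ne hab, Matrix.map_apply]
    simp

theorem onePlus_mul (X Y : Grp R r) : onePlus X * onePlus Y = onePlus (X + Y) := by
  funext i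
  change (1 + (X i).map fun x => (inr x : DualNumber R)) *
    (1 + (Y i).map fun x => (inr x : DualNumber R)) =
      1 + ((X i + Y i).map fun x => (inr x : DualNumber R))
  have h1 : ((X i).map fun x => (inr x : DualNumber R)) *
      ((Y i).map fun x => (inr x : DualNumber R)) = 0 := by
    ext1 a b
    rw [Matrix.mul_apply]
    refine sum_eq_zero fun c _ => ?_
    rw [Matrix.map_apply, Matrix.map_apply, inr_mul_inr]
  have h2 : ((X i + Y i).map fun x => (inr x : DualNumber R)) =
      ((X i).map fun x => (inr x : DualNumber R)) +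
        ((Y i).map fun x => (inr x : DualNumber R)) := by
    ext1 a b
    rw [Matrix.map_apply, Matrix.add_apply, Matrix.add_apply, Matrix.map_apply, Matrix.map_apply,
      inr_add]
  rw [h2, add_mul, mul_add, mul_add, h1, one_mul, mul_one, one_mul, add_zero]
  abel

variable (ρ : FRep r W)

theorem pull_inl (X : Grp R r) (B : W → R) (w : W) :
    ρ.pull (DualNumber R) (onePlus X) (fun w => inl (B w)) w =
      inl (B w) + inr (lie ρ X B w) := by
  have h1 := congrFun (ρ.pull_map (DualNumber R) R dfst (onePlus X) (fun w => inl (B w))) w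
  rw [dfst_onePlus] at h1
  have h2 : (fun w => dfst (inl (B w) : DualNumber R)) = B := rfl
  rw [h2, ρ.pull_one] at h1
  ext
  · rw [fst_add, fst_inl, fst_inr, add_zero]
    exact h1.symm
  · rw [snd_add, snd_inl, snd_inr, zero_add]
    rfl

theorem pull_eps (X : Grp R r) (C : W → R) (w : W) :
    ρ.pull (DualNumber R) (onePlus X) (fun w => inr (C w)) w = inr (C w) := by
  have h1 : (fun w => (inr (C w) : DualNumber R)) =
      (inr 1 : DualNumber R) • fun w => (inl (C w) : DualNumber R) := by
    funext w
    rw [Pi.smul_apply, smul_eq_mul, inr_mul_inl]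
    simp
  rw [h1, ρ.pull_smul, Pi.smul_apply, smul_eq_mul, pull_inl, mul_add, inr_mul_inr, inr_mul_inl]
  simp

theorem pull_both (X : Grp R r) (B C : W → R) (w : W) :
    ρ.pull (DualNumber R) (onePlus X) (fun w => inl (B w) + inr (C w)) w =
      inl (B w) + inr (lie ρ X B w + C w) := by
  have h1 : (fun w => (inl (B w) + inr (C w) : DualNumber R)) =
      (fun w => (inl (B w) : DualNumber R)) + fun w => (inr (C w) : DualNumber R) := rfl
  rw [h1, ρ.pull_add, Pi.add_apply, pull_inl, pull_eps, inr_add, add_assoc]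

theorem lie_add (X Y : Grp R r) (B : W → R) (w : W) :
    lie ρ (X + Y) B w = lie ρ X B w + lie ρ Y B w := by
  have h1 := congrFun (ρ.pull_mul (DualNumber R) (onePlus X) (onePlus Y)
    (fun w => (inl (B w) : DualNumber R))) w
  have h2 : ρ.pull (DualNumber R) (onePlus X) (fun w => (inl (B w) : DualNumber R)) =
      fun w => inl (B w) + inr (lie ρ X B w) := funext fun w => pull_inl ρ X B w
  rw [h2, pull_both, onePlus_mul, pull_inl] at h1
  have h3 := congrArg snd h1
  simp only [snd_add, snd_inl, snd_inr, zero_add] at h3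
  rw [← h3, add_comm]

theorem lie_map (f : R →+* S) (c : S) (X : Grp R r) (B : W → R) (w : W) :
    lie ρ (fun i => c • (X i).map f) (fun w => f (B w)) w = c * f (lie ρ X B w) := by
  have h1 := congrFun (ρ.pull_map (DualNumber R) (DualNumber S) (dmap f c) (onePlus X)
    (fun w => (inl (B w) : DualNumber R))) w
  rw [dmap_onePlus] at h1
  have h2 : (fun w => dmap f c (inl (B w))) = fun w => (inl (f (B w)) : DualNumber S) := by
    funext w
    simp [dmap]
  rw [h2, pull_inl, pull_inl] at h1
  have h3 := congrArg snd h1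
  simpa [dmap] using h3

theorem lie_smul (c : R) (X : Grp R r) (B : W → R) (w : W) :
    lie ρ (c • X) B w = c * lie ρ X B w := by
  have h1 := lie_map ρ (RingHom.id R) c X B w
  have h2 : (fun i => c • (X i).map (RingHom.id R)) = c • X := by
    funext i
    ext1 a b
    rfl
  rw [h2] at h1
  exact h1

theorem lie_add_right (X : Grp R r) (B C : W → R) (w : W) :
    lie ρ X (B + C) w = lie ρ X B w + lie ρ X C w := by
  have h1 : (fun w => (inl ((B + C) w) : DualNumber R)) =
      (fun w => (inl (B w) : DualNumber R)) + fun w => (inl (C w) : DualNumber R) := by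
    funext w
    rw [Pi.add_apply, Pi.add_apply, inl_add]
  unfold lie
  rw [h1, ρ.pull_add, Pi.add_apply, snd_add]

theorem lie_smul_right (X : Grp R r) (c : R) (B : W → R) (w : W) :
    lie ρ X (c • B) w = c * lie ρ X B w := by
  have h1 : (fun w => (inl ((c • B) w) : DualNumber R)) =
      (inl c : DualNumber R) • fun w => (inl (B w) : DualNumber R) := by
    funext w
    rw [Pi.smul_apply, Pi.smul_apply, smul_eq_mul, smul_eq_mul, inl_mul]
  unfold lie
  rw [h1, ρ.pull_smul, Pi.smul_apply, smul_eq_mul, snd_mul]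
  simp

/-- The matrix unit. -/
def unitM (R : Type) [CommRing R] (r : Fin k → ℕ) (x : Σ i, Fin (r i) × Fin (r i)) : Grp R r :=
  Function.update 0 x.1 (Matrix.single x.2.1 x.2.2 1)

theorem sum_unitM (X : Grp R r) :
    X = ∑ x : (Σ i, Fin (r i) × Fin (r i)), X x.1 x.2.1 x.2.2 • unitM R r x := by
  funext i
  ext1 a b
  rw [Finset.sum_apply, Matrix.sum_apply, Finset.sum_eq_single ⟨i, a, b⟩]
  · simp [unitM]
  · rintro ⟨j, c, d⟩ _ hne
    change X j c d * unitM R r ⟨j, c, d⟩ i a b = 0
    by_cases hj : j = i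
    · subst hj
      have h1 : unitM R r ⟨j, c, d⟩ j a b = Matrix.single c d (1 : R) a b := by
        simp [unitM]
      rw [h1, Matrix.single_apply, if_neg, mul_zero]
      rintro ⟨rfl, rfl⟩
      exact hne rfl
    · have h1 : unitM R r ⟨j, c, d⟩ i a b = 0 := by
        simp [unitM, Function.update_of_ne (Ne.symm hj)]
      rw [h1, mul_zero]
  · intro h
    exact absurd (mem_univ _) h

theorem lie_sum (X : Grp R r) (B : W → R) (w : W) :
    lie ρ X B w = ∑ x : (Σ i, Fin (r i) × Fin (r i)), X x.1 x.2.1 x.2.2 *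
      lie ρ (unitM R r x) B w := by
  let φ : Grp R r →ₗ[R] R :=
    { toFun := fun X => lie ρ X B w
      map_add' := fun X Y => lie_add ρ X Y B w
      map_smul' := fun c X => lie_smul ρ c X B w }
  have h1 : φ X = ∑ x : (Σ i, Fin (r i) × Fin (r i)), X x.1 x.2.1 x.2.2 * φ (unitM R r x) := by
    conv_lhs => rw [sum_unitM X]
    rw [map_sum]
    refine sum_congr rfl fun x _ => ?_
    rw [map_smul, smul_eq_mul]
  exact h1

theorem lie_sum_right [DecidableEq W] (X : Grp R r) (B : W → R) (w : W) :
    lie ρ X B w = ∑ w', B w' * lie ρ X (Pi.single w' 1) w := by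
  let φ : (W → R) →ₗ[R] R :=
    { toFun := fun B => lie ρ X B w
      map_add' := fun B C => lie_add_right ρ X B C w
      map_smul' := fun c B => lie_smul_right ρ X c B w }
  have h1 : φ B = ∑ w', B w' * φ (Pi.single w' 1) := by
    have h2 : B = ∑ w', B w' • (Pi.single w' (1 : R) : W → R) := by
      funext v
      simp [Finset.sum_apply, Pi.single_apply]
    conv_lhs => rw [h2]
    rw [map_sum]
    refine sum_congr rfl fun x _ => ?_
    rw [map_smul, smul_eq_mul]
  exact h1

open Polynomial in
/-- The weight relation. -/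
theorem wt_rel [DecidableEq W] (y : ∀ i, Fin (r i) → ℕ) (x : Σ i, Fin (r i) × Fin (r i))
    (hx : y x.1 x.2.1 ≤ y x.1 x.2.2) (w w' : W)
    (hne : lie ρ (unitM R r x) (Pi.single w' 1) w ≠ 0) :
    pairN ρ y w = pairN ρ y w' + (y x.1 x.2.2 - y x.1 x.2.1) := by
  obtain ⟨i, a, b⟩ := x
  simp only at hx ⊢
  set d := y i b - y i a with hd
  let l : ∀ i, Fin (r i) → DualNumber R[X] := fun i a => inl (X ^ y i a)
  let D : Grp (DualNumber R[X]) r := fun i => Matrix.diagonal (l i)
  let E : Grp R r := unitM R r ⟨i, a, b⟩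
  let E1 : Grp R[X] r := fun j => (1 : R[X]) • (E j).map C
  let E2 : Grp R[X] r := fun j => (X ^ d : R[X]) • (E j).map C
  have hcomm : D * onePlus E2 = onePlus E1 * D := by
    funext j
    change Matrix.diagonal (l j) * (1 + (E2 j).map fun x => (inr x : DualNumber R[X])) =
      (1 + (E1 j).map fun x => (inr x : DualNumber R[X])) * Matrix.diagonal (l j)
    ext1 c e
    rw [Matrix.diagonal_mul, Matrix.mul_diagonal, Matrix.add_apply, Matrix.add_apply,
      Matrix.map_apply, Matrix.map_apply, mul_add, add_mul]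
    congr 1
    · by_cases hce : c = e
      · subst hce
        rw [Matrix.one_apply_eq, mul_one, one_mul]
      · rw [Matrix.one_apply_ne hce, mul_zero, zero_mul]
    · change inl (X ^ y j c) * inr ((X ^ d : R[X]) * C (E j c e)) =
        inr ((1 : R[X]) * C (E j c e)) * inl (X ^ y j e)
      rw [inl_mul_inr, inr_mul_inl]
      by_cases hj : j = i
      · subst hj
        have h1 : E j c e = Matrix.single a b (1 : R) c e := by
          simp [E, unitM]
        rw [h1, Matrix.single_apply]
        split_ifs with h2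
        · obtain ⟨rfl, rfl⟩ := h2
          have h3 : y j a + d = y j b := by omega
          rw [← h3]
          simp only [map_one, mul_one, smul_eq_mul, MulOpposite.smul_eq_mul_unop,
            MulOpposite.unop_op]
          rw [pow_add, one_mul]
        · simp
      · have h1 : E j c e = 0 := by
          simp [E, unitM, Function.update_of_ne hj]
        rw [h1]
        simp
  have h1 := ρ.pull_mul (DualNumber R[X]) D (onePlus E2)
    (fun v => (inl ((Pi.single w' (1 : R[X]) : W → R[X]) v)))
  have h2 := ρ.pull_mul (DualNumber R[X]) (onePlus E1) D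
    (fun v => (inl ((Pi.single w' (1 : R[X]) : W → R[X]) v)))
  have hdiag : ∀ (A : W → DualNumber R[X]) (v : W), ρ.pull (DualNumber R[X]) D A v =
      inl (X ^ pairN ρ y v) * A v := by
    intro A v
    rw [show D = (fun i => Matrix.diagonal (l i)) from rfl, ρ.pull_diag]
    congr 1
    have h3 : ∀ i a, l i a ^ ρ.wt v i a = inl (X ^ (y i a * ρ.wt v i a)) := by
      intro i a
      simp only [l]
      rw [inl_pow, ← pow_mul]
    simp only [h3, pairN]
    rw [← Finset.prod_pow_eq_pow_sum]
    have h4 : ∀ (s : Fin k → R[X]), (∏ i, (inl (s i) : DualNumber R[X])) = inl (∏ i, s i) :=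
      fun s => (map_prod (inlHom R[X] R[X]) s univ).symm
    have h5 : ∀ i, ∏ a, (inl (X ^ (y i a * ρ.wt v i a)) : DualNumber R[X]) =
        inl (X ^ ∑ a, y i a * ρ.wt v i a) := by
      intro i
      rw [← Finset.prod_pow_eq_pow_sum]
      exact (map_prod (inlHom R[X] R[X]) _ univ).symm
    simp only [h5, h4]
  rw [hcomm, ← h2] at h1
  have h3 : ρ.pull (DualNumber R[X]) D
      (fun v => (inl ((Pi.single w' (1 : R[X]) : W → R[X]) v))) =
      (inl (X ^ pairN ρ y w') : DualNumber R[X]) •
        (fun v => (inl ((Pi.single w' (1 : R[X]) : W → R[X]) v))) := by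
    funext v
    rw [hdiag, Pi.smul_apply, smul_eq_mul]
    by_cases hv : v = w'
    · rw [hv]
    · rw [Pi.single_eq_of_ne hv, inl_zero, mul_zero, mul_zero]
  rw [h3, ρ.pull_smul] at h1
  have h4 := congrFun h1 w
  rw [Pi.smul_apply, smul_eq_mul, hdiag, pull_inl, pull_inl] at h4
  have h5 := congrArg snd h4
  have hs : (fun v => C ((Pi.single w' (1 : R) : W → R) v)) = (Pi.single w' (1 : R[X])) := by
    funext v
    by_cases hv : v = w'
    · rw [hv]; simp
    · simp [Pi.single_eq_of_ne hv]
  have e1 : lie ρ E1 (Pi.single w' (1 : R[X])) w = C (lie ρ E (Pi.single w' 1) w) := by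
    rw [← hs]
    have := lie_map ρ (C : R →+* R[X]) 1 E (Pi.single w' 1) w
    rw [one_mul] at this
    exact this
  have e2 : lie ρ E2 (Pi.single w' (1 : R[X])) w = X ^ d * C (lie ρ E (Pi.single w' 1) w) := by
    rw [← hs]
    exact lie_map ρ (C : R →+* R[X]) (X ^ d) E (Pi.single w' 1) w
  rw [e1, e2] at h5
  have h6 : (X : R[X]) ^ (pairN ρ y w' + d) * C (lie ρ E (Pi.single w' 1) w) =
      X ^ pairN ρ y w * C (lie ρ E (Pi.single w' 1) w) := by
    have h7 : snd ((inl (X ^ pairN ρ y w') : DualNumber R[X]) *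
        (inl ((Pi.single w' (1 : R[X]) : W → R[X]) w) +
          inr (X ^ d * C (lie ρ E (Pi.single w' 1) w)))) =
        X ^ pairN ρ y w' * (X ^ d * C (lie ρ E (Pi.single w' 1) w)) := by
      rw [mul_add, ← inl_mul, inl_mul_inr, snd_add, snd_inl, snd_inr, zero_add, smul_eq_mul]
    have h8 : snd ((inl (X ^ pairN ρ y w) : DualNumber R[X]) *
        (inl ((Pi.single w' (1 : R[X]) : W → R[X]) w) +
          inr (C (lie ρ E (Pi.single w' 1) w)))) =
        X ^ pairN ρ y w * (C (lie ρ E (Pi.single w' 1) w)) := by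
      rw [mul_add, ← inl_mul, inl_mul_inr, snd_add, snd_inl, snd_inr, zero_add, smul_eq_mul]
    rw [h7, h8] at h5
    rw [pow_add, mul_assoc]
    exact h5
  have h9 := congrArg (fun q => coeff q (pairN ρ y w)) h6
  simp only [coeff_X_pow_mul', coeff_C, le_refl, if_true, Nat.sub_self] at h9
  by_contra hcon
  apply hne
  rw [← h9]
  split_ifs with h10 h11
  · exfalso
    omega
  · rfl
  · rfl

end J41

/-- Row J1. -/
theorem stLie (ρ : FRep r W) : StLie ρ := by
  classical
  intro L _
  refine ⟨fun X B C w => J41.pull_both ρ X B C w, ?_⟩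
  intro y s t ht B hB
  refine ⟨fun x w => lie ρ (J41.unitM L r x) B w, ?_⟩
  intro X hX w hw
  rw [J41.lie_sum]
  symm
  refine Finset.sum_subset (subset_univ _) ?_
  rintro ⟨i, a, b⟩ _ hx
  simp only [stepsT, mem_sigma, mem_univ, true_and, mem_filter, not_le] at hx
  by_cases hab : y i a < y i b
  · change X i a b * lie ρ (J41.unitM L r ⟨i, a, b⟩) B w = 0
    rw [J41.lie_sum_right]
    have h1 : ∀ w', B w' * lie ρ (J41.unitM L r ⟨i, a, b⟩) (Pi.single w' 1) w = 0 := by
      intro w'
      by_contra hne
      have h2 : B w' ≠ 0 := left_ne_zero_of_mul hne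
      have h3 := J41.wt_rel ρ y ⟨i, a, b⟩ hab.le w w' (right_ne_zero_of_mul hne)
      simp only at h3
      have h4 : ¬ s + 1 ≤ pairN ρ y w' := fun h => h2 (hB w' (mem_filter.2 ⟨mem_univ _, h⟩))
      have h5 : s + t ≤ pairN ρ y w := (mem_filter.1 hw).2
      omega
    simp only [h1, sum_const_zero, mul_zero]
  · change X i a b * _ = 0
    rw [hX i a b hab, zero_mul]

end Pool.Agent.Lib.MP_1acd66_nt.AR
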