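import Pool.Agent.Lib.MP_1acd66_nt.AR.Defs

/-!
Row D: the number of the residue vectors with a big block of zeros in some frame.
-/

namespace Pool.Agent.Lib.MP_1acd66_nt.AR

open Finset Pool.Agent.Lib.MP_1acd66_nt.Gen

namespace D63

variable {k : ℕ} {r : Fin k → ℕ} {W : Type} [Fintype W]

/-- vectors with zeros on `Z` -/
theorem card_zeros {p : ℕ} [NeZero p] [DecidableEq W] (Z : Finset W) :
    (univ.filter (fun B : W → ZMod p => ∀ w ∈ Z, B w = 0)).card * p ^ Z.card ≤
      p ^ Fintype.card W := by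
  have h1 : (univ.filter (fun B : W → ZMod p => ∀ w ∈ Z, B w = 0)) =
      Fintype.piFinset (fun w => if w ∈ Z then ({0} : Finset (ZMod p)) else univ) := by
    ext B
    rw [mem_filter, Fintype.mem_piFinset]
    constructor
    · rintro ⟨-, h⟩ w
      by_cases hw : w ∈ Z
      · rw [if_pos hw, mem_singleton]
        exact h w hw
      · rw [if_neg hw]
        exact mem_univ _
    · intro h
      refine ⟨mem_univ _, fun w hw => ?_⟩
      have h2 := h w
      rw [if_pos hw, mem_singleton] at h2
      exact h2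
  rw [h1, Fintype.card_piFinset]
  have h2 : ∀ w, (if w ∈ Z then ({0} : Finset (ZMod p)) else univ).card = if w ∈ Z then 1 else p := by
    intro w
    by_cases hw : w ∈ Z
    · rw [if_pos hw, if_pos hw, card_singleton]
    · rw [if_neg hw, if_neg hw, card_univ, ZMod.card]
  rw [prod_congr rfl fun w _ => h2 w, prod_ite, prod_const_one, one_mul, prod_const, ← pow_add]
  refine le_of_eq ?_
  congr 1
  have h3 := card_filter_add_card_filter_not (s := (univ : Finset W)) (fun w => w ∈ Z)
  rw [filter_mem_eq_inter, univ_inter] at h3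
  rw [card_univ] at h3
  omega

/-- the number of vectors which an invertible frame brings to a vector with zeros on `Z` -/
theorem card_pull {p : ℕ} [NeZero p] [DecidableEq W] (ρ : FRep r W) (Z : Finset W)
    (g : Grp (ZMod p) r) (hg : ∀ i, IsUnit (g i).det) :
    (univ.filter (fun A : W → ZMod p => ∀ w ∈ Z, ρ.pull (ZMod p) g A w = 0)).card * p ^ Z.card ≤
      p ^ Fintype.card W := by
  refine (Nat.mul_le_mul_right _ ?_).trans (card_zeros (p := p) Z)
  refine card_le_card_of_injOn (fun A => ρ.pull (ZMod p) g A) ?_ ?_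
  · intro A hA
    rw [mem_coe, mem_filter] at hA ⊢
    exact ⟨mem_univ _, hA.2⟩
  · intro A _ B _ hAB
    have h1 : g * (fun i => (g i)⁻¹) = 1 := by
      funext i
      exact Matrix.mul_nonsing_inv (g i) (hg i)
    have h2 : ∀ A, ρ.pull (ZMod p) (fun i => (g i)⁻¹) (ρ.pull (ZMod p) g A) = A := by
      intro A
      rw [ρ.pull_mul, h1, ρ.pull_one]
    rw [← h2 A, ← h2 B]
    exact congrArg _ hAB

/-- the unipotent families with free entries in `S` -/
def Vset (p : ℕ) [NeZero p] (S : Finset (Σ i, Fin (r i) × Fin (r i))) :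
    Finset (Grp (ZMod p) r) :=
  (univ : Finset (∀ i, Fin (r i) → Fin (r i) → ZMod p)).filter fun V =>
    (∀ i a, V i a a = 1) ∧ ∀ i a b, a ≠ b → (⟨i, a, b⟩ : Σ i, Fin (r i) × Fin (r i)) ∉ S → V i a b = 0

theorem card_Vset {p : ℕ} [NeZero p] (S : Finset (Σ i, Fin (r i) × Fin (r i))) :
    (Vset p S).card ≤ p ^ S.card := by
  have h1 : p ^ S.card = (univ : Finset (S → ZMod p)).card := by
    rw [card_univ, Fintype.card_fun, ZMod.card, Fintype.card_coe]
  rw [h1]
  refine card_le_card_of_injOn (fun V s => V s.1.1 s.1.2.1 s.1.2.2)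
    (fun _ _ => mem_coe.2 (mem_univ _)) ?_
  intro V hV V' hV' h
  rw [mem_coe, Vset, mem_filter] at hV hV'
  funext i a b
  by_cases hab : a = b
  · subst hab
    rw [hV.2.1 i a, hV'.2.1 i a]
  · by_cases hS : (⟨i, a, b⟩ : Σ i, Fin (r i) × Fin (r i)) ∈ S
    · exact congrFun h ⟨⟨i, a, b⟩, hS⟩
    · rw [hV.2.2 i a b hab hS, hV'.2.2 i a b hab hS]

theorem perm_det {K : Type} [CommRing K] (σ : ∀ i, Equiv.Perm (Fin (r i))) (V : Grp K r)
    (hV : ∀ i, (V i).det = 1) (i : Fin k) : IsUnit (perm K σ V i).det := by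
  have h1 : perm K σ V i = (V i).submatrix (σ i).symm id := rfl
  rw [h1, Matrix.det_permute, hV i, mul_one]
  exact (Equiv.Perm.sign (Equiv.symm (σ i))).isUnit.map (Int.castRingHom K)

theorem det_one {K : Type} [CommRing K] {n : ℕ} {y : Fin n → ℕ} (hy : Monotone y)
    {V : Matrix (Fin n) (Fin n) K} (h1 : ∀ a, V a a = 1)
    (h2 : ∀ a b, a ≠ b → y b ≤ y a → V a b = 0) : V.det = 1 := by
  rw [Matrix.det_of_isUpperTriangular (M := V) fun a b hab => h2 a b hab.ne' (hy hab.le)]
  exact prod_eq_one fun a _ => h1 a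

end D63

open D63 in
/-- Row D. -/
theorem stCount {k : ℕ} {r : Fin k → ℕ} {W : Type} [Fintype W] (ρ : FRep r W) : StCount ρ := by
  classical
  refine ⟨Fintype.card (Finset W × Finset (Σ i, Fin (r i) × Fin (r i)) ×
    (∀ i, Equiv.Perm (Fin (r i)))), fun p _ => ?_⟩
  set bad : (Finset W × Finset (Σ i, Fin (r i) × Fin (r i)) × (∀ i, Equiv.Perm (Fin (r i)))) →
      Finset (W → ZMod p) := fun t => if t.2.1.card < t.1.card then
        ((Vset p t.2.1).filter fun V => ∀ i, (V i).det = 1).biUnion fun V =>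
          univ.filter (fun A : W → ZMod p => ∀ w ∈ t.1,
            ρ.pull (ZMod p) (perm (ZMod p) t.2.2 V) A w = 0)
      else ∅ with hbad
  refine ⟨univ.biUnion bad, ?_, ?_⟩
  · have h1 : ∀ t, (bad t).card * p ≤ p ^ Fintype.card W := by
      intro t
      rw [hbad]
      simp only
      split_ifs with ht
      · have hp : 0 < p := (Fact.out : p.Prime).pos
        have h2 : (((Vset p t.2.1).filter fun V => ∀ i, (V i).det = 1).biUnion fun V =>
            univ.filter (fun A : W → ZMod p => ∀ w ∈ t.1,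
              ρ.pull (ZMod p) (perm (ZMod p) t.2.2 V) A w = 0)).card * p ^ t.1.card ≤
            p ^ t.2.1.card * p ^ Fintype.card W := by
          refine (Nat.mul_le_mul_right _ card_biUnion_le).trans ?_
          rw [sum_mul]
          refine (sum_le_sum fun V hV => card_pull ρ t.1 _
            (perm_det t.2.2 V (mem_filter.1 hV).2)).trans ?_
          rw [sum_const, smul_eq_mul]
          exact Nat.mul_le_mul_right _ ((card_le_card (filter_subset _ _)).trans (card_Vset _))
        have h3 : p * p ^ t.2.1.card ≤ p ^ t.1.card := by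
          rw [← pow_succ']
          exact Nat.pow_le_pow_right hp ht
        set c := (((Vset p t.2.1).filter fun V => ∀ i, (V i).det = 1).biUnion fun V =>
            univ.filter (fun A : W → ZMod p => ∀ w ∈ t.1,
              ρ.pull (ZMod p) (perm (ZMod p) t.2.2 V) A w = 0)).card with hc
        refine Nat.le_of_mul_le_mul_left ?_ (pow_pos hp t.2.1.card)
        calc p ^ t.2.1.card * (c * p) = c * (p * p ^ t.2.1.card) := by ring
          _ ≤ c * p ^ t.1.card := Nat.mul_le_mul_left _ h3
          _ ≤ _ := h2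
      · rw [card_empty, zero_mul]
        exact Nat.zero_le _
    calc (univ.biUnion bad).card * p ≤ (∑ t, (bad t).card) * p :=
          Nat.mul_le_mul_right _ card_biUnion_le
      _ = ∑ t, (bad t).card * p := by rw [sum_mul]
      _ ≤ ∑ _t : (Finset W × Finset (Σ i, Fin (r i) × Fin (r i)) ×
            (∀ i, Equiv.Perm (Fin (r i)))), p ^ Fintype.card W := sum_le_sum fun t _ => h1 t
      _ = _ := by rw [sum_const, smul_eq_mul, card_univ]
  · intro A y u hB σ V h1 h2 h3
    rw [mem_biUnion]
    set S : Finset (Σ i, Fin (r i) × Fin (r i)) :=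
      univ.sigma fun i => univ.filter fun q : Fin (r i) × Fin (r i) => y i q.1 < y i q.2 with hS
    have hSc : S.card = flagDim y := by
      rw [hS, card_sigma]
      rfl
    refine ⟨(Blk ρ y u, S, σ), mem_univ _, ?_⟩
    rw [hbad]
    simp only
    rw [if_pos (by rw [hSc]; exact hB.2), mem_biUnion]
    refine ⟨V, ?_, ?_⟩
    · rw [mem_filter, Vset, mem_filter]
      refine ⟨⟨mem_univ _, h1, fun i a b hab hn => h2 i a b hab ?_⟩,
        fun i => det_one (hB.1 i) (h1 i) (h2 i)⟩
      by_contra hlt
      push Not at hlt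
      apply hn
      rw [hS, mem_sigma, mem_filter]
      exact ⟨mem_univ _, mem_univ _, hlt⟩
    · rw [mem_filter]
      exact ⟨mem_univ _, h3⟩

end Pool.Agent.Lib.MP_1acd66_nt.AR
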