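import Pool.Agent.Lib.MP_1acd66_nt.AR.Defs2
import Pool.Agent.Lib.MP_1acd66_nt.AR.RowD

/-!
Row J1: the vectors with many zeros in some frame satisfy a polynomial equation.
-/

namespace Pool.Agent.Lib.MP_1acd66_nt.AR

open Finset Pool.Agent.Lib.MP_1acd66_nt.Gen

namespace J63

variable {k : ℕ} {r : Fin k → ℕ} {W : Type} [Fintype W]

/-- the action of an invertible family is injective -/
theorem pull_inj (ρ : FRep r W) {K : Type} [CommRing K] {g : Grp K r}
    (hg : ∀ i, IsUnit (g i).det) {A B : W → K} (h : ρ.pull K g A = ρ.pull K g B) : A = B := by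
  have h1 : g * (fun i => (g i)⁻¹) = 1 := by
    funext i
    exact Matrix.mul_nonsing_inv (g i) (hg i)
  have h2 : ∀ A, ρ.pull K (fun i => (g i)⁻¹) (ρ.pull K g A) = A := by
    intro A
    rw [ρ.pull_mul, h1, ρ.pull_one]
  rw [← h2 A, ← h2 B, h]

theorem pull_surj (ρ : FRep r W) {K : Type} [CommRing K] {g : Grp K r}
    (hg : ∀ i, IsUnit (g i).det) (B : W → K) : ∃ A, ρ.pull K g A = B := by
  have h1 : (fun i => (g i)⁻¹) * g = 1 := by
    funext i
    exact Matrix.nonsing_inv_mul (g i) (hg i)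
  exact ⟨ρ.pull K (fun i => (g i)⁻¹) B, by rw [ρ.pull_mul, h1, ρ.pull_one]⟩

/-- unipotent families have determinant one -/
theorem det_upper {K : Type} [CommRing K] {n : ℕ} {V : Matrix (Fin n) (Fin n) K}
    (h1 : ∀ a, V a a = 1) (h2 : ∀ a b, b < a → V a b = 0) : V.det = 1 := by
  rw [Matrix.det_of_isUpperTriangular (M := V) fun a b hab => h2 a b hab]
  exact prod_eq_one fun a _ => h1 a

/-- more elements than variables are algebraically dependent -/
theorem exists_rel {ι : Type} [Fintype ι] (a : W → MvPolynomial ι ℚ)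
    (h : Fintype.card ι < Fintype.card W) :
    ∃ F : MvPolynomial W ℚ, F ≠ 0 ∧ MvPolynomial.aeval a F = 0 := by
  by_contra hcon
  push Not at hcon
  have h1 : AlgebraicIndependent ℚ a := by
    rw [algebraicIndependent_iff]
    intro p hp
    by_contra h0
    exact hcon p h0 hp
  have h2 := h1.cardinalMk_le_trdeg
  rw [MvPolynomial.trdeg_of_isDomain, Cardinal.mk_fintype, Cardinal.mk_fintype,
    Cardinal.lift_natCast, Nat.cast_le] at h2
  omega

/-- the index set of the variables -/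
abbrev Ix (Z : Finset W) (S : Finset (Σ i, Fin (r i) × Fin (r i))) : Type :=
  {x // x ∈ S} ⊕ {w // w ∉ Z}

open scoped Classical in
/-- the generic unipotent family -/
noncomputable def genV (Z : Finset W) (S : Finset (Σ i, Fin (r i) × Fin (r i))) :
    Grp (MvPolynomial (Ix Z S) ℚ) r := fun i a b =>
  if a = b then 1 else
    if h : (⟨i, a, b⟩ : Σ i, Fin (r i) × Fin (r i)) ∈ S then
      MvPolynomial.X (Sum.inl ⟨⟨i, a, b⟩, h⟩) else 0

open scoped Classical in
/-- the generic vector with zeros on `Z` -/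
noncomputable def genB (Z : Finset W) (S : Finset (Σ i, Fin (r i) × Fin (r i))) :
    W → MvPolynomial (Ix Z S) ℚ := fun w =>
  if h : w ∈ Z then 0 else MvPolynomial.X (Sum.inr ⟨w, h⟩)

end J63

open J63 D63 in
/-- Row J1. -/
theorem stAlg {k : ℕ} {r : Fin k → ℕ} {W : Type} [Fintype W] (ρ : FRep r W) : StAlg ρ := by
  classical
  intro Z S hc hS σ
  have hdet : ∀ {K : Type} [CommRing K] (V : Grp K r), (∀ i a, V i a a = 1) →
      (∀ i a b, a ≠ b → (⟨i, a, b⟩ : Σ i, Fin (r i) × Fin (r i)) ∉ S → V i a b = 0) →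
      ∀ i, (V i).det = 1 := by
    intro K _ V h1 h2 i
    refine det_upper (h1 i) fun a b hab => h2 i a b hab.ne' fun hm => ?_
    exact absurd (hS _ hm) (not_lt.2 hab.le)
  have hg1 : ∀ i a, genV Z S i a a = 1 := by
    intro i a
    simp [genV]
  have hg2 : ∀ i a b, a ≠ b → (⟨i, a, b⟩ : Σ i, Fin (r i) × Fin (r i)) ∉ S →
      genV Z S i a b = 0 := by
    intro i a b hab hm
    simp [genV, hab, hm]
  have hgen := perm_det σ (genV Z S) (hdet (genV Z S) hg1 hg2)
  obtain ⟨Ag, hAg⟩ := pull_surj ρ hgen (genB Z S)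
  obtain ⟨F, hF, hF0⟩ := exists_rel Ag (by
    rw [Fintype.card_sum, Fintype.card_coe, Fintype.card_subtype_compl, Fintype.card_coe]
    have := card_le_univ Z
    omega)
  refine ⟨F, hF, ?_⟩
  intro K _ _ A V hV1 hV2 hvan
  set B := ρ.pull K (perm K σ V) A with hB
  set φ : MvPolynomial (Ix Z S) ℚ →ₐ[ℚ] K := MvPolynomial.aeval
    (Sum.elim (fun s => V s.1.1 s.1.2.1 s.1.2.2) fun w => B w.1) with hφ
  have e1 : (fun i => (perm (MvPolynomial (Ix Z S) ℚ) σ (genV Z S) i).map φ.toRingHom) =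
      perm K σ V := by
    funext i
    ext a b
    change φ (genV Z S i ((σ i).symm a) b) = V i ((σ i).symm a) b
    generalize (σ i).symm a = c
    by_cases hcb : c = b
    · subst hcb
      rw [hg1, map_one, hV1]
    · by_cases hm : (⟨i, c, b⟩ : Σ i, Fin (r i) × Fin (r i)) ∈ S
      · have h1 : genV Z S i c b = MvPolynomial.X (Sum.inl ⟨⟨i, c, b⟩, hm⟩) := by
          simp [genV, hcb, hm]
        rw [h1, hφ, MvPolynomial.aeval_X]
        rfl
      · rw [hg2 i c b hcb hm, map_zero, hV2 i c b hcb hm]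
  have e2 : (fun w => φ.toRingHom (genB Z S w)) = B := by
    funext w
    change φ (genB Z S w) = B w
    by_cases hw : w ∈ Z
    · rw [hvan w hw]
      have h1 : genB Z S w = 0 := by simp [genB, hw]
      rw [h1, map_zero]
    · have h1 : genB Z S w = MvPolynomial.X (Sum.inr ⟨w, hw⟩) := by simp [genB, hw]
      rw [h1, hφ, MvPolynomial.aeval_X]
      rfl
  have h1 := ρ.pull_map _ K φ.toRingHom (perm _ σ (genV Z S)) Ag
  rw [e1, hAg, e2] at h1
  have h2 : (fun w => φ.toRingHom (Ag w)) = A := by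
    refine pull_inj ρ (perm_det σ V (hdet V hV1 hV2)) ?_
    rw [h1]
  rw [← h2]
  have h3 : MvPolynomial.aeval (fun w => φ.toRingHom (Ag w)) F = φ (MvPolynomial.aeval Ag F) := by
    have h4 := MvPolynomial.comp_aeval Ag φ
    have h5 := DFunLike.congr_fun h4 F
    rw [AlgHom.comp_apply] at h5
    rw [h5]
    rfl
  rw [h3, hF0, map_zero]

end Pool.Agent.Lib.MP_1acd66_nt.AR
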