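import Pool.Agent.Lib.MP_1acd66_nt.AR.Many3
import Pool.Agent.Lib.MP_1acd66_nt.AR.RowJ1
import Pool.Agent.Lib.MP_1acd66_nt.AR.RowJ63

/-!
Seventh part: representations with a semi-invariant polynomial.
-/

namespace Pool.Agent.Lib.MP_1acd66_nt.AR

open Finset Pool.Agent.Lib.MP_1acd66_nt.Gen J63

variable {k : ℕ} {r : Fin k → ℕ} {W : Type} [Fintype W]

/-- A semi-invariant polynomial. -/
def SemiInv (ρ : FRep r W) (P : MvPolynomial W ℚ) : Prop :=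
  ∀ (K : Type) [Field K] [Algebra ℚ K] (g : Grp K r), (∀ i, (g i).det ≠ 0) →
    ∃ c : K, c ≠ 0 ∧ ∀ A : W → K,
      MvPolynomial.aeval (ρ.pull K g A) P = c * MvPolynomial.aeval A P

/-- The ring of the generic pair (frame, vector). -/
abbrev RR (ρ : FRep r W) (y : ∀ i, Fin (r i) → ℕ) (s : ℕ) : Type :=
  MvPolynomial (Ix (Blk ρ y (s + 1)) (stepsT y 1)) ℚ

/-- `A` is the generic vector: in the generic frame `genV` its coordinates are `genB`. -/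
def GenA (ρ : FRep r W) (y : ∀ i, Fin (r i) → ℕ) (s : ℕ) (A : W → RR ρ y s) : Prop :=
  ρ.pull (RR ρ y s) (genV (Blk ρ y (s + 1)) (stepsT y 1)) A = genB (Blk ρ y (s + 1)) (stepsT y 1)

/-- The entries of the generic frame are rational functions of the generic vector. -/
def RatV (ρ : FRep r W) (y : ∀ i, Fin (r i) → ℕ) (s : ℕ) (A : W → RR ρ y s) : Prop :=
  ∀ x : {x // x ∈ stepsT y 1}, ∃ N D : MvPolynomial W ℚ, MvPolynomial.aeval A D ≠ 0 ∧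
    (MvPolynomial.X (Sum.inl x) : RR ρ y s) * MvPolynomial.aeval A D = MvPolynomial.aeval A N

/-- Row T1. -/
def StRat (ρ : FRep r W) : Prop :=
  ∀ (y : ∀ i, Fin (r i) → ℕ) (s : ℕ), Critical ρ y s → Unique ρ y (s + 1) →
    ∀ A, GenA ρ y s A → AlgebraicIndependent ℚ A ∧ RatV ρ y s A

/-- The columns of the last block. -/
abbrev Tc (y : ∀ i, Fin (r i) → ℕ) (i : Fin k) (v : ℕ) : Type := {b : Fin (r i) // v ≤ y i b}

/-- The minors of the generic frame in the columns of the last block. -/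
noncomputable def minorV (ρ : FRep r W) (y : ∀ i, Fin (r i) → ℕ) (s : ℕ) (i : Fin k) (v : ℕ)
    (e : Tc y i v → Fin (r i)) : RR ρ y s :=
  Matrix.det (Matrix.of fun a b : Tc y i v =>
    genV (Blk ρ y (s + 1)) (stepsT y 1) i (e a) b.1)

/-- `Φ` is the primitive polynomial vector of the Plücker coordinates of the last block. -/
def Prim (ρ : FRep r W) (y : ∀ i, Fin (r i) → ℕ) (s : ℕ) (A : W → RR ρ y s) (i : Fin k) (v : ℕ)
    (Φ : (Tc y i v → Fin (r i)) → MvPolynomial W ℚ) : Prop :=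
  Φ Subtype.val ≠ 0 ∧
  (∀ e, MvPolynomial.aeval A (Φ e) = minorV ρ y s i v e * MvPolynomial.aeval A (Φ Subtype.val)) ∧
  ∀ Ψ, (∀ e, Ψ ∣ Φ e) → IsUnit Ψ

/-- Row T3. -/
def StPrim (ρ : FRep r W) : Prop :=
  ∀ (y : ∀ i, Fin (r i) → ℕ) (s : ℕ) (A : W → RR ρ y s), GenA ρ y s A →
    AlgebraicIndependent ℚ A → RatV ρ y s A → ∀ (i : Fin k) (v : ℕ), ∃ Φ, Prim ρ y s A i v Φ

/-- Row T4a: torus weights of the primitive vector. -/
def StTorus (ρ : FRep r W) : Prop :=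
  ∀ (y : ∀ i, Fin (r i) → ℕ) (s : ℕ) (A : W → RR ρ y s), GenA ρ y s A →
    AlgebraicIndependent ℚ A → ∀ (i : Fin k) (v : ℕ) Φ, Prim ρ y s A i v Φ →
    ∃ γ : ∀ i', Fin (r i') → ℕ, ∀ e, ∀ m ∈ (Φ e).support, ∀ i' a',
      (∑ w, m w * ρ.wt w i' a') +
        Nat.card {b : Tc y i v // (⟨i, e b⟩ : Σ i, Fin (r i)) = ⟨i', a'⟩} = γ i' a'

/-- Row T4b: these weights are invariant under permutations. -/
def StPermW (ρ : FRep r W) : Prop :=
  ∀ (y : ∀ i, Fin (r i) → ℕ) (s : ℕ), (∀ i, Monotone (y i)) → Unique ρ y (s + 1) →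
    ∀ (A : W → RR ρ y s), GenA ρ y s A → AlgebraicIndependent ℚ A → RatV ρ y s A →
    ∀ (i : Fin k) (v : ℕ) Φ, Prim ρ y s A i v Φ → ∀ γ : ∀ i', Fin (r i') → ℕ,
    (∀ e, ∀ m ∈ (Φ e).support, ∀ i' a', (∑ w, m w * ρ.wt w i' a') +
        Nat.card {b : Tc y i v // (⟨i, e b⟩ : Σ i, Fin (r i)) = ⟨i', a'⟩} = γ i' a') →
    ∀ i' a b, γ i' a = γ i' b

/-- The matrix of the derivative in the direction of the frame. -/
noncomputable def jacM (ρ : FRep r W) (y : ∀ i, Fin (r i) → ℕ) (s : ℕ)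
    (x : {x // x ∈ stepsT y 1}) (w : {w // w ∈ Blk ρ y (s + 1)}) : RR ρ y s :=
  lie ρ (J41.unitM (RR ρ y s) r x.1) (genB (Blk ρ y (s + 1)) (stepsT y 1)) w.1

/-- Row T5a: the Jacobian `J` of a critical pair. -/
def StJac (ρ : FRep r W) : Prop :=
  ∀ (y : ∀ i, Fin (r i) → ℕ) (s : ℕ), Critical ρ y s →
    ∀ A, GenA ρ y s A → AlgebraicIndependent ℚ A → RatV ρ y s A →
    ∃ J : RR ρ y s, J ≠ 0 ∧ (∀ j ∈ J.vars, ∃ w, j = Sum.inr w ∧ pairN ρ y w.1 = s) ∧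
      ∀ (L : Type) [Field L] [Algebra ℚ L] (h : RR ρ y s →ₐ[ℚ] L), h J ≠ 0 → ∀ X : Grp L r,
        (∀ i a b, ¬ y i a < y i b → X i a b = 0) →
        (∀ w ∈ Blk ρ y (s + 1),
          lie ρ X (fun w => h (genB (Blk ρ y (s + 1)) (stepsT y 1) w)) w = 0) → X = 0

/-- Row T5e: modulo a prime which does not divide `J` all but one of the coordinates of the generic
vector stay independent. -/
def StMod (ρ : FRep r W) : Prop :=
  ∀ (y : ∀ i, Fin (r i) → ℕ) (s : ℕ), (stepsT y 1).card = (Blk ρ y (s + 1)).card →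
    ∀ A, GenA ρ y s A → ∀ φ : RR ρ y s, Prime φ → ∀ (L : Type) [Field L] [Algebra ℚ L]
    [Algebra.EssFiniteType ℚ L] (h : RR ρ y s →ₐ[ℚ] L),
    (∀ F, h F = 0 ↔ φ ∣ F) → (∀ x : L, ∃ F G, h G ≠ 0 ∧ x * h G = h F) →
    (∀ X : Grp L r, (∀ i a b, ¬ y i a < y i b → X i a b = 0) →
        (∀ w ∈ Blk ρ y (s + 1),
          lie ρ X (fun w => h (genB (Blk ρ y (s + 1)) (stepsT y 1) w)) w = 0) → X = 0) →
    ∃ w1 : W, AlgebraicIndependent ℚ fun w : {w // w ≠ w1} => h (A w.1)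

/-- Row T5d: the kernel of an evaluation at a point of codimension at most one is principal. -/
def StKer : Prop :=
  ∀ (W L : Type) [Fintype W] [Field L] [Algebra ℚ L] (a : W → L) (w1 : W),
    AlgebraicIndependent ℚ (fun w : {w // w ≠ w1} => a w.1) →
    ∃ Ψ : MvPolynomial W ℚ, ¬ IsUnit Ψ ∧ ∀ F, MvPolynomial.aeval a F = 0 → Ψ ∣ F

/-- Row T5c: the slopes of the first Plücker coordinate. -/
def StSlope (ρ : FRep r W) : Prop :=
  ∀ (y : ∀ i, Fin (r i) → ℕ) (s : ℕ), Critical ρ y s → ∀ A, GenA ρ y s A →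
    AlgebraicIndependent ℚ A → RatV ρ y s A → ∀ (i : Fin k) (v : ℕ) Φ, Prim ρ y s A i v Φ →
    ∀ m ∈ (Φ Subtype.val).support, ∑ w, m w * pairN ρ y w = s * ∑ w, m w

/-- Row T7: a monomial of a semi-invariant. -/
def StSemi (ρ : FRep r W) : Prop :=
  ∀ (y : ∀ i, Fin (r i) → ℕ) (s : ℕ) (A : W → RR ρ y s), (∀ i, Monotone (y i)) → GenA ρ y s A →
    AlgebraicIndependent ℚ A → (∀ i, 0 < ρ.deg i) → 0 < k → ∀ P, SemiInv ρ P → P ≠ 0 →
    (∀ c, P ≠ MvPolynomial.C c) →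
    ∃ (m : W →₀ ℕ) (κ : Fin k → ℕ), 0 < ∑ w, m w ∧ (∀ i a, ∑ w, m w * ρ.wt w i a = κ i) ∧
      ∀ w, m w ≠ 0 → pairN ρ y w ≤ s

end Pool.Agent.Lib.MP_1acd66_nt.AR
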