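import Pool.Agent.Lib.MP_1acd66_nt.AR.RowPW

/-!
Eighth part: representations of large dimension have a semi-invariant polynomial.
-/

namespace Pool.Agent.Lib.MP_1acd66_nt.AR

open Finset Pool.Agent.Lib.MP_1acd66_nt.Gen

variable {k : ℕ} {r : Fin k → ℕ} {W : Type} [Fintype W]

/-- Semi-invariance under the rational matrices. -/
def SemiInvQ (ρ : FRep r W) (P : MvPolynomial W ℚ) : Prop :=
  ∀ g : Grp ℚ r, (∀ i, (g i).det ≠ 0) →
    ∃ c : ℚ, c ≠ 0 ∧ PW.psub ρ g P = MvPolynomial.C c * P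

/-- Row D1: rational semi-invariance implies semi-invariance over all fields. -/
def StExt (ρ : FRep r W) : Prop := ∀ P, P ≠ 0 → SemiInvQ ρ P → SemiInv ρ P

/-- Row D2: the pairs `(g A, det g)` are dense. -/
def StDense (ρ : FRep r W) : Prop :=
  (∀ i, 0 < r i) → ∀ F : MvPolynomial (W ⊕ Fin k) ℚ,
    (∀ g : Grp ℚ r, (∀ i, (g i).det ≠ 0) → ∀ A : W → ℚ,
      MvPolynomial.eval (Sum.elim (ρ.pull ℚ g A) fun i => (g i).det) F = 0) → F = 0

/-- The ring of the generic pair (matrix, vector). -/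
abbrev TT (r : Fin k → ℕ) (W : Type) : Type :=
  MvPolynomial (Σ i, Fin (r i) × Fin (r i)) (MvPolynomial W ℚ)

/-- the generic matrix -/
noncomputable def genG (r : Fin k → ℕ) (W : Type) : Grp (TT r W) r :=
  fun i a b => MvPolynomial.X ⟨i, a, b⟩

/-- the coordinates of `g A` and the determinants of `g`, for generic `g`, `A` -/
noncomputable def relG (ρ : FRep r W) : W ⊕ Fin k → TT r W :=
  Sum.elim (ρ.pull (TT r W) (genG r W) fun w => MvPolynomial.C (MvPolynomial.X w))
    fun i => (genG r W i).det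

/-- Row D3: the existence of a relation. -/
def StRel (ρ : FRep r W) : Prop :=
  (∀ i, 0 < r i) → ∑ i, (r i ^ 2 - 1) < Fintype.card W →
    ∃ F : MvPolynomial (W ⊕ Fin k) (MvPolynomial W ℚ), F ≠ 0 ∧ MvPolynomial.aeval (relG ρ) F = 0

/-- Row D4: the relations are stable under rational matrices. -/
def StStab (ρ : FRep r W) : Prop :=
  ∀ g : Grp ℚ r, (∀ i, (g i).det ≠ 0) → ∀ F : MvPolynomial (W ⊕ Fin k) (MvPolynomial W ℚ),
    MvPolynomial.aeval (relG ρ) F = 0 →
    MvPolynomial.aeval (Sum.elim (fun w => relG ρ (Sum.inl w)) fun i =>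
      MvPolynomial.C (MvPolynomial.C (g i).det⁻¹) * relG ρ (Sum.inr i))
      (MvPolynomial.map (PW.psub ρ g).toRingHom F) = 0

end Pool.Agent.Lib.MP_1acd66_nt.AR
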