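import Pool.Agent.Lib.MP_1acd66_nt.AR.Defs8

/-!
Row StDense: the pairs (g A, det g) are dense.
-/

set_option autoImplicit false

namespace Pool.Agent.Lib.MP_1acd66_nt.AR

open Finset Pool.Agent.Lib.MP_1acd66_nt.Gen

/-- Row StDense. -/
theorem stDense63 {k : ℕ} {r : Fin k → ℕ} {W : Type} [Fintype W] (ρ : FRep r W) : StDense ρ := by
  classical
  intro hr F hF
  -- values with nonzero determinants
  have h1 : ∀ (z : W → ℚ) (d : Fin k → ℚ), (∀ i, d i ≠ 0) →
      MvPolynomial.eval (Sum.elim z d) F = 0 := by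
    intro z d hd
    let g : Grp ℚ r := fun i => Matrix.diagonal fun a => if a = ⟨0, hr i⟩ then d i else 1
    have hg : ∀ i, (g i).det = d i := by
      intro i
      change (Matrix.diagonal _).det = d i
      rw [Matrix.det_diagonal, prod_ite_eq' univ (⟨0, hr i⟩ : Fin (r i)) fun _ => d i,
        if_pos (mem_univ _)]
    have h2 : (fun i => (g i)⁻¹) * g = 1 := by
      funext i
      exact Matrix.nonsing_inv_mul (g i) (by rw [hg]; exact (hd i).isUnit)
    have h3 := hF g (fun i => by rw [hg]; exact hd i) (ρ.pull ℚ (fun i => (g i)⁻¹) z)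
    rw [ρ.pull_mul, h2, ρ.pull_one] at h3
    have h4 : (fun i => (g i).det) = d := funext hg
    rw [h4] at h3
    exact h3
  have h5 : F * ∏ i, MvPolynomial.X (Sum.inr i) = 0 := by
    apply MvPolynomial.funext
    intro x
    rw [map_mul, map_prod, map_zero]
    simp only [MvPolynomial.eval_X]
    by_cases h : ∃ i, x (Sum.inr i) = 0
    · obtain ⟨i, hi⟩ := h
      rw [prod_eq_zero (mem_univ i) hi, mul_zero]
    · push Not at h
      have h6 := h1 (fun w => x (Sum.inl w)) (fun i => x (Sum.inr i)) h
      have h7 : Sum.elim (fun w => x (Sum.inl w)) (fun i => x (Sum.inr i)) = x := by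
        funext j
        rcases j with w | i
        · rfl
        · rfl
      rw [h7] at h6
      rw [h6, zero_mul]
  rcases mul_eq_zero.1 h5 with h | h
  · exact h
  · exfalso
    rw [prod_eq_zero_iff] at h
    obtain ⟨i, _, hi⟩ := h
    exact MvPolynomial.X_ne_zero _ hi

end Pool.Agent.Lib.MP_1acd66_nt.AR
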