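import Pool.Agent.Lib.MP_1acd66_nt.AR.Defs8

/-!
Representations of large dimension have a semi-invariant polynomial: the main step.
-/

namespace Pool.Agent.Lib.MP_1acd66_nt.AR

open Finset Pool.Agent.Lib.MP_1acd66_nt.Gen PW

variable {k : ℕ} {r : Fin k → ℕ} {W : Type} [Fintype W]

/-- Row D3. -/
theorem stRel (ρ : FRep r W) : StRel ρ := by
  classical
  intro hr hlt
  by_contra hcon
  push Not at hcon
  have h1 : AlgebraicIndependent (MvPolynomial W ℚ) (relG ρ) := by
    rw [algebraicIndependent_iff]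
    intro p hp
    by_contra h0
    exact hcon p h0 hp
  have h2 := h1.cardinalMk_le_trdeg
  rw [MvPolynomial.trdeg_of_isDomain, Cardinal.mk_fintype, Cardinal.mk_fintype,
    Cardinal.lift_natCast, Nat.cast_le, Fintype.card_sum, Fintype.card_fin,
    Fintype.card_sigma] at h2
  simp only [Fintype.card_prod, Fintype.card_fin] at h2
  have h3 : ∑ i, (r i ^ 2 - 1) + k = ∑ i, r i * r i := by
    have h4 : (k : ℕ) = ∑ _i : Fin k, 1 := by simp
    have h5 : ∑ i, (r i ^ 2 - 1) + ∑ _i : Fin k, 1 = ∑ i, r i * r i := by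
      rw [← sum_add_distrib]
      refine sum_congr rfl fun i _ => ?_
      have h6 : 0 < r i ^ 2 := pow_pos (hr i) 2
      rw [← sq]
      omega
    rw [← h5, ← h4]
  omega

namespace DM

variable {J R : Type} [CommRing R]

/-- the polynomial with given coefficients -/
noncomputable def mkP (s : Finset (J →₀ ℕ)) (q : (J →₀ ℕ) → R) : MvPolynomial J R :=
  ∑ b ∈ s, MvPolynomial.monomial b (q b)

theorem coeff_mkP (s : Finset (J →₀ ℕ)) (q : (J →₀ ℕ) → R) {b : J →₀ ℕ} (hb : b ∈ s) :
    MvPolynomial.coeff b (mkP s q) = q b := by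
  classical
  rw [mkP, MvPolynomial.coeff_sum, sum_eq_single b]
  · rw [MvPolynomial.coeff_monomial, if_pos rfl]
  · intro b' _ h
    rw [MvPolynomial.coeff_monomial, if_neg h]
  · intro h
    exact absurd hb h

theorem coeff_mkP_zero (s : Finset (J →₀ ℕ)) (q : (J →₀ ℕ) → R) {b : J →₀ ℕ} (hb : b ∉ s) :
    MvPolynomial.coeff b (mkP s q) = 0 := by
  classical
  rw [mkP, MvPolynomial.coeff_sum]
  refine sum_eq_zero fun b' hb' => ?_
  rw [MvPolynomial.coeff_monomial, if_neg]
  rintro rfl
  exact hb hb'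

theorem aeval_mkP {T : Type} [CommRing T] [Algebra R T] (f : J → T) (s : Finset (J →₀ ℕ))
    (q : (J →₀ ℕ) → R) : MvPolynomial.aeval f (mkP s q) =
      ∑ b ∈ s, algebraMap R T (q b) * b.prod fun j n => f j ^ n := by
  rw [mkP, map_sum]
  exact sum_congr rfl fun b _ => MvPolynomial.aeval_monomial _ _ _

end DM

open DM in
/-- The main step. -/
theorem exists_semiInvQ (ρ : FRep r W) (hr : ∀ i, 0 < r i)
    (hdim : ∑ i, (r i ^ 2 - 1) < Fintype.card W) (hStab : StStab ρ) (hDense : StDense ρ) :
    ∃ P, P ≠ 0 ∧ SemiInvQ ρ P ∧ ∀ c, P ≠ MvPolynomial.C c := by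
  classical
  let _ : StrongNormalizationMonoid (MvPolynomial W ℚ) :=
    UniqueFactorizationMonoid.strongNormalizationMonoid
  let _ : StrongNormalizedGCDMonoid (MvPolynomial W ℚ) :=
    UniqueFactorizationMonoid.toStrongNormalizedGCDMonoid _
  set R0 := MvPolynomial W ℚ with hR0
  set f := relG ρ with hf
  -- a relation with minimal support
  have hex : ∃ n, ∃ F : MvPolynomial (W ⊕ Fin k) R0, F ≠ 0 ∧ MvPolynomial.aeval f F = 0 ∧
      F.support.card = n := by
    obtain ⟨F, h1, h2⟩ := stRel ρ hr hdim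
    exact ⟨_, F, h1, h2, rfl⟩
  obtain ⟨F1, hF1, hF1r, hcard⟩ := Nat.find_spec hex
  set s := F1.support with hs
  have hmin : ∀ F : MvPolynomial (W ⊕ Fin k) R0, MvPolynomial.aeval f F = 0 →
      F.support.card < s.card → F = 0 := by
    intro F h1 h2
    by_contra h0
    rw [hcard] at h2
    exact Nat.find_min hex h2 ⟨F, h0, h1, rfl⟩
  have hsne : s.Nonempty := MvPolynomial.support_nonempty.2 hF1
  obtain ⟨q, hq, hq1⟩ := Finset.extract_gcd (fun b => MvPolynomial.coeff b F1) hsne
  have hq0 : ∀ b ∈ s, q b ≠ 0 := by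
    intro b hb h0
    have h1 := hq b hb
    rw [h0, mul_zero] at h1
    exact MvPolynomial.mem_support_iff.1 hb h1
  have hg0 : (s.gcd fun b => MvPolynomial.coeff b F1) ≠ 0 := by
    obtain ⟨b, hb⟩ := hsne
    intro h0
    have h1 := hq b hb
    rw [h0, zero_mul] at h1
    exact MvPolynomial.mem_support_iff.1 hb h1
  have hF1mk : F1 = mkP s fun b => MvPolynomial.coeff b F1 := by
    ext1 b
    by_cases h : b ∈ s
    · rw [coeff_mkP _ _ h]
    · rw [coeff_mkP_zero _ _ h]
      exact MvPolynomial.notMem_support_iff.1 h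
  have hrel : ∑ b ∈ s, algebraMap R0 (TT r W) (q b) * b.prod (fun j n => f j ^ n) = 0 := by
    have h1 : algebraMap R0 (TT r W) (s.gcd fun b => MvPolynomial.coeff b F1) *
        ∑ b ∈ s, algebraMap R0 (TT r W) (q b) * b.prod (fun j n => f j ^ n) = 0 := by
      rw [mul_sum, ← hF1r]
      rw [hF1mk, aeval_mkP]
      rw [← hF1mk]
      refine sum_congr rfl fun b hb => ?_
      rw [hq b hb, map_mul, mul_assoc]
    rcases mul_eq_zero.1 h1 with h2 | h2
    · exfalso
      apply hg0
      apply MvPolynomial.C_injective (Σ i, Fin (r i) × Fin (r i)) R0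
      rw [map_zero]
      exact h2
    · exact h2
  have hprim : ∀ Ψ, (∀ e : {b // b ∈ s}, Ψ ∣ q e.1) → IsUnit Ψ := by
    intro Ψ hΨ
    exact isUnit_of_dvd_one (hq1 ▸ Finset.dvd_gcd fun b hb => hΨ ⟨b, hb⟩)
  obtain ⟨b0, hb0⟩ := hsne
  -- all coefficients are semi-invariant
  have hsemi : ∀ b ∈ s, SemiInvQ ρ (q b) := by
    intro b hb g hg
    set δ : ((W ⊕ Fin k) →₀ ℕ) → ℚ := fun b => ∏ i, ((g i).det⁻¹) ^ b (Sum.inr i) with hδ
    have hδ0 : ∀ b, δ b ≠ 0 := fun b =>
      prod_ne_zero_iff.2 fun i _ => pow_ne_zero _ (inv_ne_zero (hg i))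
    set q' : ((W ⊕ Fin k) →₀ ℕ) → R0 := fun b => MvPolynomial.C (δ b) * psub ρ g (q b) with hq'
    have hrel' : ∑ b ∈ s, algebraMap R0 (TT r W) (q' b) * b.prod (fun j n => f j ^ n) = 0 := by
      have h1 := hStab g hg (mkP s q) (by rw [aeval_mkP]; exact hrel)
      rw [mkP, map_sum, map_sum] at h1
      rw [← h1]
      refine sum_congr rfl fun b hb => ?_
      rw [MvPolynomial.map_monomial, MvPolynomial.aeval_monomial]
      rw [Finsupp.prod_fintype _ _ (fun j => pow_zero _), Finsupp.prod_fintype _ _ (fun j => pow_zero _),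
        Fintype.prod_sum_type, Fintype.prod_sum_type]
      simp only [Sum.elim_inl, Sum.elim_inr, mul_pow]
      rw [prod_mul_distrib, hq', map_mul]
      have h2 : algebraMap R0 (TT r W) (MvPolynomial.C (δ b)) =
          ∏ i, (MvPolynomial.C (MvPolynomial.C (g i).det⁻¹) : TT r W) ^ b (Sum.inr i) := by
        rw [hδ, map_prod, map_prod]
        refine prod_congr rfl fun i _ => ?_
        rw [map_pow, map_pow]
        rfl
      rw [h2]
      change _ * algebraMap R0 (TT r W) (psub ρ g (q b)) * _ = algebraMap R0 (TT r W)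
        (psub ρ g (q b)) * _
      ring
    have hz : ∀ b ∈ s, q b0 * q' b - q' b0 * q b = 0 := by
      intro b hb
      have h1 : mkP s (fun b => q b0 * q' b - q' b0 * q b) = 0 := by
        apply hmin
        · rw [aeval_mkP]
          have h2 : ∀ b, algebraMap R0 (TT r W) (q b0 * q' b - q' b0 * q b) *
              b.prod (fun j n => f j ^ n) =
              algebraMap R0 (TT r W) (q b0) *
                (algebraMap R0 (TT r W) (q' b) * b.prod (fun j n => f j ^ n)) -
              algebraMap R0 (TT r W) (q' b0) *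
                (algebraMap R0 (TT r W) (q b) * b.prod (fun j n => f j ^ n)) := by
            intro b
            simp only [map_sub, map_mul]
            ring
          rw [sum_congr rfl fun b _ => h2 b, sum_sub_distrib, ← mul_sum, ← mul_sum, hrel, hrel',
            mul_zero, mul_zero, sub_zero]
        · refine lt_of_le_of_lt (card_le_card (t := s.erase b0) ?_) (card_erase_lt_of_mem hb0)
          intro b hb
          rw [MvPolynomial.mem_support_iff] at hb
          rw [mem_erase]
          by_cases h3 : b ∈ s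
          · rw [coeff_mkP _ _ h3] at hb
            refine ⟨fun h4 => hb ?_, h3⟩
            rw [h4]
            ring
          · rw [coeff_mkP_zero _ _ h3] at hb
            exact absurd rfl hb
      have h2 := congrArg (MvPolynomial.coeff b) h1
      rw [coeff_mkP _ _ hb, MvPolynomial.coeff_zero] at h2
      exact h2
    have hinv : ∀ p, psub ρ (fun i => (g i)⁻¹) (psub ρ g p) = p := by
      intro p
      rw [psub_sub]
      have : ((fun i => (g i)⁻¹ : Grp ℚ r) * g) = 1 := by
        funext i
        exact Matrix.nonsing_inv_mul _ (isUnit_iff_ne_zero.2 (hg i))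
      rw [this, psub_one]
    have hinv' : ∀ p, psub ρ g (psub ρ (fun i => (g i)⁻¹) p) = p := by
      intro p
      rw [psub_sub]
      have : (g * (fun i => (g i)⁻¹ : Grp ℚ r)) = 1 := by
        funext i
        exact Matrix.mul_nonsing_inv _ (isUnit_iff_ne_zero.2 (hg i))
      rw [this, psub_one]
    have hne' : ∀ b ∈ s, q' b ≠ 0 := by
      intro b hb
      refine mul_ne_zero (fun h => hδ0 b (MvPolynomial.C_eq_zero.1 h)) fun h => hq0 b hb ?_
      rw [← hinv (q b), h, map_zero]
    obtain ⟨c, hc0, hc⟩ := prim_prop (fun e : {b // b ∈ s} => q e.1) (fun e => q' e.1) ⟨b0, hb0⟩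
      (hq0 b0 hb0) (hne' b0 hb0) hprim
      (fun Ψ hΨ => by
        have h1 : ∀ e : {b // b ∈ s}, psub ρ (fun i => (g i)⁻¹) Ψ ∣ q e.1 := by
          intro e
          have h2 : Ψ ∣ psub ρ g (q e.1) := by
            have h3 := hΨ e
            change Ψ ∣ MvPolynomial.C (δ e.1) * psub ρ g (q e.1) at h3
            have h4 : psub ρ g (q e.1) = MvPolynomial.C (δ e.1)⁻¹ *
                (MvPolynomial.C (δ e.1) * psub ρ g (q e.1)) := by
              rw [← mul_assoc, ← map_mul, inv_mul_cancel₀ (hδ0 e.1), map_one, one_mul]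
            rw [h4]
            exact dvd_mul_of_dvd_right h3 _
          have h3 := map_dvd (psub ρ (fun i => (g i)⁻¹)) h2
          rwa [hinv] at h3
        have h2 := (hprim _ h1).map (psub ρ g)
        rwa [hinv'] at h2)
      (fun e => by
        have := sub_eq_zero.1 (hz e.1 e.2)
        change q' e.1 * q b0 = q' b0 * q e.1
        rw [← this, mul_comm])
    refine ⟨(δ b)⁻¹ * c, mul_ne_zero (inv_ne_zero (hδ0 b)) hc0, ?_⟩
    have h1 := hc ⟨b, hb⟩
    change MvPolynomial.C (δ b) * psub ρ g (q b) = MvPolynomial.C c * q b at h1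
    rw [map_mul, mul_assoc, ← h1, ← mul_assoc, ← map_mul, inv_mul_cancel₀ (hδ0 b), map_one,
      one_mul]
  -- one of them is not constant
  by_contra hcon
  push Not at hcon
  have hconst : ∀ b ∈ s, ∃ c : ℚ, q b = MvPolynomial.C c := fun b hb =>
    hcon (q b) (hq0 b hb) (hsemi b hb)
  choose! c hc using hconst
  have h0 : mkP s c = 0 := by
    refine hDense hr _ fun g hg A => ?_
    let ev : TT r W →+* ℚ := MvPolynomial.eval₂Hom (MvPolynomial.eval A) fun x => g x.1 x.2.1 x.2.2
    have hev1 : ∀ w, ev (f (Sum.inl w)) = ρ.pull ℚ g A w := by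
      intro w
      have h1 := congrFun (ρ.pull_map (TT r W) ℚ ev (genG r W)
        fun w => MvPolynomial.C (MvPolynomial.X w)) w
      rw [hf, relG, Sum.elim_inl, ← h1]
      have h2 : (fun i => (genG r W i).map ev : Grp ℚ r) = g := by
        funext i
        ext1 a b
        exact MvPolynomial.eval₂Hom_X' _ _ _
      have h3 : (fun w => ev (MvPolynomial.C (MvPolynomial.X w))) = A := by
        funext w
        change MvPolynomial.eval₂Hom _ _ (MvPolynomial.C (MvPolynomial.X w)) = _
        rw [MvPolynomial.eval₂Hom_C, MvPolynomial.eval_X]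
      rw [h2, h3]
    have hev2 : ∀ i, ev (f (Sum.inr i)) = (g i).det := by
      intro i
      rw [hf, relG, Sum.elim_inr, RingHom.map_det]
      congr 1
      ext1 a b
      exact MvPolynomial.eval₂Hom_X' _ _ _
    have h1 := congrArg ev hrel
    rw [map_zero, map_sum] at h1
    rw [mkP, map_sum, ← h1]
    refine sum_congr rfl fun b hb => ?_
    rw [MvPolynomial.eval_monomial, map_mul]
    congr 1
    · rw [hc b hb]
      change _ = MvPolynomial.eval₂Hom _ _ (MvPolynomial.C (MvPolynomial.C (c b)))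
      rw [MvPolynomial.eval₂Hom_C, MvPolynomial.eval_C]
    · rw [Finsupp.prod_fintype _ _ (fun j => pow_zero _),
        Finsupp.prod_fintype _ _ (fun j => pow_zero _), map_prod]
      refine prod_congr rfl fun j _ => ?_
      rw [map_pow]
      obtain w | i := j
      · rw [Sum.elim_inl, hev1]
      · rw [Sum.elim_inr, hev2]
  apply hq0 b0 hb0
  have h1 := congrArg (MvPolynomial.coeff b0) h0
  rw [coeff_mkP _ _ hb0, MvPolynomial.coeff_zero] at h1
  rw [hc b0 hb0, h1, map_zero]

end Pool.Agent.Lib.MP_1acd66_nt.AR
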