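import Mathlib

/-!
Row J0: derivations with given values on algebraically independent elements.
-/

namespace Pool.Agent.Lib.MP_1acd66_nt.AR.Dual44

theorem dual (L : Type) [Field L] [Algebra ℚ L] [Algebra.EssFiniteType ℚ L] (W : Type) [Fintype W]
    (A : W → L) (hA : AlgebraicIndependent ℚ A) (c : W → L) :
    ∃ φ : L →+* DualNumber L, (∀ x, TrivSqZeroExt.fst (φ x) = x) ∧
      ∀ w, TrivSqZeroExt.snd (φ (A w)) = c w := by
  classical
  have hinj : Function.Injective (MvPolynomial.aeval A : MvPolynomial W ℚ →ₐ[ℚ] L) := hA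
  let K := FractionRing (MvPolynomial W ℚ)
  let i : K →+* L :=
    IsFractionRing.lift (g := (MvPolynomial.aeval A : MvPolynomial W ℚ →ₐ[ℚ] L).toRingHom) hinj
  have hi : ∀ p : MvPolynomial W ℚ, i (algebraMap _ K p) = MvPolynomial.aeval A p := fun p =>
    IsFractionRing.lift_algebraMap (g := (MvPolynomial.aeval A : MvPolynomial W ℚ →ₐ[ℚ] L).toRingHom)
      hinj p
  let _ : Algebra K L := i.toAlgebra
  have _ : @IsScalarTower ℚ K L Algebra.toSMul Algebra.toSMul Algebra.toSMul :=
    IsScalarTower.of_algebraMap_eq' (Subsingleton.elim _ _)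
  have _ : Algebra.EssFiniteType K L := Algebra.EssFiniteType.of_comp ℚ K L
  have _ : CharZero K := algebraRat.charZero K
  have _ : PerfectField K := inferInstance
  have _ : Algebra.FormallySmooth K L := Algebra.FormallySmooth.of_perfectField
  let g : MvPolynomial W ℚ →ₐ[ℚ] DualNumber L :=
    MvPolynomial.aeval fun w => TrivSqZeroExt.inl (A w) + TrivSqZeroExt.inr (c w)
  have hg : ∀ p, TrivSqZeroExt.fst (g p) = MvPolynomial.aeval A p := by
    intro p
    have : ((TrivSqZeroExt.fstHom ℚ L L).comp g) = MvPolynomial.aeval A := by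
      apply MvPolynomial.algHom_ext
      intro w
      simp [g]
    exact congrArg (fun h : MvPolynomial W ℚ →ₐ[ℚ] L => h p) this
  have hgu : ∀ p : nonZeroDivisors (MvPolynomial W ℚ), IsUnit (g.toRingHom p) := by
    intro p
    rw [TrivSqZeroExt.isUnit_iff_isUnit_fst]
    change IsUnit (TrivSqZeroExt.fst (g p))
    rw [hg]
    apply IsUnit.mk0
    intro h0
    exact nonZeroDivisors.coe_ne_zero p (hinj (by rw [h0, map_zero]))
  let j : K →+* DualNumber L := IsLocalization.lift (M := nonZeroDivisors (MvPolynomial W ℚ)) hgu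
  have hj : ∀ p : MvPolynomial W ℚ, j (algebraMap _ K p) = g p := fun p =>
    IsLocalization.lift_eq (M := nonZeroDivisors (MvPolynomial W ℚ)) hgu p
  have hji : (TrivSqZeroExt.fstHom L L L).toRingHom.comp j = i := by
    apply IsLocalization.ringHom_ext (nonZeroDivisors (MvPolynomial W ℚ))
    refine RingHom.ext fun p => ?_
    change TrivSqZeroExt.fst (j (algebraMap _ K p)) = i (algebraMap _ K p)
    rw [hj, hi, hg]
  let alg : Algebra K (DualNumber L) := j.toAlgebra
  let π : @AlgHom K (DualNumber L) L _ _ _ alg _ :=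
    { (TrivSqZeroExt.fstHom L L L).toRingHom with
      commutes' := fun k => by
        exact congrArg (fun h : K →+* L => h k) hji }
  have hπ : Function.Surjective π := fun x => ⟨TrivSqZeroExt.inl x, rfl⟩
  have hmul : RingHom.ker (π : DualNumber L →+* L) * RingHom.ker (π : DualNumber L →+* L) = ⊥ := by
    rw [eq_bot_iff, Ideal.mul_le]
    intro x hx y hy
    have hx' : x.fst = 0 := hx
    have hy' : y.fst = 0 := hy
    rw [Submodule.mem_bot]
    ext <;> simp [hx', hy']
  have hker : IsNilpotent (RingHom.ker (π : DualNumber L →+* L)) :=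
    ⟨2, (pow_two (RingHom.ker (π : DualNumber L →+* L))).trans hmul⟩
  let φ := Algebra.FormallySmooth.liftOfSurjective (AlgHom.id K L) π hπ hker
  have hφ : ∀ x, π (φ x) = x := fun x => by
    exact Algebra.FormallySmooth.liftOfSurjective_apply (AlgHom.id K L) π hπ hker x
  refine ⟨φ.toRingHom, fun x => hφ x, fun w => ?_⟩
  have h1 : φ (algebraMap K L (algebraMap _ K (MvPolynomial.X w : MvPolynomial W ℚ))) =
      algebraMap K (DualNumber L) (algebraMap _ K (MvPolynomial.X w)) := φ.commutes _
  have h2 : algebraMap K L (algebraMap _ K (MvPolynomial.X w : MvPolynomial W ℚ)) = A w := by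
    change i (algebraMap _ K (MvPolynomial.X w)) = A w
    rw [hi, MvPolynomial.aeval_X]
  have h3 : algebraMap K (DualNumber L) (algebraMap _ K (MvPolynomial.X w : MvPolynomial W ℚ)) =
      TrivSqZeroExt.inl (A w) + TrivSqZeroExt.inr (c w) := by
    change j (algebraMap _ K (MvPolynomial.X w)) = _
    rw [hj]
    simp [g]
  rw [h2, h3] at h1
  change TrivSqZeroExt.snd (φ (A w)) = c w
  rw [h1]
  simp

end Pool.Agent.Lib.MP_1acd66_nt.AR.Dual44
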