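import Pool.Agent.Lib.MP_1acd66_nt.AR.Defs7

/-!
Row StSlope: the slopes of the first Plücker coordinate.
-/

set_option autoImplicit false

namespace Pool.Agent.Lib.MP_1acd66_nt.AR

open Finset Pool.Agent.Lib.MP_1acd66_nt.Gen J63

namespace Slope63

/-- If every prime factor of `P` divides `J`, the variables of `P` occur in `J`. -/
theorem degreeOf_zero {ι : Type} (j : ι) {P : MvPolynomial ι ℚ} (hP : P ≠ 0)
    (h : ∀ φ, Prime φ → φ ∣ P → φ.degreeOf j = 0) : P.degreeOf j = 0 := by
  induction P using UniqueFactorizationMonoid.induction_on_prime with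
  | h₁ => exact absurd rfl hP
  | h₂ u hu =>
    obtain ⟨v, hv⟩ := hu.exists_right_inv
    have hv0 : v ≠ 0 := by
      rintro rfl
      rw [mul_zero] at hv
      exact zero_ne_one hv
    have h1 := MvPolynomial.degreeOf_mul_eq (n := j) hP hv0
    rw [hv, MvPolynomial.degreeOf_one] at h1
    omega
  | h₃ a p ha hp ih =>
    rw [MvPolynomial.degreeOf_mul_eq hp.ne_zero ha, h p hp (dvd_mul_right p a),
      ih ha fun φ hφ hd => h φ hφ (hd.mul_left p)]

/-- The coefficients of the polynomial with rescaled variables. -/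
theorem coeff_scale {W : Type} [Fintype W] (c : W → ℚ) (P : MvPolynomial W ℚ) (m : W →₀ ℕ) :
    MvPolynomial.coeff m (MvPolynomial.aeval (fun w => MvPolynomial.C (c w) * MvPolynomial.X w :
      W → MvPolynomial W ℚ) P) = (∏ w, c w ^ m w) * MvPolynomial.coeff m P := by
  classical
  induction P using MvPolynomial.induction_on' with
  | monomial u a =>
    have h1 : MvPolynomial.aeval (fun w => MvPolynomial.C (c w) * MvPolynomial.X w :
        W → MvPolynomial W ℚ) (MvPolynomial.monomial u a) =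
        MvPolynomial.monomial u ((∏ w, c w ^ u w) * a) := by
      rw [MvPolynomial.aeval_monomial, Finsupp.prod_fintype _ _ (fun _ => pow_zero _)]
      simp only [mul_pow]
      rw [prod_mul_distrib]
      have h2 : ∏ w, (MvPolynomial.X w : MvPolynomial W ℚ) ^ u w = MvPolynomial.monomial u 1 := by
        rw [MvPolynomial.monomial_eq, MvPolynomial.C_1, one_mul,
          Finsupp.prod_fintype _ _ (fun _ => pow_zero _)]
      rw [h2]
      have h3 : ∏ w, (MvPolynomial.C (c w) : MvPolynomial W ℚ) ^ u w =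
          MvPolynomial.C (∏ w, c w ^ u w) := by
        rw [map_prod]
        exact prod_congr rfl fun w _ => (map_pow _ _ _).symm
      rw [h3, MvPolynomial.algebraMap_eq, ← mul_assoc, ← map_mul, MvPolynomial.C_mul_monomial,
        mul_one, mul_comm]
    rw [h1, MvPolynomial.coeff_monomial, MvPolynomial.coeff_monomial]
    by_cases h : u = m
    · rw [if_pos h, if_pos h, h]
    · rw [if_neg h, if_neg h, mul_zero]
  | add p q hp hq =>
    rw [map_add, MvPolynomial.coeff_add, MvPolynomial.coeff_add, hp, hq, mul_add]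

end Slope63

open Slope63 in
/-- Row StSlope from the rows StJac, StMod, StKer. -/
theorem stSlope63 {k : ℕ} {r : Fin k → ℕ} {W : Type} [Fintype W] (ρ : FRep r W)
    (hJac : StJac ρ) (hMod : StMod ρ) (hKer : StKer) : StSlope ρ := by
  classical
  intro y s hcrit A hA hind hrat i v Φ hΦ m hm
  obtain ⟨J, hJ0, hJv, hJd⟩ := hJac y s hcrit A hA hind hrat
  obtain ⟨hΦ0, hΦe, hΦu⟩ := hΦ
  have hmono := hcrit.1
  have hcard : (stepsT y 1).card = (Blk ρ y (s + 1)).card := (hcrit.2.2 1 one_pos).symm
  set P0 := MvPolynomial.aeval A (Φ Subtype.val) with hP0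
  have hinj : Function.Injective (MvPolynomial.aeval A : MvPolynomial W ℚ →ₐ[ℚ] RR ρ y s) := hind
  have hP00 : P0 ≠ 0 := by
    intro h0
    exact hΦ0 (hinj (by rw [← hP0, h0, map_zero]))
  -- the prime factors of `P0` divide `J`
  have hprime : ∀ φ : RR ρ y s, Prime φ → φ ∣ P0 → φ ∣ J := by
    intro φ hφ hd
    by_contra hnd
    have hI : (Ideal.span {φ}).IsPrime := (Ideal.span_singleton_prime hφ.ne_zero).2 hφ
    let L := FractionRing (RR ρ y s ⧸ Ideal.span {φ})
    let h : RR ρ y s →ₐ[ℚ] L := (IsScalarTower.toAlgHom ℚ (RR ρ y s ⧸ Ideal.span {φ}) L).comp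
      (Ideal.Quotient.mkₐ ℚ (Ideal.span {φ}))
    have hh : ∀ F, h F = algebraMap (RR ρ y s ⧸ Ideal.span {φ}) L (Ideal.Quotient.mk _ F) :=
      fun F => rfl
    have hker : ∀ F, h F = 0 ↔ φ ∣ F := by
      intro F
      rw [hh, ← Ideal.mem_span_singleton, ← Ideal.Quotient.eq_zero_iff_mem]
      constructor
      · intro h0
        exact (IsFractionRing.injective (RR ρ y s ⧸ Ideal.span {φ}) L) (by rw [h0, map_zero])
      · intro h0
        rw [h0, map_zero]
    have hfrac : ∀ x : L, ∃ F G, h G ≠ 0 ∧ x * h G = h F := by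
      intro x
      obtain ⟨⟨f, g⟩, hfg⟩ := IsLocalization.surj (nonZeroDivisors (RR ρ y s ⧸ Ideal.span {φ})) x
      obtain ⟨F, hF⟩ := Ideal.Quotient.mk_surjective f
      obtain ⟨G, hG⟩ := Ideal.Quotient.mk_surjective (g : RR ρ y s ⧸ Ideal.span {φ})
      refine ⟨F, G, ?_, ?_⟩
      · rw [hh, hG]
        exact IsFractionRing.to_map_ne_zero_of_mem_nonZeroDivisors g.2
      · rw [hh, hh, hF, hG]
        exact hfg
    have hess : Algebra.EssFiniteType ℚ L := by
      have h1 : Algebra.EssFiniteType (RR ρ y s ⧸ Ideal.span {φ}) L :=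
        Algebra.EssFiniteType.of_isLocalization _ (nonZeroDivisors _)
      exact Algebra.EssFiniteType.comp ℚ (RR ρ y s ⧸ Ideal.span {φ}) _
    obtain ⟨w1, hw1⟩ := hMod y s hcard A hA φ hφ L h hker hfrac
      (hJd L h fun h0 => hnd ((hker J).1 h0))
    obtain ⟨Ψ, hΨ, hΨd⟩ := hKer W L (fun w => h (A w)) w1 hw1
    refine hΨ (hΦu Ψ fun e => hΨd _ ?_)
    have h1 : MvPolynomial.aeval (fun w => h (A w)) (Φ e) = h (MvPolynomial.aeval A (Φ e)) := by
      have h2 := DFunLike.congr_fun (MvPolynomial.comp_aeval A h) (Φ e)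
      rw [AlgHom.comp_apply] at h2
      exact h2.symm
    rw [h1, hΦe e, hker]
    exact hd.mul_left _
  have hvars : ∀ j ∈ P0.vars, ∃ w, j = Sum.inr w ∧ pairN ρ y w.1 = s := by
    intro j hj
    refine hJv j ?_
    by_contra hnj
    rw [MvPolynomial.mem_vars_iff_degreeOf_ne_zero] at hj
    apply hj
    refine degreeOf_zero j hP00 fun φ hφ hd => ?_
    obtain ⟨G, hG⟩ := hprime φ hφ hd
    have hG0 : G ≠ 0 := by
      rintro rfl
      rw [mul_zero] at hG
      exact hJ0 hG
    have h1 : J.degreeOf j = 0 := by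
      by_contra h2
      exact hnj (MvPolynomial.mem_vars_iff_degreeOf_ne_zero.2 h2)
    rw [hG, MvPolynomial.degreeOf_mul_eq hφ.ne_zero hG0] at h1
    omega
  -- the torus
  set Z := Blk ρ y (s + 1) with hZ
  set S := stepsT y 1 with hS
  set c : W → ℚ := fun w => 2 ^ pairN ρ y w * (2 ^ s)⁻¹ with hc
  set τ : RR ρ y s →ₐ[ℚ] RR ρ y s := MvPolynomial.aeval (Sum.elim
    (fun x => MvPolynomial.C ((2 ^ y x.1.1 x.1.2.1)⁻¹ * 2 ^ y x.1.1 x.1.2.2) *
      MvPolynomial.X (Sum.inl x))
    fun w => MvPolynomial.C (c w.1) * MvPolynomial.X (Sum.inr w)) with hτ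
  set D : Grp (RR ρ y s) r := fun i => Matrix.diagonal fun a => MvPolynomial.C (2 ^ y i a)
    with hD
  set D' : Grp (RR ρ y s) r := fun i => Matrix.diagonal fun a => MvPolynomial.C (2 ^ y i a)⁻¹
    with hD'
  have hg1 : ∀ i a, genV Z S i a a = 1 := by
    intro i a
    simp [genV]
  have hSmem : ∀ i a b, (⟨i, a, b⟩ : Σ i, Fin (r i) × Fin (r i)) ∈ S ↔ y i a < y i b := by
    intro i a b
    rw [hS, stepsT, mem_sigma, mem_filter]
    simp only [mem_univ, true_and]
    omega
  have hmap : (fun i => (genV Z S i).map τ.toRingHom) = D' * genV Z S * D := by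
    funext i
    refine Matrix.ext fun a b => ?_
    change τ (genV Z S i a b) = (D' i * genV Z S i * D i) a b
    rw [hD, hD', Matrix.mul_diagonal, Matrix.diagonal_mul]
    by_cases hab : a = b
    · subst hab
      rw [hg1, map_one, mul_one, ← map_mul, inv_mul_cancel₀ (by positivity), map_one]
    · by_cases hm : (⟨i, a, b⟩ : Σ i, Fin (r i) × Fin (r i)) ∈ S
      · have h1 : genV Z S i a b = MvPolynomial.X (Sum.inl ⟨⟨i, a, b⟩, hm⟩) := by
          rw [genV, if_neg hab, dif_pos hm]
        rw [h1, hτ, MvPolynomial.aeval_X]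
        change MvPolynomial.C ((2 ^ y i a)⁻¹ * 2 ^ y i b) * _ = _
        rw [map_mul]
        ring
      · have h1 : genV Z S i a b = 0 := by
          rw [genV, if_neg hab, dif_neg hm]
        rw [h1, map_zero, mul_zero, zero_mul]
  have hB : (fun w => τ.toRingHom (genB Z S w)) = fun w => MvPolynomial.C (c w) * genB Z S w := by
    funext w
    change τ (genB Z S w) = _
    by_cases hw : w ∈ Z
    · have h1 : genB Z S w = 0 := by
        rw [genB, dif_pos hw]
      rw [h1, map_zero, mul_zero]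
    · have h1 : genB Z S w = MvPolynomial.X (Sum.inr ⟨w, hw⟩) := by
        rw [genB, dif_neg hw]
      rw [h1, hτ, MvPolynomial.aeval_X]
      rfl
  have hA' : ρ.pull (RR ρ y s) (genV Z S) A = genB Z S := hA
  have hdet : ∀ i, (genV Z S i).det = 1 := by
    intro i
    refine det_upper (hg1 i) fun a b hab => ?_
    have hm : (⟨i, a, b⟩ : Σ i, Fin (r i) × Fin (r i)) ∉ S := by
      rw [hSmem]
      exact not_lt.2 (hmono i hab.le)
    rw [genV, if_neg hab.ne', dif_neg hm]
  have hdiag : ∀ (f : ℚ) (w : W), (∏ i, ∏ a, (MvPolynomial.C (f ^ y i a) : RR ρ y s) ^ ρ.wt w i a) =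
      MvPolynomial.C (f ^ pairN ρ y w) := by
    intro f w
    rw [pairN, ← prod_pow_eq_pow_sum, map_prod]
    refine prod_congr rfl fun i _ => ?_
    rw [← prod_pow_eq_pow_sum, map_prod]
    refine prod_congr rfl fun a _ => ?_
    rw [← map_pow, pow_mul]
  have hτA : ∀ w, τ (A w) = MvPolynomial.C (c w) * A w := by
    have h1 := ρ.pull_map (RR ρ y s) (RR ρ y s) τ.toRingHom (genV Z S) A
    rw [hA', hB, hmap] at h1
    have h2 : ρ.pull (RR ρ y s) (D' * genV Z S * D) (fun w => MvPolynomial.C (c w) * A w) =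
        fun w => MvPolynomial.C (c w) * genB Z S w := by
      rw [← ρ.pull_mul, ← ρ.pull_mul]
      have h3 : ρ.pull (RR ρ y s) D' (fun w => MvPolynomial.C (c w) * A w) =
          (MvPolynomial.C (2 ^ s)⁻¹ : RR ρ y s) • A := by
        funext w
        have h4 := ρ.pull_diag (RR ρ y s) (fun i a => MvPolynomial.C (2 ^ y i a)⁻¹)
          (fun w => MvPolynomial.C (c w) * A w) w
        have h5 : ∀ i a, (MvPolynomial.C (2 ^ y i a)⁻¹ : RR ρ y s) =
            MvPolynomial.C ((2:ℚ)⁻¹ ^ y i a) := by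
          intro i a
          rw [inv_pow]
        rw [hD', h4]
        simp only [h5]
        rw [hdiag, ← mul_assoc, ← map_mul, Pi.smul_apply, smul_eq_mul]
        congr 2
        rw [hc]
        simp only
        rw [inv_pow, ← mul_assoc, inv_mul_cancel₀ (by positivity), one_mul]
      rw [h3, ρ.pull_smul, hA']
      funext w
      rw [hD, ρ.pull_diag, hdiag, Pi.smul_apply, smul_eq_mul, ← mul_assoc, ← map_mul]
    have h6 : (fun w => τ.toRingHom (A w)) = fun w => MvPolynomial.C (c w) * A w := by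
      refine pull_inj ρ (g := D' * genV Z S * D) ?_ (by rw [h1, h2])
      intro i
      rw [← hmap]
      have h7 : ((genV Z S i).map τ.toRingHom).det = 1 := by
        have h8 := RingHom.map_det τ.toRingHom (genV Z S i)
        rw [hdet i, map_one] at h8
        exact h8.symm
      rw [h7]
      exact isUnit_one
    intro w
    exact congrFun h6 w
  have hτP : τ P0 = P0 := by
    have h1 : τ.toRingHom P0 = RingHom.id (RR ρ y s) P0 := by
      refine MvPolynomial.hom_congr_vars ?_ ?_ rfl
      · exact Subsingleton.elim _ _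
      · intro j hj _
        obtain ⟨w, rfl, hw⟩ := hvars j hj
        change τ (MvPolynomial.X (Sum.inr w)) = MvPolynomial.X (Sum.inr w)
        rw [hτ, MvPolynomial.aeval_X]
        change MvPolynomial.C (c w.1) * MvPolynomial.X (Sum.inr w) = _
        have h2 : c w.1 = 1 := by
          rw [hc]
          simp only
          rw [hw, mul_inv_cancel₀ (by positivity)]
        rw [h2, map_one, one_mul]
    exact h1
  have hΦeq : MvPolynomial.aeval (fun w => MvPolynomial.C (c w) * MvPolynomial.X w :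
      W → MvPolynomial W ℚ) (Φ Subtype.val) = Φ Subtype.val := by
    apply hinj
    have h1 : MvPolynomial.aeval A (MvPolynomial.aeval (fun w => MvPolynomial.C (c w) *
        MvPolynomial.X w : W → MvPolynomial W ℚ) (Φ Subtype.val)) =
        τ (MvPolynomial.aeval A (Φ Subtype.val)) := by
      have h2 : (MvPolynomial.aeval A : MvPolynomial W ℚ →ₐ[ℚ] RR ρ y s).comp
          (MvPolynomial.aeval (fun w => MvPolynomial.C (c w) *
            MvPolynomial.X w : W → MvPolynomial W ℚ)) = τ.comp (MvPolynomial.aeval A) := by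
        apply MvPolynomial.algHom_ext
        intro w
        rw [AlgHom.comp_apply, AlgHom.comp_apply, MvPolynomial.aeval_X, MvPolynomial.aeval_X,
          hτA, map_mul, MvPolynomial.aeval_X, MvPolynomial.aeval_C, MvPolynomial.algebraMap_eq]
      exact DFunLike.congr_fun h2 _
    rw [h1, ← hP0]
    exact hτP
  have h1 := coeff_scale c (Φ Subtype.val) m
  rw [hΦeq] at h1
  have h2 : MvPolynomial.coeff m (Φ Subtype.val) ≠ 0 := MvPolynomial.mem_support_iff.1 hm
  have h3 : ∏ w, c w ^ m w = 1 := by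
    refine mul_right_cancel₀ h2 ?_
    rw [← h1, one_mul]
  have h4 : ∏ w, c w ^ m w = 2 ^ (∑ w, m w * pairN ρ y w) * (2 ^ (s * ∑ w, m w))⁻¹ := by
    rw [hc]
    simp only [mul_pow]
    rw [prod_mul_distrib]
    congr 1
    · rw [← prod_pow_eq_pow_sum]
      exact prod_congr rfl fun w _ => by rw [← pow_mul, mul_comm]
    · rw [prod_pow_eq_pow_sum, inv_pow, ← pow_mul]
  rw [h4, mul_inv_eq_one₀ (by positivity)] at h3
  exact pow_right_injective₀ (by norm_num) (by norm_num) h3

end Pool.Agent.Lib.MP_1acd66_nt.AR
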