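import Pool.Agent.Lib.MP_1acd66_nt.AR.RowPW
import Pool.Agent.Lib.MP_1acd66_nt.AR.Slope63

/-!
A monomial of a semi-invariant polynomial.
-/

namespace Pool.Agent.Lib.MP_1acd66_nt.AR

open Finset Pool.Agent.Lib.MP_1acd66_nt.Gen J63

variable {k : ℕ} {r : Fin k → ℕ} {W : Type} [Fintype W]

namespace S37

open PW

theorem aeval_eval (x : W → ℚ) (P : MvPolynomial W ℚ) :
    MvPolynomial.aeval x P = MvPolynomial.eval x P :=
  DFunLike.congr_fun (MvPolynomial.coe_aeval_eq_eval x) P

theorem eval_psub (ρ : FRep r W) (g : Grp ℚ r) (x : W → ℚ) (P : MvPolynomial W ℚ) :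
    MvPolynomial.eval x (psub ρ g P) = MvPolynomial.aeval (ρ.pull ℚ g x) P := by
  have h1 := ρ.pull_map (MvPolynomial W ℚ) ℚ (MvPolynomial.eval x)
    (fun i => (g i).map (algebraMap ℚ (MvPolynomial W ℚ))) MvPolynomial.X
  have h2 : (fun i => ((g i).map (algebraMap ℚ (MvPolynomial W ℚ))).map (MvPolynomial.eval x) :
      Grp ℚ r) = g := by
    funext i
    ext1 a b
    exact MvPolynomial.eval_C _
  have h3 : (fun w => MvPolynomial.eval x (MvPolynomial.X w)) = x := by
    funext w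
    exact MvPolynomial.eval_X _
  rw [h2, h3] at h1
  have h4 : ((MvPolynomial.aeval x : MvPolynomial W ℚ →ₐ[ℚ] ℚ).comp (psub ρ g)) =
      MvPolynomial.aeval (ρ.pull ℚ g x) := by
    refine MvPolynomial.algHom_ext fun w => ?_
    rw [MvPolynomial.aeval_X, AlgHom.comp_apply, psub_X, congrFun h1 w, aeval_eval]
  rw [← h4, AlgHom.comp_apply, aeval_eval]

/-- the substitution multiplies the semi-invariant by a constant -/
theorem psub_semi (ρ : FRep r W) (g : Grp ℚ r) (hg : ∀ i, (g i).det ≠ 0) {P : MvPolynomial W ℚ}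
    (hP : SemiInv ρ P) : ∃ c : ℚ, c ≠ 0 ∧ psub ρ g P = MvPolynomial.C c * P := by
  obtain ⟨c, hc, h⟩ := hP ℚ g hg
  refine ⟨c, hc, MvPolynomial.funext fun x => ?_⟩
  rw [eval_psub, h, map_mul, MvPolynomial.eval_C, aeval_eval]

/-- the coefficients of the scaled polynomial -/
theorem coeff_scl (ρ : FRep r W) (i0 : Fin k) (a0 : Fin (r i0)) (P : MvPolynomial W ℚ)
    (m : W →₀ ℕ) : MvPolynomial.coeff m (psub ρ (scl i0 a0) P) =
      2 ^ (∑ w, m w * ρ.wt w i0 a0) * MvPolynomial.coeff m P := by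
  have h1 : psub ρ (scl i0 a0) = MvPolynomial.aeval fun w =>
      MvPolynomial.C (2 ^ ρ.wt w i0 a0) * MvPolynomial.X w := by
    refine MvPolynomial.algHom_ext fun w => ?_
    rw [psub_scl_X, MvPolynomial.aeval_X]
  rw [h1, Slope63.coeff_scale, ← Finset.prod_pow_eq_pow_sum]
  congr 1
  refine prod_congr rfl fun w _ => ?_
  rw [← pow_mul, mul_comm]

theorem det_scl (i0 : Fin k) (a0 : Fin (r i0)) (i : Fin k) : ((scl i0 a0 : Grp ℚ r) i).det ≠ 0 := by
  rw [scl, Matrix.det_diagonal]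
  refine Finset.prod_ne_zero_iff.2 fun a _ => ?_
  split_ifs
  · exact two_ne_zero
  · exact one_ne_zero

end S37

open PW S37 in
/-- Row T7. -/
theorem stSemi37 (ρ : FRep r W) : StSemi ρ := by
  classical
  intro y s A hy hA hind hdeg hk P hP hP0 hPc
  -- the weights are constant
  have hw : ∀ i a, ∃ n : ℕ, ∀ m ∈ P.support, ∑ w, m w * ρ.wt w i a = n := by
    intro i a
    obtain ⟨c, hc, h⟩ := psub_semi ρ (scl i a) (det_scl i a) hP
    obtain ⟨m0, hm0⟩ := MvPolynomial.support_nonempty.2 hP0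
    have key : ∀ m ∈ P.support, (2 : ℚ) ^ (∑ w, m w * ρ.wt w i a) = c := by
      intro m hm
      have h1 := coeff_scl ρ i a P m
      rw [h, MvPolynomial.coeff_C_mul] at h1
      exact (mul_right_cancel₀ (MvPolynomial.mem_support_iff.1 hm) h1).symm
    refine ⟨∑ w, m0 w * ρ.wt w i a, fun m hm => ?_⟩
    exact pow_right_injective₀ (zero_lt_two : (0 : ℚ) < 2) (by norm_num)
      ((key m hm).trans (key m0 hm0).symm)
  choose n hn using hw
  have hnc : ∀ i a b, n i a = n i b := by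
    intro i' a b
    set σ : ∀ i, Equiv.Perm (Fin (r i)) := Function.update (fun _ => 1) i' (Equiv.swap a b) with hσ
    have hσ' : ∀ j x, (σ j).symm ((σ j).symm x) = x := by
      intro j x
      rw [hσ]
      by_cases hj : j = i'
      · subst hj
        rw [Function.update_self, Equiv.symm_swap, Equiv.swap_apply_self]
      · rw [Function.update_of_ne hj]
        rfl
    have hσab : (σ i').symm a = b := by
      rw [hσ, Function.update_self, Equiv.symm_swap, Equiv.swap_apply_left]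
    have hPd : ∀ j, ((perm ℚ σ 1 : Grp ℚ r) j).det ≠ 0 := by
      intro j h0
      have h1 : perm ℚ σ 1 j * perm ℚ σ 1 j = 1 := by
        ext1 x z
        rw [perm_mul]
        change (1 : Matrix (Fin (r j)) (Fin (r j)) ℚ) ((σ j).symm ((σ j).symm x)) z = _
        rw [hσ']
      have h2 := congrArg Matrix.det h1
      rw [Matrix.det_mul, h0, zero_mul, Matrix.det_one] at h2
      exact zero_ne_one h2
    obtain ⟨c, hc, h⟩ := psub_semi ρ (perm ℚ σ 1) hPd hP
    have hiff : ∀ j x, ((⟨j, (σ j).symm x⟩ : Σ i, Fin (r i)) = ⟨i', b⟩) ↔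
        (⟨j, x⟩ : Σ i, Fin (r i)) = ⟨i', a⟩ := by
      intro j x
      let f : (Σ i, Fin (r i)) → Σ i, Fin (r i) := fun z => ⟨z.1, (σ z.1).symm z.2⟩
      have hf : Function.Injective f := by
        intro z z' hz
        have h1 : ∀ z, f (f z) = z := fun z => Sigma.ext rfl (heq_of_eq (hσ' z.1 z.2))
        rw [← h1 z, hz, h1]
      have h1 : f ⟨i', a⟩ = ⟨i', b⟩ := Sigma.ext rfl (heq_of_eq hσab)
      rw [← h1]
      exact (hf.eq_iff : f ⟨j, x⟩ = f ⟨i', a⟩ ↔ _)
    have hcomm : (scl i' a : Grp ℚ r) * perm ℚ σ 1 = perm ℚ σ 1 * scl i' b := by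
      funext j
      ext1 x z
      change (Matrix.diagonal (fun x => if (⟨j, x⟩ : Σ i, Fin (r i)) = ⟨i', a⟩ then (2 : ℚ) else 1) *
        perm ℚ σ 1 j) x z = (perm ℚ σ 1 j * Matrix.diagonal
          (fun x => if (⟨j, x⟩ : Σ i, Fin (r i)) = ⟨i', b⟩ then (2 : ℚ) else 1)) x z
      rw [Matrix.diagonal_mul, Matrix.mul_diagonal]
      change _ * (1 : Matrix (Fin (r j)) (Fin (r j)) ℚ) ((σ j).symm x) z =
        (1 : Matrix (Fin (r j)) (Fin (r j)) ℚ) ((σ j).symm x) z * _
      by_cases h : (σ j).symm x = z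
      · rw [← h, Matrix.one_apply_eq, one_mul, mul_one]
        by_cases h1 : (⟨j, x⟩ : Σ i, Fin (r i)) = ⟨i', a⟩
        · rw [if_pos h1, if_pos ((hiff j x).2 h1)]
        · rw [if_neg h1, if_neg fun h2 => h1 ((hiff j x).1 h2)]
      · rw [Matrix.one_apply_ne h, mul_zero, zero_mul]
    have s1 := psub_scl ρ i' b (n i' b) P (hn i' b)
    have s2 := psub_scl ρ i' a (n i' a) P (hn i' a)
    have s3 : psub ρ (scl i' a) (psub ρ (perm ℚ σ 1) P) =
        psub ρ (perm ℚ σ 1) (psub ρ (scl i' b) P) := by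
      rw [psub_sub, psub_sub, hcomm]
    have hC : ∀ (g : Grp ℚ r) (c : ℚ), psub ρ g (MvPolynomial.C c) = MvPolynomial.C c :=
      fun g c => (psub ρ g).commutes c
    rw [h, map_mul, s1, map_mul, h, s2, hC, hC] at s3
    have hcP : MvPolynomial.C c * P ≠ 0 :=
      mul_ne_zero (fun h => hc (MvPolynomial.C_eq_zero.1 h)) hP0
    have s4 : MvPolynomial.C (2 ^ n i' a) * (MvPolynomial.C c * P) =
        MvPolynomial.C (2 ^ n i' b) * (MvPolynomial.C c * P) := by
      rw [← s3]
      ring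
    have s6 := MvPolynomial.C_injective _ _ (mul_right_cancel₀ hcP s4)
    exact pow_right_injective₀ (zero_lt_two : (0 : ℚ) < 2) (by norm_num) s6
  -- the value at the generic vector with zeros
  obtain ⟨m, hm, hmB⟩ : ∃ m ∈ P.support, ∀ w ∈ Blk ρ y (s + 1), m w = 0 := by
    set L : Type := FractionRing (RR ρ y s) with hL
    set ι : RR ρ y s →+* L := algebraMap (RR ρ y s) L with hι
    have hinj : Function.Injective ι := IsFractionRing.injective (RR ρ y s) L
    have hev : ∀ (A : W → RR ρ y s) (P : MvPolynomial W ℚ),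
        MvPolynomial.aeval (fun w => ι (A w)) P = ι (MvPolynomial.aeval A P) := by
      intro A P
      exact (DFunLike.congr_fun (MvPolynomial.comp_aeval A
        (IsScalarTower.toAlgHom ℚ (RR ρ y s) L)) P).symm
    obtain ⟨c, hc, h⟩ := hP L (fun i => (genV (Blk ρ y (s + 1)) (stepsT y 1) i).map ι)
      (fun i => by
        rw [T1.uni_det (hy i) (T1.genV_uni ρ y s ι i)]
        exact one_ne_zero)
    have h1 := h fun w => ι (A w)
    rw [ρ.pull_map (RR ρ y s) L ι (genV (Blk ρ y (s + 1)) (stepsT y 1)) A, hA, hev, hev] at h1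
    have h2 : MvPolynomial.aeval (genB (Blk ρ y (s + 1)) (stepsT y 1) : W → RR ρ y s) P ≠ 0 := by
      intro h0
      rw [h0, map_zero] at h1
      have h3 : ι (MvPolynomial.aeval A P) ≠ 0 := by
        rw [← map_zero ι]
        intro h4
        exact hP0 (hind ((hinj h4).trans (map_zero _).symm))
      exact mul_ne_zero hc h3 h1.symm
    rw [MvPolynomial.aeval_def, MvPolynomial.eval₂_eq'] at h2
    obtain ⟨m, hm, hne⟩ := exists_ne_zero_of_sum_ne_zero h2
    refine ⟨m, hm, fun w hw => ?_⟩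
    by_contra h0
    apply hne
    rw [Finset.prod_eq_zero (mem_univ w), mul_zero]
    rw [T1.genB_zero ρ y s hw]
    exact zero_pow h0
  have hr : ∀ i : Fin k, 0 < r i := by
    intro i
    by_contra h0
    obtain ⟨w, _⟩ : ∃ w : W, True := by
      by_contra hcon
      push Not at hcon
      have : IsEmpty W := ⟨fun w => hcon w⟩
      exact hPc _ (MvPolynomial.eq_C_of_isEmpty P)
    have h1 := ρ.wt_sum w i
    have h2 : IsEmpty (Fin (r i)) := ⟨fun a => h0 (lt_of_le_of_lt (Nat.zero_le _) a.2)⟩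
    rw [univ_eq_empty, sum_empty] at h1
    exact (hdeg i).ne h1
  refine ⟨m, fun i => n i ⟨0, hr i⟩, ?_, fun i a => ?_, fun w hw => ?_⟩
  · by_contra h0
    have hz : ∀ m ∈ P.support, m = 0 := by
      intro m' hm'
      have h1 : ∀ m ∈ P.support, (∑ w, m w) * ρ.deg ⟨0, hk⟩ = ∑ a, n ⟨0, hk⟩ a := by
        intro m hm
        rw [← sum_congr rfl fun a _ => hn ⟨0, hk⟩ a m hm, sum_comm, sum_mul]
        refine sum_congr rfl fun w _ => ?_
        rw [← mul_sum, ρ.wt_sum]
      have h2 : (∑ w, m' w) * ρ.deg ⟨0, hk⟩ = 0 := by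
        rw [h1 m' hm', ← h1 m hm, Nat.eq_zero_of_not_pos h0, zero_mul]
      rcases Nat.mul_eq_zero.1 h2 with h3 | h3
      · ext w
        exact (sum_eq_zero_iff.1 h3) w (mem_univ w)
      · exact absurd h3 (hdeg _).ne'
    apply hPc (MvPolynomial.coeff 0 P)
    ext m'
    rw [MvPolynomial.coeff_C]
    split_ifs with h1
    · rw [← h1]
    · by_contra h2
      exact h1 (hz m' (MvPolynomial.mem_support_iff.2 h2)).symm
  · rw [hn i a m hm]
    exact hnc i a _
  · by_contra h0
    apply hw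
    apply hmB
    rw [Blk, mem_filter]
    exact ⟨mem_univ _, by omega⟩

end Pool.Agent.Lib.MP_1acd66_nt.AR
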