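import Pool.Agent.Lib.MP_1acd66_nt.AR.Defs8
import Pool.Agent.Lib.MP_1acd66_nt.AR.Semi37

/-!
Rational semi-invariance implies semi-invariance over all fields.
-/

namespace Pool.Agent.Lib.MP_1acd66_nt.AR

open Finset Pool.Agent.Lib.MP_1acd66_nt.Gen PW

variable {k : ℕ} {r : Fin k → ℕ} {W : Type} [Fintype W]

theorem stExt37 (ρ : FRep r W) : StExt ρ := by
  classical
  intro P hP hQ
  let U := MvPolynomial ((Σ i, Fin (r i) × Fin (r i)) ⊕ (W ⊕ W)) ℚ
  let gU : Grp U r := fun i a b => MvPolynomial.X (Sum.inl ⟨i, a, b⟩)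
  let AU : W → U := fun w => MvPolynomial.X (Sum.inr (Sum.inl w))
  let BU : W → U := fun w => MvPolynomial.X (Sum.inr (Sum.inr w))
  let H : U := MvPolynomial.aeval (ρ.pull U gU AU) P * MvPolynomial.aeval BU P -
    MvPolynomial.aeval (ρ.pull U gU BU) P * MvPolynomial.aeval AU P
  let D : U := ∏ i, (gU i).det
  -- specialisation
  have spec : ∀ (K : Type) [Field K] [Algebra ℚ K] (g : Grp K r) (A B : W → K),
      ∃ f : U →ₐ[ℚ] K,
        f = MvPolynomial.aeval (Sum.elim (fun x => g x.1 x.2.1 x.2.2) (Sum.elim A B)) ∧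
        f H = MvPolynomial.aeval (ρ.pull K g A) P * MvPolynomial.aeval B P -
        MvPolynomial.aeval (ρ.pull K g B) P * MvPolynomial.aeval A P ∧
        f D = ∏ i, (g i).det := by
    intro K _ _ g A B
    let f : U →ₐ[ℚ] K := MvPolynomial.aeval (Sum.elim (fun x => g x.1 x.2.1 x.2.2) (Sum.elim A B))
    have hg : (fun i => (gU i).map f : Grp K r) = g := by
      funext i
      ext1 a b
      exact MvPolynomial.aeval_X _ _
    have hA : (fun w => f (AU w)) = A := by
      funext w
      exact MvPolynomial.aeval_X _ _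
    have hB : (fun w => f (BU w)) = B := by
      funext w
      exact MvPolynomial.aeval_X _ _
    have hpull : ∀ C : W → U, (fun w => f (ρ.pull U gU C w)) = ρ.pull K g fun w => f (C w) := by
      intro C
      have h1 := ρ.pull_map U K f.toRingHom gU C
      have h2 : (fun i => (gU i).map f.toRingHom : Grp K r) = g := hg
      rw [h2] at h1
      exact h1.symm
    have hev : ∀ C : W → U, f (MvPolynomial.aeval C P) =
        MvPolynomial.aeval (fun w => f (C w)) P := fun C =>
      DFunLike.congr_fun (MvPolynomial.comp_aeval C f) P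
    refine ⟨f, rfl, ?_, ?_⟩
    · change f (_ * _ - _ * _) = _
      rw [map_sub, map_mul, map_mul, hev, hev, hev, hev, hpull, hpull, hA, hB]
    · change f (∏ i, (gU i).det) = _
      rw [map_prod]
      refine prod_congr rfl fun i _ => ?_
      rw [AlgHom.map_det]
      congr 1
      exact congrFun hg i
  have hHD : H * D = 0 := by
    refine MvPolynomial.funext fun x => ?_
    rw [map_zero, map_mul]
    obtain ⟨f, h0, h1, h2⟩ := spec ℚ (fun i a b => x (Sum.inl ⟨i, a, b⟩))
      (fun w => x (Sum.inr (Sum.inl w))) (fun w => x (Sum.inr (Sum.inr w)))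
    have hx : (Sum.elim (fun z : Σ i, Fin (r i) × Fin (r i) => x (Sum.inl ⟨z.1, z.2.1, z.2.2⟩))
        (Sum.elim (fun w => x (Sum.inr (Sum.inl w))) fun w => x (Sum.inr (Sum.inr w)))) = x := by
      funext j
      obtain z | w | w := j <;> rfl
    have hfe : ∀ F : U, MvPolynomial.eval x F = f F := by
      intro F
      rw [h0]
      change _ = MvPolynomial.aeval (Sum.elim
        (fun z : Σ i, Fin (r i) × Fin (r i) => x (Sum.inl ⟨z.1, z.2.1, z.2.2⟩))
        (Sum.elim (fun w => x (Sum.inr (Sum.inl w))) fun w => x (Sum.inr (Sum.inr w)))) F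
      rw [hx]
      exact (DFunLike.congr_fun (MvPolynomial.coe_aeval_eq_eval x) F).symm
    rw [hfe, hfe, h1, h2]
    by_cases hd : ∀ i, Matrix.det (fun a b => x (Sum.inl ⟨i, a, b⟩) :
        Matrix (Fin (r i)) (Fin (r i)) ℚ) ≠ 0
    · obtain ⟨c, -, hc⟩ := hQ (fun i a b => x (Sum.inl ⟨i, a, b⟩)) hd
      have h3 : ∀ A : W → ℚ, MvPolynomial.aeval (ρ.pull ℚ (fun i a b => x (Sum.inl ⟨i, a, b⟩)) A) P =
          c * MvPolynomial.eval A P := by
        intro A
        rw [← S37.eval_psub, hc, map_mul, MvPolynomial.eval_C]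
      rw [h3, h3, S37.aeval_eval, S37.aeval_eval]
      ring
    · push Not at hd
      obtain ⟨i, hi⟩ := hd
      rw [prod_eq_zero (mem_univ i) hi, mul_zero]
  have hD : D ≠ 0 := by
    intro h0
    obtain ⟨f, -, -, h2⟩ := spec ℚ 1 0 0
    rw [h0, map_zero] at h2
    have h3 : ∏ i, ((1 : Grp ℚ r) i).det = 1 :=
      prod_eq_one fun i _ => Matrix.det_one
    rw [h3] at h2
    exact zero_ne_one h2
  have hH : H = 0 := (mul_eq_zero.1 hHD).resolve_right hD
  obtain ⟨B0, hB0⟩ : ∃ B0 : W → ℚ, MvPolynomial.eval B0 P ≠ 0 := by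
    by_contra hcon
    push Not at hcon
    exact hP (MvPolynomial.funext fun x => by rw [hcon x, map_zero])
  intro K _ _ g hg
  have hB1 : MvPolynomial.aeval (fun w => algebraMap ℚ K (B0 w)) P ≠ 0 := by
    have h1 := MvPolynomial.aeval_algebraMap_apply K B0 P
    have h2 : MvPolynomial.aeval (fun w => algebraMap ℚ K (B0 w)) P =
        algebraMap ℚ K (MvPolynomial.aeval B0 P) := h1
    rw [h2, S37.aeval_eval]
    intro h0
    exact hB0 ((algebraMap ℚ K).injective (h0.trans (map_zero _).symm))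
  have key : ∀ A : W → K, MvPolynomial.aeval (ρ.pull K g A) P *
      MvPolynomial.aeval (fun w => algebraMap ℚ K (B0 w)) P =
      MvPolynomial.aeval (ρ.pull K g fun w => algebraMap ℚ K (B0 w)) P *
        MvPolynomial.aeval A P := by
    intro A
    obtain ⟨f, -, h1, -⟩ := spec K g A fun w => algebraMap ℚ K (B0 w)
    rw [hH, map_zero] at h1
    exact (sub_eq_zero.1 h1.symm)
  refine ⟨MvPolynomial.aeval (ρ.pull K g fun w => algebraMap ℚ K (B0 w)) P /
    MvPolynomial.aeval (fun w => algebraMap ℚ K (B0 w)) P, div_ne_zero ?_ hB1, fun A => ?_⟩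
  · intro h0
    have h1 := key (ρ.pull K (fun i => (g i)⁻¹) fun w => algebraMap ℚ K (B0 w))
    rw [h0, zero_mul, ρ.pull_mul] at h1
    have h2 : ((fun i => (g i)⁻¹ : Grp K r) * g) = 1 := by
      funext i
      exact Matrix.nonsing_inv_mul _ (isUnit_iff_ne_zero.2 (hg i))
    rw [h2, ρ.pull_one] at h1
    exact mul_ne_zero hB1 hB1 h1
  · rw [div_mul_eq_mul_div, eq_div_iff hB1, key]

end Pool.Agent.Lib.MP_1acd66_nt.AR
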