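import Pool.Agent.Lib.MP_1acd66_nt.AR.Defs8

/-!
A polynomial which is semi-invariant under the rational matrices is semi-invariant.
-/

namespace Pool.Agent.Lib.MP_1acd66_nt.AR

open Finset Pool.Agent.Lib.MP_1acd66_nt.Gen

variable {k : ℕ} {r : Fin k → ℕ} {W : Type} [Fintype W]

namespace E44

/-- the ring of a generic matrix and a generic vector -/
abbrev SE (r : Fin k → ℕ) (W : Type) : Type :=
  MvPolynomial ((Σ i, Fin (r i) × Fin (r i)) ⊕ W) ℚ

/-- the generic matrix -/
noncomputable def gE (r : Fin k → ℕ) (W : Type) : Grp (SE r W) r :=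
  fun i a b => MvPolynomial.X (Sum.inl ⟨i, a, b⟩)

/-- the generic vector -/
noncomputable def aE (r : Fin k → ℕ) (W : Type) : W → SE r W :=
  fun w => MvPolynomial.X (Sum.inr w)

/-- the point with given matrix and vector -/
def ptE {K : Type} (g : Grp K r) (A : W → K) : (Σ i, Fin (r i) × Fin (r i)) ⊕ W → K :=
  Sum.elim (fun x => g x.1 x.2.1 x.2.2) A

omit [Fintype W] in
theorem map_gE {K : Type} [Field K] [Algebra ℚ K] (g : Grp K r) (A : W → K) (i : Fin k) :
    (gE r W i).map (MvPolynomial.aeval (ptE g A) : SE r W →ₐ[ℚ] K).toRingHom = g i := by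
  ext1 a b
  exact MvPolynomial.aeval_X _ _

omit [Fintype W] in
theorem det_gE {K : Type} [Field K] [Algebra ℚ K] (g : Grp K r) (A : W → K) (i : Fin k) :
    MvPolynomial.aeval (ptE g A) (gE r W i).det = (g i).det := by
  have h1 := RingHom.map_det (MvPolynomial.aeval (ptE g A) : SE r W →ₐ[ℚ] K).toRingHom (gE r W i)
  rw [RingHom.mapMatrix_apply, map_gE] at h1
  exact h1

theorem spec {K : Type} [Field K] [Algebra ℚ K] (ρ : FRep r W) (g : Grp K r) (A : W → K)
    (B : W → SE r W) (P : MvPolynomial W ℚ) :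
    MvPolynomial.aeval (ptE g A) (MvPolynomial.aeval (ρ.pull (SE r W) (gE r W) B) P) =
      MvPolynomial.aeval (ρ.pull K g fun w => MvPolynomial.aeval (ptE g A) (B w)) P := by
  have h1 := ρ.pull_map (SE r W) K (MvPolynomial.aeval (ptE g A) : SE r W →ₐ[ℚ] K).toRingHom
    (gE r W) B
  have h2 : (fun i => (gE r W i).map
      (MvPolynomial.aeval (ptE g A) : SE r W →ₐ[ℚ] K).toRingHom : Grp K r) = g := by
    funext i
    exact map_gE g A i
  rw [h2] at h1
  have h3 : ((MvPolynomial.aeval (ptE g A) : SE r W →ₐ[ℚ] K).comp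
      (MvPolynomial.aeval (ρ.pull (SE r W) (gE r W) B))) =
      MvPolynomial.aeval (ρ.pull K g fun w => MvPolynomial.aeval (ptE g A) (B w)) := by
    refine MvPolynomial.algHom_ext fun w => ?_
    rw [AlgHom.comp_apply, MvPolynomial.aeval_X, MvPolynomial.aeval_X]
    exact (congrFun h1 w).symm
  exact DFunLike.congr_fun h3 P

omit [Fintype W] in
theorem aeval_aE {K : Type} [Field K] [Algebra ℚ K] (g : Grp K r) (A : W → K)
    (P : MvPolynomial W ℚ) :
    MvPolynomial.aeval (ptE g A) (MvPolynomial.aeval (aE r W) P) = MvPolynomial.aeval A P := by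
  have h3 : ((MvPolynomial.aeval (ptE g A) : SE r W →ₐ[ℚ] K).comp
      (MvPolynomial.aeval (aE r W))) = MvPolynomial.aeval A := by
    refine MvPolynomial.algHom_ext fun w => ?_
    rw [AlgHom.comp_apply, MvPolynomial.aeval_X, MvPolynomial.aeval_X]
    exact MvPolynomial.aeval_X _ _
  exact DFunLike.congr_fun h3 P

omit [Fintype W] in
theorem aeval_eval (x : W → ℚ) (P : MvPolynomial W ℚ) :
    MvPolynomial.aeval x P = MvPolynomial.eval x P :=
  DFunLike.congr_fun (MvPolynomial.coe_aeval_eq_eval x) P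

theorem semiQ (ρ : FRep r W) {P : MvPolynomial W ℚ} (hP : SemiInvQ ρ P) (g : Grp ℚ r)
    (hg : ∀ i, (g i).det ≠ 0) : ∃ c : ℚ, ∀ x : W → ℚ,
      MvPolynomial.aeval (ρ.pull ℚ g x) P = c * MvPolynomial.aeval x P := by
  obtain ⟨c, -, hc⟩ := hP g hg
  refine ⟨c, fun x => ?_⟩
  have h1 := ρ.pull_map (MvPolynomial W ℚ) ℚ (MvPolynomial.eval x)
    (fun i => (g i).map (algebraMap ℚ (MvPolynomial W ℚ))) MvPolynomial.X
  have h2 : (fun i => ((g i).map (algebraMap ℚ (MvPolynomial W ℚ))).map (MvPolynomial.eval x) :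
      Grp ℚ r) = g := by
    funext i
    ext1 a b
    exact MvPolynomial.eval_C _
  have h3 : (fun w => MvPolynomial.eval x (MvPolynomial.X w)) = x := by
    funext w
    exact MvPolynomial.eval_X _
  rw [h2, h3] at h1
  have h4 : ((MvPolynomial.aeval x : MvPolynomial W ℚ →ₐ[ℚ] ℚ).comp (PW.psub ρ g)) =
      MvPolynomial.aeval (ρ.pull ℚ g x) := by
    refine MvPolynomial.algHom_ext fun w => ?_
    rw [MvPolynomial.aeval_X, AlgHom.comp_apply, PW.psub_X, congrFun h1 w, aeval_eval]
  rw [← h4, AlgHom.comp_apply, hc, map_mul, aeval_eval, MvPolynomial.eval_C]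

end E44

open E44 in
/-- Row D1. -/
theorem stExt (ρ : FRep r W) : StExt ρ := by
  intro P hP0 hP
  obtain ⟨A', hA'⟩ : ∃ A' : W → ℚ, MvPolynomial.aeval A' P ≠ 0 := by
    by_contra h
    push Not at h
    exact hP0 (MvPolynomial.funext fun x => by rw [← aeval_eval, h x, map_zero])
  have hH : MvPolynomial.aeval (ρ.pull (SE r W) (gE r W) (aE r W)) P *
      MvPolynomial.C (MvPolynomial.aeval A' P) =
      MvPolynomial.aeval (ρ.pull (SE r W) (gE r W) fun w => MvPolynomial.C (A' w)) P *
        MvPolynomial.aeval (aE r W) P := by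
    rw [← sub_eq_zero]
    have h1 : (MvPolynomial.aeval (ρ.pull (SE r W) (gE r W) (aE r W)) P *
      MvPolynomial.C (MvPolynomial.aeval A' P) -
      MvPolynomial.aeval (ρ.pull (SE r W) (gE r W) fun w => MvPolynomial.C (A' w)) P *
        MvPolynomial.aeval (aE r W) P) * ∏ i, (gE r W i).det = 0 := by
      refine MvPolynomial.funext fun x => ?_
      obtain ⟨g, A, rfl⟩ : ∃ (g : Grp ℚ r) (A : W → ℚ), x = ptE g A := by
        refine ⟨fun i a b => x (Sum.inl ⟨i, a, b⟩), fun w => x (Sum.inr w), ?_⟩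
        funext z
        rcases z with ⟨i, a, b⟩ | w
        · rfl
        · rfl
      rw [map_zero, ← DFunLike.congr_fun (MvPolynomial.coe_aeval_eq_eval (ptE g A)) _, RingHom.coe_coe,
        map_mul, map_prod]
      by_cases hd : ∀ i, (g i).det ≠ 0
      · obtain ⟨c, hc⟩ := semiQ ρ hP g hd
        have e1 : MvPolynomial.aeval (ptE g A) (MvPolynomial.C (MvPolynomial.aeval A' P) : SE r W) =
            MvPolynomial.aeval A' P := MvPolynomial.aeval_C _ _
        have e2 : (fun w => MvPolynomial.aeval (ptE g A) (aE r W w)) = A := by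
          funext w
          exact MvPolynomial.aeval_X _ _
        have e3 : (fun w => MvPolynomial.aeval (ptE g A) (MvPolynomial.C (A' w) : SE r W)) = A' := by
          funext w
          exact MvPolynomial.aeval_C _ _
        rw [map_sub, map_mul, map_mul, spec, spec, aeval_aE, e1, e2, e3, hc, hc]
        ring
      · push Not at hd
        obtain ⟨i, hi⟩ := hd
        rw [Finset.prod_eq_zero (Finset.mem_univ i) (by rw [det_gE, hi]), mul_zero]
    rcases mul_eq_zero.1 h1 with h | h
    · exact h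
    · exfalso
      obtain ⟨i, -, hi⟩ := Finset.prod_eq_zero_iff.1 h
      have h2 := det_gE (1 : Grp ℚ r) (fun _ : W => (0 : ℚ)) i
      rw [hi, map_zero] at h2
      have h3 : ((1 : Grp ℚ r) i).det = 1 := Matrix.det_one
      rw [h3] at h2
      exact zero_ne_one h2
  intro K _ _ g hg
  have key : ∀ A : W → K, MvPolynomial.aeval (ρ.pull K g A) P *
      algebraMap ℚ K (MvPolynomial.aeval A' P) =
      MvPolynomial.aeval (ρ.pull K g fun w => algebraMap ℚ K (A' w)) P *
        MvPolynomial.aeval A P := by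
    intro A
    have h1 := congrArg (MvPolynomial.aeval (ptE g A) : SE r W →ₐ[ℚ] K) hH
    have e1 : MvPolynomial.aeval (ptE g A) (MvPolynomial.C (MvPolynomial.aeval A' P) : SE r W) =
        algebraMap ℚ K (MvPolynomial.aeval A' P) := MvPolynomial.aeval_C _ _
    have e2 : (fun w => MvPolynomial.aeval (ptE g A) (aE r W w)) = A := by
      funext w
      exact MvPolynomial.aeval_X _ _
    have e3 : (fun w => MvPolynomial.aeval (ptE g A) (MvPolynomial.C (A' w) : SE r W)) =
        fun w => algebraMap ℚ K (A' w) := by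
      funext w
      exact MvPolynomial.aeval_C _ _
    rwa [map_mul, map_mul, spec, spec, aeval_aE, e1, e2, e3] at h1
  have hne : algebraMap ℚ K (MvPolynomial.aeval A' P) ≠ 0 := by
    rw [map_ne_zero]
    exact hA'
  refine ⟨MvPolynomial.aeval (ρ.pull K g fun w => algebraMap ℚ K (A' w)) P /
    algebraMap ℚ K (MvPolynomial.aeval A' P), div_ne_zero (fun h0 => ?_) hne, fun A => ?_⟩
  · -- the inverse matrix
    have h1 := key (ρ.pull K (fun i => (g i)⁻¹) fun w => algebraMap ℚ K (A' w))
    rw [h0, zero_mul, ρ.pull_mul] at h1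
    have h2 : (fun i => (g i)⁻¹ : Grp K r) * g = 1 := by
      funext i
      exact Matrix.nonsing_inv_mul (g i) (isUnit_iff_ne_zero.2 (hg i))
    rw [h2, ρ.pull_one] at h1
    have h3 : MvPolynomial.aeval (fun w => algebraMap ℚ K (A' w)) P =
        algebraMap ℚ K (MvPolynomial.aeval A' P) := by
      change MvPolynomial.aeval (⇑(algebraMap ℚ K) ∘ A') P = _
      rw [MvPolynomial.aeval_algebraMap_apply]
    rw [h3] at h1
    exact (mul_ne_zero hne hne) h1
  · rw [div_mul_eq_mul_div, eq_div_iff hne]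
    exact key A

end Pool.Agent.Lib.MP_1acd66_nt.AR
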