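import Mathlib

/-!
Two embeddings which agree on a subfield.
-/

namespace Pool.Agent.Lib.MP_1acd66_nt.AR

open Finset

theorem lift_general {P0 L Ω : Type} [CommRing P0] [IsDomain P0] [Field L] [Field Ω]
    [IsAlgClosed Ω] (f : P0 →+* L) (hf : Function.Injective f) (h : P0 →+* Ω)
    (hh : Function.Injective h)
    (halg : ∀ x : L, ∃ q : Polynomial P0, q ≠ 0 ∧ q.eval₂ f x = 0) :
    ∃ F : L →+* Ω, ∀ p, F (f p) = h p := by
  let _ := f.toAlgebra
  let _ := h.toAlgebra
  have : FaithfulSMul P0 L := (faithfulSMul_iff_algebraMap_injective P0 L).2 hf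
  have : FaithfulSMul P0 Ω := (faithfulSMul_iff_algebraMap_injective P0 Ω).2 hh
  have : Algebra.IsAlgebraic P0 L := ⟨fun x => halg x⟩
  exact ⟨(IsAlgClosed.lift : L →ₐ[P0] Ω).toRingHom, fun p => AlgHom.commutes _ p⟩

/-- a transcendental element can be moved -/
theorem move_transc {K0 L : Type} [Field K0] [Field L] [Algebra K0 L] {α : L}
    (hα : Transcendental K0 α) :
    ∃ (Ω : Type) (_ : Field Ω) (f1 f2 : L →+* Ω),
      (∀ c : K0, f1 (algebraMap K0 L c) = f2 (algebraMap K0 L c)) ∧ f1 α ≠ f2 α := by
  classical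
  have hs : AlgebraicIndepOn K0 id ({α} : Set L) := by
    have h1 : AlgebraicIndependent K0 (fun x : ({α} : Set L) => id (x : L)) :=
      (algebraicIndependent_singleton_iff (⟨α, rfl⟩ : ({α} : Set L))).2 hα
    exact h1
  obtain ⟨t, hst, ht⟩ := exists_isTranscendenceBasis_superset hs
  have hαt : α ∈ t := hst rfl
  obtain ⟨Ω, iΩ, iA, ⟨i⟩⟩ : ∃ (Ω : Type) (_ : Field Ω) (_ : IsAlgClosed Ω),
      Nonempty (L →+* Ω) :=
    ⟨AlgebraicClosure L, inferInstance, inferInstance, ⟨algebraMap L (AlgebraicClosure L)⟩⟩
  let f : MvPolynomial t K0 →+* L := (MvPolynomial.aeval (fun a : t => (a : L))).toRingHom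
  have hf : Function.Injective f := ht.1
  let τ : MvPolynomial t K0 →ₐ[K0] MvPolynomial t K0 :=
    MvPolynomial.aeval fun a => MvPolynomial.X a + if a = ⟨α, hαt⟩ then 1 else 0
  let τ' : MvPolynomial t K0 →ₐ[K0] MvPolynomial t K0 :=
    MvPolynomial.aeval fun a => MvPolynomial.X a - if a = ⟨α, hαt⟩ then 1 else 0
  have hτ : Function.Injective τ := by
    have h1 : τ'.comp τ = AlgHom.id K0 _ := by
      refine MvPolynomial.algHom_ext fun a => ?_
      change τ' (τ (MvPolynomial.X a)) = MvPolynomial.X a
      change τ' (MvPolynomial.aeval _ (MvPolynomial.X a)) = _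
      rw [MvPolynomial.aeval_X, map_add]
      change MvPolynomial.aeval _ (MvPolynomial.X a) + _ = _
      rw [MvPolynomial.aeval_X]
      split_ifs
      · rw [map_one, sub_add_cancel]
      · rw [map_zero, sub_zero, add_zero]
    intro p q hpq
    have h2 := congrArg τ' hpq
    have h3 : ∀ p, τ' (τ p) = p := fun p => DFunLike.congr_fun h1 p
    rwa [h3, h3] at h2
  let h2 : MvPolynomial t K0 →+* Ω := i.comp (f.comp τ.toRingHom)
  have hh2 : Function.Injective h2 := i.injective.comp (hf.comp hτ)
  have halg : ∀ x : L, ∃ q : Polynomial (MvPolynomial t K0), q ≠ 0 ∧ q.eval₂ f x = 0 := by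
    intro x
    by_contra hcon
    push Not at hcon
    have h3 : Transcendental (Algebra.adjoin K0 (Set.range ((↑) : t → L))) x := by
      rw [← ht.1.option_iff_transcendental, algebraicIndependent_iff]
      intro p hp
      by_contra hp0
      refine hcon (MvPolynomial.optionEquivLeft K0 t p) ?_ ?_
      · intro h4
        exact hp0 ((MvPolynomial.optionEquivLeft K0 t).injective (h4.trans (map_zero _).symm))
      · have h5 : ((Polynomial.eval₂RingHom f x).comp
            (MvPolynomial.optionEquivLeft K0 t).toRingHom) =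
            (MvPolynomial.aeval (fun o : Option t => o.elim x ((↑) : t → L)) :
              MvPolynomial (Option t) K0 →ₐ[K0] L).toRingHom := by
          refine MvPolynomial.ringHom_ext (fun c => ?_) fun o => ?_
          · change Polynomial.eval₂ f x (MvPolynomial.optionEquivLeft K0 t
              (MvPolynomial.C c)) = MvPolynomial.aeval _ (MvPolynomial.C c)
            rw [MvPolynomial.optionEquivLeft_C, Polynomial.eval₂_C, MvPolynomial.aeval_C]
            exact MvPolynomial.aeval_C _ _
          · change Polynomial.eval₂ f x (MvPolynomial.optionEquivLeft K0 t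
              (MvPolynomial.X o)) = MvPolynomial.aeval _ (MvPolynomial.X o)
            rw [MvPolynomial.aeval_X]
            cases o with
            | none =>
              rw [MvPolynomial.optionEquivLeft_X_none, Polynomial.eval₂_X]
              rfl
            | some b =>
              rw [MvPolynomial.optionEquivLeft_X_some, Polynomial.eval₂_C]
              exact MvPolynomial.aeval_X _ b
        have h6 := DFunLike.congr_fun h5 p
        exact h6.trans hp
    have h7 := ht.isAlgebraic
    exact h3 (h7.isAlgebraic x)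
  obtain ⟨F, hF⟩ := lift_general f hf h2 hh2 halg
  refine ⟨Ω, iΩ, i, F, ?_, ?_⟩
  · intro c
    have h3 := hF (MvPolynomial.C c)
    have h4 : f (MvPolynomial.C c) = algebraMap K0 L c := MvPolynomial.aeval_C _ _
    have h5 : h2 (MvPolynomial.C c) = i (algebraMap K0 L c) := by
      change i (f (τ (MvPolynomial.C c))) = _
      have h6 : τ (MvPolynomial.C c) = MvPolynomial.C c := τ.commutes c
      rw [h6, h4]
    rw [h4, h5] at h3
    exact h3.symm
  · have h3 := hF (MvPolynomial.X ⟨α, hαt⟩)
    have h4 : f (MvPolynomial.X ⟨α, hαt⟩) = α := MvPolynomial.aeval_X _ _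
    have h5 : h2 (MvPolynomial.X ⟨α, hαt⟩) = i α + 1 := by
      change i (f (τ (MvPolynomial.X ⟨α, hαt⟩))) = _
      have h6 : τ (MvPolynomial.X ⟨α, hαt⟩) = MvPolynomial.X ⟨α, hαt⟩ + 1 := by
        change MvPolynomial.aeval _ (MvPolynomial.X _) = _
        rw [MvPolynomial.aeval_X, if_pos rfl]
      rw [h6, map_add, map_one, h4, map_add, map_one]
    rw [h4, h5] at h3
    rw [h3]
    exact fun h6 => one_ne_zero (left_eq_add.1 h6)

/-- an algebraic element outside the subfield can be moved -/
theorem move_alg {K0 L : Type} [Field K0] [CharZero K0] [Field L] [Algebra K0 L]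
    [Algebra.IsAlgebraic K0 L] {α : L} (hα : α ∉ Set.range (algebraMap K0 L)) :
    ∃ (Ω : Type) (_ : Field Ω) (f1 f2 : L →+* Ω),
      (∀ c : K0, f1 (algebraMap K0 L c) = f2 (algebraMap K0 L c)) ∧ f1 α ≠ f2 α := by
  classical
  by_contra hcon
  push Not at hcon
  apply hα
  have h1 := Algebra.IsAlgebraic.range_eval_eq_rootSet_minpoly (F := K0) (K := L)
    (AlgebraicClosure L) α
  have hint : IsIntegral K0 α := Algebra.IsIntegral.isIntegral α
  have h2 : (minpoly K0 α).rootSet (AlgebraicClosure L) ⊆
      {algebraMap L (AlgebraicClosure L) α} := by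
    rw [← h1]
    rintro _ ⟨ψ, rfl⟩
    have h3 := hcon (AlgebraicClosure L) inferInstance ψ.toRingHom
      (algebraMap L (AlgebraicClosure L)) fun c => by
        change ψ (algebraMap K0 L c) = _
        rw [ψ.commutes]
        exact IsScalarTower.algebraMap_apply K0 L (AlgebraicClosure L) c
    exact h3
  have h3 : Fintype.card ((minpoly K0 α).rootSet (AlgebraicClosure L)) =
      (minpoly K0 α).natDegree :=
    Polynomial.card_rootSet_eq_natDegree (minpoly.irreducible hint).separable
      (IsAlgClosed.splits _)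
  have h4 : (minpoly K0 α).natDegree ≤ 1 := by
    rw [← h3, ← Nat.card_eq_fintype_card]
    have h5 := Set.ncard_le_ncard h2 (Set.toFinite _)
    rw [Set.ncard_singleton] at h5
    exact h5
  have h5 : (minpoly K0 α).natDegree = 1 :=
    le_antisymm h4 (minpoly.natDegree_pos hint)
  have h6 := minpoly.natDegree_eq_one_iff.1 h5
  exact h6

end Pool.Agent.Lib.MP_1acd66_nt.AR
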