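import Pool.Agent.Lib.MP_1acd66_nt.AR.RowH

/-!
Row I: the top weight is nondecreasing, and its block has no other weight.
-/

namespace Pool.Agent.Lib.MP_1acd66_nt.AR

open Finset Pool.Agent.Lib.MP_1acd66_nt.Gen

variable {k : ℕ} {r : Fin k → ℕ} {W : Type} [Fintype W]

theorem eq_of_sum_sq_le (f g : ∀ i, Fin (r i) → ℕ)
    (h : ∑ i, ∑ a, f i a * f i a + ∑ i, ∑ a, g i a * g i a ≤ 2 * ∑ i, ∑ a, f i a * g i a) :
    f = g := by
  have h1 : ∑ i, ∑ a, ((f i a : ℤ) - g i a) ^ 2 ≤ 0 := by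
    have h2 : ∑ i, ∑ a, ((f i a : ℤ) - g i a) ^ 2 = (∑ i, ∑ a, (f i a : ℤ) * f i a) +
        (∑ i, ∑ a, (g i a : ℤ) * g i a) - 2 * ∑ i, ∑ a, (f i a : ℤ) * g i a := by
      simp only [mul_sum, ← sum_add_distrib, ← sum_sub_distrib]
      exact sum_congr rfl fun i _ => sum_congr rfl fun a _ => by ring
    rw [h2]
    have h' : ((∑ i, ∑ a, f i a * f i a + ∑ i, ∑ a, g i a * g i a : ℕ) : ℤ) ≤
        ((2 * ∑ i, ∑ a, f i a * g i a : ℕ) : ℤ) := by exact_mod_cast h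
    push_cast at h'
    linarith
  have h3 : ∀ i, 0 ≤ ∑ a, ((f i a : ℤ) - g i a) ^ 2 := fun i => sum_nonneg fun a _ => sq_nonneg _
  have h4 : ∑ i, ∑ a, ((f i a : ℤ) - g i a) ^ 2 = 0 :=
    le_antisymm h1 (sum_nonneg fun i _ => h3 i)
  funext i a
  have h5 := (sum_eq_zero_iff_of_nonneg (fun i _ => h3 i)).1 h4 i (mem_univ i)
  have h6 := (sum_eq_zero_iff_of_nonneg (fun a _ => sq_nonneg _)).1 h5 a (mem_univ a)
  have h7 : (f i a : ℤ) - g i a = 0 := by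
    exact pow_eq_zero_iff (two_ne_zero) |>.1 h6
  omega

/-- The sorted weight pairs with itself at most as with the top weight. -/
theorem exists_sorted (ρ : FRep r W) (w0 : W) (hT : Top ρ w0) (w : W) :
    ∃ w', (∀ i, Monotone (ρ.wt w' i)) ∧
      ∑ i, ∑ a, ρ.wt w i a * ρ.wt w i a ≤ ∑ i, ∑ a, ρ.wt w' i a * ρ.wt w0 i a ∧
      (∑ i, ∑ a, ρ.wt w' i a * ρ.wt w' i a = ∑ i, ∑ a, ρ.wt w i a * ρ.wt w i a) := by
  obtain ⟨w', hw'⟩ := exists_wt_perm ρ (fun i => Tuple.sort (ρ.wt w i)) w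
  have hm : ∀ i, Monotone (ρ.wt w' i) := by
    intro i
    have h : ρ.wt w' i = ρ.wt w i ∘ Tuple.sort (ρ.wt w i) := funext fun a => hw' i a
    rw [h]
    exact Tuple.monotone_sort _
  have he : ∑ i, ∑ a, ρ.wt w' i a * ρ.wt w' i a = ∑ i, ∑ a, ρ.wt w i a * ρ.wt w i a := by
    refine sum_congr rfl fun i _ => ?_
    simp only [hw']
    exact Equiv.sum_comp (Tuple.sort (ρ.wt w i)) (fun a => ρ.wt w i a * ρ.wt w i a)
  refine ⟨w', hm, ?_, he⟩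
  rw [← he]
  exact hT (ρ.wt w') hm w'

/-- Row I. -/
theorem stTop (ρ : FRep r W) : StTop ρ := by
  intro w0 hT
  have hmono : ∀ i, Monotone (ρ.wt w0 i) := by
    obtain ⟨w', hm, h1, h2⟩ := exists_sorted ρ w0 hT w0
    have h3 : ρ.wt w' = ρ.wt w0 := by
      refine eq_of_sum_sq_le _ _ ?_
      rw [h2]
      omega
    rw [← h3]
    exact hm
  refine ⟨hmono, fun w hw => ?_⟩
  obtain ⟨w', hm, h1, h2⟩ := exists_sorted ρ w0 hT w
  have h3 : pairN ρ (ρ.wt w0) w0 ≤ pairN ρ (ρ.wt w0) w := (mem_filter.1 hw).2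
  have h4 : pairN ρ (ρ.wt w0) w' ≤ pairN ρ (ρ.wt w0) w0 := hT _ hmono w'
  have h5 : ∑ i, ∑ a, ρ.wt w' i a * ρ.wt w0 i a = pairN ρ (ρ.wt w0) w' :=
    sum_congr rfl fun i _ => sum_congr rfl fun a _ => mul_comm _ _
  have h6 : ∑ i, ∑ a, ρ.wt w i a * ρ.wt w0 i a = pairN ρ (ρ.wt w0) w :=
    sum_congr rfl fun i _ => sum_congr rfl fun a _ => mul_comm _ _
  have h7 : ∑ i, ∑ a, ρ.wt w0 i a * ρ.wt w0 i a = pairN ρ (ρ.wt w0) w0 := rfl
  refine eq_of_sum_sq_le _ _ ?_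
  rw [h6, h7]
  rw [h5] at h1
  omega

end Pool.Agent.Lib.MP_1acd66_nt.AR
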