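import Pool.Agent.Lib.MP_1acd66_nt.AR.Main
import Pool.Agent.Lib.MP_1acd66_nt.AR.RowI
import Pool.Agent.Lib.MP_1acd66_nt.AR.RowJ63

/-!
The final statement.
-/

namespace Pool.Agent.Lib.MP_1acd66_nt.AR

open Filter Topology Pool.Agent.Lib.MP_1acd66_nt.Gen

theorem final {k : ℕ} (r N : Fin k → ℕ) (hr : ∀ i, 0 < r i) (hN : ∀ i, r i < N i) :
    (∀ {W : Type} [Fintype W] (ρ : FRep r W) (m : ℕ), (∀ i, 0 < ρ.deg i) →
      2 ≤ m * Fintype.card W → (∀ i, m * ρ.b i ≤ N i) →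
      (∑ i, r i * (r i - 1) < 2 * m ∨ (∃ w, Top ρ w ∧ flagDim (ρ.wt w) < m) ∨
        Crit (multRep ρ m)) →
      (∃ F : MvPolynomial (Fin m × W) ℚ, F ≠ 0 ∧
        ∀ A, ¬ Good (multRep ρ m) A → MvPolynomial.eval A F = 0) ∧
      ∀ h : Gen.AdelicNorm N (multRep ρ m).toRepData,
        (∀ B, (Gen.countSet (Good (multRep ρ m)) h B).Finite) ∧ ∃ c : ℝ, 0 < c ∧
        Tendsto (fun B : ℝ => ((Gen.countSet (Good (multRep ρ m)) h B).ncard : ℝ) /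
          (B * Real.log B ^ k)) atTop (𝓝 c)) ∧
    ∀ (d : Fin k → ℕ) (m : ℕ), (∀ i, 0 < d i) → m = ∑ i, (r i - 1) → 0 < m →
      (∀ i, 2 ≤ r i → 2 ≤ d i) →
      (∀ i, m * (∏ j, (r j + d j - 1).choose (d j)) * d i ≤ r i * N i) →
      ∀ h : Gen.AdelicNorm N (formsData m r d),
        (∀ B, (Gen.countSet (goodForms m r d) h B).Finite) ∧ ∃ c : ℝ, 0 < c ∧
        Tendsto (fun B : ℝ => ((Gen.countSet (goodForms m r d) h B).ncard : ℝ) /
          (B * Real.log B ^ k)) atTop (𝓝 c) := by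
  refine ⟨?_, ?_⟩
  · intro W _ ρ m hdeg hW hb hm
    have hT : StTop ρ := stTop ρ
    refine ⟨stClosed (multRep ρ m) (stVan _) (stAlg _), fun h => ?_⟩
    refine (main2 ρ m hT (stClosed (multRep ρ m) (stVan _) (stAlg _)) hr hN hdeg hb hW ?_ h).2
    rcases hm with h1 | h1 | h1
    · exact Or.inr (Or.inl h1)
    · exact Or.inr (Or.inr h1)
    · exact Or.inl h1
  · intro d m hd hm hm0 hd2 hb h
    exact formsMain r d N m hr hd hN hb (Or.inr ⟨hm, hm0, hd2⟩) h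

end Pool.Agent.Lib.MP_1acd66_nt.AR
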