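import Pool.Agent.Lib.MP_1acd66_nt.AR.Defs5
import Pool.Agent.Lib.MP_1acd66_nt.AR.Dual44

/-!
Row J0: derivations with given values on algebraically independent elements.
-/

namespace Pool.Agent.Lib.MP_1acd66_nt.AR

theorem stDual : StDual := fun L _ _ _ W _ A hA c => Dual44.dual L W A hA c

end Pool.Agent.Lib.MP_1acd66_nt.AR
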