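import Pool.Agent.Lib.MP_1acd66_nt.AR.RowJ63
import Pool.Agent.Lib.MP_1acd66_nt.AR.Defs5

/-!
Algebraic dependence of the coordinates of the vectors which vanish on a block in some frame.
-/

namespace Pool.Agent.Lib.MP_1acd66_nt.AR

open Finset Pool.Agent.Lib.MP_1acd66_nt.Gen J63

variable {k : ℕ} {r : Fin k → ℕ} {W : Type} [Fintype W]

/-- the support of the logarithmic derivative of a unipotent matrix -/
theorem supp_of_mul {n : ℕ} {L : Type} [Field L] (y : Fin n → ℕ)
    {V X D : Matrix (Fin n) (Fin n) L} (h1 : ∀ a, V a a = 1)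
    (h2 : ∀ a b, a ≠ b → ¬ y a < y b → V a b = 0) (hD : ∀ a b, ¬ y a < y b → D a b = 0)
    (hX : V * X = D) : ∀ a b, ¬ y a < y b → X a b = 0 := by
  obtain ⟨T, hT⟩ : ∃ T : ℕ, ∀ a, y a ≤ T :=
    ⟨∑ a, y a, fun a => single_le_sum (f := y) (fun _ _ => Nat.zero_le _) (mem_univ a)⟩
  have key : ∀ m : ℕ, ∀ a b, T - y a = m → ¬ y a < y b → X a b = 0 := by
    intro m
    induction m using Nat.strong_induction_on with
    | _ m ih =>
      intro a b hm hab
      have h3 : (V * X) a b = D a b := by rw [hX]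
      rw [hD a b hab, Matrix.mul_apply, sum_eq_single a] at h3
      · rwa [h1, one_mul] at h3
      · intro c _ hca
        by_cases hac : y a < y c
        · rw [ih (T - y c) (by have := hT c; omega) c b rfl (by omega), mul_zero]
        · rw [h2 a c hca.symm hac, zero_mul]
      · intro h
        exact absurd (mem_univ _) h
  intro a b hab
  exact key _ a b rfl hab

/-- The equation for the derivatives. -/
theorem lie_eq (ρ : FRep r W) {L : Type} [Field L] (hlie : ∀ (X : Grp L r) (B C : W → L) (w : W),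
      ρ.pull (DualNumber L) (onePlus X)
        (fun w => TrivSqZeroExt.inl (B w) + TrivSqZeroExt.inr (C w)) w =
        TrivSqZeroExt.inl (B w) + TrivSqZeroExt.inr (lie ρ X B w + C w))
    (φ : L →+* DualNumber L) (hφ : ∀ x, TrivSqZeroExt.fst (φ x) = x) {M X : Grp L r}
    (hX : ∀ i, M i * X i = (M i).map fun x => TrivSqZeroExt.snd (φ x)) (A : W → L) {w : W}
    (hw : ρ.pull L M A w = 0) :
    lie ρ X (ρ.pull L M A) w + ρ.pull L M (fun w => TrivSqZeroExt.snd (φ (A w))) w = 0 := by
  set inlH : L →+* DualNumber L := TrivSqZeroExt.inlHom L L with hinlH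
  have hinl : ∀ x, inlH x = TrivSqZeroExt.inl x := fun x => rfl
  have hφx : ∀ x, φ x = TrivSqZeroExt.inl x + TrivSqZeroExt.inr (TrivSqZeroExt.snd (φ x)) := by
    intro x
    apply TrivSqZeroExt.ext
    · simp [hφ]
    · simp
  -- the matrix
  have e1 : (fun i => (M i).map φ) = (fun i => (M i).map inlH) * onePlus X := by
    funext i
    change (M i).map φ = (M i).map inlH * (1 + (X i).map fun x => TrivSqZeroExt.inr x)
    rw [mul_add, mul_one]
    refine Matrix.ext fun a b => ?_
    rw [Matrix.map_apply, Matrix.add_apply, Matrix.map_apply, Matrix.mul_apply, hφx, hinl]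
    have h1 := congrFun (congrFun (hX i) a) b
    rw [Matrix.map_apply, Matrix.mul_apply] at h1
    rw [← h1]
    have h2 : ∀ c, (M i).map inlH a c * (X i).map (fun x => (TrivSqZeroExt.inr x : DualNumber L)) c b =
        TrivSqZeroExt.inr (M i a c * X i c b) := by
      intro c
      rw [Matrix.map_apply, Matrix.map_apply, hinl, TrivSqZeroExt.inl_mul_inr, smul_eq_mul]
    rw [sum_congr rfl fun c _ => h2 c]
    exact congrArg (TrivSqZeroExt.inl (M i a b) + ·)
      (map_sum (TrivSqZeroExt.inrHom L L) (fun c => M i a c * X i c b) univ)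
  set c : W → L := fun w => TrivSqZeroExt.snd (φ (A w)) with hc
  have e2 : ρ.pull (DualNumber L) (fun i => (M i).map inlH) (fun w => φ (A w)) =
      fun w => TrivSqZeroExt.inl (ρ.pull L M A w) + TrivSqZeroExt.inr (ρ.pull L M c w) := by
    have h1 : (fun w => φ (A w)) = (fun w => inlH (A w)) +
        (TrivSqZeroExt.inr (1:L) : DualNumber L) • fun w => inlH (c w) := by
      funext w
      rw [Pi.add_apply, Pi.smul_apply, hφx, hinl, hinl, smul_eq_mul, TrivSqZeroExt.inr_mul_inl]
      congr 2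
      simp [hc]
    rw [h1, ρ.pull_add, ρ.pull_smul, ρ.pull_map, ρ.pull_map]
    funext w
    rw [Pi.add_apply, Pi.smul_apply, hinl, hinl, smul_eq_mul, TrivSqZeroExt.inr_mul_inl]
    congr 2
    simp
  have e3 := congrFun (ρ.pull_map L (DualNumber L) φ M A) w
  rw [e1, ← ρ.pull_mul, e2, hlie] at e3
  rw [hw, map_zero] at e3
  have e4 := congrArg TrivSqZeroExt.snd e3
  simpa using e4

theorem indep_le (ρ : FRep r W) (hDual : StDual) (hLie : StLie ρ) (y : ∀ i, Fin (r i) → ℕ)
    (s t : ℕ) (ht : 0 < t) (σ : ∀ i, Equiv.Perm (Fin (r i))) {L : Type} [Field L] [Algebra ℚ L]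
    [Algebra.EssFiniteType ℚ L] (V : Grp L r) (hV1 : ∀ i a, V i a a = 1)
    (hV2 : ∀ i a b, a ≠ b → ¬ y i a < y i b → V i a b = 0) (hVdet : ∀ i, (V i).det = 1)
    (AL : W → L) (hindL : AlgebraicIndependent ℚ AL)
    (hB0 : ∀ w ∈ Blk ρ y (s + 1), ρ.pull L (perm L σ V) AL w = 0) :
    (Blk ρ y (s + t)).card ≤ (stepsT y t).card := by
  classical
  set M : Grp L r := perm L σ V with hM
  have hMdet := D63.perm_det σ V hVdet
  obtain ⟨hlie1, hlie2⟩ := hLie L
  obtain ⟨e, he⟩ := hlie2 y s t ht (ρ.pull L M AL) hB0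
  set T := Blk ρ y (s + t) with hT
  have hTZ : ∀ w ∈ T, w ∈ Blk ρ y (s + 1) := by
    intro w hw
    rw [hT, Blk, mem_filter] at hw
    rw [Blk, mem_filter]
    exact ⟨hw.1, by omega⟩
  -- all vectors on the block are combinations
  have hspan : ∀ v : {w // w ∈ T} → L, v ∈ Submodule.span L
      ((stepsT y t).image fun x => fun w : {w // w ∈ T} => e x w.1 : Set ({w // w ∈ T} → L)) := by
    intro v
    obtain ⟨c, hc⟩ := pull_surj ρ hMdet (fun w => if h : w ∈ T then v ⟨w, h⟩ else 0)
    obtain ⟨φ, hφ1, hφ2⟩ := hDual L W AL hindL c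
    set X : Grp L r := fun i => (V i)⁻¹ * (V i).map fun x => TrivSqZeroExt.snd (φ x) with hX
    have hVX : ∀ i, V i * X i = (V i).map fun x => TrivSqZeroExt.snd (φ x) := by
      intro i
      rw [hX, ← Matrix.mul_assoc, Matrix.mul_nonsing_inv _ (by rw [hVdet i]; exact isUnit_one),
        Matrix.one_mul]
    have hφ0 : φ 0 = 0 := map_zero φ
    have hφ1' : φ 1 = 1 := map_one φ
    have hXs : ∀ i a b, ¬ y i a < y i b → X i a b = 0 := by
      intro i
      refine supp_of_mul (y i) (hV1 i) (fun a b hab hn => hV2 i a b hab hn) ?_ (hVX i)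
      intro a b hn
      rw [Matrix.map_apply]
      by_cases hab : a = b
      · rw [hab, hV1, hφ1', TrivSqZeroExt.snd_one]
      · rw [hV2 i a b hab hn, hφ0, TrivSqZeroExt.snd_zero]
    have hMX : ∀ i, M i * X i = (M i).map fun x => TrivSqZeroExt.snd (φ x) := by
      intro i
      refine Matrix.ext fun a b => ?_
      have h1 := congrFun (congrFun (hVX i) ((σ i).symm a)) b
      exact h1
    have hc' : (fun w => TrivSqZeroExt.snd (φ (AL w))) = c := funext hφ2
    have h3 : ∀ (w : W) (hw : w ∈ T),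
        v ⟨w, hw⟩ = -∑ x ∈ stepsT y t, X x.1 x.2.1 x.2.2 * e x w := by
      intro w hw
      have h4 := lie_eq ρ hlie1 φ hφ1 hMX AL (hB0 w (hTZ w hw))
      rw [hc', hc, he X hXs w hw] at h4
      simp only at h4
      rw [dif_pos hw] at h4
      linear_combination h4
    have h5 : v = ∑ x ∈ stepsT y t, (-X x.1 x.2.1 x.2.2) • fun w : {w // w ∈ T} => e x w.1 := by
      funext w
      rw [Finset.sum_apply, h3 w.1 w.2, ← sum_neg_distrib]
      refine sum_congr rfl fun x _ => ?_
      rw [Pi.smul_apply, smul_eq_mul, neg_mul]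
    rw [h5]
    refine Submodule.sum_mem _ fun x hx => Submodule.smul_mem _ _ (Submodule.subset_span ?_)
    rw [coe_image]
    exact ⟨x, hx, rfl⟩
  have htop : Submodule.span L
      ((stepsT y t).image fun x => fun w : {w // w ∈ T} => e x w.1 : Set ({w // w ∈ T} → L)) = ⊤ :=
    Submodule.eq_top_iff'.2 hspan
  have h1 := finrank_span_finset_le_card (R := L)
    ((stepsT y t).image fun x => fun w : {w // w ∈ T} => e x w.1)
  rw [Set.finrank, htop, finrank_top, Module.finrank_fintype_fun_eq_card, Fintype.card_coe] at h1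
  exact h1.trans card_image_le

theorem stAlg2 (ρ : FRep r W) (hDual : StDual) (hLie : StLie ρ) : StAlg2 ρ := by
  classical
  intro y s t hy ht hcard σ
  have hSmem : ∀ i a b, (⟨i, a, b⟩ : Σ i, Fin (r i) × Fin (r i)) ∈ stepsT y 1 ↔ y i a < y i b := by
    intro i a b
    rw [stepsT, mem_sigma, mem_filter]
    simp only [mem_univ, true_and]
    omega
  generalize stepsT y 1 = S at hSmem
  obtain ⟨Z, hZ⟩ : ∃ Z, Z = Blk ρ y (s + 1) := ⟨_, rfl⟩
  rw [← hZ]
  have hdet : ∀ {K : Type} [CommRing K] (V : Grp K r), (∀ i a, V i a a = 1) →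
      (∀ i a b, a ≠ b → (⟨i, a, b⟩ : Σ i, Fin (r i) × Fin (r i)) ∉ S → V i a b = 0) →
      ∀ i, (V i).det = 1 := by
    intro K _ V h1 h2 i
    refine det_upper (h1 i) fun a b hab => h2 i a b hab.ne' fun hm => ?_
    rw [hSmem] at hm
    exact absurd (hy i hab.le) (not_le.2 hm)
  have hg1 : ∀ i a, genV Z S i a a = 1 := by
    intro i a
    simp [genV]
  have hg2 : ∀ i a b, a ≠ b → (⟨i, a, b⟩ : Σ i, Fin (r i) × Fin (r i)) ∉ S →
      genV Z S i a b = 0 := by
    intro i a b hab hm
    simp [genV, hab, hm]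
  have hgen := D63.perm_det σ (genV Z S) (hdet (genV Z S) hg1 hg2)
  obtain ⟨Ag, hAg⟩ := pull_surj ρ hgen (genB Z S)
  -- the relation
  obtain ⟨F, hF, hF0⟩ : ∃ F : MvPolynomial W ℚ, F ≠ 0 ∧ MvPolynomial.aeval Ag F = 0 := by
    by_contra hcon
    push Not at hcon
    have hind : AlgebraicIndependent ℚ Ag := by
      rw [algebraicIndependent_iff]
      intro p hp
      by_contra h0
      exact hcon p h0 hp
    obtain ⟨L, iL, iA, iE, ι, hinj⟩ : ∃ (L : Type) (_ : Field L) (_ : Algebra ℚ L)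
        (_ : Algebra.EssFiniteType ℚ L) (ι : MvPolynomial (Ix Z S) ℚ →ₐ[ℚ] L),
        Function.Injective ι := by
      refine ⟨FractionRing (MvPolynomial (Ix Z S) ℚ), inferInstance, inferInstance, ?_,
        IsScalarTower.toAlgHom ℚ _ _, IsFractionRing.injective _ _⟩
      have h1 : Algebra.EssFiniteType (MvPolynomial (Ix Z S) ℚ)
          (FractionRing (MvPolynomial (Ix Z S) ℚ)) :=
        Algebra.EssFiniteType.of_isLocalization _ (nonZeroDivisors _)
      exact Algebra.EssFiniteType.comp ℚ (MvPolynomial (Ix Z S) ℚ) _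
    have hindL : AlgebraicIndependent ℚ fun w => ι (Ag w) := hind.map' hinj
    have hV1 : ∀ i a, (genV Z S i).map ι a a = 1 := by
      intro i a
      rw [Matrix.map_apply, hg1, map_one]
    have hV2' : ∀ i a b, a ≠ b → (⟨i, a, b⟩ : Σ i, Fin (r i) × Fin (r i)) ∉ S →
        (genV Z S i).map ι a b = 0 := by
      intro i a b hab hn
      rw [Matrix.map_apply, hg2 i a b hab hn, map_zero]
    have hV2 : ∀ i a b, a ≠ b → ¬ y i a < y i b → (genV Z S i).map ι a b = 0 :=
      fun i a b hab hn => hV2' i a b hab (by rw [hSmem]; exact hn)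
    have hVdet := hdet (K := L) (fun i => (genV Z S i).map ι) hV1 hV2'
    have hMA : ρ.pull L (perm L σ fun i => (genV Z S i).map ι) (fun w => ι (Ag w)) =
        fun w => ι (genB Z S w) := by
      have h1 := ρ.pull_map (MvPolynomial (Ix Z S) ℚ) L ι.toRingHom
        (perm (MvPolynomial (Ix Z S) ℚ) σ (genV Z S)) Ag
      rw [hAg] at h1
      exact h1
    have hB0 : ∀ w ∈ Blk ρ y (s + 1),
        ρ.pull L (perm L σ fun i => (genV Z S i).map ι) (fun w => ι (Ag w)) w = 0 := by
      intro w hw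
      rw [← hZ] at hw
      have h1 : genB Z S w = 0 := by simp [genB, hw]
      rw [hMA]
      change ι (genB Z S w) = 0
      rw [h1, map_zero]
    have := indep_le ρ hDual hLie y s t ht σ (fun i => (genV Z S i).map ι) hV1 hV2 hVdet _ hindL hB0
    omega
  refine ⟨F, hF, ?_⟩
  intro K _ _ A V hV1 hV2 hvan
  have hV2' : ∀ i a b, a ≠ b → (⟨i, a, b⟩ : Σ i, Fin (r i) × Fin (r i)) ∉ S → V i a b = 0 := by
    intro i a b hab hm
    rw [hSmem] at hm
    exact hV2 i a b hab (not_lt.1 hm)
  set B := ρ.pull K (perm K σ V) A with hB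
  set φ : MvPolynomial (Ix Z S) ℚ →ₐ[ℚ] K := MvPolynomial.aeval
    (Sum.elim (fun s => V s.1.1 s.1.2.1 s.1.2.2) fun w => B w.1) with hφ
  have e1 : (fun i => (perm (MvPolynomial (Ix Z S) ℚ) σ (genV Z S) i).map φ.toRingHom) =
      perm K σ V := by
    funext i
    ext a b
    change φ (genV Z S i ((σ i).symm a) b) = V i ((σ i).symm a) b
    generalize (σ i).symm a = c
    by_cases hcb : c = b
    · subst hcb
      rw [hg1, map_one, hV1]
    · by_cases hm : (⟨i, c, b⟩ : Σ i, Fin (r i) × Fin (r i)) ∈ S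
      · have h1 : genV Z S i c b = MvPolynomial.X (Sum.inl ⟨⟨i, c, b⟩, hm⟩) := by
          simp [genV, hcb, hm]
        rw [h1, hφ, MvPolynomial.aeval_X]
        rfl
      · rw [hg2 i c b hcb hm, map_zero, hV2' i c b hcb hm]
  have e2 : (fun w => φ.toRingHom (genB Z S w)) = B := by
    funext w
    change φ (genB Z S w) = B w
    by_cases hw : w ∈ Z
    · rw [hvan w hw]
      have h1 : genB Z S w = 0 := by simp [genB, hw]
      rw [h1, map_zero]
    · have h1 : genB Z S w = MvPolynomial.X (Sum.inr ⟨w, hw⟩) := by simp [genB, hw]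
      rw [h1, hφ, MvPolynomial.aeval_X]
      rfl
  have h1 := ρ.pull_map _ K φ.toRingHom (perm _ σ (genV Z S)) Ag
  rw [e1, hAg, e2] at h1
  have h2 : (fun w => φ.toRingHom (Ag w)) = A := by
    refine pull_inj ρ (D63.perm_det σ V (hdet V hV1 hV2')) ?_
    rw [h1]
  rw [← h2]
  have h3 : MvPolynomial.aeval (fun w => φ.toRingHom (Ag w)) F = φ (MvPolynomial.aeval Ag F) := by
    have h4 := MvPolynomial.comp_aeval Ag φ
    have h5 := DFunLike.congr_fun h4 F
    rw [AlgHom.comp_apply] at h5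
    rw [h5]
    rfl
  rw [h3, hF0, map_zero]

end Pool.Agent.Lib.MP_1acd66_nt.AR
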