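import Pool.Agent.Lib.MP_1acd66_nt.AR.RowA
import Pool.Agent.Lib.MP_1acd66_nt.AR.Defs5

/-!
The vectors which vanish on a large block in some rational frame lie on a hypersurface.
-/

namespace Pool.Agent.Lib.MP_1acd66_nt.AR

open Finset Pool.Agent.Lib.MP_1acd66_nt.Gen

variable {k : ℕ} {r : Fin k → ℕ} {W : Type} [Fintype W]

theorem stThin1 (ρ : FRep r W) (hVan : StVan ρ) (hAlg : StAlg2 ρ) : StThin1 ρ := by
  classical
  intro y s t hy ht hcard
  choose F hF0 hF using hAlg y s t hy ht hcard
  have : Fact (Nat.Prime 2) := ⟨Nat.prime_two⟩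
  refine ⟨∏ σ, F σ, ?_, ?_⟩
  · rw [prod_ne_zero_iff]
    exact fun σ _ => hF0 σ
  · intro A g hg hv
    set f : ℚ →+* ℚ_[2] := algebraMap ℚ ℚ_[2] with hf
    have hg' : ∀ i, ((g i).map f).det ≠ 0 := by
      intro i
      have h1 : ((g i).map f).det = f (g i).det := (RingHom.map_det f (g i)).symm
      rw [h1]
      intro h0
      exact hg i (f.injective (by rw [h0, map_zero]))
    choose σ h V hh hV1 hV0 hgh using
      fun i => stDecomp 2 (r i) (y i) (hy i) ((g i).map f) (hg' i)
    have h1 : ∀ w ∈ Blk ρ y (s + 1),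
        ρ.pull ℚ_[2] (fun i => (g i).map f) (fun w => f (A w)) w = 0 := by
      intro w hw
      rw [ρ.pull_map]
      simp only
      rw [hv w hw, map_zero]
    have h2 : ∀ w ∈ Blk ρ y (s + 1),
        ρ.pull ℚ_[2] ((fun i => (g i).map f) * h) (fun w => f (A w)) w = 0 := by
      rw [← ρ.pull_mul]
      exact hVan ℚ_[2] y (s + 1) h hh _ h1
    set V' : Grp ℚ_[2] r := fun i => (V i).map (PadicInt.Coe.ringHom (p := 2)) with hV'
    have e1 : (fun i => (g i).map f) * h = perm ℚ_[2] σ V' := by
      funext i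
      ext a b
      have h3 := hgh i ((σ i).symm a) b
      rw [Equiv.apply_symm_apply] at h3
      exact h3
    rw [e1] at h2
    have h3 := hF σ ℚ_[2] (fun w => f (A w)) V' ?_ ?_ h2
    · rw [map_prod]
      refine prod_eq_zero (mem_univ σ) ?_
      have h5 : MvPolynomial.aeval (fun w => f (A w)) (F σ) =
          f (MvPolynomial.eval A (F σ)) := by
        have h6 := MvPolynomial.aeval_algebraMap_apply ℚ_[2] A (F σ)
        have h7 : MvPolynomial.aeval A (F σ) = MvPolynomial.eval A (F σ) :=
          DFunLike.congr_fun (MvPolynomial.coe_aeval_eq_eval A) _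
        rw [h7] at h6
        exact h6
      rw [h5] at h3
      exact f.injective (by rw [h3, map_zero])
    · intro i a
      have h5 : PadicInt.Coe.ringHom (p := 2) (V i a a) = 1 := by rw [hV1, map_one]
      exact h5
    · intro i a b hab hle
      have h5 : PadicInt.Coe.ringHom (p := 2) (V i a b) = 0 := by
        rw [hV0 i a b hab hle, map_zero]
      exact h5

end Pool.Agent.Lib.MP_1acd66_nt.AR
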