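import Pool.Agent.Lib.MP_1acd66_nt.AR.Many
import Pool.Agent.Lib.MP_1acd66_nt.AR.RowJ3
import Pool.Agent.Lib.MP_1acd66_nt.AR.RowJ2b
import Pool.Agent.Lib.MP_1acd66_nt.AR.RowJ1
import Pool.Agent.Lib.MP_1acd66_nt.AR.RowJ0

/-!
The final statement.
-/

namespace Pool.Agent.Lib.MP_1acd66_nt.AR

open Filter Topology Pool.Agent.Lib.MP_1acd66_nt.Gen

theorem final3 {k : ℕ} (r N : Fin k → ℕ) (hr : ∀ i, 0 < r i) (hN : ∀ i, r i < N i)
    {W : Type} [Fintype W] (ρ : FRep r W) (m : ℕ) (hdeg : ∀ i, 0 < ρ.deg i)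
    (hW : 2 ≤ m * Fintype.card W) (hb : ∀ i, m * ρ.b i ≤ N i) (hm : Many ρ m)
    (h : Gen.AdelicNorm N (multRep ρ m).toRepData) :
    (∀ B, (Gen.countSet (Good3 (multRep ρ m)) h B).Finite) ∧ ∃ c : ℝ, 0 < c ∧
      Tendsto (fun B : ℝ => ((Gen.countSet (Good3 (multRep ρ m)) h B).ncard : ℝ) /
        (B * Real.log B ^ k)) atTop (𝓝 c) := by
  have hT : StThin1 (multRep ρ m) := stThin1 _ (stVan _) (stAlg2 _ stDual (stLie _))
  refine main4 (multRep ρ m) (crit3_of_many ρ m hT hr ?_ hm) hr hN hdeg hb ?_ h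
  · by_contra h0
    have : m = 0 := by omega
    rw [this, zero_mul] at hW
    omega
  · rw [Fintype.card_prod, Fintype.card_fin]
    exact hW

end Pool.Agent.Lib.MP_1acd66_nt.AR
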