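import Pool.Agent.Lib.MP_1acd66_nt.AR.Many
import Pool.Agent.Lib.MP_1acd66_nt.AR.Defs6

/-!
No critical pair is birational.
-/

namespace Pool.Agent.Lib.MP_1acd66_nt.AR

open Finset Pool.Agent.Lib.MP_1acd66_nt.Gen

variable {k : ℕ} {r : Fin k → ℕ} {W : Type} [Fintype W]

/-- No critical pair is birational: for no critical pair `(y, s)` does the generic vector which
vanishes on the block of slope greater than `s` do so in one flag only. -/
def NoBir (ρ : FRep r W) : Prop :=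
  ∀ (y : ∀ i, Fin (r i) → ℕ) (s : ℕ), Critical ρ y s → ¬ Unique ρ y (s + 1)

/-- The conditions on a representation and the number `m` of copies. -/
def Many3 (ρ : FRep r W) (m : ℕ) : Prop :=
  NoBir (multRep ρ m) ∨ ∑ i, r i * (r i - 1) < 2 * m ∨
  (∃ w0, Top ρ w0 ∧ flagDim (ρ.wt w0) < m * multW ρ w0) ∨
  ∃ w0, (∀ i a, a.val + 1 ≠ r i → ρ.wt w0 i a = 0) ∧ m * multW ρ w0 = ∑ i, (r i - 1) ∧
    ∀ i, 2 ≤ r i → 2 ≤ ρ.deg i

theorem flagDim_eq_stepsT (y : ∀ i, Fin (r i) → ℕ) : flagDim y = (stepsT y 1).card := by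
  rw [stepsT, card_sigma]
  rfl

theorem noExc_of_noBir (ρ : FRep r W) (hTwice : StTwice ρ) (hGroup : StGroup ρ)
    (hSieve : StSieve ρ) (h : NoBir ρ) : NoExc ρ := by
  intro y s hc
  have h1 : flagDim y = (Blk ρ y (s + 1)).card := by
    rw [flagDim_eq_stepsT, hc.2.2 1 one_pos]
  exact hSieve y (s + 1) hc.1 (hGroup y (s + 1) hc.1 h1.le (hTwice y (s + 1) hc.1 (h y s hc)))

theorem many_of_many3 (ρ : FRep r W) (m : ℕ) (hTwice : StTwice (multRep ρ m))
    (hGroup : StGroup (multRep ρ m)) (hSieve : StSieve (multRep ρ m)) (h : Many3 ρ m) :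
    Many ρ m := by
  rcases h with h | h
  · exact Or.inl (noExc_of_noBir _ hTwice hGroup hSieve h)
  · exact Or.inr h

end Pool.Agent.Lib.MP_1acd66_nt.AR
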