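import Pool.Agent.Lib.MP_1acd66_nt.AR.RowN6

/-!
The Bruhat decomposition of an invertible matrix over a field.
-/

namespace Pool.Agent.Lib.MP_1acd66_nt.AR

open Finset Pool.Agent.Lib.MP_1acd66_nt.Gen N6

namespace N1

variable {K : Type} [Field K] {n : ℕ}

theorem low_mul {v w : Matrix (Fin n) (Fin n) K} (hv : Low v) (hw : Low w) : Low (v * w) := by
  refine ⟨fun a => ?_, fun a b hab => ?_⟩
  · rw [Matrix.mul_apply, sum_eq_single a]
    · rw [hv.1, hw.1, one_mul]
    · intro c _ hc
      rcases lt_or_gt_of_ne hc with h | h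
      · rw [hw.2 c a h, mul_zero]
      · rw [hv.2 a c h, zero_mul]
    · intro h
      exact absurd (mem_univ _) h
  · exact par_mul (y := fun a : Fin n => a.val) (fun a b hab => hv.2 a b hab)
      (fun a b hab => hw.2 a b hab) a b hab

/-- the last `m` columns are unit vectors, the corresponding rows too -/
def Cols (m : ℕ) (M : Matrix (Fin n) (Fin n) K) (σ : Fin n → Fin n) : Prop :=
  ∀ b : Fin n, n ≤ m + b.val → (∀ a, M a b = if a = σ b then 1 else 0) ∧
    ∀ c, M (σ b) c = if c = b then 1 else 0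

theorem step {m : ℕ} (hm : m < n) {M : Matrix (Fin n) (Fin n) K} (hM : M.det ≠ 0)
    {σ : Fin n → Fin n} (hC : Cols m M σ) :
    ∃ (E F : Matrix (Fin n) (Fin n) K) (σ' : Fin n → Fin n), Low E ∧
      (∀ a b, a < b → F a b = 0) ∧ F.det ≠ 0 ∧ Cols (m + 1) (E * M * F) σ' := by
  classical
  obtain ⟨b0, hb0⟩ : ∃ b0 : Fin n, b0.val + m + 1 = n := ⟨⟨n - m - 1, by omega⟩, by
    change n - m - 1 + m + 1 = n
    omega⟩
  have hgt : ∀ b : Fin n, b0 < b → n ≤ m + b.val := by
    intro b hb
    have : b0.val < b.val := hb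
    omega
  -- the pivot
  obtain ⟨p, hp, hpmin⟩ : ∃ p, M p b0 ≠ 0 ∧ ∀ a, a < p → M a b0 = 0 := by
    have hne : (univ.filter fun a => M a b0 ≠ 0).Nonempty := by
      by_contra h
      rw [not_nonempty_iff_eq_empty, filter_eq_empty_iff] at h
      exact hM (Matrix.det_eq_zero_of_column_eq_zero b0 fun a => not_not.1 (h (mem_univ a)))
    refine ⟨_, (mem_filter.1 (min'_mem _ hne)).2, fun a ha => ?_⟩
    by_contra h
    exact absurd (min'_le _ a (mem_filter.2 ⟨mem_univ _, h⟩)) (not_le.2 ha)
  set q := M p b0 with hq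
  have hrow0 : ∀ b, b0 < b → M (σ b) b0 = 0 := by
    intro b hb
    rw [(hC b (hgt b hb)).2 b0, if_neg hb.ne]
  have hpσ : ∀ b, b0 < b → σ b ≠ p := by
    intro b hb h
    apply hp
    rw [hq, ← h]
    exact hrow0 b hb
  have hMp : ∀ b, b0 < b → M p b = 0 := by
    intro b hb
    rw [(hC b (hgt b hb)).1 p, if_neg (hpσ b hb).symm]
  -- the row operations
  set E : Matrix (Fin n) (Fin n) K := 1 + Matrix.of fun a c =>
    if c = p ∧ p < a then -(M a b0 / q) else 0 with hE
  have hEM : ∀ a c, (E * M) a c = M a c + (if p < a then -(M a b0 / q) else 0) * M p c := by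
    intro a c
    rw [hE, add_mul, one_mul, Matrix.add_apply]
    congr 1
    rw [Matrix.mul_apply, sum_eq_single p]
    · simp [Matrix.of_apply]
    · intro d _ hd
      rw [Matrix.of_apply, if_neg (fun h => hd h.1), zero_mul]
    · intro h
      exact absurd (mem_univ _) h
  have hElow : Low E := by
    refine ⟨fun a => ?_, fun a b hab => ?_⟩
    · rw [hE, Matrix.add_apply, Matrix.one_apply_eq, Matrix.of_apply,
        if_neg (fun h => absurd h.2 (by rw [h.1]; exact lt_irrefl _)), add_zero]
    · rw [hE, Matrix.add_apply, Matrix.one_apply_ne hab.ne, Matrix.of_apply,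
        if_neg (fun h => absurd (hab.trans_le (h.1.le.trans h.2.le)) (lt_irrefl _)), add_zero]
  -- the column operations
  set F : Matrix (Fin n) (Fin n) K := Matrix.of fun a b =>
    if b = b0 then (if a = b0 then q⁻¹ else 0) else
      (if a = b then 1 else 0) + (if a = b0 ∧ b < b0 then -(M p b / q) else 0) with hF
  have hF1 : ∀ a b, a < b → F a b = 0 := by
    intro a b hab
    rw [hF, Matrix.of_apply]
    by_cases h : b = b0
    · rw [if_pos h, if_neg (by rw [← h]; exact hab.ne)]
    · rw [if_neg h, if_neg hab.ne, if_neg (fun h' => absurd (h'.2.trans (h'.1 ▸ hab)) (lt_irrefl _)),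
        add_zero]
  have hF2 : F.det ≠ 0 := by
    have h1 : F.IsLowerTriangular := fun a b hab => hF1 a b hab
    rw [Matrix.det_of_isLowerTriangular F h1, prod_ne_zero_iff]
    intro a _
    rw [hF, Matrix.of_apply]
    by_cases h : a = b0
    · rw [if_pos h, if_pos h]
      exact inv_ne_zero hp
    · rw [if_neg h, if_pos rfl, if_neg (fun h' => h h'.1), add_zero]
      exact one_ne_zero
  have hMF : ∀ (X : Matrix (Fin n) (Fin n) K) a b, (X * F) a b =
      if b = b0 then X a b0 * q⁻¹ else X a b + (if b < b0 then -(X a b0 * (M p b / q)) else 0) := by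
    intro X a b
    by_cases h : b = b0
    · rw [if_pos h, Matrix.mul_apply, sum_eq_single b0]
      · rw [hF, Matrix.of_apply, if_pos h, if_pos rfl]
      · intro d _ hd
        rw [hF, Matrix.of_apply, if_pos h, if_neg hd, mul_zero]
      · intro h
        exact absurd (mem_univ _) h
    · rw [if_neg h, Matrix.mul_apply]
      have h1 : ∀ d, X a d * F d b = (if d = b then X a d else 0) +
          (if d = b0 then (if b < b0 then -(X a b0 * (M p b / q)) else 0) else 0) := by
        intro d
        rw [hF, Matrix.of_apply, if_neg h, mul_add]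
        congr 1
        · rw [mul_ite, mul_one, mul_zero]
        · by_cases hd : d = b0
          · rw [if_pos hd]
            by_cases hb : b < b0
            · rw [if_pos ⟨hd, hb⟩, if_pos hb, hd, mul_neg]
            · rw [if_neg (fun h => hb h.2), if_neg hb, mul_zero]
          · rw [if_neg hd, if_neg (fun h => hd h.1), mul_zero]
      rw [sum_congr rfl fun d _ => h1 d, sum_add_distrib, sum_ite_eq' univ b, sum_ite_eq' univ b0,
        if_pos (mem_univ _), if_pos (mem_univ _)]
  have hcol : ∀ a, (E * M) a b0 = if a = p then q else 0 := by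
    intro a
    rw [hEM, ← hq]
    rcases lt_trichotomy a p with h | h | h
    · rw [if_neg h.ne, if_neg h.not_gt, hpmin a h, zero_mul, add_zero]
    · rw [if_pos h, h, if_neg (lt_irrefl _), zero_mul, add_zero]
    · rw [if_neg h.ne', if_pos h, neg_mul, div_mul_cancel₀ _ hp, add_neg_cancel]
  obtain ⟨σ', hσ1, hσ2⟩ : ∃ σ' : Fin n → Fin n, σ' b0 = p ∧ ∀ b, b ≠ b0 → σ' b = σ b :=
    ⟨fun b => if b = b0 then p else σ b, if_pos rfl, fun b hb => if_neg hb⟩
  refine ⟨E, F, σ', hElow, hF1, hF2, ?_⟩
  intro b hb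
  by_cases hbb : b = b0
  · subst hbb
    refine ⟨fun a => ?_, fun c => ?_⟩
    · rw [hMF, if_pos rfl, hcol]
      by_cases h : a = p
      · rw [if_pos h, if_pos (by rw [hσ1]; exact h), mul_inv_cancel₀ hp]
      · rw [if_neg h, if_neg (by rw [hσ1]; exact h), zero_mul]
    · rw [hσ1, hMF]
      by_cases h : c = b
      · rw [if_pos h, if_pos h, hcol, if_pos rfl, mul_inv_cancel₀ hp]
      · rw [if_neg h, if_neg h, hEM, if_neg (lt_irrefl _), zero_mul, add_zero, hcol, if_pos rfl]
        rcases lt_or_gt_of_ne h with h' | h'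
        · rw [if_pos h', mul_div_cancel₀ _ hp, add_neg_cancel]
        · rw [if_neg h'.not_gt, hMp c h', add_zero]
  · have hlt : b0 < b := by
      have h1 : b0.val ≤ b.val := by omega
      exact lt_of_le_of_ne h1 (Ne.symm hbb)
    have hCb := hC b (hgt b hlt)
    have hEb : ∀ c, (E * M) (σ b) c = M (σ b) c := by
      intro c
      rw [hEM, hrow0 b hlt, zero_div, neg_zero, ite_self, zero_mul, add_zero]
    refine ⟨fun a => ?_, fun c => ?_⟩
    · rw [hσ2 b hbb, hMF, if_neg hbb, if_neg hlt.not_gt, add_zero, hEM, hMp b hlt, mul_zero,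
        add_zero]
      exact hCb.1 a
    · rw [hσ2 b hbb, hMF]
      by_cases h : c = b0
      · rw [if_pos h, if_neg (by rw [h]; exact hlt.ne), hcol, if_neg (hpσ b hlt), zero_mul]
      · rw [if_neg h, hEb, hcol, if_neg (hpσ b hlt), zero_mul, neg_zero, ite_self, add_zero]
        exact hCb.2 c

theorem main (g : Matrix (Fin n) (Fin n) K) (hg : g.det ≠ 0) (m : ℕ) (hm : m ≤ n) :
    ∃ (v h : Matrix (Fin n) (Fin n) K) (σ : Fin n → Fin n), Low v ∧
      (∀ a b, a < b → h a b = 0) ∧ h.det ≠ 0 ∧ Cols m (v * g * h) σ := by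
  induction m with
  | zero =>
    refine ⟨1, 1, id, ⟨fun a => Matrix.one_apply_eq a, fun a b hab => Matrix.one_apply_ne hab.ne⟩,
      fun a b hab => Matrix.one_apply_ne hab.ne, by rw [Matrix.det_one]; exact one_ne_zero, ?_⟩
    intro b hb
    have := b.2
    omega
  | succ m ih =>
    obtain ⟨v, h, σ, hv, hh, hd, hC⟩ := ih (by omega)
    have hM : (v * g * h).det ≠ 0 := by
      rw [Matrix.det_mul, Matrix.det_mul, low_det hv, one_mul]
      exact mul_ne_zero hg hd
    obtain ⟨E, F, σ', hE, hF, hFd, hC'⟩ := step (by omega) hM hC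
    refine ⟨E * v, h * F, σ', low_mul hE hv, ?_, ?_, ?_⟩
    · exact fun a b hab => par_mul (y := fun a : Fin n => a.val) (fun a b hab => hh a b hab)
        (fun a b hab => hF a b hab) a b hab
    · rw [Matrix.det_mul]
      exact mul_ne_zero hd hFd
    · have : E * v * g * (h * F) = E * (v * g * h) * F := by
        simp only [Matrix.mul_assoc]
      rw [this]
      exact hC'

end N1

open N1 in
/-- Row N1. -/
theorem stBruhat : StBruhat := by
  classical
  intro K _ n g hg
  obtain ⟨v, h, σ, hv, hh, hd, hC⟩ := N1.main g hg n le_rfl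
  have hC' : ∀ b : Fin n, (∀ a, (v * g * h) a b = if a = σ b then 1 else 0) ∧
      ∀ c, (v * g * h) (σ b) c = if c = b then 1 else 0 := fun b => hC b (by omega)
  have hinj : Function.Injective σ := by
    intro b b' hbb
    by_contra hne
    have h1 := (hC' b).2 b'
    rw [if_neg (Ne.symm hne), (hC' b').1, if_pos hbb] at h1
    exact one_ne_zero h1
  refine ⟨Equiv.ofBijective σ (Finite.injective_iff_bijective.1 hinj), v⁻¹, h,
    (low_inv hv).1, (low_inv hv).2, hh, hd, ?_⟩
  intro a b
  have h1 : g * h = v⁻¹ * (v * g * h) := by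
    rw [Matrix.mul_assoc, ← Matrix.mul_assoc v⁻¹, Matrix.nonsing_inv_mul _
      (by rw [low_det hv]; exact isUnit_one), Matrix.one_mul]
  rw [h1, Matrix.mul_apply, sum_eq_single (σ b)]
  · rw [(hC' b).1, if_pos rfl, mul_one]
    rfl
  · intro c _ hc
    rw [(hC' b).1, if_neg hc, mul_zero]
  · intro h
    exact absurd (mem_univ _) h

end Pool.Agent.Lib.MP_1acd66_nt.AR
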