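import Pool.Agent.Lib.MP_1acd66_nt.AR.Defs6

/-!
Row N2: permutation matrices permute the blocks.
-/

namespace Pool.Agent.Lib.MP_1acd66_nt.AR

open Finset Pool.Agent.Lib.MP_1acd66_nt.Gen

variable {k : ℕ} {r : Fin k → ℕ} {W : Type} [Fintype W]

/-- A permutation matrix maps weight vectors to weight vectors of the permuted weight. -/
theorem wt_of_perm_ne [DecidableEq W] (ρ : FRep r W) {K : Type} [Field K]
    (σ : ∀ i, Equiv.Perm (Fin (r i))) {w w' : W}
    (h : ρ.pull K (perm K σ 1) (Pi.single w' 1) w ≠ 0) (i0 : Fin k) (a0 : Fin (r i0)) :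
    ρ.wt w' i0 (σ i0 a0) = ρ.wt w i0 a0 := by
  classical
  let L := Polynomial K
  let P : Grp L r := perm L σ 1
  have hP : P = fun i => (perm K σ 1 i).map (Polynomial.C : K →+* L) := by
    funext i
    ext1 a b
    change (1 : Matrix (Fin (r i)) (Fin (r i)) L) ((σ i).symm a) b =
      Polynomial.C ((1 : Matrix (Fin (r i)) (Fin (r i)) K) ((σ i).symm a) b)
    rw [Matrix.one_apply, Matrix.one_apply]
    split_ifs
    · rw [map_one]
    · rw [map_zero]
  have hs : (fun v => (Polynomial.C : K →+* L) ((Pi.single w' 1 : W → K) v)) = Pi.single w' 1 := by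
    funext v
    by_cases hv : v = w'
    · rw [hv, Pi.single_eq_same, Pi.single_eq_same, map_one]
    · rw [Pi.single_eq_of_ne hv, Pi.single_eq_of_ne hv, map_zero]
  have hne : ρ.pull L P (Pi.single w' 1) w ≠ 0 := by
    rw [hP, ← hs, ρ.pull_map K L Polynomial.C (perm K σ 1) (Pi.single w' 1)]
    exact fun h0 => h (Polynomial.C_eq_zero.1 h0)
  let l : ∀ i, Fin (r i) → L := fun i a =>
    if (⟨i, a⟩ : Σ i, Fin (r i)) = ⟨i0, σ i0 a0⟩ then Polynomial.X else 1
  let l' : ∀ i, Fin (r i) → L := fun i b => l i (σ i b)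
  have hcomm : (fun i => Matrix.diagonal (l i) : Grp L r) * P =
      P * (fun i => Matrix.diagonal (l' i) : Grp L r) := by
    funext i
    ext1 a b
    change (Matrix.diagonal (l i) * P i) a b = (P i * Matrix.diagonal (l' i)) a b
    rw [Matrix.diagonal_mul, Matrix.mul_diagonal]
    change l i a * (1 : Matrix (Fin (r i)) (Fin (r i)) L) ((σ i).symm a) b =
      (1 : Matrix (Fin (r i)) (Fin (r i)) L) ((σ i).symm a) b * l i (σ i b)
    rw [Matrix.one_apply]
    split_ifs with h
    · rw [← h, Equiv.apply_symm_apply, mul_comm]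
    · rw [mul_zero, zero_mul]
  have hprod : ∀ v : W, ∏ i, ∏ a, l i a ^ ρ.wt v i a = Polynomial.X ^ ρ.wt v i0 (σ i0 a0) := by
    intro v
    rw [Finset.prod_eq_single i0, Finset.prod_eq_single (σ i0 a0)]
    · simp only [l, if_true]
    · intro a _ ha
      have : ¬ ((⟨i0, a⟩ : Σ i, Fin (r i)) = ⟨i0, σ i0 a0⟩) := by
        intro h
        exact ha (eq_of_heq (Sigma.mk.inj h).2)
      simp only [l, if_neg this, one_pow]
    · intro h
      exact absurd (mem_univ _) h
    · intro i _ hi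
      refine Finset.prod_eq_one fun a _ => ?_
      have : ¬ ((⟨i, a⟩ : Σ i, Fin (r i)) = ⟨i0, σ i0 a0⟩) := by
        intro h
        exact hi (Sigma.mk.inj h).1
      simp only [l, if_neg this, one_pow]
    · intro h
      exact absurd (mem_univ _) h
  have hprod' : ∀ v : W, ∏ i, ∏ a, l' i a ^ ρ.wt v i a = Polynomial.X ^ ρ.wt v i0 a0 := by
    intro v
    rw [Finset.prod_eq_single i0, Finset.prod_eq_single a0]
    · simp only [l', l, if_true]
    · intro a _ ha
      have : ¬ ((⟨i0, σ i0 a⟩ : Σ i, Fin (r i)) = ⟨i0, σ i0 a0⟩) := by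
        intro h
        exact ha ((σ i0).injective (eq_of_heq (Sigma.mk.inj h).2))
      simp only [l', l, if_neg this, one_pow]
    · intro h
      exact absurd (mem_univ _) h
    · intro i _ hi
      refine Finset.prod_eq_one fun a _ => ?_
      have : ¬ ((⟨i, σ i a⟩ : Σ i, Fin (r i)) = ⟨i0, σ i0 a0⟩) := by
        intro h
        exact hi (Sigma.mk.inj h).1
      simp only [l', l, if_neg this, one_pow]
    · intro h
      exact absurd (mem_univ _) h
  have h1 := ρ.pull_mul L (fun i => Matrix.diagonal (l i)) P (Pi.single w' 1)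
  have h2 := ρ.pull_mul L P (fun i => Matrix.diagonal (l' i)) (Pi.single w' 1)
  have h3 : ρ.pull L (fun i => Matrix.diagonal (l i)) (Pi.single w' 1) =
      (Polynomial.X ^ ρ.wt w' i0 (σ i0 a0) : L) • (Pi.single w' 1 : W → L) := by
    funext v
    rw [ρ.pull_diag, hprod, Pi.smul_apply, smul_eq_mul]
    by_cases hv : v = w'
    · rw [hv]
    · rw [Pi.single_eq_of_ne hv, mul_zero, mul_zero]
  rw [h3, ρ.pull_smul, hcomm, ← h2] at h1
  have h4 := congrFun h1 w
  rw [Pi.smul_apply, smul_eq_mul, ρ.pull_diag, hprod'] at h4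
  have h5 : (Polynomial.X : L) ^ ρ.wt w' i0 (σ i0 a0) = Polynomial.X ^ ρ.wt w i0 a0 :=
    mul_right_cancel₀ hne h4
  have h6 := congrArg Polynomial.natDegree h5
  rwa [Polynomial.natDegree_X_pow, Polynomial.natDegree_X_pow] at h6

theorem pairN_of_perm_ne [DecidableEq W] (ρ : FRep r W) {K : Type} [Field K]
    (σ : ∀ i, Equiv.Perm (Fin (r i))) {w w' : W}
    (h : ρ.pull K (perm K σ 1) (Pi.single w' 1) w ≠ 0) (y : ∀ i, Fin (r i) → ℕ) :
    pairN ρ (fun i a => y i ((σ i).symm a)) w' = pairN ρ y w := by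
  refine Finset.sum_congr rfl fun i _ => ?_
  rw [← Equiv.sum_comp (σ i)]
  refine Finset.sum_congr rfl fun a _ => ?_
  beta_reduce
  rw [Equiv.symm_apply_apply, wt_of_perm_ne ρ σ h]

theorem permVan_one (ρ : FRep r W) {K : Type} [Field K] (σ : ∀ i, Equiv.Perm (Fin (r i)))
    (y : ∀ i, Fin (r i) → ℕ) (u : ℕ) (A : W → K)
    (hA : ∀ w ∈ Blk ρ (fun i a => y i ((σ i).symm a)) u, A w = 0) :
    ∀ w ∈ Blk ρ y u, ρ.pull K (perm K σ 1) A w = 0 := by
  classical
  intro w hw
  rw [FRep.pull_eq_sum]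
  refine Finset.sum_eq_zero fun w' _ => ?_
  by_cases h : ρ.pull K (perm K σ 1) (Pi.single w' 1) w = 0
  · rw [h, zero_mul]
  · have h1 := pairN_of_perm_ne ρ σ h y
    have h2 : w' ∈ Blk ρ (fun i a => y i ((σ i).symm a)) u := by
      rw [Blk, Finset.mem_filter] at hw ⊢
      exact ⟨mem_univ _, by rw [h1]; exact hw.2⟩
    rw [hA w' h2, mul_zero]

theorem perm_mul_perm_symm (K : Type) [CommRing K] (σ : ∀ i, Equiv.Perm (Fin (r i))) :
    (perm K σ 1 : Grp K r) * perm K (fun i => (σ i).symm) 1 = 1 := by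
  funext i
  ext1 a b
  change ∑ c, (1 : Matrix (Fin (r i)) (Fin (r i)) K) ((σ i).symm a) c *
    (1 : Matrix (Fin (r i)) (Fin (r i)) K) (((σ i).symm).symm c) b =
      (1 : Matrix (Fin (r i)) (Fin (r i)) K) a b
  rw [Finset.sum_eq_single ((σ i).symm a)]
  · rw [Matrix.one_apply_eq, one_mul, Equiv.symm_symm, Equiv.apply_symm_apply]
  · intro c _ hc
    rw [Matrix.one_apply_ne (Ne.symm hc), zero_mul]
  · intro h
    exact absurd (mem_univ _) h

/-- Row N2. -/
theorem stPermVan (ρ : FRep r W) : StPermVan ρ := by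
  intro K _ σ y u A
  constructor
  · intro h
    have h1 := permVan_one ρ (fun i => (σ i).symm) (fun i a => y i ((σ i).symm a)) u
      (ρ.pull K (perm K σ 1) A) (by
        have e : (fun (i : Fin k) (a : Fin (r i)) => y i ((σ i).symm (((σ i).symm).symm a))) = y := by
          funext i a
          rw [Equiv.symm_symm, Equiv.symm_apply_apply]
        rw [e]
        exact h)
    rw [ρ.pull_mul, perm_mul_perm_symm, ρ.pull_one] at h1
    exact h1
  · exact permVan_one ρ σ y u A

end Pool.Agent.Lib.MP_1acd66_nt.AR
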