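import Pool.Agent.Lib.MP_1acd66_nt.AR.Defs6

/-!
The image of a dominant polynomial map modulo the primes.
-/

namespace Pool.Agent.Lib.MP_1acd66_nt.AR

open Finset Pool.Agent.Lib.MP_1acd66_nt.Gen

namespace N3m

theorem map_inj (τ : Type) : Function.Injective
    (MvPolynomial.map (σ := τ) (Int.castRingHom ℚ)) :=
  MvPolynomial.map_injective _ Int.cast_injective

theorem map_aeval {κ τ : Type} (ψ : κ → MvPolynomial τ ℤ) (F : MvPolynomial κ ℤ) :
    MvPolynomial.map (Int.castRingHom ℚ) (MvPolynomial.aeval ψ F) =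
      MvPolynomial.aeval (fun a => MvPolynomial.map (Int.castRingHom ℚ) (ψ a))
        (MvPolynomial.map (Int.castRingHom ℚ) F) := by
  have h : ((MvPolynomial.map (Int.castRingHom ℚ)).comp
      (MvPolynomial.aeval ψ : MvPolynomial κ ℤ →ₐ[ℤ] MvPolynomial τ ℤ).toRingHom :
        MvPolynomial κ ℤ →+* MvPolynomial τ ℚ) =
      (MvPolynomial.aeval (fun a => MvPolynomial.map (Int.castRingHom ℚ) (ψ a)) :
        MvPolynomial κ ℚ →ₐ[ℚ] MvPolynomial τ ℚ).toRingHom.comp
        (MvPolynomial.map (Int.castRingHom ℚ)) := by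
    refine MvPolynomial.ringHom_ext' (RingHom.ext_int _ _) fun a => ?_
    change MvPolynomial.map (Int.castRingHom ℚ) (MvPolynomial.aeval ψ (MvPolynomial.X a)) =
      MvPolynomial.aeval (fun a => MvPolynomial.map (Int.castRingHom ℚ) (ψ a))
        (MvPolynomial.map (Int.castRingHom ℚ) (MvPolynomial.X a))
    rw [MvPolynomial.aeval_X, MvPolynomial.map_X, MvPolynomial.aeval_X]
  exact DFunLike.congr_fun h F

/-- the algebraic half -/
theorem alg {ι τ : Type} [Fintype ι] [Fintype τ] (φ : ι → MvPolynomial τ ℤ)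
    (hφ : AlgebraicIndependent ℚ (fun i => MvPolynomial.map (Int.castRingHom ℚ) (φ i))) :
    ∃ (κ : Type) (_ : Fintype κ) (ψ : κ → MvPolynomial τ ℤ) (e : ι → κ), Function.Injective e ∧
      (∀ i, ψ (e i) = φ i) ∧ Fintype.card κ ≤ Fintype.card τ ∧
      AlgebraicIndependent ℚ (fun a => MvPolynomial.map (Int.castRingHom ℚ) (ψ a)) ∧
      ∀ i : τ, ∃ F : MvPolynomial (Option κ) ℤ, F ≠ 0 ∧
        MvPolynomial.aeval (fun o : Option κ => o.elim (MvPolynomial.X i) ψ) F = 0 := by
  classical
  set φ' : ι → MvPolynomial τ ℚ := fun i => MvPolynomial.map (Int.castRingHom ℚ) (φ i) with hφ'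
  have hs : AlgebraicIndepOn ℚ id (Set.range φ') := hφ.to_subtype_range
  have hadj : Algebra.adjoin ℚ (Set.range φ' ∪ Set.range (MvPolynomial.X : τ → _)) = ⊤ := by
    rw [eq_top_iff, ← MvPolynomial.adjoin_range_X]
    exact Algebra.adjoin_mono Set.subset_union_right
  have halg : Algebra.IsAlgebraic
      (Algebra.adjoin ℚ (Set.range φ' ∪ Set.range (MvPolynomial.X : τ → _)))
      (MvPolynomial τ ℚ) := by
    refine ⟨fun x => ?_⟩
    have hx : x ∈ Algebra.adjoin ℚ (Set.range φ' ∪ Set.range (MvPolynomial.X : τ → _)) := by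
      rw [hadj]
      exact Algebra.mem_top
    exact isAlgebraic_algebraMap (⟨x, hx⟩ :
      Algebra.adjoin ℚ (Set.range φ' ∪ Set.range (MvPolynomial.X : τ → _)))
  obtain ⟨u, hsu, hut, hu⟩ := exists_isTranscendenceBasis_between (Set.range φ')
    (Set.range φ' ∪ Set.range (MvPolynomial.X : τ → _)) Set.subset_union_left hs
  have hfin : u.Finite := ((Set.finite_range φ').union (Set.finite_range _)).subset hut
  have hlift : ∀ a : u, ∃ b : MvPolynomial τ ℤ, MvPolynomial.map (Int.castRingHom ℚ) b = a.1 := by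
    intro a
    rcases hut a.2 with ⟨i, hi⟩ | ⟨j, hj⟩
    · exact ⟨φ i, hi⟩
    · exact ⟨MvPolynomial.X j, by rw [MvPolynomial.map_X, hj]⟩
  choose ψ hψ using hlift
  have hψ' : (fun a => MvPolynomial.map (Int.castRingHom ℚ) (ψ a)) = ((↑) : u → _) := funext hψ
  refine ⟨u, hfin.fintype, ψ, fun i => ⟨φ' i, hsu ⟨i, rfl⟩⟩, ?_, ?_, ?_, ?_, ?_⟩
  · intro i j hij
    exact hφ.injective (Subtype.ext_iff.1 hij)
  · intro i
    exact map_inj τ (hψ _)
  · have h2 := hu.1.cardinalMk_le_trdeg
    let _ := hfin.fintype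
    rw [MvPolynomial.trdeg_of_isDomain, Cardinal.mk_fintype, Cardinal.mk_fintype,
      Cardinal.lift_natCast, Nat.cast_le] at h2
    exact h2
  · rw [hψ']
    exact hu.1
  · intro i
    let _ := hfin.fintype
    have h1 : ¬ AlgebraicIndependent ℚ (fun o : Option u =>
        o.elim (MvPolynomial.X i : MvPolynomial τ ℚ) ((↑) : u → _)) := by
      rw [hu.1.option_iff_transcendental]
      intro h2
      have h3 := hu.isAlgebraic
      exact h2 (h3.isAlgebraic _)
    rw [algebraicIndependent_iff] at h1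
    push Not at h1
    obtain ⟨F, hF0, hF⟩ := h1
    obtain ⟨n, F', hn, hF'⟩ := exists_int_poly F
    have hC : MvPolynomial.C (n : ℚ) * F ≠ 0 := by
      refine mul_ne_zero ?_ hF
      rw [Ne, MvPolynomial.C_eq_zero]
      exact_mod_cast hn.ne'
    refine ⟨F', ?_, ?_⟩
    · intro h0
      rw [h0, map_zero] at hF'
      exact hC hF'.symm
    · apply map_inj τ
      rw [map_aeval, hF', map_zero, map_mul]
      have h4 : (fun a : Option u => MvPolynomial.map (Int.castRingHom ℚ)
          (a.elim (MvPolynomial.X i) ψ)) = fun o : Option u =>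
          o.elim (MvPolynomial.X i : MvPolynomial τ ℚ) ((↑) : u → _) := by
        funext o
        cases o with
        | none => exact MvPolynomial.map_X _ _
        | some a => exact hψ a
      rw [h4, hF0, mul_zero]

/-- the polynomial in one variable -/
noncomputable def R1 {κ : Type} (F : MvPolynomial (Option κ) ℤ) :
    Polynomial (MvPolynomial κ ℤ) := MvPolynomial.optionEquivLeft ℤ κ F

theorem R1_eval {κ : Type} {K : Type} [CommRing K] (F : MvPolynomial (Option κ) ℤ) (a : κ → K)
    (x : K) : Polynomial.eval x ((R1 F).map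
      (MvPolynomial.aeval a : MvPolynomial κ ℤ →ₐ[ℤ] K).toRingHom) =
      MvPolynomial.aeval (fun o : Option κ => o.elim x a) F := by
  have h : ((Polynomial.evalRingHom x).comp (Polynomial.mapRingHom
      (MvPolynomial.aeval a : MvPolynomial κ ℤ →ₐ[ℤ] K).toRingHom)).comp
      (MvPolynomial.optionEquivLeft ℤ κ).toRingHom =
      (MvPolynomial.aeval (fun o : Option κ => o.elim x a) :
        MvPolynomial (Option κ) ℤ →ₐ[ℤ] K).toRingHom := by
    refine MvPolynomial.ringHom_ext' (RingHom.ext_int _ _) fun o => ?_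
    change Polynomial.eval x (Polynomial.map (MvPolynomial.aeval a :
      MvPolynomial κ ℤ →ₐ[ℤ] K).toRingHom (MvPolynomial.optionEquivLeft ℤ κ (MvPolynomial.X o))) =
      MvPolynomial.aeval (fun o : Option κ => o.elim x a) (MvPolynomial.X o)
    rw [MvPolynomial.aeval_X]
    cases o with
    | none =>
      rw [MvPolynomial.optionEquivLeft_X_none, Polynomial.map_X, Polynomial.eval_X]
      rfl
    | some b =>
      rw [MvPolynomial.optionEquivLeft_X_some, Polynomial.map_C, Polynomial.eval_C]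
      exact MvPolynomial.aeval_X a b
  exact DFunLike.congr_fun h F

theorem comp_aeval_apply {κ τ K : Type} [CommRing K] (ψ : κ → MvPolynomial τ ℤ) (t : τ → K)
    (F : MvPolynomial κ ℤ) : MvPolynomial.aeval t (MvPolynomial.aeval ψ F) =
      MvPolynomial.aeval (fun a => MvPolynomial.aeval t (ψ a)) F := by
  have h := DFunLike.congr_fun (MvPolynomial.comp_aeval ψ
    (MvPolynomial.aeval t : MvPolynomial τ ℤ →ₐ[ℤ] K)) F
  exact h

theorem card_image {κ τ : Type} [Fintype κ] [Fintype τ] (ψ : κ → MvPolynomial τ ℤ)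
    (hψ : AlgebraicIndependent ℚ (fun a => MvPolynomial.map (Int.castRingHom ℚ) (ψ a)))
    (F : τ → MvPolynomial (Option κ) ℤ) (hF : ∀ i, F i ≠ 0)
    (hF0 : ∀ i, MvPolynomial.aeval (fun o : Option κ => o.elim (MvPolynomial.X i) ψ) (F i) = 0) :
    ∃ (δ : ℝ) (p0 : ℕ), 0 < δ ∧ ∀ (p : ℕ) [Fact p.Prime], p0 ≤ p →
      δ * (p:ℝ) ^ Fintype.card τ ≤
        ((Set.range fun (t : τ → ZMod p) (i : κ) => MvPolynomial.aeval t (ψ i)).ncard : ℝ) := by
  classical
  have hR : ∀ i, R1 (F i) ≠ 0 := by
    intro i h0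
    apply hF i
    exact (MvPolynomial.optionEquivLeft ℤ κ).injective (h0.trans (map_zero _).symm)
  have hl : ∀ i, (R1 (F i)).leadingCoeff ≠ 0 := fun i => Polynomial.leadingCoeff_ne_zero.2 (hR i)
  have hG0 : ∀ f : MvPolynomial κ ℤ, f ≠ 0 → MvPolynomial.aeval ψ f ≠ 0 := by
    intro f hf h0
    apply hf
    have h1 := congrArg (MvPolynomial.map (Int.castRingHom ℚ)) h0
    rw [map_aeval, map_zero] at h1
    rw [algebraicIndependent_iff] at hψ
    exact map_inj κ ((hψ _ h1).trans (map_zero _).symm)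
  set G : MvPolynomial τ ℤ := ∏ i, MvPolynomial.aeval ψ (R1 (F i)).leadingCoeff with hG
  have hGne : G ≠ 0 := prod_ne_zero_iff.2 fun i _ => hG0 _ (hl i)
  obtain ⟨m, hm⟩ : ∃ m, MvPolynomial.coeff m G ≠ 0 := by
    by_contra hcon
    push Not at hcon
    exact hGne (MvPolynomial.ext _ _ fun m => by rw [hcon m, MvPolynomial.coeff_zero])
  set D : ℕ := ∏ i, ((R1 (F i)).natDegree + 1) with hD
  have hDpos : 0 < D := prod_pos fun i _ => Nat.succ_pos _
  have hDr : (0:ℝ) < D := by exact_mod_cast hDpos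
  refine ⟨1 / (2 * D), (MvPolynomial.coeff m G).natAbs + 1 + 2 * G.totalDegree, by positivity, ?_⟩
  intro p hpf hp0
  have hp : (0:ℝ) < p := by exact_mod_cast hpf.out.pos
  set f := Int.castRingHom (ZMod p) with hf
  have hG' : MvPolynomial.map f G ≠ 0 := by
    intro h0
    have h1 := congrArg (MvPolynomial.coeff m) h0
    rw [MvPolynomial.coeff_map, MvPolynomial.coeff_zero, hf, eq_intCast,
      ZMod.intCast_zmod_eq_zero_iff_dvd] at h1
    have h2 := Int.natAbs_dvd_natAbs.2 h1
    rw [Int.natAbs_natCast] at h2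
    have h3 := Nat.le_of_dvd (Int.natAbs_pos.2 hm) h2
    omega
  have hzero := card_zeros_le (MvPolynomial.map f G) hG'
  have hdeg : (MvPolynomial.map f G).totalDegree ≤ G.totalDegree := by
    rw [MvPolynomial.totalDegree, MvPolynomial.totalDegree]
    exact Finset.sup_mono (MvPolynomial.support_map_subset _ _)
  have hev : ∀ (t : τ → ZMod p) (H : MvPolynomial τ ℤ),
      MvPolynomial.eval t (MvPolynomial.map f H) = MvPolynomial.aeval t H := by
    intro t H
    rw [MvPolynomial.eval_map, MvPolynomial.aeval_def]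
    rfl
  set Ψ : (τ → ZMod p) → κ → ZMod p := fun t i => MvPolynomial.aeval t (ψ i) with hΨ
  -- the fibres
  set Gd : Finset (τ → ZMod p) := univ.filter fun t => MvPolynomial.eval t (MvPolynomial.map f G) ≠ 0
    with hGd
  have hfib : ∀ b ∈ Gd.image Ψ, (Gd.filter fun t => Ψ t = b).card ≤ D := by
    intro b hb
    have h1 : (Gd.filter fun t => Ψ t = b) ⊆ Fintype.piFinset fun i =>
        ((R1 (F i)).map (MvPolynomial.aeval b :
          MvPolynomial κ ℤ →ₐ[ℤ] ZMod p).toRingHom).roots.toFinset := by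
      intro t ht
      rw [mem_filter, hGd, mem_filter] at ht
      obtain ⟨⟨_, h2⟩, h3⟩ := ht
      rw [hev, hG, map_prod, prod_ne_zero_iff] at h2
      rw [Fintype.mem_piFinset]
      intro i
      rw [Multiset.mem_toFinset, Polynomial.mem_roots']
      constructor
      · intro h0
        have h4 := congrArg (fun P => Polynomial.coeff P (R1 (F i)).natDegree) h0
        simp only [Polynomial.coeff_map, Polynomial.coeff_zero, Polynomial.coeff_natDegree] at h4
        apply h2 i (mem_univ _)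
        rw [comp_aeval_apply]
        have h5 : (fun a => MvPolynomial.aeval t (ψ a)) = b := h3
        rw [h5]
        exact h4
      · rw [Polynomial.IsRoot, R1_eval]
        have h5 := congrArg (MvPolynomial.aeval t : MvPolynomial τ ℤ →ₐ[ℤ] ZMod p) (hF0 i)
        rw [map_zero, comp_aeval_apply] at h5
        have h6 : (fun o : Option κ => MvPolynomial.aeval t
            (o.elim (MvPolynomial.X i) ψ : MvPolynomial τ ℤ)) =
            fun o : Option κ => o.elim (t i) b := by
          funext o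
          cases o with
          | none => exact MvPolynomial.aeval_X t i
          | some a => exact congrFun h3 a
        rw [h6] at h5
        exact h5
    refine (card_le_card h1).trans ?_
    rw [Fintype.card_piFinset]
    refine prod_le_prod' fun i _ => ?_
    refine (Multiset.toFinset_card_le _).trans ((Polynomial.card_roots' _).trans ?_)
    exact (Polynomial.natDegree_map_le).trans (Nat.le_succ _)
  have h1 : Gd.card ≤ D * (Gd.image Ψ).card := by
    exact card_le_mul_card_image _ _ hfib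
  have h2 : (Gd.image Ψ).card ≤ (Set.range Ψ).ncard := by
    rw [← Set.ncard_coe_finset]
    refine Set.ncard_le_ncard ?_ (Set.toFinite _)
    intro b hb
    rw [coe_image] at hb
    obtain ⟨t, _, rfl⟩ := hb
    exact ⟨t, rfl⟩
  have h3 : (univ.filter (fun x : τ → ZMod p =>
      MvPolynomial.eval x (MvPolynomial.map f G) = 0)).card + Gd.card = p ^ Fintype.card τ := by
    rw [hGd, card_filter_add_card_filter_not, card_univ, Fintype.card_fun, ZMod.card]
  have h3' : ((univ.filter (fun x : τ → ZMod p =>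
      MvPolynomial.eval x (MvPolynomial.map f G) = 0)).card : ℝ) + (Gd.card : ℝ) =
      (p:ℝ) ^ Fintype.card τ := by exact_mod_cast h3
  have h4 : ((univ.filter (fun x : τ → ZMod p =>
      MvPolynomial.eval x (MvPolynomial.map f G) = 0)).card : ℝ) ≤
      (1 / 2) * (p:ℝ) ^ Fintype.card τ := by
    have h5 : ((MvPolynomial.map f G).totalDegree : ℝ) ≤ (1 / 2) * p := by
      have h6 : ((MvPolynomial.map f G).totalDegree : ℝ) ≤ (G.totalDegree : ℝ) := by
        exact_mod_cast hdeg
      have h7 : ((MvPolynomial.coeff m G).natAbs + 1 + 2 * G.totalDegree : ℕ) ≤ (p : ℝ) := by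
        exact_mod_cast hp0
      push_cast at h7
      have h8 : (0:ℝ) ≤ ((MvPolynomial.coeff m G).natAbs : ℝ) := Nat.cast_nonneg _
      linarith
    have h6 : (0:ℝ) ≤ (p:ℝ) ^ Fintype.card τ := by positivity
    have h7 := hzero.trans (mul_le_mul_of_nonneg_right h5 h6)
    have h8 : ((univ.filter (fun x : τ → ZMod p =>
      MvPolynomial.eval x (MvPolynomial.map f G) = 0)).card : ℝ) * p ≤
      ((1 / 2) * (p:ℝ) ^ Fintype.card τ) * p := by
      refine h7.trans (le_of_eq ?_)
      ring
    exact le_of_mul_le_mul_right h8 hp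
  have h5 : (Gd.card : ℝ) ≤ D * ((Set.range Ψ).ncard : ℝ) := by
    have h6 : Gd.card ≤ D * (Set.range Ψ).ncard := h1.trans (Nat.mul_le_mul_left _ h2)
    exact_mod_cast h6
  rw [div_mul_eq_mul_div, one_mul, div_le_iff₀ (by positivity)]
  linarith

end N3m

open N3m in
/-- Row N3. -/
theorem stDom' : StDom := by
  classical
  intro ι τ _ _ φ hφ
  obtain ⟨κ, _, ψ, e, he, hψe, hcard, hψ, hF⟩ := alg φ hφ
  choose F hF1 hF2 using hF
  obtain ⟨δ, p0, hδ, h⟩ := card_image ψ hψ F hF1 hF2
  refine ⟨δ, p0, hδ, fun p hpf hp0 => ?_⟩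
  have h1 := h p hp0
  have hp : (0:ℝ) < p := by exact_mod_cast hpf.out.pos
  have hp1 : (1:ℝ) ≤ p := by exact_mod_cast hpf.out.one_lt.le
  set Ψ : (τ → ZMod p) → κ → ZMod p := fun t i => MvPolynomial.aeval t (ψ i) with hΨ
  set Φ : (τ → ZMod p) → ι → ZMod p := fun t i => MvPolynomial.aeval t (φ i) with hΦ
  have hle : (Set.range Ψ).ncard ≤
      (Set.range Φ ×ˢ (Set.univ : Set ({a : κ // a ∉ Set.range e} → ZMod p))).ncard := by
    refine Set.ncard_le_ncard_of_injOn (fun b => (fun i => b (e i), fun a => b a.1)) ?_ ?_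
      (Set.toFinite _)
    · rintro _ ⟨t, rfl⟩
      refine ⟨⟨t, ?_⟩, Set.mem_univ _⟩
      funext i
      change MvPolynomial.aeval t (φ i) = MvPolynomial.aeval t (ψ (e i))
      rw [hψe]
    · intro a _ b _ hab
      funext x
      by_cases hx : x ∈ Set.range e
      · obtain ⟨i, rfl⟩ := hx
        exact congrFun (congrArg Prod.fst hab) i
      · exact congrFun (congrArg Prod.snd hab) ⟨x, hx⟩
  rw [Set.ncard_prod, Set.ncard_univ, Nat.card_eq_fintype_card, Fintype.card_fun, ZMod.card] at hle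
  have hc2 : Fintype.card {a : κ // a ∉ Set.range e} + Fintype.card ι = Fintype.card κ := by
    rw [Fintype.card_subtype_compl, Set.card_range_of_injective he, Nat.sub_add_cancel]
    exact Fintype.card_le_of_injective e he
  have h2 : ((Set.range Ψ).ncard : ℝ) ≤ ((Set.range Φ).ncard : ℝ) *
      (p:ℝ) ^ Fintype.card {a : κ // a ∉ Set.range e} := by exact_mod_cast hle
  have h3 : (p:ℝ) ^ (Fintype.card ι + Fintype.card {a : κ // a ∉ Set.range e}) ≤
      (p:ℝ) ^ Fintype.card τ := pow_le_pow_right₀ hp1 (by omega)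
  have h4 : δ * (p:ℝ) ^ Fintype.card ι * (p:ℝ) ^ Fintype.card {a : κ // a ∉ Set.range e} ≤
      ((Set.range Φ).ncard : ℝ) * (p:ℝ) ^ Fintype.card {a : κ // a ∉ Set.range e} := by
    rw [mul_assoc, ← pow_add]
    exact (mul_le_mul_of_nonneg_left h3 hδ.le).trans (h1.trans h2)
  exact le_of_mul_le_mul_right h4 (by positivity)

end Pool.Agent.Lib.MP_1acd66_nt.AR
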