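import Pool.Agent.Lib.MP_1acd66_nt.AR.Defs

/-!
Row B: triangular matrices and slopes.
-/

namespace Pool.Agent.Lib.MP_1acd66_nt.AR

open Finset Polynomial Pool.Agent.Lib.MP_1acd66_nt.Gen

variable {k : ℕ} {r : Fin k → ℕ} {W : Type} [Fintype W]

/-- The rescaled matrix. -/
noncomputable def resc {K : Type} [CommRing K] (y : ∀ i, Fin (r i) → ℕ) (h : Grp K r) :
    Grp K[X] r := fun i => Matrix.of fun a b => X ^ (y i a - y i b) * C (h i a b)

theorem key (ρ : FRep r W) {K : Type} [CommRing K] [DecidableEq W] (y : ∀ i, Fin (r i) → ℕ)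
    (h : Grp K r) (hh : ∀ i a b, y i a < y i b → h i a b = 0) (w w' : W) :
    (X : K[X]) ^ pairN ρ y w' * C (ρ.pull K h (Pi.single w' 1) w)
      = X ^ pairN ρ y w * ρ.pull K[X] (resc y h) (Pi.single w' 1) w := by
  let l : ∀ i, Fin (r i) → K[X] := fun i a => X ^ y i a
  let L : Grp K[X] r := fun i => Matrix.diagonal (l i)
  let H : Grp K[X] r := fun i => (h i).map C
  have hcomm : L * H = resc y h * L := by
    funext i
    change L i * H i = resc y h i * L i
    ext1 a b
    rw [Matrix.diagonal_mul, Matrix.mul_diagonal]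
    simp only [l, H, resc, Matrix.map_apply, Matrix.of_apply]
    by_cases hab : y i a < y i b
    · rw [hh i a b hab]
      simp
    · have h1 : y i a = (y i a - y i b) + y i b := by omega
      conv_lhs => rw [h1, pow_add]
      ring
  have hdiag : ∀ (A : W → K[X]) (v : W), ρ.pull K[X] L A v = X ^ pairN ρ y v * A v := by
    intro A v
    rw [show L = (fun i => Matrix.diagonal (l i)) from rfl, ρ.pull_diag]
    congr 1
    simp only [l, pairN, ← pow_mul]
    rw [← Finset.prod_pow_eq_pow_sum]
    refine Finset.prod_congr rfl fun i _ => ?_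
    rw [← Finset.prod_pow_eq_pow_sum]
  have h1 : ρ.pull K[X] H (ρ.pull K[X] L (Pi.single w' 1)) w
      = ρ.pull K[X] L (ρ.pull K[X] (resc y h) (Pi.single w' 1)) w := by
    rw [ρ.pull_mul, ρ.pull_mul, hcomm]
  have h2 : ρ.pull K[X] L (Pi.single w' 1) = ((X : K[X]) ^ pairN ρ y w') • (Pi.single w' (1 : K[X]) : W → K[X]) := by
    funext v
    rw [hdiag, Pi.smul_apply, smul_eq_mul]
    by_cases hv : v = w'
    · rw [hv]
    · rw [Pi.single_eq_of_ne hv, mul_zero, mul_zero]
  have h3 : ρ.pull K[X] H (Pi.single w' (1 : K[X])) w = C (ρ.pull K h (Pi.single w' 1) w) := by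
    have h4 := congrFun (ρ.pull_map K K[X] C h (Pi.single w' 1)) w
    have h5 : (fun v => C ((Pi.single w' (1 : K) : W → K) v)) = Pi.single w' (1 : K[X]) := by
      funext v
      by_cases hv : v = w'
      · rw [hv]; simp
      · simp [Pi.single_eq_of_ne hv]
    rw [h5] at h4
    exact h4
  rw [h2, ρ.pull_smul, Pi.smul_apply, smul_eq_mul, h3, hdiag] at h1
  exact h1

theorem stTri (ρ : FRep r W) : StTri ρ := by
  intro K _ _ y h hh w w' hne
  by_contra hlt
  apply hne
  have h1 := key ρ y h hh w w'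
  have h2 := congrArg (fun q => coeff q (pairN ρ y w')) h1
  rw [coeff_X_pow_mul', if_pos le_rfl, Nat.sub_self, coeff_C_zero, coeff_X_pow_mul',
    if_neg hlt] at h2
  exact h2

theorem stDiag (ρ : FRep r W) : StDiag ρ := by
  intro K _ _ y h h1 h0 w w' heq
  have hh : ∀ i a b, y i a < y i b → h i a b = 0 := by
    intro i a b hab
    exact h0 i a b (fun e => by rw [e] at hab; exact lt_irrefl _ hab) hab.le
  have h2 := key ρ y h hh w w'
  rw [heq] at h2
  have h3 : C (ρ.pull K h (Pi.single w' 1) w) = ρ.pull K[X] (resc y h) (Pi.single w' 1) w :=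
    (monic_X_pow (R := K) (pairN ρ y w')).isRegular.left h2
  have h4 := congrArg (fun q => (evalRingHom (0 : K)) q) h3
  simp only [coe_evalRingHom, eval_C] at h4
  have h5 := congrFun (ρ.pull_map K[X] K (evalRingHom 0) (resc y h) (Pi.single w' 1)) w
  have h6 : (fun i => (resc y h i).map (evalRingHom (0 : K))) = (1 : Grp K r) := by
    funext i
    ext1 a b
    simp only [resc, Matrix.map_apply, Matrix.of_apply, coe_evalRingHom, eval_mul, eval_pow,
      eval_X, eval_C]
    by_cases hab : a = b
    · subst hab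
      rw [Nat.sub_self, pow_zero, one_mul, h1]
      exact (Matrix.one_apply_eq a).symm
    · have h7 : (1 : Grp K r) i a b = 0 := Matrix.one_apply_ne hab
      rw [h7]
      by_cases hle : y i a ≤ y i b
      · rw [h0 i a b hab hle, mul_zero]
      · rw [zero_pow (by omega), zero_mul]
  have h8 : (fun v => (evalRingHom (0 : K)) ((Pi.single w' (1 : K[X]) : W → K[X]) v))
      = Pi.single w' (1 : K) := by
    funext v
    by_cases hv : v = w'
    · rw [hv]; simp
    · simp [Pi.single_eq_of_ne hv]
  rw [h6, h8, ρ.pull_one] at h5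
  rw [h4]
  have h9 : eval 0 (ρ.pull K[X] (resc y h) (Pi.single w' 1) w)
      = (Pi.single w' (1 : K) : W → K) w := h5.symm
  rw [h9, Pi.single_apply]

theorem stVan (ρ : FRep r W) : StVan ρ := by
  classical
  intro K _ y u h hh A hA w hw
  let φ : (W → K) →ₗ[K] (W → K) :=
    { toFun := fun A => ρ.pull K h A
      map_add' := fun A B => ρ.pull_add K h A B
      map_smul' := fun s A => ρ.pull_smul K h s A }
  have h1 : ρ.pull K h A = ∑ w', A w' • ρ.pull K h (Pi.single w' 1) := by
    have h2 : A = ∑ w', A w' • (Pi.single w' (1 : K) : W → K) := by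
      funext v
      simp [Finset.sum_apply, Pi.single_apply]
    conv_lhs => rw [h2]
    change φ (∑ w', A w' • (Pi.single w' (1 : K) : W → K)) = _
    rw [map_sum]
    refine Finset.sum_congr rfl fun w' _ => ?_
    rw [map_smul]
    rfl
  rw [h1, Finset.sum_apply]
  refine Finset.sum_eq_zero fun w' _ => ?_
  rw [Pi.smul_apply, smul_eq_mul]
  by_cases h0 : ρ.pull K h (Pi.single w' 1) w = 0
  · rw [h0, mul_zero]
  · have h3 := stTri ρ K y h hh w w' h0
    have hw' : w' ∈ Blk ρ y u := by
      simp only [Blk, mem_filter, mem_univ, true_and] at hw ⊢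
      omega
    rw [hA w' hw', zero_mul]

end Pool.Agent.Lib.MP_1acd66_nt.AR
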