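import Pool.Agent.Lib.MP_1acd66_nt.AR.Defs6
import Pool.Agent.Lib.MP_1acd66_nt.AR.RowD
import Pool.Agent.Lib.MP_1acd66_nt.AR.RowB
import Pool.Agent.Lib.MP_1acd66_nt.AR.RowJ63
import Pool.Agent.Lib.MP_1acd66_nt.Gen.FamTools

/-!
Row N4: if a positive proportion of the vectors modulo `p` which vanish on the block vanish on it
in two flags, a positive proportion of all vectors vanish on it in no flag.
-/

namespace Pool.Agent.Lib.MP_1acd66_nt.AR

open Finset Pool.Agent.Lib.MP_1acd66_nt.Gen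

namespace N4_63

/-! Double counting. -/

section count

variable {X G : Type} [Fintype X] [DecidableEq X]

/-- the number of elements which bring a point to `ZZ` -/
def nn (Gs : Finset G) (act : G → X → X) (ZZ : Finset X) (A : X) : ℕ :=
  (Gs.filter fun g => act g A ∈ ZZ).card

omit [Fintype X] in
theorem sum_nn (Gs : Finset G) (act : G → X → X) (ZZ : Finset X)
    (hbij : ∀ g ∈ Gs, Function.Bijective (act g)) (Y : Finset X)
    (hY : ∀ g ∈ Gs, ∀ A, act g A ∈ Y ↔ A ∈ Y) :
    ∑ A ∈ Y, nn Gs act ZZ A = Gs.card * (ZZ ∩ Y).card := by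
  have h1 : ∑ A ∈ Y, nn Gs act ZZ A = ∑ A ∈ Y, ∑ g ∈ Gs, if act g A ∈ ZZ then 1 else 0 := by
    refine sum_congr rfl fun A _ => ?_
    rw [nn, card_filter]
  rw [h1, sum_comm]
  have h2 : ∀ g ∈ Gs, (∑ A ∈ Y, if act g A ∈ ZZ then 1 else 0) = (ZZ ∩ Y).card := by
    intro g hg
    rw [← card_filter]
    refine card_bij (fun A _ => act g A) ?_ ?_ ?_
    · intro A hA
      rw [mem_filter] at hA
      rw [mem_inter]
      exact ⟨hA.2, (hY g hg A).2 hA.1⟩
    · intro A _ B _ h
      exact (hbij g hg).1 h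
    · intro B hB
      obtain ⟨A, hA⟩ := (hbij g hg).2 B
      rw [mem_inter] at hB
      refine ⟨A, ?_, hA⟩
      rw [mem_filter]
      refine ⟨(hY g hg A).1 ?_, ?_⟩
      · rw [hA]; exact hB.2
      · rw [hA]; exact hB.1
  rw [sum_congr rfl h2, sum_const, smul_eq_mul]

theorem count (Gs : Finset G) (act : G → X → X) (ZZ T : Finset X) (P : ℕ)
    (hbij : ∀ g ∈ Gs, Function.Bijective (act g))
    (hinv : ∀ g ∈ Gs, ∀ A, nn Gs act ZZ (act g A) = nn Gs act ZZ A) (S : Finset X)
    (hn1 : ∀ A ∈ S, P ≤ nn Gs act ZZ A)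
    (hn2 : ∀ A ∈ T, 2 * P ≤ nn Gs act ZZ A) (hT : T ⊆ ZZ) :
    2 * P * S.card + Gs.card * T.card ≤ 2 * (Gs.card * ZZ.card) := by
  set T' : Finset X := univ.filter fun A => 2 * P ≤ nn Gs act ZZ A with hT'
  have h1 := sum_nn Gs act ZZ hbij univ (fun g _ A => ⟨fun _ => mem_univ _, fun _ => mem_univ _⟩)
  have h2 := sum_nn Gs act ZZ hbij T' (fun g hg A => by
    rw [hT', mem_filter, mem_filter, hinv g hg A]
    exact ⟨fun h => ⟨mem_univ _, h.2⟩, fun h => ⟨mem_univ _, h.2⟩⟩)
  rw [inter_univ] at h1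
  have h3 : T.card ≤ (ZZ ∩ T').card := by
    refine card_le_card fun A hA => ?_
    rw [mem_inter, hT', mem_filter]
    exact ⟨hT hA, mem_univ _, hn2 A hA⟩
  have h4 : ∑ A : X, ((if A ∈ S then 2 * P else 0) + if A ∈ T' then nn Gs act ZZ A else 0) ≤
      ∑ A : X, 2 * nn Gs act ZZ A := by
    refine sum_le_sum fun A _ => ?_
    by_cases hA : A ∈ T'
    · rw [if_pos hA]
      have h5 : 2 * P ≤ nn Gs act ZZ A := by
        rw [hT', mem_filter] at hA
        exact hA.2
      split_ifs <;> omega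
    · rw [if_neg hA]
      by_cases hS : A ∈ S
      · rw [if_pos hS]
        have := hn1 A hS
        omega
      · rw [if_neg hS]
        omega
  rw [sum_add_distrib, ← mul_sum, h1, ← sum_filter, ← sum_filter, filter_univ_mem,
    filter_univ_mem, sum_const, smul_eq_mul, h2] at h4
  have h5 := Nat.mul_le_mul_left Gs.card h3
  have h6 : 2 * P * S.card = S.card * (2 * P) := mul_comm _ _
  omega

end count

variable {k : ℕ} {r : Fin k → ℕ} {W : Type} [Fintype W]

/-! The parabolic subgroup. -/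

/-- the parabolic condition -/
def Par {K : Type} [CommRing K] (y : ∀ i, Fin (r i) → ℕ) (g : Grp K r) : Prop :=
  ∀ i a b, y i a < y i b → g i a b = 0

theorem par_mul {K : Type} [CommRing K] {y : ∀ i, Fin (r i) → ℕ} {g h : Grp K r}
    (hg : Par y g) (hh : Par y h) : Par y (g * h) := by
  intro i a b hab
  change (g i * h i) a b = 0
  rw [Matrix.mul_apply]
  refine sum_eq_zero fun c _ => ?_
  by_cases h1 : y i a < y i c
  · rw [hg i a c h1, zero_mul]
  · rw [hh i c b (by omega), mul_zero]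

theorem par_inv {K : Type} [Field K] {y : ∀ i, Fin (r i) → ℕ} {g : Grp K r}
    (hg : Par y g) (hd : ∀ i, (g i).det ≠ 0) : Par y (fun i => (g i)⁻¹) := by
  intro i a b hab
  have hbt : Matrix.BlockTriangular (g i) (fun a => OrderDual.toDual (y i a)) := by
    intro a' b' hab'
    exact hg i a' b' hab'
  have : Invertible (g i) := Matrix.invertibleOfIsUnitDet _ (isUnit_iff_ne_zero.2 (hd i))
  exact Matrix.blockTriangular_inv_of_blockTriangular hbt hab

/-- the indices of the entries of the parabolic subgroup -/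
abbrev Ip (y : ∀ i, Fin (r i) → ℕ) : Type :=
  {x : (Σ i, Fin (r i) × Fin (r i)) // ¬ y x.1 x.2.1 < y x.1 x.2.2}

/-- a family of matrices with given entries -/
def mk {R : Type} [CommRing R] (y : ∀ i, Fin (r i) → ℕ) (x : Ip y → R) : Grp R r :=
  fun i => Matrix.of fun a b => if h : y i a < y i b then 0 else x ⟨⟨i, a, b⟩, h⟩

theorem mk_map {R S : Type} [CommRing R] [CommRing S] (f : R →+* S)
    (y : ∀ i, Fin (r i) → ℕ) (x : Ip y → R) (i : Fin k) :
    (mk y x i).map f = mk y (fun s => f (x s)) i := by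
  ext a b
  rw [Matrix.map_apply, mk, mk, Matrix.of_apply, Matrix.of_apply]
  split_ifs
  · rw [map_zero]
  · rfl

theorem card_Ip (y : ∀ i, Fin (r i) → ℕ) :
    Fintype.card (Ip y) + flagDim y = Fintype.card (Σ i, Fin (r i) × Fin (r i)) := by
  classical
  have h1 : flagDim y = (univ.filter fun x : (Σ i, Fin (r i) × Fin (r i)) =>
      y x.1 x.2.1 < y x.1 x.2.2).card := by
    unfold flagDim
    rw [← card_sigma]
    congr 1
    ext ⟨i, p⟩
    rw [mem_sigma, mem_filter, mem_filter]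
    simp
  rw [Fintype.card_subtype_compl, h1, Fintype.card_subtype]
  have h2 := card_le_univ (univ.filter fun x : (Σ i, Fin (r i) × Fin (r i)) =>
      y x.1 x.2.1 < y x.1 x.2.2)
  omega

open Classical in
/-- the invertible families of the parabolic subgroup -/
noncomputable def Ps (p : ℕ) [NeZero p] (y : ∀ i, Fin (r i) → ℕ) : Finset (Grp (ZMod p) r) :=
  (univ : Finset (∀ i, Fin (r i) → Fin (r i) → ZMod p)).filter fun g =>
    (∀ i, Matrix.det (g i) ≠ 0) ∧ ∀ i a b, y i a < y i b → g i a b = 0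

open Classical in
/-- the invertible families -/
noncomputable def Gs (p : ℕ) [NeZero p] (r : Fin k → ℕ) : Finset (Grp (ZMod p) r) :=
  (univ : Finset (∀ i, Fin (r i) → Fin (r i) → ZMod p)).filter fun g =>
    ∀ i, Matrix.det (g i) ≠ 0

theorem mem_Ps {p : ℕ} [NeZero p] {y : ∀ i, Fin (r i) → ℕ} {g : Grp (ZMod p) r} :
    g ∈ Ps p y ↔ (∀ i, (g i).det ≠ 0) ∧ Par y g := by
  unfold Ps
  rw [mem_filter]
  exact ⟨fun h => h.2, fun h => ⟨mem_univ _, h⟩⟩

theorem mem_Gs {p : ℕ} [NeZero p] {g : Grp (ZMod p) r} :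
    g ∈ Gs p r ↔ ∀ i, (g i).det ≠ 0 := by
  unfold Gs
  rw [mem_filter]
  exact ⟨fun h => h.2, fun h => ⟨mem_univ _, h⟩⟩

theorem card_Gs (p : ℕ) [NeZero p] :
    (Gs p r).card ≤ p ^ Fintype.card (Σ i, Fin (r i) × Fin (r i)) := by
  have h1 : p ^ Fintype.card (Σ i, Fin (r i) × Fin (r i)) =
      (univ : Finset ((Σ i, Fin (r i) × Fin (r i)) → ZMod p)).card := by
    rw [card_univ, Fintype.card_fun, ZMod.card]
  rw [h1]
  refine card_le_card_of_injOn (fun g x => g x.1 x.2.1 x.2.2) (fun _ _ => mem_coe.2 (mem_univ _)) ?_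
  intro g _ h _ hgh
  funext i a b
  exact congrFun hgh ⟨i, a, b⟩

theorem card_Ps (y : ∀ i, Fin (r i) → ℕ) : ∃ C : ℕ, ∀ (p : ℕ) [Fact p.Prime] [NeZero p],
    ((p : ℝ) - C) * (p : ℝ) ^ Fintype.card (Ip y) ≤ p * ((Ps p y).card : ℝ) := by
  classical
  set D0 : MvPolynomial (Ip y) ℤ := ∏ i, (mk y (fun s => MvPolynomial.X s) i).det with hD0
  refine ⟨D0.totalDegree, fun p _ _ => ?_⟩
  set φ := Int.castRingHom (ZMod p) with hφ
  have heval : ∀ x : Ip y → ZMod p, MvPolynomial.eval x (MvPolynomial.map φ D0) =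
      ∏ i, (mk y x i).det := by
    intro x
    rw [MvPolynomial.eval_map, hD0]
    have h1 : MvPolynomial.eval₂ φ x (∏ i, (mk y (fun s => MvPolynomial.X s) i).det) =
        MvPolynomial.eval₂Hom φ x (∏ i, (mk y (fun s => MvPolynomial.X s) i).det) := rfl
    rw [h1, map_prod]
    refine prod_congr rfl fun i _ => ?_
    have h2 := RingHom.map_det (MvPolynomial.eval₂Hom φ x)
      (mk (R := MvPolynomial (Ip y) ℤ) y (fun s => MvPolynomial.X s) i)
    rw [h2]
    congr 1
    have h3 := mk_map (MvPolynomial.eval₂Hom φ x) y (fun s => MvPolynomial.X s) i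
    rw [RingHom.mapMatrix_apply, h3]
    congr 1
    funext s
    exact MvPolynomial.eval₂_X _ _ _
  have hne : MvPolynomial.map φ D0 ≠ 0 := by
    intro h0
    have h1 := heval (fun s => if s.1.2.1 = s.1.2.2 then 1 else 0)
    rw [h0, map_zero] at h1
    have h2 : ∏ i, (mk y (fun s : Ip y => if s.1.2.1 = s.1.2.2 then (1 : ZMod p) else 0) i).det =
        1 := by
      refine prod_eq_one fun i _ => ?_
      have h3 : mk y (fun s : Ip y => if s.1.2.1 = s.1.2.2 then (1 : ZMod p) else 0) i = 1 := by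
        ext a b
        simp only [mk, Matrix.of_apply]
        by_cases hab : a = b
        · subst hab
          rw [dif_neg (lt_irrefl _), Matrix.one_apply_eq, if_pos rfl]
        · rw [Matrix.one_apply_ne hab]
          split_ifs
          · rfl
          · rfl
      rw [h3, Matrix.det_one]
    rw [h2] at h1
    exact zero_ne_one h1
  have hz := card_zeros_le (MvPolynomial.map φ D0) hne
  have hdeg : (MvPolynomial.map φ D0).totalDegree ≤ D0.totalDegree := by
    rw [MvPolynomial.totalDegree, MvPolynomial.totalDegree]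
    exact Finset.sup_mono (MvPolynomial.support_map_subset _ _)
  set Zs := univ.filter (fun x : Ip y → ZMod p => MvPolynomial.eval x (MvPolynomial.map φ D0) = 0)
    with hZs
  have h1 : (Zsᶜ).card ≤ (Ps p y).card := by
    refine card_le_card_of_injOn (fun x => mk y x) ?_ ?_
    · intro x hx
      rw [mem_coe, mem_compl, hZs, mem_filter] at hx
      rw [mem_coe, mem_Ps]
      constructor
      · intro i h0
        apply hx
        refine ⟨mem_univ _, ?_⟩
        rw [heval]
        exact prod_eq_zero (mem_univ i) h0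
      · intro i a b hab
        simp only [mk, Matrix.of_apply]
        exact dif_pos hab
    · intro x _ x' _ h
      funext s
      have h2 := congrFun (congrFun (congrFun h s.1.1) s.1.2.1) s.1.2.2
      simp only [mk, Matrix.of_apply] at h2
      rw [dif_neg s.2, dif_neg s.2] at h2
      exact h2
  have h2 : Zs.card + (Zsᶜ).card = p ^ Fintype.card (Ip y) := by
    rw [card_add_card_compl, Fintype.card_fun, ZMod.card]
  have hp0 : (0:ℝ) ≤ p := Nat.cast_nonneg _
  have h3 : (Zs.card : ℝ) + (Ps p y).card ≥ (p : ℝ) ^ Fintype.card (Ip y) := by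
    have : p ^ Fintype.card (Ip y) ≤ Zs.card + (Ps p y).card := by omega
    exact_mod_cast this
  have h4 : (Zs.card : ℝ) * p ≤ D0.totalDegree * (p : ℝ) ^ Fintype.card (Ip y) := by
    refine hz.trans ?_
    gcongr
  nlinarith

end N4_63

open N4_63 in
/-- Row N4. -/
theorem stGroup {k : ℕ} {r : Fin k → ℕ} {W : Type} [Fintype W] (ρ : FRep r W) : StGroup ρ := by
  classical
  intro y u _ hf hT
  obtain ⟨δ0, p0, hδ0, hT⟩ := hT
  obtain ⟨C, hC⟩ := card_Ps y
  set δ := min δ0 1 with hδ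
  have hδpos : 0 < δ := lt_min hδ0 one_pos
  have hδ1 : δ ≤ 1 := min_le_right _ _
  obtain ⟨M, hM⟩ := exists_nat_gt (5 * (C : ℝ) / δ)
  refine ⟨δ / 4, max p0 (M + 1), by positivity, ?_⟩
  intro p hpf hp
  have hpp : p.Prime := hpf.out
  have : NeZero p := ⟨hpp.ne_zero⟩
  have hp0 : (0:ℝ) < p := by exact_mod_cast hpp.pos
  have hpM : 5 * (C : ℝ) / δ < p := by
    have h1 : M + 1 ≤ p := (le_max_right _ _).trans hp
    have h2 : (M : ℝ) + 1 ≤ p := by exact_mod_cast h1
    linarith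
  rw [div_lt_iff₀ hδpos] at hpM
  have hT := hT p ((le_max_left _ _).trans hp)
  set Z := Blk ρ y u with hZ
  set ZZ : Finset (W → ZMod p) := univ.filter fun A => ∀ w ∈ Z, A w = 0 with hZZ
  set act : Grp (ZMod p) r → (W → ZMod p) → (W → ZMod p) := fun g A => ρ.pull (ZMod p) g A with hact
  set S : Finset (W → ZMod p) := univ.filter fun A => ∃ g : Grp (ZMod p) r,
    (∀ i, (g i).det ≠ 0) ∧ ∀ w ∈ Z, ρ.pull (ZMod p) g A w = 0 with hS
  set T : Finset (W → ZMod p) := univ.filter fun A => (∀ w ∈ Z, A w = 0) ∧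
    ∃ g : Grp (ZMod p) r, (∀ i, (g i).det ≠ 0) ∧ (∀ w ∈ Z, ρ.pull (ZMod p) g A w = 0) ∧
      ∃ i a b, y i a < y i b ∧ g i a b ≠ 0 with hTdef
  have eS : {A : W → ZMod p | ∃ g : Grp (ZMod p) r, (∀ i, (g i).det ≠ 0) ∧
      ∀ w ∈ Z, ρ.pull (ZMod p) g A w = 0}.ncard = S.card := by
    rw [← Set.ncard_coe_finset]
    congr 1
    ext A
    rw [hS, mem_coe, mem_filter]
    exact ⟨fun h => ⟨mem_univ _, h⟩, fun h => h.2⟩
  have eT : {A : W → ZMod p | (∀ w ∈ Z, A w = 0) ∧ ∃ g : Grp (ZMod p) r,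
      (∀ i, (g i).det ≠ 0) ∧ (∀ w ∈ Z, ρ.pull (ZMod p) g A w = 0) ∧
      ∃ i a b, y i a < y i b ∧ g i a b ≠ 0}.ncard = T.card := by
    rw [← Set.ncard_coe_finset]
    congr 1
    ext A
    rw [hTdef, mem_coe, mem_filter]
    exact ⟨fun h => ⟨mem_univ _, h⟩, fun h => h.2⟩
  rw [eS]
  rw [eT] at hT
  have hu : ∀ g ∈ Gs p r, ∀ i, IsUnit (g i).det := fun g hg i =>
    isUnit_iff_ne_zero.2 (mem_Gs.1 hg i)
  have hmul : ∀ g ∈ Gs p r, ∀ h ∈ Gs p r, g * h ∈ Gs p r := by
    intro g hg h hh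
    rw [mem_Gs] at *
    intro i
    change (g i * h i).det ≠ 0
    rw [Matrix.det_mul]
    exact mul_ne_zero (hg i) (hh i)
  have hsub : Ps p y ⊆ Gs p r := fun g hg => mem_Gs.2 (mem_Ps.1 hg).1
  have hcanc : ∀ g ∈ Gs p r, ∀ h h' : Grp (ZMod p) r, g * h = g * h' → h = h' := by
    intro g hg h h' e
    funext i
    have h1 : g i * h i = g i * h' i := congrFun e i
    have h2 := congrArg (fun m => (g i)⁻¹ * m) h1
    simp only [← Matrix.mul_assoc] at h2
    rwa [Matrix.nonsing_inv_mul _ (hu g hg i), Matrix.one_mul, Matrix.one_mul] at h2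
  have hcos : ∀ A g, g ∈ Gs p r → act g A ∈ ZZ → (Ps p y).image (fun h => g * h) ⊆
      (Gs p r).filter fun g => act g A ∈ ZZ := by
    intro A g hg hA g' hg'
    rw [mem_image] at hg'
    obtain ⟨h, hh, rfl⟩ := hg'
    rw [mem_filter]
    refine ⟨hmul g hg h (hsub hh), ?_⟩
    rw [hZZ, mem_filter] at hA ⊢
    refine ⟨mem_univ _, ?_⟩
    have h1 := stVan ρ (ZMod p) y u h (mem_Ps.1 hh).2 (ρ.pull (ZMod p) g A) hA.2
    intro w hw
    have h2 := h1 w hw
    rw [ρ.pull_mul] at h2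
    exact h2
  have hcard : ∀ g ∈ Gs p r, ((Ps p y).image fun h => g * h).card = (Ps p y).card := by
    intro g hg
    exact card_image_of_injective _ fun h h' e => hcanc g hg h h' e
  have key := count (Gs p r) act ZZ T (Ps p y).card ?_ ?_ S ?_ ?_ ?_
  · -- the final computation
    have hz : ZZ.card * p ^ Z.card ≤ p ^ Fintype.card W := D63.card_zeros (p := p) Z
    have hg := card_Gs (r := r) p
    have hP := hC p
    have hI := card_Ip y
    set n := Fintype.card (Σ i, Fin (r i) × Fin (r i)) with hn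
    set σ := Fintype.card (Ip y) with hσ
    set D := Fintype.card W with hD
    set z := Z.card with hzc
    have hzR : (ZZ.card : ℝ) * (p : ℝ) ^ z ≤ (p : ℝ) ^ D := by exact_mod_cast hz
    have hgR : ((Gs p r).card : ℝ) ≤ (p : ℝ) ^ n := by exact_mod_cast hg
    have hkR : 2 * ((Ps p y).card : ℝ) * S.card + (Gs p r).card * T.card ≤
        2 * ((Gs p r).card * ZZ.card) := by exact_mod_cast key
    have hTR : δ * (p : ℝ) ^ D ≤ (p : ℝ) ^ z * T.card := by
      refine le_trans ?_ hT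
      have : δ ≤ δ0 := min_le_left _ _
      gcongr
    -- multiply by p ^ z
    have h1 : 2 * ((p : ℝ) ^ z * ((Ps p y).card : ℝ) * S.card) ≤
        (2 - δ) * ((Gs p r).card * (p : ℝ) ^ D) := by
      have e1 : ((Gs p r).card : ℝ) * (ZZ.card * (p : ℝ) ^ z) ≤ (Gs p r).card * (p : ℝ) ^ D := by
        gcongr
      have e2 : ((Gs p r).card : ℝ) * (δ * (p : ℝ) ^ D) ≤
          (Gs p r).card * ((p : ℝ) ^ z * T.card) := by gcongr
      have e3 := mul_le_mul_of_nonneg_left hkR (show (0:ℝ) ≤ (p:ℝ) ^ z by positivity)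
      nlinarith
    have h2 : 2 * ((p : ℝ) ^ z * ((Ps p y).card : ℝ) * S.card) ≤
        (2 - δ) * ((p : ℝ) ^ n * (p : ℝ) ^ D) := by
      refine h1.trans ?_
      have : 0 ≤ 2 - δ := by linarith
      gcongr
    -- the parabolic subgroup is large
    have hpn : (p : ℝ) ^ n ≤ (p : ℝ) ^ z * (p : ℝ) ^ σ := by
      rw [← pow_add]
      refine pow_le_pow_right₀ ?_ (by omega)
      exact_mod_cast hpp.one_lt.le
    have h3 : 2 * (((p : ℝ) - C) * S.card) * ((p : ℝ) ^ z * (p : ℝ) ^ σ) ≤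
        p * ((2 - δ) * (p : ℝ) ^ D) * ((p : ℝ) ^ z * (p : ℝ) ^ σ) := by
      calc 2 * (((p : ℝ) - C) * S.card) * ((p : ℝ) ^ z * (p : ℝ) ^ σ)
          = 2 * ((p : ℝ) ^ z * (((p : ℝ) - C) * (p : ℝ) ^ σ) * S.card) := by ring
        _ ≤ 2 * ((p : ℝ) ^ z * (p * (Ps p y).card) * S.card) := by gcongr
        _ = p * (2 * ((p : ℝ) ^ z * ((Ps p y).card : ℝ) * S.card)) := by ring
        _ ≤ p * ((2 - δ) * ((p : ℝ) ^ n * (p : ℝ) ^ D)) := by gcongr
        _ ≤ p * ((2 - δ) * (((p : ℝ) ^ z * (p : ℝ) ^ σ) * (p : ℝ) ^ D)) := by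
            have : 0 ≤ 2 - δ := by linarith
            gcongr
        _ = _ := by ring
    have h4 : 2 * (((p : ℝ) - C) * S.card) ≤ p * ((2 - δ) * (p : ℝ) ^ D) :=
      le_of_mul_le_mul_right h3 (by positivity)
    have hCp : (p : ℝ) * (1 - δ / 5) ≤ (p : ℝ) - C := by nlinarith
    have h5 : 2 * ((p : ℝ) * (1 - δ / 5) * S.card) ≤ p * ((2 - δ) * (p : ℝ) ^ D) := by
      refine le_trans ?_ h4
      gcongr
    have h6 : 2 * ((1 - δ / 5) * S.card) ≤ (2 - δ) * (p : ℝ) ^ D := by
      refine le_of_mul_le_mul_left ?_ hp0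
      calc (p : ℝ) * (2 * ((1 - δ / 5) * S.card)) = 2 * ((p : ℝ) * (1 - δ / 5) * S.card) := by ring
        _ ≤ _ := h5
    -- (1 - δ/2) ≤ (1 - δ/5) (1 - δ/4)
    have h7 : (2 - δ) * (p : ℝ) ^ D ≤ 2 * ((1 - δ / 5) * ((1 - δ / 4) * (p : ℝ) ^ D)) := by
      have h8 : (0:ℝ) ≤ (p : ℝ) ^ D := by positivity
      have h9 : (2 - δ) ≤ 2 * ((1 - δ / 5) * (1 - δ / 4)) := by nlinarith
      calc (2 - δ) * (p : ℝ) ^ D ≤ 2 * ((1 - δ / 5) * (1 - δ / 4)) * (p : ℝ) ^ D :=
            mul_le_mul_of_nonneg_right h9 h8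
        _ = _ := by ring
    have h8 : (1 - δ / 5) * (S.card : ℝ) ≤ (1 - δ / 5) * ((1 - δ / 4) * (p : ℝ) ^ D) := by
      linarith
    exact le_of_mul_le_mul_left h8 (by linarith)
  · -- bijectivity
    intro g hg
    exact ⟨fun A B h => J63.pull_inj ρ (hu g hg) h, fun B => J63.pull_surj ρ (hu g hg) B⟩
  · -- invariance
    intro g hg A
    unfold nn
    refine card_bij (fun h _ => g * h) ?_ ?_ ?_
    · intro h hh
      rw [mem_filter] at hh ⊢
      refine ⟨hmul g hg h hh.1, ?_⟩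
      have h1 := hh.2
      rw [hact] at h1 ⊢
      simp only at h1 ⊢
      rw [ρ.pull_mul] at h1
      exact h1
    · intro h _ h' _ e
      exact hcanc g hg h h' e
    · intro h hh
      rw [mem_filter] at hh
      have hginv : (fun i => (g i)⁻¹ : Grp (ZMod p) r) ∈ Gs p r := by
        rw [mem_Gs]
        intro i
        rw [Matrix.det_nonsing_inv, Ring.inverse_eq_inv']
        exact inv_ne_zero (mem_Gs.1 hg i)
      have e : g * ((fun i => (g i)⁻¹ : Grp (ZMod p) r) * h) = h := by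
        funext i
        change g i * ((g i)⁻¹ * h i) = h i
        rw [← Matrix.mul_assoc, Matrix.mul_nonsing_inv _ (hu g hg i), Matrix.one_mul]
      refine ⟨(fun i => (g i)⁻¹ : Grp (ZMod p) r) * h, ?_, e⟩
      rw [mem_filter]
      refine ⟨hmul _ hginv _ hh.1, ?_⟩
      have h1 := hh.2
      rw [hact] at h1 ⊢
      simp only at h1 ⊢
      rw [ρ.pull_mul, e]
      exact h1
  · intro A hA
    rw [hS, mem_filter] at hA
    obtain ⟨_, g, hg, hv⟩ := hA
    have hg' : g ∈ Gs p r := mem_Gs.2 hg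
    rw [← hcard g hg']
    refine card_le_card (hcos A g hg' ?_)
    rw [hZZ, mem_filter]
    exact ⟨mem_univ _, hv⟩
  · intro A hA
    rw [hTdef, mem_filter] at hA
    obtain ⟨_, hA0, g, hg, hv, i, a, b, hab, hne⟩ := hA
    have hg' : g ∈ Gs p r := mem_Gs.2 hg
    have h1' : (1 : Grp (ZMod p) r) ∈ Gs p r := by
      rw [mem_Gs]
      intro i
      have : (1 : Grp (ZMod p) r) i = 1 := rfl
      rw [this, Matrix.det_one]
      exact one_ne_zero
    have hd : Disjoint ((Ps p y).image fun h => (1 : Grp (ZMod p) r) * h)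
        ((Ps p y).image fun h => g * h) := by
      rw [disjoint_left]
      intro m hm hm'
      rw [mem_image] at hm hm'
      obtain ⟨h, hh, rfl⟩ := hm
      obtain ⟨h', hh', e⟩ := hm'
      apply hne
      have hh1 := mem_Ps.1 hh
      have hh1' := mem_Ps.1 hh'
      have e1 : g = h * (fun i => (h' i)⁻¹ : Grp (ZMod p) r) := by
        funext j
        have e2 : g j * h' j = h j := by
          have := congrFun e j
          rw [one_mul] at this
          exact this
        change g j = h j * (h' j)⁻¹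
        rw [← e2, Matrix.mul_assoc, Matrix.mul_nonsing_inv _ (isUnit_iff_ne_zero.2 (hh1'.1 j)),
          Matrix.mul_one]
      rw [e1]
      exact par_mul hh1.2 (par_inv hh1'.2 hh1'.1) i a b hab
    have h2 : ((Ps p y).image (fun h => (1 : Grp (ZMod p) r) * h)) ∪
        ((Ps p y).image fun h => g * h) ⊆ (Gs p r).filter fun g => act g A ∈ ZZ := by
      refine union_subset (hcos A 1 h1' ?_) (hcos A g hg' ?_)
      · rw [hZZ, mem_filter, hact]
        simp only
        rw [ρ.pull_one]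
        exact ⟨mem_univ _, hA0⟩
      · rw [hZZ, mem_filter]
        exact ⟨mem_univ _, hv⟩
    have h3 := card_le_card h2
    rw [card_union_of_disjoint hd, hcard 1 h1', hcard g hg'] at h3
    unfold nn
    omega
  · intro A hA
    rw [hTdef, mem_filter] at hA
    rw [hZZ, mem_filter]
    exact ⟨mem_univ _, hA.2.1⟩

end Pool.Agent.Lib.MP_1acd66_nt.AR
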