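import Pool.Agent.Lib.MP_1acd66_nt.AR.Defs

/-!
The decomposition of invertible matrices over the field of `p`-adic numbers with respect to a
block triangular group.
-/

namespace Pool.Agent.Lib.MP_1acd66_nt.AR

open Finset

variable {p : ℕ} [Fact p.Prime] {n : ℕ}

/-- The state after the columns `b ≥ j` have been processed. -/
structure Stage (y : Fin n → ℕ) (g : Matrix (Fin n) (Fin n) ℚ_[p]) (j : ℕ)
    (h : Matrix (Fin n) (Fin n) ℚ_[p]) (s : Fin n → Fin n) : Prop where
  supp : ∀ a b, y a < y b → h a b = 0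
  diag : ∀ b : Fin n, b.val < j → h b b = 1
  low : ∀ a b : Fin n, b.val < j → a < b → h a b = 0
  norm : ∀ b : Fin n, j ≤ b.val → ∀ a, ‖(g * h) a b‖ ≤ 1
  one : ∀ b : Fin n, j ≤ b.val → (g * h) (s b) b = 1
  zero : ∀ b : Fin n, j ≤ b.val → ∀ b', b' ≠ b → (b' < b ∨ y b' = y b) → (g * h) (s b) b' = 0

theorem Stage.step {y : Fin n → ℕ} (hy : Monotone y) {g : Matrix (Fin n) (Fin n) ℚ_[p]}
    (hg : g.det ≠ 0) {j : ℕ} (hj : j < n) {h : Matrix (Fin n) (Fin n) ℚ_[p]} {s : Fin n → Fin n}
    (H : Stage y g (j + 1) h s) : ∃ h' s', Stage y g j h' s' := by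
  classical
  set M := g * h with hM
  set c : Fin n := ⟨j, hj⟩ with hc
  have Hone : ∀ b : Fin n, j + 1 ≤ b.val → M (s b) b = 1 := H.one
  have Hzero : ∀ b : Fin n, j + 1 ≤ b.val → ∀ b', b' ≠ b → (b' < b ∨ y b' = y b) →
      M (s b) b' = 0 := H.zero
  have hne : ∃ a, M a c ≠ 0 := by
    by_contra hcon
    push Not at hcon
    have h1 : g.mulVec (fun b => h b c) = 0 := by
      funext a
      exact hcon a
    have h2 := Matrix.eq_zero_of_mulVec_eq_zero hg h1
    have h3 := congrFun h2 c
    simp only [Pi.zero_apply] at h3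
    rw [H.diag c (by simp [hc])] at h3
    exact one_ne_zero h3
  have : Nonempty (Fin n) := ⟨c⟩
  obtain ⟨t, ht⟩ := Finite.exists_max (fun a => ‖M a c‖)
  have ht0 : M t c ≠ 0 := by
    obtain ⟨a, ha⟩ := hne
    intro h0
    have h1 := ht a
    rw [h0, norm_zero] at h1
    exact ha (norm_le_zero_iff.1 h1)
  have hq : ∀ a, ‖M a c * (M t c)⁻¹‖ ≤ 1 := by
    intro a
    rw [norm_mul, norm_inv, ← div_eq_mul_inv]
    exact div_le_one_of_le₀ (ht a) (norm_nonneg _)
  set β : Fin n → ℚ_[p] := fun b => if b = c then 1 - (M t c)⁻¹ else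
    if b < c ∨ y b = y c then M t b * (M t c)⁻¹ else 0 with hβ
  have hβc : β c = 1 - (M t c)⁻¹ := if_pos rfl
  have hβ1 : ∀ b, b ≠ c → (b < c ∨ y b = y c) → β b = M t b * (M t c)⁻¹ := by
    intro b h1 h2
    rw [hβ]
    simp only
    rw [if_neg h1, if_pos h2]
  have hβ2 : ∀ b, y c < y b → β b = 0 := by
    intro b h1
    rw [hβ]
    simp only
    rw [if_neg (by rintro rfl; exact lt_irrefl _ h1), if_neg]
    rintro (h2 | h2)
    · exact absurd (hy h2.le) (not_le.2 h1)
    · omega
  set h' : Matrix (Fin n) (Fin n) ℚ_[p] := Matrix.of fun a b => h a b - β b * h a c with hh'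
  have key : ∀ a b, (g * h') a b = M a b - β b * M a c := by
    intro a b
    rw [hM, Matrix.mul_apply, Matrix.mul_apply, Matrix.mul_apply, mul_sum, ← sum_sub_distrib]
    refine sum_congr rfl fun x _ => ?_
    rw [hh', Matrix.of_apply]
    ring
  refine ⟨h', Function.update s c t, ?_, ?_, ?_, ?_, ?_, ?_⟩
  · intro a b hab
    rw [hh', Matrix.of_apply, H.supp a b hab]
    rcases lt_or_ge (y c) (y b) with h1 | h1
    · rw [hβ2 b h1]; ring
    · rw [H.supp a c (lt_of_lt_of_le hab h1)]; ring
  · intro b hb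
    have hbc : b < c := hb
    rw [hh', Matrix.of_apply, H.diag b (by omega), H.low b c (by simp [hc]) hbc]
    ring
  · intro a b hb hab
    have hbc : b < c := hb
    rw [hh', Matrix.of_apply, H.low a b (by omega) hab, H.low a c (by simp [hc]) (hab.trans hbc)]
    ring
  · intro b hb a
    rw [key]
    by_cases hbc : b = c
    · rw [hbc, hβc]
      have e : M a c - (1 - (M t c)⁻¹) * M a c = M a c * (M t c)⁻¹ := by ring
      rw [e]
      exact hq a
    · have hlt : c < b := lt_of_le_of_ne hb (Ne.symm hbc)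
      have hb1 : j + 1 ≤ b.val := hlt
      rcases lt_or_ge (y c) (y b) with h1 | h1
      · rw [hβ2 b h1, zero_mul, sub_zero]
        exact H.norm b hb1 a
      · have h2 : y b = y c := le_antisymm h1 (hy hlt.le)
        rw [hβ1 b hbc (Or.inr h2)]
        have e : M t b * (M t c)⁻¹ * M a c = M t b * (M a c * (M t c)⁻¹) := by ring
        rw [e]
        have h3 : ‖M t b * (M a c * (M t c)⁻¹)‖ ≤ 1 := by
          rw [norm_mul]
          exact mul_le_one₀ (H.norm b hb1 t) (norm_nonneg _) (hq a)
        have h4 := Padic.nonarchimedean (M a b) (-(M t b * (M a c * (M t c)⁻¹)))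
        rw [norm_neg, ← sub_eq_add_neg] at h4
        exact h4.trans (max_le (H.norm b hb1 a) h3)
  · intro b hb
    rw [key]
    by_cases hbc : b = c
    · rw [hbc, Function.update_self, hβc]
      field_simp
      ring
    · have hlt : c < b := lt_of_le_of_ne hb (Ne.symm hbc)
      have hb1 : j + 1 ≤ b.val := hlt
      rw [Function.update_of_ne hbc, Hone b hb1, Hzero b hb1 c hlt.ne (Or.inl hlt)]
      ring
  · intro b hb b' hne' hor
    rw [key]
    by_cases hbc : b = c
    · subst hbc
      rw [Function.update_self, hβ1 b' hne' hor]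
      field_simp
      ring
    · have hlt : c < b := lt_of_le_of_ne hb (Ne.symm hbc)
      have hb1 : j + 1 ≤ b.val := hlt
      rw [Function.update_of_ne hbc, Hzero b hb1 b' hne' hor, Hzero b hb1 c hlt.ne (Or.inl hlt)]
      ring

theorem exists_stage {y : Fin n → ℕ} (hy : Monotone y) {g : Matrix (Fin n) (Fin n) ℚ_[p]}
    (hg : g.det ≠ 0) (i : ℕ) (hi : i ≤ n) : ∃ h s, Stage y g (n - i) h s := by
  induction i with
  | zero =>
    refine ⟨1, id, ?_, ?_, ?_, ?_, ?_, ?_⟩
    · intro a b hab
      exact Matrix.one_apply_ne (by rintro rfl; exact lt_irrefl _ hab)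
    · intro b _
      exact Matrix.one_apply_eq b
    · intro a b _ hab
      exact Matrix.one_apply_ne hab.ne
    · intro b hb
      exact absurd b.isLt (by omega)
    · intro b hb
      exact absurd b.isLt (by omega)
    · intro b hb
      exact absurd b.isLt (by omega)
  | succ i ih =>
    obtain ⟨h, s, H⟩ := ih (by omega)
    have e : n - i = n - (i + 1) + 1 := by omega
    rw [e] at H
    exact H.step hy hg (by omega)

theorem stDecomp : StDecomp := by
  intro p _ n y hy g hg
  obtain ⟨h, s, H⟩ := exists_stage hy hg n le_rfl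
  rw [Nat.sub_self] at H
  have hinj : Function.Injective s := by
    intro a b hab
    by_contra hne
    rcases lt_or_gt_of_ne hne with h1 | h1
    · have h2 := H.zero b (Nat.zero_le _) a hne (Or.inl h1)
      rw [← hab, H.one a (Nat.zero_le _)] at h2
      exact one_ne_zero h2
    · have h2 := H.zero a (Nat.zero_le _) b (Ne.symm hne) (Or.inl h1)
      rw [hab, H.one b (Nat.zero_le _)] at h2
      exact one_ne_zero h2
  have hbij : Function.Bijective s := Finite.injective_iff_bijective.1 hinj
  refine ⟨Equiv.ofBijective s hbij, h,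
    Matrix.of fun a b => ⟨(g * h) (s a) b, H.norm b (Nat.zero_le _) _⟩, H.supp, ?_, ?_, ?_⟩
  · intro a
    rw [Matrix.of_apply]
    apply Subtype.ext
    exact H.one a (Nat.zero_le _)
  · intro a b hab hyab
    rw [Matrix.of_apply]
    apply Subtype.ext
    refine H.zero a (Nat.zero_le _) b hab.symm ?_
    rcases lt_or_ge b a with h1 | h1
    · exact Or.inl h1
    · exact Or.inr (le_antisymm hyab (hy h1))
  · intro a b
    rfl

end Pool.Agent.Lib.MP_1acd66_nt.AR
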