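import Pool.Agent.Lib.MP_1acd66_nt.AR.Defs3
import Pool.Agent.Lib.MP_1acd66_nt.Gen.FamBoundary
import Pool.Agent.Lib.MP_1acd66_nt.Gen.FamTools

/-!
Density zero for the blocks whose size is the dimension of a product of projective spaces.
-/

namespace Pool.Agent.Lib.MP_1acd66_nt.AR

open Finset Pool.Agent.Lib.MP_1acd66_nt.Gen

open scoped LinearAlgebra.Projectivization

variable {k : ℕ} {r : Fin k → ℕ} {W : Type} [Fintype W]

namespace Q63

/-- the coordinates of a vector on the block, at a point -/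
noncomputable def evE (ρ : FRep r W) (I : Finset (Fin k)) {K : Type} [Field K] (x : PI K r I) :
    (W → K) →+ ({w // w ∈ BlkE ρ I} → K) where
  toFun A := fun w => ρ.pull K (colM I x.co) A w.1
  map_zero' := by
    funext w
    have h := ρ.pull_smul K (colM I x.co) 0 0
    rw [zero_smul, zero_smul] at h
    rw [h]
    rfl
  map_add' A B := by
    funext w
    rw [ρ.pull_add]
    rfl

theorem evE_apply (ρ : FRep r W) (I : Finset (Fin k)) {K : Type} [Field K] (x : PI K r I)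
    (A : W → K) (w : {w // w ∈ BlkE ρ I}) : evE ρ I x A w = ρ.pull K (colM I x.co) A w.1 := rfl

/-- the values of a combination of pure powers -/
theorem evE_comb (ρ : FRep r W) (hPow : StPow ρ) (I : Finset (Fin k)) {K : Type} [Field K]
    (x : PI K r I) {n : ℕ} (c : Fin n → K) (L : Fin n → ∀ i, Fin (r i) → K) (B : W → K)
    (w : {w // w ∈ BlkE ρ I}) :
    evE ρ I x (∑ j, c j • ρ.pull K (rowM I (L j)) B) w =
      (∑ j, c j * ∏ i ∈ I, (∑ a, L j i a * x.co i a) ^ ρ.deg i) * B w.1 := by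
  rw [map_sum, Finset.sum_apply, sum_mul]
  refine sum_congr rfl fun j _ => ?_
  rw [evE_apply, ρ.pull_smul, Pi.smul_apply, hPow K I x.co (L j) B w.1 w.2, smul_eq_mul, mul_assoc]

/-- the coordinates of a point are not all zero -/
theorem co_ne {K : Type} [Field K] {I : Finset (Fin k)} (x : PI K r I) {i : Fin k} (hi : i ∈ I) :
    x.co i ≠ 0 := by
  unfold PI.co
  rw [dif_pos hi]
  exact (x ⟨i, hi⟩).rep_nonzero

omit [Fintype W] in
/-- extension by zero -/
theorem exists_ext [DecidableEq W] {K : Type} [Field K] (Z : Finset W) (c : {w // w ∈ Z} → K) :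
    ∃ B : W → K, ∀ w : {w // w ∈ Z}, B w.1 = c w := by
  refine ⟨fun w => if h : w ∈ Z then c ⟨w, h⟩ else 0, fun w => ?_⟩
  exact dif_pos w.2

theorem evE_surj (ρ : FRep r W) (hPow : StPow ρ) (I : Finset (Fin k)) {K : Type} [Field K]
    (x : PI K r I) : Function.Surjective (evE ρ I x) := by
  classical
  intro c
  obtain ⟨B, hB⟩ := exists_ext (BlkE ρ I) c
  have hL : ∀ i, ∃ L : Fin (r i) → K, i ∈ I → ∑ a, L a * x.co i a = 1 := by
    intro i
    by_cases hi : i ∈ I
    · obtain ⟨L, hL⟩ := exists_lin_one (co_ne x hi)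
      exact ⟨L, fun _ => hL⟩
    · exact ⟨0, fun h => absurd h hi⟩
  choose L hL using hL
  refine ⟨∑ _j : Fin 1, (1 : K) • ρ.pull K (rowM I L) B, ?_⟩
  funext w
  rw [evE_comb ρ hPow I x (fun _ => (1:K)) (fun _ => L) B w]
  have h1 : ∏ i ∈ I, (∑ a, L i a * x.co i a) ^ ρ.deg i = 1 := by
    refine prod_eq_one fun i hi => ?_
    rw [hL i hi, one_pow]
  rw [h1, hB w]
  simp

/-- the number of points of the product of projective spaces over the field with `p` elements -/
theorem card_PI (p : ℕ) [Fact p.Prime] (r : Fin k → ℕ) (I : Finset (Fin k))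
    [Fintype (PI (ZMod p) r I)] :
    Fintype.card (PI (ZMod p) r I) = ∏ i ∈ I, ∑ a ∈ range (r i), p ^ a := by
  classical
  rw [← Nat.card_eq_fintype_card, Nat.card_pi,
    ← prod_coe_sort I (fun i => ∑ a ∈ range (r i), p ^ a)]
  refine prod_congr rfl fun i _ => ?_
  rw [Projectivization.card_of_finrank (ZMod p) (Fin (r i) → ZMod p) (n := r i) (by simp)]
  simp

/-- The bad vectors modulo a prime. -/
theorem bad_mod_p (ρ : FRep r W) (hPow : StPow ρ) (hSep : StSep r ρ.deg) (I : Finset (Fin k))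
    (hd : ∀ i ∈ I, 2 ≤ r i → 2 ≤ ρ.deg i) {m : ℕ} (hm : (BlkE ρ I).card = m)
    (p : ℕ) [Fact p.Prime] (hp2 : ∀ i ∈ I, 2 ^ ρ.deg i < p) [Fintype (PI (ZMod p) r I)]
    [DecidableEq W] [DecidablePred fun A : W → ZMod p => ∃ x, evE ρ I x A = 0] :
    ((univ.filter (fun A : W → ZMod p => ∃ x, evE ρ I x A = 0)).card : ℝ) ≤
      (p : ℝ) ^ (Fintype.card W) *
      ((Fintype.card (PI (ZMod p) r I) : ℝ) / (p : ℝ) ^ m -
        ((Fintype.card (PI (ZMod p) r I) : ℝ) / (p : ℝ) ^ m) ^ 2 / 2 +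
        ((Fintype.card (PI (ZMod p) r I) : ℝ) / (p : ℝ) ^ m) ^ 3 / 6 +
        ((Fintype.card (PI (ZMod p) r I) : ℝ) / (p : ℝ) ^ m) / (p : ℝ) ^ m) := by
  classical
  have hp : p.Prime := Fact.out
  have : NeZero p := ⟨hp.ne_zero⟩
  have h := card_exists_zero_le (V := W → ZMod p) (E := {w // w ∈ BlkE ρ I} → ZMod p)
    (evE ρ I) ?_ ?_
  · have e1 : (Fintype.card (W → ZMod p) : ℝ) = (p : ℝ) ^ (Fintype.card W) := by
      rw [Fintype.card_fun, ZMod.card]; push_cast; rfl
    have e2 : (Fintype.card ({w // w ∈ BlkE ρ I} → ZMod p) : ℝ) = (p : ℝ) ^ m := by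
      rw [Fintype.card_fun, ZMod.card, Fintype.card_coe, hm]; push_cast; rfl
    rw [e1, e2] at h
    convert h
  · intro x
    exact evE_surj ρ hPow I x
  · intro x y z hy hz c
    obtain ⟨B, hB⟩ := exists_ext (BlkE ρ I) c
    obtain ⟨n, s, L, h1, h2, h3⟩ := hSep I hd p hp2 x y z hy hz
    refine ⟨∑ j, s j • ρ.pull (ZMod p) (rowM I (L j)) B, ?_, ?_, ?_⟩
    · funext w
      rw [evE_comb ρ hPow I x s L B w, h1, one_mul, hB w]
    · funext w
      rw [evE_comb ρ hPow I y s L B w, h2, zero_mul]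
      rfl
    · funext w
      rw [evE_comb ρ hPow I z s L B w, h3, zero_mul]
      rfl

end Q63

open Q63

theorem stDensE (ρ : FRep r W) (hRed : StRedE ρ) (hPow : StPow ρ) (hSep : StSep r ρ.deg) :
    StDensE ρ := by
  classical
  intro hr I hm0 hm hd
  refine densityZero_of_primes (θ := 3 / 4) (by norm_num) (by norm_num) ?_
  intro P0
  obtain ⟨P, hP⟩ : ∃ P : ℕ, ∀ p : ℕ, P ≤ p →
      (((p : ℝ) / (p - 1)) ^ I.card ≤ 101 / 100) ∧ 1000 ≤ p := by
    have h1 : Filter.Tendsto (fun p : ℕ => ((p : ℝ) / (p - 1)) ^ I.card) Filter.atTop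
        (nhds (1 ^ I.card)) := by
      refine Filter.Tendsto.pow ?_ I.card
      have h2 : Filter.Tendsto (fun p : ℕ => (p : ℝ) / ((p : ℝ) + (-1))) Filter.atTop (nhds 1) :=
        tendsto_natCast_div_add_atTop (-1 : ℝ)
      exact h2
    rw [one_pow] at h1
    have h2 := h1.eventually (gt_mem_nhds (show (1:ℝ) < 101 / 100 by norm_num))
    obtain ⟨P, hP⟩ := Filter.eventually_atTop.1 h2
    refine ⟨max P 1000, fun p hp => ⟨(hP p ((le_max_left _ _).trans hp)).le,
      (le_max_right _ _).trans hp⟩⟩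
  obtain ⟨p, hp1, hp2⟩ := Nat.exists_infinite_primes
    (max (max P (P0 + 1)) (∑ i ∈ I, 2 ^ ρ.deg i + 1))
  have : Fact p.Prime := ⟨hp2⟩
  have hPp : P ≤ p := ((le_max_left _ _).trans (le_max_left _ _)).trans hp1
  have hP0p : P0 + 1 ≤ p := ((le_max_right _ _).trans (le_max_left _ _)).trans hp1
  have hp3 : ∑ i ∈ I, 2 ^ ρ.deg i + 1 ≤ p := (le_max_right _ _).trans hp1
  have hpd : ∀ i ∈ I, 2 ^ ρ.deg i < p := by
    intro i hi
    have h : 2 ^ ρ.deg i ≤ ∑ i ∈ I, 2 ^ ρ.deg i :=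
      single_le_sum (f := fun i => 2 ^ ρ.deg i) (s := I) (fun _ _ => Nat.zero_le _) hi
    omega
  obtain ⟨hq, h1000⟩ := hP p hPp
  have hp0 : (0:ℝ) < p := by exact_mod_cast hp2.pos
  have hp1' : (1:ℝ) < p := by exact_mod_cast hp2.one_lt
  have hfin : Finite (PI (ZMod p) r I) := by
    have : ∀ i : {i // i ∈ I}, Finite (ℙ (ZMod p) (Fin (r i) → ZMod p)) :=
      fun i => inferInstance
    infer_instance
  have : Fintype (PI (ZMod p) r I) := Fintype.ofFinite _
  set m : ℕ := (BlkE ρ I).card with hmdef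
  refine ⟨p, by omega, hp2,
    univ.filter (fun A : W → ZMod p => ∃ x, evE ρ I x A = 0), ?_, ?_⟩
  · refine (bad_mod_p ρ hPow hSep I hd hmdef.symm p hpd).trans ?_
    rw [mul_comm]
    refine mul_le_mul_of_nonneg_right ?_ (by positivity)
    set lam : ℝ := (Fintype.card (PI (ZMod p) r I) : ℝ) / (p : ℝ) ^ m with hlam
    -- bounds for the number of points
    have hcard : (Fintype.card (PI (ZMod p) r I) : ℝ) =
        ∏ i ∈ I, ∑ a ∈ range (r i), (p : ℝ) ^ a := by
      rw [card_PI]; push_cast; rfl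
    have hpm : (p : ℝ) ^ m = ∏ i ∈ I, (p : ℝ) ^ (r i - 1) := by
      rw [hm, prod_pow_eq_pow_sum]
    have hpm0 : 0 < (p : ℝ) ^ m := by positivity
    have hlow : 1 ≤ lam := by
      rw [hlam, le_div_iff₀ hpm0, one_mul, hcard, hpm]
      refine prod_le_prod (fun i _ => by positivity) fun i _ => ?_
      exact single_le_sum (f := fun a => (p : ℝ) ^ a) (fun a _ => by positivity)
        (mem_range.2 (by have := hr i; omega))
    have hup : lam ≤ 101 / 100 := by
      refine le_trans ?_ hq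
      rw [hlam, div_le_iff₀ hpm0, hcard, hpm]
      have h1 : ((p : ℝ) / (p - 1)) ^ I.card * ∏ i ∈ I, (p : ℝ) ^ (r i - 1) =
          ∏ i ∈ I, ((p : ℝ) / (p - 1) * (p : ℝ) ^ (r i - 1)) := by
        rw [prod_mul_distrib, prod_const]
      rw [h1]
      refine prod_le_prod (fun i _ => sum_nonneg fun a _ => by positivity) fun i _ => ?_
      rw [geom_sum_eq hp1'.ne', div_mul_eq_mul_div]
      refine div_le_div_of_nonneg_right ?_ (by linarith)
      have h2 : (p : ℝ) * (p : ℝ) ^ (r i - 1) = (p : ℝ) ^ (r i) := by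
        rw [← pow_succ']
        congr 1
        have := hr i; omega
      rw [h2]; linarith
    have hinv : lam / (p : ℝ) ^ m ≤ 101 / 100000 := by
      rw [div_le_iff₀ hpm0]
      have h1 : (1000 : ℝ) ≤ (p : ℝ) ^ m := by
        have h2 : (1000 : ℝ) ≤ p := by exact_mod_cast h1000
        exact h2.trans (le_self_pow₀ hp1'.le hm0.ne')
      nlinarith
    have h2 : lam ^ 3 ≤ (101 / 100) ^ 3 := pow_le_pow_left₀ (by linarith) hup 3
    nlinarith
  · intro A hA
    rw [mem_filter]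
    obtain ⟨x, hx⟩ := hRed hr I p A hA
    refine ⟨mem_univ _, x, ?_⟩
    funext w
    exact hx w.1 w.2

end Pool.Agent.Lib.MP_1acd66_nt.AR
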