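import Pool.Agent.Lib.MP_1acd66_nt.AR.Defs6
import Pool.Agent.Lib.MP_1acd66_nt.AR.RowA
import Pool.Agent.Lib.MP_1acd66_nt.AR.RowB
import Pool.Agent.Lib.MP_1acd66_nt.AR.RowD
import Pool.Agent.Lib.MP_1acd66_nt.AR.RowQ

/-!
The sieve.
-/

namespace Pool.Agent.Lib.MP_1acd66_nt.AR

open Finset Pool.Agent.Lib.MP_1acd66_nt.Gen

variable {k : ℕ} {r : Fin k → ℕ} {W : Type} [Fintype W]

theorem van_mod_p (ρ : FRep r W) (p : ℕ) [Fact p.Prime] {y : ∀ i, Fin (r i) → ℕ}
    (hy : ∀ i, Monotone (y i)) {u : ℕ} {A : W → ℤ} (hA : Van ρ (Blk ρ y u) (ratW A)) :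
    ∃ g : Grp (ZMod p) r, (∀ i, (g i).det ≠ 0) ∧
      ∀ w ∈ Blk ρ y u, ρ.pull (ZMod p) g (fun w => (A w : ZMod p)) w = 0 := by
  obtain ⟨g, hg, hv⟩ := hA
  set f : ℚ →+* ℚ_[p] := Rat.castHom ℚ_[p] with hf
  have hg' : ∀ i, ((g i).map f).det ≠ 0 := by
    intro i
    have h1 : ((g i).map f).det = f (g i).det := (RingHom.map_det f (g i)).symm
    rw [h1]
    intro h0
    exact hg i (f.injective (by rw [h0, map_zero]))
  choose σ h V hh hV1 hV0 hgh using fun i => stDecomp p (r i) (y i) (hy i) ((g i).map f) (hg' i)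
  have h1 : ∀ w ∈ Blk ρ y u, ρ.pull ℚ_[p] (fun i => (g i).map f) (fun w => f (ratW A w)) w = 0 := by
    intro w hw
    rw [ρ.pull_map]
    simp only
    rw [hv w hw, map_zero]
  have h2 : ∀ w ∈ Blk ρ y u,
      ρ.pull ℚ_[p] ((fun i => (g i).map f) * h) (fun w => f (ratW A w)) w = 0 := by
    rw [← ρ.pull_mul]
    exact stVan ρ ℚ_[p] y u h hh _ h1
  have e1 : (fun i => (g i).map f) * h =
      fun i => (perm ℤ_[p] σ V i).map (PadicInt.Coe.ringHom (p := p)) := by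
    funext i
    ext a b
    have h3 := hgh i ((σ i).symm a) b
    rw [Equiv.apply_symm_apply] at h3
    exact h3
  have e2 : (fun w => f (ratW A w)) =
      fun w => PadicInt.Coe.ringHom (p := p) ((A w : ℤ) : ℤ_[p]) := by
    funext w
    rw [map_intCast, hf]
    simp [ratW]
  rw [e1, e2, ρ.pull_map] at h2
  have h3 : ∀ w ∈ Blk ρ y u, ρ.pull ℤ_[p] (perm ℤ_[p] σ V) (fun w => ((A w : ℤ) : ℤ_[p])) w = 0 := by
    intro w hw
    have h4 := h2 w hw
    exact Subtype.coe_injective h4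
  have hV1' : ∀ i a, (V i).map (PadicInt.toZMod (p := p)) a a = 1 := by
    intro i a
    rw [Matrix.map_apply, hV1, map_one]
  have hV0' : ∀ i a b, a ≠ b → y i b ≤ y i a → (V i).map (PadicInt.toZMod (p := p)) a b = 0 := by
    intro i a b hab hy
    rw [Matrix.map_apply, hV0 i a b hab hy, map_zero]
  refine ⟨perm (ZMod p) σ fun i => (V i).map PadicInt.toZMod, ?_, ?_⟩
  · intro i
    exact (D63.perm_det σ _ (fun i => D63.det_one (hy i) (hV1' i) (hV0' i)) i).ne_zero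
  · intro w hw
    have h5 := ρ.pull_map ℤ_[p] (ZMod p) PadicInt.toZMod (perm ℤ_[p] σ V)
      (fun w => ((A w : ℤ) : ℤ_[p]))
    have h6 := congrFun h5 w
    rw [h3 w hw, map_zero] at h6
    rw [← h6]
    have h7 : (fun w => ((A w : ℤ) : ZMod p)) = fun w => PadicInt.toZMod ((A w : ℤ) : ℤ_[p]) := by
      funext w
      rw [map_intCast]
    rw [h7]
    rfl

/-- Row N5. -/
theorem stSieve' (ρ : FRep r W) : StSieve ρ := by
  classical
  intro y u hy h
  obtain ⟨δ, p0, hδ, hp⟩ := h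
  have hθ : max (1 - δ) 0 < 1 := max_lt (by linarith) one_pos
  refine densityZero_of_primes (θ := max (1 - δ) 0) (le_max_right _ _) hθ ?_
  intro P0
  obtain ⟨p, hp1, hp2⟩ := Nat.exists_infinite_primes (max (P0 + 1) p0)
  have : Fact p.Prime := ⟨hp2⟩
  have hpr : (0:ℝ) < p := by exact_mod_cast hp2.pos
  refine ⟨p, by have := (le_max_left _ _).trans hp1; omega, hp2,
    univ.filter (fun A : W → ZMod p => ∃ g : Grp (ZMod p) r, (∀ i, (g i).det ≠ 0) ∧
      ∀ w ∈ Blk ρ y u, ρ.pull (ZMod p) g A w = 0), ?_, ?_⟩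
  · have h1 := hp p ((le_max_right _ _).trans hp1)
    have h2 : {A : W → ZMod p | ∃ g : Grp (ZMod p) r, (∀ i, (g i).det ≠ 0) ∧
        ∀ w ∈ Blk ρ y u, ρ.pull (ZMod p) g A w = 0}.ncard =
        (univ.filter (fun A : W → ZMod p => ∃ g : Grp (ZMod p) r, (∀ i, (g i).det ≠ 0) ∧
          ∀ w ∈ Blk ρ y u, ρ.pull (ZMod p) g A w = 0)).card := by
      rw [← Set.ncard_coe_finset]
      congr 1
      ext A
      simp
    rw [h2] at h1
    exact h1.trans (mul_le_mul_of_nonneg_right (le_max_left _ _) (by positivity))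
  · intro A hA
    rw [mem_filter]
    exact ⟨mem_univ _, van_mod_p ρ p hy (not_not.1 hA)⟩

end Pool.Agent.Lib.MP_1acd66_nt.AR
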