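import Pool.Agent.Lib.MP_1acd66_nt.AR.Final3
import Pool.Agent.Lib.MP_1acd66_nt.AR.Many3
import Pool.Agent.Lib.MP_1acd66_nt.AR.RowN1
import Pool.Agent.Lib.MP_1acd66_nt.AR.RowN2
import Pool.Agent.Lib.MP_1acd66_nt.AR.RowN3m
import Pool.Agent.Lib.MP_1acd66_nt.AR.RowN4
import Pool.Agent.Lib.MP_1acd66_nt.AR.RowN5m

/-!
The final statement: no critical pair is birational.
-/

namespace Pool.Agent.Lib.MP_1acd66_nt.AR

open Filter Topology Pool.Agent.Lib.MP_1acd66_nt.Gen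

theorem final4 {k : ℕ} (r N : Fin k → ℕ) (hr : ∀ i, 0 < r i) (hN : ∀ i, r i < N i)
    {W : Type} [Fintype W] (ρ : FRep r W) (m : ℕ) (hdeg : ∀ i, 0 < ρ.deg i)
    (hW : 2 ≤ m * Fintype.card W) (hb : ∀ i, m * ρ.b i ≤ N i) (hm : Many3 ρ m)
    (h : Gen.AdelicNorm N (multRep ρ m).toRepData) :
    (∀ B, (Gen.countSet (Good3 (multRep ρ m)) h B).Finite) ∧ ∃ c : ℝ, 0 < c ∧
      Tendsto (fun B : ℝ => ((Gen.countSet (Good3 (multRep ρ m)) h B).ncard : ℝ) /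
        (B * Real.log B ^ k)) atTop (𝓝 c) :=
  final3 r N hr hN ρ m hdeg hW hb (many_of_many3 ρ m
    (stTwice _ (stVan _) (stPermVan _) stBruhat stDom') (stGroup _) (stSieve' _) hm) h

end Pool.Agent.Lib.MP_1acd66_nt.AR
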