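import Pool.Agent.Lib.MP_1acd66_nt.AR.Torus63
import Pool.Agent.Lib.MP_1acd66_nt.AR.RowJ1

/-!
Row StJac: the Jacobian of a critical pair.
-/

set_option autoImplicit false

namespace Pool.Agent.Lib.MP_1acd66_nt.AR

open Finset Pool.Agent.Lib.MP_1acd66_nt.Gen J63 TrivSqZeroExt

namespace Jac63

theorem card_fiber {α : Type} [Fintype α] (f : α → ℕ) (t : ℕ) :
    Fintype.card {a // t ≤ f a} =
      Fintype.card {a // f a = t} + Fintype.card {a // t + 1 ≤ f a} := by
  classical
  rw [Fintype.card_subtype, Fintype.card_subtype, Fintype.card_subtype,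
    ← Finset.card_union_of_disjoint]
  · congr 1
    ext a
    simp only [mem_filter, mem_union, mem_univ, true_and]
    omega
  · rw [Finset.disjoint_left]
    intro a ha hb
    simp only [mem_filter, mem_univ, true_and] at ha hb
    omega

/-- Two finite types with the same numbers of elements of each depth. -/
theorem fiber_equiv {α β : Type} [Fintype α] [Fintype β] (f : α → ℕ) (g : β → ℕ)
    (h : ∀ t, Fintype.card {a // t ≤ f a} = Fintype.card {b // t ≤ g b}) :
    ∃ ε : α ≃ β, ∀ a, g (ε a) = f a := by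
  classical
  have hc : ∀ t, Fintype.card {a // f a = t} = Fintype.card {b // g b = t} := by
    intro t
    have h1 := card_fiber f t
    have h2 := card_fiber g t
    have h3 := h t
    have h4 := h (t + 1)
    omega
  let e : ∀ t, {a // f a = t} ≃ {b // g b = t} := fun t => Fintype.equivOfCardEq (hc t)
  refine ⟨(Equiv.sigmaFiberEquiv f).symm.trans
    ((Equiv.sigmaCongrRight e).trans (Equiv.sigmaFiberEquiv g)), fun a => ?_⟩
  exact (e (f a) ⟨a, rfl⟩).2

variable {k : ℕ} {r : Fin k → ℕ} {W : Type} [Fintype W]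

theorem unit_map {R S : Type} [CommRing R] [CommRing S] (f : R →+* S)
    (x : Σ i, Fin (r i) × Fin (r i)) :
    (fun i => (1 : S) • (J41.unitM R r x i).map f) = J41.unitM S r x := by
  obtain ⟨j, c, d⟩ := x
  funext i
  rw [one_smul]
  by_cases hj : i = j
  · subst hj
    have h1 : J41.unitM R r ⟨i, c, d⟩ i = Matrix.single c d 1 := by simp [J41.unitM]
    have h2 : J41.unitM S r ⟨i, c, d⟩ i = Matrix.single c d 1 := by simp [J41.unitM]
    rw [h1, h2]
    ext1 a b
    rw [Matrix.map_apply, Matrix.single_apply, Matrix.single_apply]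
    split_ifs
    · exact map_one f
    · exact map_zero f
  · have h1 : J41.unitM R r ⟨j, c, d⟩ i = 0 := by simp [J41.unitM, Function.update_of_ne hj]
    have h2 : J41.unitM S r ⟨j, c, d⟩ i = 0 := by simp [J41.unitM, Function.update_of_ne hj]
    rw [h1, h2]
    ext1 a b
    exact map_zero f

theorem lie_unit_map (ρ : FRep r W) {R S : Type} [CommRing R] [CommRing S] (f : R →+* S)
    (x : Σ i, Fin (r i) × Fin (r i)) (B : W → R) (w : W) :
    lie ρ (J41.unitM S r x) (fun w => f (B w)) w = f (lie ρ (J41.unitM R r x) B w) := by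
  have h1 := J41.lie_map ρ f 1 (J41.unitM R r x) B w
  rw [unit_map, one_mul] at h1
  exact h1

theorem lie_unit_single [DecidableEq W] (ρ : FRep r W) {R S : Type} [CommRing R] [CommRing S]
    (f : R →+* S) (x : Σ i, Fin (r i) × Fin (r i)) (w' w : W) :
    lie ρ (J41.unitM S r x) (Pi.single w' 1) w = f (lie ρ (J41.unitM R r x) (Pi.single w' 1) w) := by
  rw [← lie_unit_map]
  congr 1
  funext v
  by_cases hv : v = w'
  · rw [hv, Pi.single_eq_same, Pi.single_eq_same, map_one]
  · rw [Pi.single_eq_of_ne hv, Pi.single_eq_of_ne hv, map_zero]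

theorem mem_steps (y : ∀ i, Fin (r i) → ℕ) (t : ℕ) (x : Σ i, Fin (r i) × Fin (r i)) :
    x ∈ stepsT y t ↔ y x.1 x.2.1 + t ≤ y x.1 x.2.2 := by
  rw [stepsT, mem_sigma, mem_filter]
  simp only [mem_univ, true_and]

theorem mem_blk (ρ : FRep r W) (y : ∀ i, Fin (r i) → ℕ) (u : ℕ) (w : W) :
    w ∈ Blk ρ y u ↔ u ≤ pairN ρ y w := by
  rw [Blk, mem_filter]
  simp only [mem_univ, true_and]

theorem det_mem {F ι κ : Type} [Field F] [Fintype κ] [DecidableEq κ]
    (S : Subalgebra F (MvPolynomial ι F)) (M : Matrix κ κ (MvPolynomial ι F))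
    (h : ∀ a b, M a b ∈ S) : M.det ∈ S := by
  rw [Matrix.det_apply']
  refine S.sum_mem fun σ _ => S.mul_mem ?_ (S.prod_mem fun a _ => h _ _)
  exact intCast_mem S _

end Jac63

open Jac63 in
/-- Row StJac. -/
theorem stJac63 {k : ℕ} {r : Fin k → ℕ} {W : Type} [Fintype W] (ρ : FRep r W) : StJac ρ := by
  classical
  intro y s hcrit A hA _ hrat
  set Z := Blk ρ y (s + 1) with hZ
  set T := stepsT y 1 with hT
  have hxT : ∀ x : {x // x ∈ T}, y x.1.1 x.1.2.1 + 1 ≤ y x.1.1 x.1.2.2 :=
    fun x => (mem_steps y 1 x.1).1 x.2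
  have hwZ : ∀ w : {w // w ∈ Z}, s + 1 ≤ pairN ρ y w.1 := fun w => (mem_blk ρ y _ w.1).1 w.2
  let dx : {x // x ∈ T} → ℕ := fun x => y x.1.1 x.1.2.2 - y x.1.1 x.1.2.1
  let dw : {w // w ∈ Z} → ℕ := fun w => pairN ρ y w.1 - s
  have hdx : ∀ x, y x.1.1 x.1.2.1 + dx x = y x.1.1 x.1.2.2 := by
    intro x
    have := hxT x
    change y x.1.1 x.1.2.1 + (y x.1.1 x.1.2.2 - y x.1.1 x.1.2.1) = y x.1.1 x.1.2.2
    omega
  have hdw : ∀ w, s + dw w = pairN ρ y w.1 := by
    intro w
    have := hwZ w
    change s + (pairN ρ y w.1 - s) = pairN ρ y w.1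
    omega
  obtain ⟨ε, hε⟩ : ∃ ε : {x // x ∈ T} ≃ {w // w ∈ Z}, ∀ a, dw (ε a) = dx a := by
    refine fiber_equiv dx dw fun t => ?_
    have h1 : Fintype.card {a : {x // x ∈ T} // t ≤ dx a} = (stepsT y (max t 1)).card := by
      rw [← Fintype.card_coe]
      refine Fintype.card_congr
        { toFun := fun a => ⟨a.1.1, ?_⟩
          invFun := fun x => ⟨⟨x.1, ?_⟩, ?_⟩
          left_inv := fun a => rfl
          right_inv := fun x => rfl }
      · rw [mem_steps]
        have h2 := hdx a.1
        have h3 := hxT a.1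
        have h4 := a.2
        omega
      · rw [hT, mem_steps]
        have h2 := (mem_steps y _ x.1).1 x.2
        omega
      · have h2 := (mem_steps y _ x.1).1 x.2
        change t ≤ y x.1.1 x.1.2.2 - y x.1.1 x.1.2.1
        omega
    have h2 : Fintype.card {a : {w // w ∈ Z} // t ≤ dw a} = (Blk ρ y (s + max t 1)).card := by
      rw [← Fintype.card_coe]
      refine Fintype.card_congr
        { toFun := fun a => ⟨a.1.1, ?_⟩
          invFun := fun x => ⟨⟨x.1, ?_⟩, ?_⟩
          left_inv := fun a => rfl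
          right_inv := fun x => rfl }
      · rw [mem_blk]
        have h2 := hdw a.1
        have h3 := hwZ a.1
        have h4 := a.2
        omega
      · rw [hZ, mem_blk]
        have h2 := (mem_blk ρ y _ x.1).1 x.2
        omega
      · have h2 := (mem_blk ρ y _ x.1).1 x.2
        change t ≤ pairN ρ y x.1 - s
        omega
    rw [h1, h2, hcrit.2.2 (max t 1) (by omega)]
  have hpε : ∀ x, pairN ρ y (ε x).1 = s + dx x := by
    intro x
    rw [← hdw, hε]
  set Bg : W → RR ρ y s := genB Z T with hBg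
  let N : Matrix {x // x ∈ T} {x // x ∈ T} (RR ρ y s) :=
    Matrix.of fun x x' => lie ρ (J41.unitM (RR ρ y s) r x.1) Bg (ε x').1
  have hent : ∀ x x' : {x // x ∈ T}, N x x' = ∑ w', Bg w' *
      algebraMap ℚ (RR ρ y s) (lie ρ (J41.unitM ℚ r x.1) (Pi.single w' 1) (ε x').1) := by
    intro x x'
    change lie ρ (J41.unitM (RR ρ y s) r x.1) Bg (ε x').1 = _
    rw [J41.lie_sum_right]
    exact sum_congr rfl fun w' _ => by rw [lie_unit_single ρ (algebraMap ℚ (RR ρ y s))]
  have hterm : ∀ (x x' : {x // x ∈ T}) (w' : W), Bg w' *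
      algebraMap ℚ (RR ρ y s) (lie ρ (J41.unitM ℚ r x.1) (Pi.single w' 1) (ε x').1) ≠ 0 →
      w' ∉ Z ∧ pairN ρ y w' ≤ s ∧ s + dx x' = pairN ρ y w' + dx x := by
    intro x x' w' hne
    have h1 : Bg w' ≠ 0 := left_ne_zero_of_mul hne
    have h2 : lie ρ (J41.unitM ℚ r x.1) (Pi.single w' 1) (ε x').1 ≠ 0 := by
      intro h0
      apply right_ne_zero_of_mul hne
      rw [h0, map_zero]
    have h3 : w' ∉ Z := by
      intro hw
      apply h1
      rw [hBg, genB, dif_pos hw]
    have h4 := J41.wt_rel ρ y x.1 (by have := hxT x; omega) (ε x').1 w' h2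
    have h5 : ¬ s + 1 ≤ pairN ρ y w' := fun h => h3 (by rw [hZ, mem_blk]; exact h)
    refine ⟨h3, by omega, ?_⟩
    rw [← hpε]
    exact h4
  have hzero : ∀ x x', dx x < dx x' → N x x' = 0 := by
    intro x x' hlt
    rw [hent]
    refine sum_eq_zero fun w' _ => ?_
    by_contra hne
    obtain ⟨_, h2, h3⟩ := hterm x x' w' hne
    omega
  let S0 : Set (Ix Z T) := {j | ∃ w, j = Sum.inr w ∧ pairN ρ y w.1 = s}
  have hsup : ∀ x x', dx x = dx x' → N x x' ∈ MvPolynomial.supported ℚ S0 := by
    intro x x' he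
    rw [hent]
    refine Subalgebra.sum_mem _ fun w' _ => ?_
    by_cases hne : Bg w' * algebraMap ℚ (RR ρ y s)
        (lie ρ (J41.unitM ℚ r x.1) (Pi.single w' 1) (ε x').1) = 0
    · rw [hne]
      exact Subalgebra.zero_mem _
    · obtain ⟨h1, h2, h3⟩ := hterm x x' w' hne
      refine Subalgebra.mul_mem _ ?_ (Subalgebra.algebraMap_mem _ _)
      have h4 : Bg w' = MvPolynomial.X (Sum.inr ⟨w', h1⟩) := by
        rw [hBg, genB, dif_neg h1]
      rw [h4, MvPolynomial.X_mem_supported]
      have h5 : pairN ρ y w' = s := by omega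
      exact ⟨⟨w', h1⟩, rfl, h5⟩
  have hbt : N.transpose.BlockTriangular dx := fun x' x h => hzero x x' h
  have hJmem : N.det ∈ MvPolynomial.supported ℚ S0 := by
    rw [← Matrix.det_transpose, hbt.det]
    refine Subalgebra.prod_mem _ fun c _ => det_mem _ _ fun a b => ?_
    exact hsup b.1 a.1 (b.2.trans a.2.symm)
  have hexp : ∀ (L : Type) [CommRing L] (f : RR ρ y s →+* L) (X : Grp L r),
      (∀ i a b, ¬ y i a < y i b → X i a b = 0) → ∀ w,
      lie ρ X (fun w => f (Bg w)) w = ∑ x : {x // x ∈ T}, X x.1.1 x.1.2.1 x.1.2.2 *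
        f (lie ρ (J41.unitM (RR ρ y s) r x.1) Bg w) := by
    intro L _ f X hX w
    rw [J41.lie_sum, sum_coe_sort T fun x => X x.1 x.2.1 x.2.2 *
        f (lie ρ (J41.unitM (RR ρ y s) r x) Bg w)]
    symm
    rw [sum_congr rfl fun x _ => by rw [← lie_unit_map ρ f x Bg w]]
    refine sum_subset (subset_univ T) fun x _ hx => ?_
    rw [hT, mem_steps] at hx
    rw [hX x.1 x.2.1 x.2.2 (by omega), zero_mul]
  have hker : ∀ (L : Type) [Field L] (f : RR ρ y s →+* L), f N.det ≠ 0 → ∀ X : Grp L r,
      (∀ i a b, ¬ y i a < y i b → X i a b = 0) →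
      (∀ w ∈ Z, lie ρ X (fun w => f (Bg w)) w = 0) → X = 0 := by
    intro L _ f hf X hX hlie
    have h1 : (N.map f).det ≠ 0 := by
      have h2 := RingHom.map_det f N
      rw [RingHom.mapMatrix_apply] at h2
      rwa [← h2]
    have h2 : Matrix.vecMul (fun x : {x // x ∈ T} => X x.1.1 x.1.2.1 x.1.2.2) (N.map f) = 0 := by
      funext x'
      have h3 := hlie (ε x').1 (ε x').2
      rw [hexp L f X hX] at h3
      exact h3
    have h3 := Matrix.eq_zero_of_vecMul_eq_zero h1 h2
    funext i
    ext1 a b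
    by_cases h : y i a < y i b
    · exact congrFun h3 ⟨⟨i, a, b⟩, by rw [hT, mem_steps]; exact h⟩
    · exact hX i a b h
  have hg1 : ∀ i a, genV Z T i a a = 1 := by
    intro i a
    simp [genV]
  have hg2 : ∀ i a b, a ≠ b → ¬ y i a < y i b → genV Z T i a b = 0 := by
    intro i a b hab hn
    have hm : (⟨i, a, b⟩ : Σ i, Fin (r i) × Fin (r i)) ∉ T := by
      rw [hT, mem_steps]
      exact fun h => hn h
    rw [genV, if_neg hab, dif_neg hm]
  have hdet : ∀ i, (genV Z T i).det = 1 := fun i => Torus63.det_one (y i) (hg1 i) (hg2 i)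
  have hJ : N.det ≠ 0 := by
    intro h0
    let L := FractionRing (RR ρ y s)
    let ι : RR ρ y s →+* L := algebraMap _ _
    have hι : Function.Injective ι := IsFractionRing.injective _ _
    have h1 : (N.map ι).det = 0 := by
      have h2 := RingHom.map_det ι N
      rw [RingHom.mapMatrix_apply] at h2
      rw [← h2, h0, map_zero]
    obtain ⟨v, hv0, hv⟩ := Matrix.exists_vecMul_eq_zero_iff.2 h1
    let X : Grp L r := fun i a b =>
      if h : (⟨i, a, b⟩ : Σ i, Fin (r i) × Fin (r i)) ∈ T then v ⟨_, h⟩ else 0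
    have hXv : ∀ x : {x // x ∈ T}, X x.1.1 x.1.2.1 x.1.2.2 = v x := fun x => dif_pos x.2
    have hX : ∀ i a b, ¬ y i a < y i b → X i a b = 0 := by
      intro i a b hn
      refine dif_neg ?_
      rw [hT, mem_steps]
      exact fun h => hn h
    have hlie : ∀ w ∈ Z, lie ρ X (fun w => ι (Bg w)) w = 0 := by
      intro w hw
      rw [hexp L ι X hX]
      have h3 : ∑ x, v x * ι (lie ρ (J41.unitM (RR ρ y s) r x.1) Bg
          (ε (ε.symm ⟨w, hw⟩)).1) = 0 := congrFun hv (ε.symm ⟨w, hw⟩)
      rw [Equiv.apply_symm_apply] at h3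
      rw [← h3]
      exact sum_congr rfl fun x _ => by rw [hXv]
    let VX : Grp L r := fun i => (genV Z T i).map ι * X i
    have hVX : ∀ i a b, ¬ y i a < y i b → VX i a b = 0 := by
      intro i a b hn
      change ((genV Z T i).map ι * X i) a b = 0
      rw [Matrix.mul_apply]
      refine sum_eq_zero fun c _ => ?_
      rw [Matrix.map_apply]
      by_cases hac : a = c
      · subst hac
        rw [hX i a b hn, mul_zero]
      · by_cases h2 : y i a < y i c
        · rw [hX i c b (by omega), mul_zero]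
        · rw [hg2 i a c hac h2, map_zero, zero_mul]
    let inlH : L →+* DualNumber L := TrivSqZeroExt.inlHom L L
    have hinl : ∀ x, inlH x = inl x := fun x => rfl
    let φ : RR ρ y s →+* DualNumber L := MvPolynomial.eval₂Hom (inlH.comp (ι.comp MvPolynomial.C))
      (Sum.elim (fun x => inl (ι (MvPolynomial.X (Sum.inl x))) +
          inr (VX x.1.1 x.1.2.1 x.1.2.2))
        fun w => inl (ι (MvPolynomial.X (Sum.inr w))) +
          inr (lie ρ X (fun w => ι (Bg w)) w.1))
    have hφl : ∀ x : {x // x ∈ T}, φ (MvPolynomial.X (Sum.inl x)) =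
        inl (ι (MvPolynomial.X (Sum.inl x))) + inr (VX x.1.1 x.1.2.1 x.1.2.2) := by
      intro x
      exact MvPolynomial.eval₂Hom_X' _ _ _
    have hφr : ∀ w : {w // w ∉ Z}, φ (MvPolynomial.X (Sum.inr w)) =
        inl (ι (MvPolynomial.X (Sum.inr w))) + inr (lie ρ X (fun w => ι (Bg w)) w.1) := by
      intro w
      exact MvPolynomial.eval₂Hom_X' _ _ _
    have hφC : ∀ q, φ (MvPolynomial.C q) = inl (ι (MvPolynomial.C q)) := by
      intro q
      exact MvPolynomial.eval₂Hom_C _ _ _
    have hφV : ∀ i a b, φ (genV Z T i a b) = inl (ι (genV Z T i a b)) + inr (VX i a b) := by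
      intro i a b
      by_cases hab : a = b
      · subst hab
        rw [hg1, hVX i a a (lt_irrefl _), map_one, map_one]
        simp
      · by_cases hm : (⟨i, a, b⟩ : Σ i, Fin (r i) × Fin (r i)) ∈ T
        · have h3 : genV Z T i a b = MvPolynomial.X (Sum.inl ⟨⟨i, a, b⟩, hm⟩) := by
            rw [genV, if_neg hab, dif_pos hm]
          rw [h3, hφl]
        · have h3 : genV Z T i a b = 0 := by
            rw [genV, if_neg hab, dif_neg hm]
          rw [h3, hVX i a b (fun h => hm (by rw [hT, mem_steps]; exact h)), map_zero, map_zero]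
          simp
    have hφB : ∀ w, φ (Bg w) = inl (ι (Bg w)) + inr (lie ρ X (fun w => ι (Bg w)) w) := by
      intro w
      by_cases hw : w ∈ Z
      · have h3 : Bg w = 0 := by
          rw [hBg, genB, dif_pos hw]
        rw [hlie w hw, h3, map_zero, map_zero]
        simp
      · have h3 : Bg w = MvPolynomial.X (Sum.inr ⟨w, hw⟩) := by
          rw [hBg, genB, dif_neg hw]
        have h4 := hφr ⟨w, hw⟩
        rw [← h3] at h4
        exact h4
    let VL : Grp L r := fun i => (genV Z T i).map ι
    let G : Grp (DualNumber L) r := (fun i => (VL i).map inlH) * onePlus X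
    have hG : (fun i => (genV Z T i).map φ) = G := by
      funext i
      change (genV Z T i).map φ = (VL i).map inlH *
        (1 + (X i).map fun x => (inr x : DualNumber L))
      rw [mul_add, mul_one]
      refine Matrix.ext fun a b => ?_
      rw [Matrix.map_apply, Matrix.add_apply, Matrix.map_apply, Matrix.mul_apply, hφV, hinl]
      have h2 : ∀ c, (VL i).map inlH a c *
          (X i).map (fun x => (inr x : DualNumber L)) c b = inr (VL i a c * X i c b) := by
        intro c
        rw [Matrix.map_apply, Matrix.map_apply, hinl, inl_mul_inr, smul_eq_mul]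
      rw [sum_congr rfl fun c _ => h2 c]
      exact congrArg (inl (ι (genV Z T i a b)) + ·)
        (map_sum (inrHom L L) (fun c => VL i a c * X i c b) univ)
    have hGdet : ∀ i, IsUnit (G i).det := by
      intro i
      rw [← hG]
      have h8 := RingHom.map_det φ (genV Z T i)
      rw [hdet i, map_one, RingHom.mapMatrix_apply] at h8
      rw [← h8]
      exact isUnit_one
    have hA' : ρ.pull (RR ρ y s) (genV Z T) A = Bg := hA
    have hφA : (fun w => φ (A w)) = fun w => inl (ι (A w)) := by
      refine pull_inj ρ (g := G) hGdet ?_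
      have e1 := ρ.pull_map (RR ρ y s) (DualNumber L) φ (genV Z T) A
      rw [hG, hA'] at e1
      have e2 : ρ.pull (DualNumber L) (fun i => (VL i).map inlH) (fun w => inl (ι (A w))) =
          fun w => inl (ι (Bg w)) := by
        have h3 := ρ.pull_map L (DualNumber L) inlH VL (fun w => ι (A w))
        have h4 := ρ.pull_map (RR ρ y s) L ι (genV Z T) A
        rw [hA'] at h4
        rw [h4] at h3
        exact h3
      rw [e1]
      change _ = ρ.pull (DualNumber L) ((fun i => (VL i).map inlH) * onePlus X) _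
      rw [← ρ.pull_mul, e2]
      funext w
      rw [J41.pull_inl]
      exact hφB w
    have hφp : ∀ p : MvPolynomial W ℚ, φ (MvPolynomial.aeval A p) =
        inlH (ι (MvPolynomial.aeval A p)) := by
      intro p
      have h3 : φ.comp (MvPolynomial.aeval A : MvPolynomial W ℚ →ₐ[ℚ] RR ρ y s).toRingHom =
          (inlH.comp ι).comp (MvPolynomial.aeval A : MvPolynomial W ℚ →ₐ[ℚ] RR ρ y s).toRingHom := by
        refine MvPolynomial.ringHom_ext ?_ ?_
        · intro q
          change φ (MvPolynomial.aeval A (MvPolynomial.C q)) =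
            inlH (ι (MvPolynomial.aeval A (MvPolynomial.C q)))
          rw [MvPolynomial.aeval_C, MvPolynomial.algebraMap_eq]
          exact hφC q
        · intro w
          change φ (MvPolynomial.aeval A (MvPolynomial.X w)) =
            inlH (ι (MvPolynomial.aeval A (MvPolynomial.X w)))
          rw [MvPolynomial.aeval_X]
          exact congrFun hφA w
      exact DFunLike.congr_fun h3 p
    have hVX0 : ∀ x : {x // x ∈ T}, VX x.1.1 x.1.2.1 x.1.2.2 = 0 := by
      intro x
      obtain ⟨Nn, Dn, hD, hND⟩ := hrat x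
      have h3 := congrArg φ hND
      rw [map_mul, hφp, hφp] at h3
      have h4 : φ (MvPolynomial.X (Sum.inl x) : RR ρ y s) =
        inl (ι (MvPolynomial.X (Sum.inl x))) + inr (VX x.1.1 x.1.2.1 x.1.2.2) := hφl x
      rw [h4, hinl, hinl, add_mul, inl_mul_inl, inr_mul_inl] at h3
      have h5 := congrArg snd h3
      rw [snd_add, snd_inl, snd_inl, snd_inr, zero_add] at h5
      have h6 : VX x.1.1 x.1.2.1 x.1.2.2 * ι (MvPolynomial.aeval A Dn) = 0 := by
        simpa using h5
      rcases mul_eq_zero.1 h6 with h7 | h7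
      · exact h7
      · exact absurd (hι (h7.trans (map_zero ι).symm)) hD
    have hVX1 : ∀ i, (genV Z T i).map ι * X i = 0 := by
      intro i
      ext1 a b
      by_cases h : y i a < y i b
      · exact hVX0 ⟨⟨i, a, b⟩, by rw [hT, mem_steps]; exact h⟩
      · exact hVX i a b h
    have hX0 : ∀ i, X i = 0 := by
      intro i
      have h3 : ((genV Z T i).map ι).det = 1 := by
        have h8 := RingHom.map_det ι (genV Z T i)
        rw [hdet i, map_one, RingHom.mapMatrix_apply] at h8
        exact h8.symm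
      have h4 : ((genV Z T i).map ι)⁻¹ * ((genV Z T i).map ι * X i) = X i := by
        rw [← Matrix.mul_assoc, Matrix.nonsing_inv_mul _ (by rw [h3]; exact isUnit_one),
          Matrix.one_mul]
      rw [← h4, hVX1, Matrix.mul_zero]
    apply hv0
    funext x
    rw [← hXv x, hX0]
    rfl
  refine ⟨N.det, hJ, ?_, ?_⟩
  · intro j hj
    exact (MvPolynomial.mem_supported.1 hJmem) hj
  · intro L _ _ h hh X hX hlie
    exact hker L h.toRingHom hh X hX hlie

end Pool.Agent.Lib.MP_1acd66_nt.AR
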