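import Pool.Agent.Lib.MP_1acd66_nt.AR.Defs7
import Pool.Agent.Lib.MP_1acd66_nt.AR.RowJ2b

/-!
Row StMod: modulo a prime which does not divide the Jacobian all but one of the coordinates of the
generic vector stay independent.
-/

set_option autoImplicit false

namespace Pool.Agent.Lib.MP_1acd66_nt.AR

open Finset Pool.Agent.Lib.MP_1acd66_nt.Gen J63

namespace Mod63

/-- If no derivation of `L` kills all `a w` then all but one of the `a w` are independent. -/
theorem exists_omit (L : Type) [Field L] [Algebra ℚ L] [Algebra.EssFiniteType ℚ L] {W : Type}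
    [Fintype W] (hW : 0 < Fintype.card W) (a : W → L)
    (hrigid : ∀ φ : L →+* DualNumber L, (∀ x, TrivSqZeroExt.fst (φ x) = x) →
      (∀ w, TrivSqZeroExt.snd (φ (a w)) = 0) → ∀ x, TrivSqZeroExt.snd (φ x) = 0)
    {ι : Type} [Fintype ι] (z : ι → L) (hz : AlgebraicIndependent ℚ z)
    (hc : Fintype.card W ≤ Fintype.card ι + 1) :
    ∃ w1, AlgebraicIndependent ℚ fun w : {w // w ≠ w1} => a w.1 := by
  classical
  set K0 := IntermediateField.adjoin ℚ (Set.range a) with hK0
  -- no derivations
  have hder : ∀ D : Derivation K0 L L, D = 0 := by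
    intro D
    have hmul : ∀ x y : L, D (x * y) = x * D y + y * D x := by
      intro x y
      rw [D.leibniz, smul_eq_mul, smul_eq_mul]
    let φ : L →+* DualNumber L :=
      { toFun := fun x => TrivSqZeroExt.inl x + TrivSqZeroExt.inr (D x)
        map_one' := by
          apply TrivSqZeroExt.ext
          · simp
          · simp
        map_mul' := by
          intro x y
          apply TrivSqZeroExt.ext
          · simp
          · simp [hmul]
            ring
        map_zero' := by
          apply TrivSqZeroExt.ext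
          · simp
          · simp
        map_add' := by
          intro x y
          apply TrivSqZeroExt.ext
          · simp
          · simp }
    have h1 := hrigid φ (fun x => by simp [φ]) (fun w => by
      have hw : a w ∈ K0 := IntermediateField.subset_adjoin ℚ _ ⟨w, rfl⟩
      have h2 : D (algebraMap K0 L ⟨a w, hw⟩) = 0 := D.map_algebraMap _
      have h3 : D (a w) = 0 := h2
      simp [φ, h3])
    ext x
    have h2 := h1 x
    simpa [φ] using h2
  have hsub : Subsingleton (Ω[L⁄K0]) := by
    refine ⟨fun x y => ?_⟩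
    rw [← sub_eq_zero, ← Module.forall_dual_apply_eq_zero_iff L]
    intro f
    have h1 : f = (KaehlerDifferential.linearMapEquivDerivation K0 L).symm
        ((KaehlerDifferential.linearMapEquivDerivation K0 L) f) := by
      rw [LinearEquiv.symm_apply_apply]
    rw [h1, hder (KaehlerDifferential.linearMapEquivDerivation K0 L f), map_zero]
    rfl
  have hunr : Algebra.FormallyUnramified K0 L := ⟨hsub⟩
  have : Algebra.EssFiniteType K0 L := Algebra.EssFiniteType.of_comp ℚ K0 L
  have hsep : Algebra.IsSeparable K0 L := (Algebra.FormallyUnramified.iff_isSeparable K0 L).1 hunr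
  have halg : Algebra.IsAlgebraic K0 L := inferInstance
  have halg2 : Algebra.IsAlgebraic (Algebra.adjoin ℚ (Set.range a)) L := by
    open scoped IntermediateField.algebraAdjoinAdjoin in
    exact (IsFractionRing.comap_isAlgebraic_iff (A := Algebra.adjoin ℚ (Set.range a)) (K := K0)
      (C := L)).2 halg
  obtain ⟨u, _, hu1, hu2⟩ := exists_isTranscendenceBasis_between (R := ℚ) (A := L) ∅ (Set.range a)
    (Set.empty_subset _) (by
      exact algebraicIndependent_empty)
  have hfin : (Set.range a).Finite := Set.finite_range a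
  have hufin : u.Finite := hfin.subset hu1
  have : Fintype u := hufin.fintype
  have hcard : Fintype.card ι ≤ Fintype.card u := by
    have h1 := hz.cardinalMk_le_trdeg
    rw [← hu2.cardinalMk_eq_trdeg, Cardinal.mk_fintype, Cardinal.mk_fintype, Nat.cast_le] at h1
    exact h1
  choose s hs using fun x : u => hu1 x.2
  have hsinj : Function.Injective s := by
    intro x x' h
    apply Subtype.ext
    rw [← hs x, ← hs x', h]
  set S : Finset W := univ.image s with hS
  have hScard : S.card = Fintype.card u := by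
    rw [hS, card_image_of_injective _ hsinj, card_univ]
  obtain ⟨w1, hw1⟩ : ∃ w1, ∀ w, w ≠ w1 → w ∈ S := by
    by_cases h : ∃ w1, w1 ∉ S
    · obtain ⟨w1, h1⟩ := h
      refine ⟨w1, fun w hw => ?_⟩
      by_contra h2
      have h3 : ({w, w1} : Finset W) ⊆ Sᶜ := by
        intro x hx
        rw [mem_insert, mem_singleton] at hx
        rw [mem_compl]
        rcases hx with rfl | rfl
        · exact h2
        · exact h1
      have h4 := card_le_card h3
      rw [card_pair hw, card_compl] at h4
      omega
    · push Not at h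
      have : Nonempty W := Fintype.card_pos_iff.1 hW
      exact ⟨Classical.arbitrary W, fun w _ => h w⟩
  refine ⟨w1, ?_⟩
  have hmem : ∀ w : {w // w ≠ w1}, ∃ x : u, s x = w.1 := by
    intro w
    have h1 := hw1 w.1 w.2
    rw [hS, mem_image] at h1
    obtain ⟨x, _, hx⟩ := h1
    exact ⟨x, hx⟩
  choose j hj using hmem
  have hjinj : Function.Injective j := by
    intro w w' h
    apply Subtype.ext
    rw [← hj w, ← hj w', h]
  have h1 := hu2.1.comp j hjinj
  have h2 : (fun w : {w // w ≠ w1} => a w.1) = (Subtype.val : u → L) ∘ j := by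
    funext w
    rw [Function.comp_apply, ← hs (j w), hj w]
  rw [h2]
  exact h1

/-- Modulo a prime polynomial which involves the variable `i0` the other variables stay
independent. -/
theorem indep_others {ι : Type} {φ : MvPolynomial ι ℚ} {i0 : ι} (hi : i0 ∈ φ.vars)
    {L : Type} [Field L] [Algebra ℚ L] (h : MvPolynomial ι ℚ →ₐ[ℚ] L) (hker : ∀ F, h F = 0 → φ ∣ F) :
    AlgebraicIndependent ℚ fun j : {j // j ≠ i0} => h (MvPolynomial.X j.1) := by
  classical
  rw [algebraicIndependent_iff]
  intro p hp
  have h1 : MvPolynomial.aeval (fun j : {j // j ≠ i0} => h (MvPolynomial.X j.1)) p =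
      h (MvPolynomial.rename Subtype.val p) := by
    have h2 : (MvPolynomial.aeval fun j : {j // j ≠ i0} => h (MvPolynomial.X j.1)) =
        h.comp (MvPolynomial.rename (Subtype.val : {j // j ≠ i0} → ι)) := by
      apply MvPolynomial.algHom_ext
      intro j
      rw [MvPolynomial.aeval_X, AlgHom.comp_apply, MvPolynomial.rename_X]
    rw [h2, AlgHom.comp_apply]
  rw [h1] at hp
  by_contra hne
  have h3 : MvPolynomial.rename (Subtype.val : {j // j ≠ i0} → ι) p ≠ 0 := by
    intro h0
    exact hne (MvPolynomial.rename_injective _ Subtype.val_injective (by rw [h0, map_zero]))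
  obtain ⟨G, hG⟩ := hker _ hp
  have hφ0 : φ ≠ 0 := by
    rintro rfl
    rw [zero_mul] at hG
    exact h3 hG
  have hG0 : G ≠ 0 := by
    rintro rfl
    rw [mul_zero] at hG
    exact h3 hG
  have h4 : (MvPolynomial.rename (Subtype.val : {j // j ≠ i0} → ι) p).degreeOf i0 = 0 := by
    by_contra h5
    have h6 := MvPolynomial.mem_vars_iff_degreeOf_ne_zero.2 h5
    have h7 := MvPolynomial.vars_rename (Subtype.val : {j // j ≠ i0} → ι) p h6
    rw [mem_image] at h7
    obtain ⟨j, _, hj⟩ := h7
    exact j.2 hj
  rw [hG, MvPolynomial.degreeOf_mul_eq hφ0 hG0] at h4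
  have h5 := MvPolynomial.mem_vars_iff_degreeOf_ne_zero.1 hi
  omega

/-- A prime polynomial over a field involves a variable. -/
theorem exists_var {ι : Type} {φ : MvPolynomial ι ℚ} (hφ : Prime φ) : ∃ i0, i0 ∈ φ.vars := by
  by_contra h
  push Not at h
  have h1 : φ.totalDegree = 0 := by
    rw [MvPolynomial.totalDegree_eq_zero_iff]
    intro m hm x
    by_contra h2
    exact h x ((MvPolynomial.mem_vars_iff_mem_support x).2 ⟨m, hm, Finsupp.mem_support_iff.2 h2⟩)
  rw [MvPolynomial.totalDegree_eq_zero_iff_eq_C] at h1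
  apply hφ.not_unit
  rw [h1]
  have h2 : MvPolynomial.coeff 0 φ ≠ 0 := by
    intro h0
    rw [h0, map_zero] at h1
    exact hφ.ne_zero h1
  exact (isUnit_iff_ne_zero.2 h2).map MvPolynomial.C

/-- A matrix which is unipotent with respect to `y` has determinant one. -/
theorem det_one {n : ℕ} {L : Type} [Field L] (y : Fin n → ℕ) {V : Matrix (Fin n) (Fin n) L}
    (h1 : ∀ a, V a a = 1) (h2 : ∀ a b, a ≠ b → ¬ y a < y b → V a b = 0) : V.det = 1 := by
  classical
  have hbt : Matrix.BlockTriangular V y := by
    intro a b hab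
    exact h2 a b (by rintro rfl; exact lt_irrefl _ hab) (by omega)
  rw [hbt.det]
  refine prod_eq_one fun c _ => ?_
  have : V.toSquareBlock y c = 1 := by
    ext a b
    change V a.1 b.1 = _
    by_cases hab : a = b
    · rw [hab, h1, Matrix.one_apply_eq]
    · rw [Matrix.one_apply_ne hab]
      refine h2 _ _ (fun h => hab (Subtype.ext h)) ?_
      rw [a.2, b.2]
      exact lt_irrefl _
  rw [this, Matrix.det_one]

end Mod63

open Mod63 in
/-- Row StMod. -/
theorem stMod {k : ℕ} {r : Fin k → ℕ} {W : Type} [Fintype W] (ρ : FRep r W) : StMod ρ := by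
  classical
  intro y s hcard A hA φ hφ L _ _ _ h hker hfrac hjac
  obtain ⟨i0, hi0⟩ := exists_var hφ
  have hind := indep_others hi0 h fun F hF => (hker F).1 hF
  have hcI : Fintype.card (Ix (Blk ρ y (s + 1)) (stepsT y 1)) = Fintype.card W := by
    rw [Fintype.card_sum, Fintype.card_coe, Fintype.card_subtype_compl, Fintype.card_coe]
    have := card_le_univ (Blk ρ y (s + 1))
    omega
  have hWpos : 0 < Fintype.card W := by
    rw [← hcI]
    exact Fintype.card_pos_iff.2 ⟨i0⟩
  have hc : Fintype.card W ≤
      Fintype.card {j : Ix (Blk ρ y (s + 1)) (stepsT y 1) // j ≠ i0} + 1 := by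
    rw [Fintype.card_subtype, Finset.filter_ne', card_erase_of_mem (mem_univ _), card_univ, hcI]
    omega
  refine exists_omit L hWpos (fun w => h (A w)) ?_ _ hind hc
  -- the rigidity
  intro ψ hψ1 hψ2
  have hSmem : ∀ i a b, (⟨i, a, b⟩ : Σ i, Fin (r i) × Fin (r i)) ∈ stepsT y 1 ↔ y i a < y i b := by
    intro i a b
    rw [stepsT, mem_sigma, mem_filter]
    simp only [mem_univ, true_and]
    omega
  set Z := Blk ρ y (s + 1) with hZ
  set S := stepsT y 1 with hS
  have hg1 : ∀ i a, genV Z S i a a = 1 := by
    intro i a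
    simp [genV]
  have hg2 : ∀ i a b, a ≠ b → ¬ y i a < y i b → genV Z S i a b = 0 := by
    intro i a b hab hm
    rw [← hSmem] at hm
    simp [genV, hab, hm]
  set M : Grp L r := fun i => (genV Z S i).map h with hM
  have hM1 : ∀ i a, M i a a = 1 := by
    intro i a
    change h (genV Z S i a a) = 1
    rw [hg1, map_one]
  have hM2 : ∀ i a b, a ≠ b → ¬ y i a < y i b → M i a b = 0 := by
    intro i a b hab hn
    change h (genV Z S i a b) = 0
    rw [hg2 i a b hab hn, map_zero]
  have hMdet : ∀ i, (M i).det = 1 := fun i => det_one (y i) (hM1 i) (hM2 i)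
  have hMA : ρ.pull L M (fun w => h (A w)) = fun w => h (genB Z S w) := by
    have h1 := ρ.pull_map (RR ρ y s) L h.toRingHom (genV Z S) A
    have hA' : ρ.pull (RR ρ y s) (genV Z S) A = genB Z S := hA
    rw [hA'] at h1
    exact h1
  set X : Grp L r := fun i => (M i)⁻¹ * (M i).map fun x => TrivSqZeroExt.snd (ψ x) with hX
  have hMX : ∀ i, M i * X i = (M i).map fun x => TrivSqZeroExt.snd (ψ x) := by
    intro i
    rw [hX, ← Matrix.mul_assoc, Matrix.mul_nonsing_inv _ (by rw [hMdet i]; exact isUnit_one),
      Matrix.one_mul]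
  have hψ0 : ψ 0 = 0 := map_zero ψ
  have hψ1' : ψ 1 = 1 := map_one ψ
  have hXs : ∀ i a b, ¬ y i a < y i b → X i a b = 0 := by
    intro i
    refine supp_of_mul (y i) (hM1 i) (fun a b hab hn => hM2 i a b hab hn) ?_ (hMX i)
    intro a b hn
    rw [Matrix.map_apply]
    by_cases hab : a = b
    · rw [hab, hM1, hψ1', TrivSqZeroExt.snd_one]
    · rw [hM2 i a b hab hn, hψ0, TrivSqZeroExt.snd_zero]
  have hX0 : X = 0 := by
    refine hjac X hXs ?_
    intro w hw
    have hBw : ρ.pull L M (fun w => h (A w)) w = 0 := by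
      rw [hMA]
      change h (genB Z S w) = 0
      have : genB Z S w = 0 := by
        have hw' : w ∈ Z := hw
        simp [genB, hw']
      rw [this, map_zero]
    have h4 := lie_eq ρ (stLie ρ L).1 ψ hψ1 hMX (fun w => h (A w)) hBw
    have h5 : (fun w => TrivSqZeroExt.snd (ψ (h (A w)))) = (0 : W → L) := funext hψ2
    rw [h5, hMA] at h4
    have h6 : ρ.pull L M (0 : W → L) w = 0 := by
      have h7 := ρ.pull_smul L M (0 : L) (0 : W → L)
      rw [zero_smul, zero_smul] at h7
      rw [h7]
      rfl
    rw [h6, add_zero] at h4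
    exact h4
  set inlH : L →+* DualNumber L := TrivSqZeroExt.inlHom L L with hinlH
  have hinl : ∀ x, inlH x = TrivSqZeroExt.inl x := fun x => rfl
  have hMsnd : ∀ i a b, TrivSqZeroExt.snd (ψ (M i a b)) = 0 := by
    intro i a b
    have h1 := congrFun (congrFun (hMX i) a) b
    rw [hX0] at h1
    rw [Matrix.map_apply] at h1
    rw [← h1]
    change (M i * (0 : Matrix (Fin (r i)) (Fin (r i)) L)) a b = 0
    rw [Matrix.mul_zero]
    rfl
  have hψeq : ∀ x, TrivSqZeroExt.snd (ψ x) = 0 → ψ x = inlH x := by
    intro x hx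
    rw [hinl]
    apply TrivSqZeroExt.ext
    · rw [hψ1, TrivSqZeroExt.fst_inl]
    · rw [hx, TrivSqZeroExt.snd_inl]
  have hMmap : (fun i => (M i).map ψ) = fun i => (M i).map inlH := by
    funext i
    refine Matrix.ext fun a b => ?_
    exact hψeq _ (hMsnd i a b)
  have hBeq : ∀ w, ψ (h (genB Z S w)) = inlH (h (genB Z S w)) := by
    intro w
    have h1 := congrFun (ρ.pull_map L (DualNumber L) ψ M (fun w => h (A w))) w
    have h2 := congrFun (ρ.pull_map L (DualNumber L) inlH M (fun w => h (A w))) w
    have h3 : (fun w => ψ (h (A w))) = fun w => inlH (h (A w)) := by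
      funext w
      exact hψeq _ (hψ2 w)
    rw [hMmap, h3, h2, hMA] at h1
    exact h1.symm
  -- the two homomorphisms agree on the ring
  have hring : ψ.comp h.toRingHom = inlH.comp h.toRingHom := by
    apply MvPolynomial.ringHom_ext
    · intro q
      have h1 : (ψ.comp h.toRingHom).comp MvPolynomial.C =
          (inlH.comp h.toRingHom).comp (MvPolynomial.C : ℚ →+* RR ρ y s) := Subsingleton.elim _ _
      exact DFunLike.congr_fun h1 q
    · rintro (x | w)
      · have hx : y x.1.1 x.1.2.1 < y x.1.1 x.1.2.2 := (hSmem _ _ _).1 x.2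
        have h1 : genV Z S x.1.1 x.1.2.1 x.1.2.2 = MvPolynomial.X (Sum.inl x) := by
          have hne : x.1.2.1 ≠ x.1.2.2 := by
            intro h0
            rw [h0] at hx
            exact lt_irrefl _ hx
          have hm : (⟨x.1.1, x.1.2.1, x.1.2.2⟩ : Σ i, Fin (r i) × Fin (r i)) ∈ S := x.2
          rw [genV, if_neg hne, dif_pos hm]
        have h2 := hMsnd x.1.1 x.1.2.1 x.1.2.2
        change TrivSqZeroExt.snd (ψ (h (genV Z S x.1.1 x.1.2.1 x.1.2.2))) = 0 at h2
        rw [h1] at h2
        exact hψeq _ h2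
      · have h1 : genB Z S w.1 = MvPolynomial.X (Sum.inr w) := by
          rw [genB, dif_neg w.2]
        have h2 := hBeq w.1
        rw [h1] at h2
        exact h2
  intro x
  obtain ⟨F, G, hG, hFG⟩ := hfrac x
  have h1 : ψ (h G) = inlH (h G) := DFunLike.congr_fun hring G
  have h2 : ψ (h F) = inlH (h F) := DFunLike.congr_fun hring F
  have h3 := congrArg ψ hFG
  rw [map_mul, h1, h2, hinl, hinl] at h3
  have h4 : TrivSqZeroExt.snd (ψ x) * h G = 0 := by
    have h5 := congrArg TrivSqZeroExt.snd h3
    simpa using h5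
  exact (mul_eq_zero.1 h4).resolve_right hG

end Pool.Agent.Lib.MP_1acd66_nt.AR
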