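import Pool.Agent.Lib.MP_1acd66_nt.AR.RowT1

/-!
The primitive vector of the Plücker coordinates exists.
-/

namespace Pool.Agent.Lib.MP_1acd66_nt.AR

open Finset Pool.Agent.Lib.MP_1acd66_nt.Gen J63

variable {k : ℕ} {r : Fin k → ℕ} {W : Type} [Fintype W]

namespace P37

/-- The elements which are rational functions of independent elements. -/
def ratAlg {R : Type} [CommRing R] [IsDomain R] [Algebra ℚ R] (A : W → R) : Subalgebra ℚ R where
  carrier := {z | ∃ N D : MvPolynomial W ℚ, MvPolynomial.aeval A D ≠ 0 ∧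
    z * MvPolynomial.aeval A D = MvPolynomial.aeval A N}
  mul_mem' := by
    rintro z z' ⟨N, D, h1, h2⟩ ⟨N', D', h1', h2'⟩
    refine ⟨N * N', D * D', ?_, ?_⟩
    · rw [map_mul]
      exact mul_ne_zero h1 h1'
    · rw [map_mul, map_mul, ← h2, ← h2']
      ring
  add_mem' := by
    rintro z z' ⟨N, D, h1, h2⟩ ⟨N', D', h1', h2'⟩
    refine ⟨N * D' + N' * D, D * D', ?_, ?_⟩
    · rw [map_mul]
      exact mul_ne_zero h1 h1'
    · rw [map_mul, map_add, map_mul, map_mul, ← h2, ← h2']
      ring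
  algebraMap_mem' := by
    intro c
    refine ⟨MvPolynomial.C c, 1, ?_, ?_⟩
    · rw [map_one]
      exact one_ne_zero
    · rw [map_one, mul_one, MvPolynomial.aeval_C]

end P37

open P37 in
/-- Row T3. -/
theorem stPrim37 (ρ : FRep r W) : StPrim ρ := by
  classical
  intro y s A hA hind hR i v
  let _ : StrongNormalizationMonoid (MvPolynomial W ℚ) :=
    UniqueFactorizationMonoid.strongNormalizationMonoid
  let _ : StrongNormalizedGCDMonoid (MvPolynomial W ℚ) :=
    UniqueFactorizationMonoid.toStrongNormalizedGCDMonoid _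
  have hV : ∀ i a b, genV (Blk ρ y (s + 1)) (stepsT y 1) i a b ∈ ratAlg A := by
    intro i a b
    rw [genV]
    split_ifs with h1 h2
    · exact one_mem _
    · exact hR ⟨_, h2⟩
    · exact zero_mem _
  have hmin : ∀ e, minorV ρ y s i v e ∈ ratAlg A := by
    intro e
    rw [minorV, Matrix.det_apply']
    refine sum_mem fun σ _ => mul_mem (intCast_mem _ _) (prod_mem fun b _ => ?_)
    exact hV _ _ _
  have hinj : ∀ p : MvPolynomial W ℚ, MvPolynomial.aeval A p = 0 → p = 0 := fun p hp =>
    hind (hp.trans (map_zero _).symm)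
  choose N D hD hND using hmin
  set Φ0 : (Tc y i v → Fin (r i)) → MvPolynomial W ℚ := fun e => N e * ∏ e' ∈ univ.erase e, D e'
    with hΦ0
  have h1 : ∀ e, MvPolynomial.aeval A (Φ0 e) =
      minorV ρ y s i v e * MvPolynomial.aeval A (∏ e', D e') := by
    intro e
    rw [hΦ0, ← mul_prod_erase univ D (mem_univ e), map_mul, map_mul, ← hND]
    ring
  have hval : minorV ρ y s i v Subtype.val = 1 := by
    have hz : ∀ a b : Tc y i v, a ≠ b → ¬ y i a.1 < y i b.1 →
        (genV (Blk ρ y (s + 1)) (stepsT y 1) i a.1 b.1 : RR ρ y s) = 0 := by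
      intro a b hab hn
      rw [genV, if_neg fun h => hab (Subtype.ext h), dif_neg]
      rw [T1.mem_stepsT]
      exact hn
    rw [minorV]
    have hB : (Matrix.of fun a b : Tc y i v => (genV (Blk ρ y (s + 1)) (stepsT y 1) i a.1 b.1 :
        RR ρ y s)).BlockTriangular fun a => y i a.1 := by
      intro a b hab
      rw [Matrix.of_apply]
      refine hz a b ?_ (not_lt.2 (le_of_lt hab))
      rintro rfl
      exact lt_irrefl _ hab
    rw [hB.det]
    refine prod_eq_one fun n _ => ?_
    have hI : (Matrix.of fun a b : Tc y i v => (genV (Blk ρ y (s + 1)) (stepsT y 1) i a.1 b.1 :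
        RR ρ y s)).toSquareBlock (fun a => y i a.1) n = 1 := by
      ext1 a b
      rw [Matrix.toSquareBlock_def, Matrix.of_apply, Matrix.of_apply]
      by_cases hab : a = b
      · rw [hab, Matrix.one_apply_eq, genV, if_pos rfl]
      · rw [Matrix.one_apply_ne hab]
        exact hz a.1 b.1 (fun h => hab (Subtype.ext h)) (by rw [a.2, b.2]; exact lt_irrefl _)
    rw [hI, Matrix.det_one]
  obtain ⟨Φ, hΦ, hg⟩ := Finset.extract_gcd Φ0 (s := univ) ⟨Subtype.val, mem_univ _⟩
  have h2 : Φ0 Subtype.val ≠ 0 := by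
    intro h0
    have h3 := h1 Subtype.val
    rw [h0, map_zero, hval, one_mul, map_prod] at h3
    exact Finset.prod_ne_zero_iff.2 (fun e _ => hD e) h3.symm
  have h3 : univ.gcd Φ0 ≠ 0 := by
    intro h0
    apply h2
    rw [hΦ _ (mem_univ _), h0, zero_mul]
  refine ⟨Φ, ?_, ?_, ?_⟩
  · intro h0
    apply h2
    rw [hΦ _ (mem_univ _), h0, mul_zero]
  · intro e
    have h4 : MvPolynomial.aeval A (univ.gcd Φ0) ≠ 0 := fun h => h3 (hinj _ h)
    apply mul_left_cancel₀ h4
    rw [← map_mul, ← hΦ e (mem_univ _), h1 e, mul_left_comm, ← map_mul,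
      ← hΦ Subtype.val (mem_univ _), h1, hval, one_mul]
  · intro Ψ hΨ
    exact isUnit_of_dvd_one (hg ▸ Finset.dvd_gcd fun e _ => hΨ e)

end Pool.Agent.Lib.MP_1acd66_nt.AR
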