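import Mathlib

/-!
Row T5d: the kernel of an evaluation at a point of codimension at most one is principal.
-/

namespace Pool.Agent.Lib.MP_1acd66_nt.AR.Ker44

open Polynomial

theorem gauss {A L : Type} [CommRing A] [IsDomain A] [NormalizedGCDMonoid A] [Field L]
    (h : A →+* L) (hinj : Function.Injective h) (t : L) :
    ∃ q : A[X], ¬ IsUnit q ∧ ∀ f : A[X], f.eval₂ h t = 0 → q ∣ f := by
  let K := FractionRing A
  let i : K →+* L := IsFractionRing.lift hinj
  have hi : ∀ a : A, i (algebraMap A K a) = h a := fun a => IsFractionRing.lift_algebraMap hinj a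
  let _ : Algebra K L := i.toAlgebra
  have hev : ∀ f : A[X], f.eval₂ h t = aeval t (f.map (algebraMap A K)) := by
    intro f
    rw [aeval_def, eval₂_map]
    congr 1
    ext a
    exact (hi a).symm
  by_cases hint : IsIntegral K t
  · let m := minpoly K t
    let p := IsLocalization.integerNormalization (nonZeroDivisors A) m
    have hspec := IsLocalization.integerNormalization_spec (nonZeroDivisors A) m
    obtain ⟨b, hb0, hb⟩ := hspec
    have hb' : p.map (algebraMap A K) = C (algebraMap A K b) * m := by
      rw [hb, Algebra.smul_def]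
      rfl
    have hbu : IsUnit (C (algebraMap A K b)) := by
      rw [isUnit_C]
      refine IsUnit.mk0 _ fun h0 => ?_
      exact nonZeroDivisors.ne_zero hb0
        ((map_eq_zero_iff _ (IsFractionRing.injective A K)).1 h0)
    have hp0 : p ≠ 0 := fun h0 =>
      minpoly.ne_zero hint ((IsLocalization.integerNormalization_eq_zero_iff le_rfl m).1 h0)
    refine ⟨p.primPart, fun hu => ?_, fun f hf => ?_⟩
    · have h1 : IsUnit (p.map (algebraMap A K)) := by
        rw [p.eq_C_content_mul_primPart, Polynomial.map_mul, map_C]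
        refine IsUnit.mul ?_ (hu.map (mapRingHom (algebraMap A K)))
        rw [isUnit_C]
        refine IsUnit.mk0 _ fun h0 => ?_
        have h2 := (map_eq_zero_iff _ (IsFractionRing.injective A K)).1 h0
        exact hp0 (content_eq_zero_iff.1 h2)
      rw [hb'] at h1
      exact minpoly.not_isUnit K t (isUnit_of_mul_isUnit_right h1)
    · refine p.isPrimitive_primPart.dvd_of_fraction_map_dvd_fraction_map (K := K) ?_
      have h1 : p.primPart.map (algebraMap A K) ∣ p.map (algebraMap A K) :=
        map_dvd (mapRingHom (algebraMap A K)) p.primPart_dvd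
      rw [hb'] at h1
      have h2 : m ∣ f.map (algebraMap A K) := minpoly.dvd K t (by rw [← hev, hf])
      exact h1.trans ((hbu.mul_left_dvd).2 h2)
  · refine ⟨X, not_isUnit_X, fun f hf => ?_⟩
    rw [hev] at hf
    have h1 : f.map (algebraMap A K) = 0 := by
      by_contra h0
      exact hint (isAlgebraic_iff_isIntegral.1 ⟨_, h0, hf⟩)
    have h2 : f = 0 := (map_injective _ (IsFractionRing.injective A K))
      (by rw [h1, Polynomial.map_zero])
    rw [h2]
    exact dvd_zero _

theorem ker (W L : Type) [Fintype W] [Field L] [Algebra ℚ L] (a : W → L) (w1 : W)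
    (ha : AlgebraicIndependent ℚ (fun w : {w // w ≠ w1} => a w.1)) :
    ∃ Ψ : MvPolynomial W ℚ, ¬ IsUnit Ψ ∧ ∀ F, MvPolynomial.aeval a F = 0 → Ψ ∣ F := by
  classical
  let S := {w // w ≠ w1}
  let E : MvPolynomial W ℚ ≃ₐ[ℚ] (MvPolynomial S ℚ)[X] :=
    (MvPolynomial.renameEquiv ℚ (Equiv.optionSubtypeNe w1).symm).trans
      (MvPolynomial.optionEquivLeft ℚ S)
  let h : MvPolynomial S ℚ →ₐ[ℚ] L := MvPolynomial.aeval fun w : S => a w.1
  have hev : ∀ F, (E F).eval₂ h.toRingHom (a w1) = MvPolynomial.aeval a F := by
    intro F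
    have h1 : (Polynomial.eval₂AlgHom h (a w1) (fun _ => Commute.all _ _)).comp E.toAlgHom =
        MvPolynomial.aeval a := by
      apply MvPolynomial.algHom_ext
      intro w
      rw [MvPolynomial.aeval_X]
      by_cases hw : w = w1
      · subst hw
        simp [E]
      · simp [E, hw, h, S]
    exact congrArg (fun g : MvPolynomial W ℚ →ₐ[ℚ] L => g F) h1
  let _ : StrongNormalizationMonoid (MvPolynomial S ℚ) :=
    UniqueFactorizationMonoid.strongNormalizationMonoid
  let _ : NormalizedGCDMonoid (MvPolynomial S ℚ) :=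
    UniqueFactorizationMonoid.toNormalizedGCDMonoid _
  obtain ⟨q, hq1, hq2⟩ := gauss h.toRingHom ha (a w1)
  refine ⟨E.symm q, fun hu => hq1 ?_, fun F hF => ?_⟩
  · have := hu.map E
    rwa [E.apply_symm_apply] at this
  · have h1 := hq2 (E F) (by rw [hev, hF])
    have := map_dvd E.symm h1
    rwa [E.symm_apply_apply] at this

end Pool.Agent.Lib.MP_1acd66_nt.AR.Ker44
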