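import Pool.Agent.Lib.MP_1acd66_nt.AR.Defs7
import Pool.Agent.Lib.MP_1acd66_nt.AR.KerAlg44

/-!
Row T5d: the kernel of an evaluation at a point of codimension at most one is principal.
-/

namespace Pool.Agent.Lib.MP_1acd66_nt.AR

theorem stKer : StKer := fun W L _ _ _ a w1 ha => Ker44.ker W L a w1 ha

end Pool.Agent.Lib.MP_1acd66_nt.AR
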