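import Mathlib

/-!
Primitive vectors of polynomials.
-/

namespace Pool.Agent.Lib.MP_1acd66_nt.AR

open Finset

/-- Two proportional primitive vectors differ by a constant. -/
theorem prim_prop {E W : Type} [Fintype E] (Φ Φ' : E → MvPolynomial W ℚ) (e0 : E)
    (h0 : Φ e0 ≠ 0) (h0' : Φ' e0 ≠ 0) (hp : ∀ Ψ, (∀ e, Ψ ∣ Φ e) → IsUnit Ψ)
    (hp' : ∀ Ψ, (∀ e, Ψ ∣ Φ' e) → IsUnit Ψ) (h : ∀ e, Φ' e * Φ e0 = Φ' e0 * Φ e) :
    ∃ c : ℚ, c ≠ 0 ∧ ∀ e, Φ' e = MvPolynomial.C c * Φ e := by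
  classical
  let _ : StrongNormalizationMonoid (MvPolynomial W ℚ) :=
    UniqueFactorizationMonoid.strongNormalizationMonoid
  let _ : StrongNormalizedGCDMonoid (MvPolynomial W ℚ) :=
    UniqueFactorizationMonoid.toStrongNormalizedGCDMonoid _
  have key : ∀ (Φ1 : E → MvPolynomial W ℚ), (∀ Ψ, (∀ e, Ψ ∣ Φ1 e) → IsUnit Ψ) →
      ∀ a b : MvPolynomial W ℚ, (∀ e, a ∣ b * Φ1 e) → a ∣ b := by
    intro Φ1 h1 a b hab
    have h2 : a ∣ univ.gcd fun e => b * Φ1 e := Finset.dvd_gcd fun e _ => hab e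
    have h2' := h2.trans (Finset.gcd_mul_left' univ Φ1 b).dvd
    have h3 : IsUnit (univ.gcd Φ1) := h1 _ fun e => Finset.gcd_dvd (mem_univ e)
    exact (IsUnit.dvd_mul_right h3).1 h2'
  have h1 : Φ e0 ∣ Φ' e0 := key Φ hp _ _ fun e => ⟨Φ' e, by rw [← h e, mul_comm]⟩
  have h2 : Φ' e0 ∣ Φ e0 := key Φ' hp' _ _ fun e => ⟨Φ e, by rw [← h e, mul_comm]⟩
  obtain ⟨u, hu⟩ := associated_of_dvd_dvd h1 h2
  obtain ⟨c, hc, hcu⟩ := MvPolynomial.isUnit_iff_eq_C_of_isReduced.1 u.isUnit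
  refine ⟨c, hc.ne_zero, fun e => ?_⟩
  have h3 := h e
  rw [← hu, hcu] at h3
  have h4 : (Φ' e - MvPolynomial.C c * Φ e) * Φ e0 = 0 := by
    rw [sub_mul, h3]
    ring
  rcases mul_eq_zero.1 h4 with h5 | h5
  · exact sub_eq_zero.1 h5
  · exact absurd h5 h0

end Pool.Agent.Lib.MP_1acd66_nt.AR
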