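import Pool.Agent.Lib.MP_1acd66_nt.AR.Slope63
import Pool.Agent.Lib.MP_1acd66_nt.AR.PrimLem

/-!
Row StTorus: torus weights of the primitive vector of the Plücker coordinates.
-/

set_option autoImplicit false

namespace Pool.Agent.Lib.MP_1acd66_nt.AR

open Finset Pool.Agent.Lib.MP_1acd66_nt.Gen J63

namespace Torus63

/-- A matrix which is unipotent for an order has determinant one. -/
theorem det_one {K : Type} [CommRing K] {n : ℕ} (y : Fin n → ℕ) {V : Matrix (Fin n) (Fin n) K}
    (h1 : ∀ a, V a a = 1) (h2 : ∀ a b, a ≠ b → ¬ y a < y b → V a b = 0) : V.det = 1 := by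
  classical
  have hT : V.BlockTriangular fun a => y a := by
    intro a b hab
    refine h2 a b ?_ (not_lt.2 (le_of_lt hab))
    rintro rfl
    exact lt_irrefl _ hab
  rw [hT.det]
  refine prod_eq_one fun c _ => ?_
  have h3 : V.toSquareBlock (fun a => y a) c = 1 := by
    ext1 a b
    change V a.1 b.1 = _
    by_cases h : a = b
    · rw [h, h1, Matrix.one_apply_eq]
    · rw [Matrix.one_apply_ne h, h2 _ _ (fun h' => h (Subtype.ext h'))]
      rw [a.2, b.2]
      exact lt_irrefl _
  rw [h3, Matrix.det_one]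

/-- A product of two values. -/
theorem prod_two {T : Type} [Fintype T] (p : T → Prop) [DecidablePred p] (c : ℚ) :
    ∏ b, (if p b then c else 1) = c ^ Nat.card {b // p b} := by
  classical
  rw [prod_ite, prod_const_one, mul_one, prod_const, Nat.card_eq_fintype_card,
    Fintype.card_subtype]

theorem prod_wt {k : ℕ} {r : Fin k → ℕ} {K : Type} [CommRing K] (i0 : Fin k) (a0 : Fin (r i0))
    (c : K) (n : ∀ i, Fin (r i) → ℕ) :
    ∏ i, ∏ a, (if (⟨i, a⟩ : Σ i, Fin (r i)) = ⟨i0, a0⟩ then c else 1) ^ n i a = c ^ n i0 a0 := by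
  rw [Finset.prod_eq_single i0, Finset.prod_eq_single a0]
  · rw [if_pos rfl]
  · intro a _ ha
    have : ¬ ((⟨i0, a⟩ : Σ i, Fin (r i)) = ⟨i0, a0⟩) := by
      intro h
      exact ha (eq_of_heq (Sigma.mk.inj h).2)
    rw [if_neg this, one_pow]
  · intro h
    exact absurd (mem_univ _) h
  · intro i _ hi
    refine Finset.prod_eq_one fun a _ => ?_
    have : ¬ ((⟨i, a⟩ : Σ i, Fin (r i)) = ⟨i0, a0⟩) := by
      intro h
      exact hi (Sigma.mk.inj h).1
    rw [if_neg this, one_pow]
  · intro h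
    exact absurd (mem_univ _) h

/-- The scaling of the variables. -/
noncomputable def scale {W : Type} (c : W → ℚ) : MvPolynomial W ℚ →ₐ[ℚ] MvPolynomial W ℚ :=
  MvPolynomial.aeval (fun w => MvPolynomial.C (c w) * MvPolynomial.X w)

theorem scale_X {W : Type} (c : W → ℚ) (w : W) :
    scale c (MvPolynomial.X w) = MvPolynomial.C (c w) * MvPolynomial.X w :=
  MvPolynomial.aeval_X _ _

theorem scale_C {W : Type} (c : W → ℚ) (q : ℚ) :
    scale c (MvPolynomial.C q) = MvPolynomial.C q :=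
  (scale c).commutes q

theorem scale_scale {W : Type} {c c' : W → ℚ} (h : ∀ w, c' w * c w = 1) (F : MvPolynomial W ℚ) :
    scale c (scale c' F) = F := by
  have h1 : (scale c).comp (scale c') = AlgHom.id ℚ (MvPolynomial W ℚ) := by
    refine MvPolynomial.algHom_ext fun w => ?_
    rw [AlgHom.comp_apply, scale_X, map_mul, scale_X, scale_C, ← mul_assoc, ← map_mul, h, map_one,
      one_mul]
    rfl
  exact DFunLike.congr_fun h1 F

/-- One weight. -/
theorem key {k : ℕ} {r : Fin k → ℕ} {W : Type} [Fintype W] (ρ : FRep r W)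
    (y : ∀ i, Fin (r i) → ℕ) (s : ℕ) (A : W → RR ρ y s) (hA : GenA ρ y s A)
    (hind : AlgebraicIndependent ℚ A) (i : Fin k) (v : ℕ)
    (Φ : (Tc y i v → Fin (r i)) → MvPolynomial W ℚ) (hΦ : Prim ρ y s A i v Φ)
    (i' : Fin k) (a' : Fin (r i')) : ∃ d : ℚ, ∀ e, ∀ m ∈ (Φ e).support,
      (2 : ℚ) ^ ((∑ w, m w * ρ.wt w i' a') +
        Nat.card {b : Tc y i v // (⟨i, e b⟩ : Σ i, Fin (r i)) = ⟨i', a'⟩}) = d := by
  classical
  obtain ⟨hΦ0, hΦe, hΦu⟩ := hΦ
  have hinj : Function.Injective (MvPolynomial.aeval A : MvPolynomial W ℚ →ₐ[ℚ] RR ρ y s) := hind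
  set Z := Blk ρ y (s + 1) with hZ
  set S := stepsT y 1 with hS
  set l : ∀ i, Fin (r i) → ℚ := fun i a =>
    if (⟨i, a⟩ : Σ i, Fin (r i)) = ⟨i', a'⟩ then 2 else 1 with hl
  have hl0 : ∀ i a, l i a ≠ 0 := by
    intro i a
    rw [hl]
    simp only
    split_ifs
    · norm_num
    · norm_num
  set c : W → ℚ := fun w => 2 ^ ρ.wt w i' a' with hc
  have hc0 : ∀ w, c w ≠ 0 := fun w => pow_ne_zero _ (by norm_num)
  set τ : RR ρ y s →ₐ[ℚ] RR ρ y s := MvPolynomial.aeval (Sum.elim
    (fun x => MvPolynomial.C ((l x.1.1 x.1.2.1)⁻¹ * l x.1.1 x.1.2.2) *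
      MvPolynomial.X (Sum.inl x))
    fun w => MvPolynomial.C (c w.1) * MvPolynomial.X (Sum.inr w)) with hτ
  set D : Grp (RR ρ y s) r := fun i => Matrix.diagonal fun a => MvPolynomial.C (l i a)
    with hD
  set D' : Grp (RR ρ y s) r := fun i => Matrix.diagonal fun a => MvPolynomial.C (l i a)⁻¹
    with hD'
  have hg1 : ∀ i a, genV Z S i a a = 1 := by
    intro i a
    simp [genV]
  have hSmem : ∀ i a b, (⟨i, a, b⟩ : Σ i, Fin (r i) × Fin (r i)) ∈ S ↔ y i a < y i b := by
    intro i a b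
    rw [hS, stepsT, mem_sigma, mem_filter]
    simp only [mem_univ, true_and]
    omega
  have hent : ∀ i a b, τ (genV Z S i a b) =
      MvPolynomial.C (l i a)⁻¹ * genV Z S i a b * MvPolynomial.C (l i b) := by
    intro i a b
    by_cases hab : a = b
    · subst hab
      rw [hg1, map_one, mul_one, ← map_mul, inv_mul_cancel₀ (hl0 i a), map_one]
    · by_cases hm : (⟨i, a, b⟩ : Σ i, Fin (r i) × Fin (r i)) ∈ S
      · have h1 : genV Z S i a b = MvPolynomial.X (Sum.inl ⟨⟨i, a, b⟩, hm⟩) := by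
          rw [genV, if_neg hab, dif_pos hm]
        rw [h1, hτ, MvPolynomial.aeval_X]
        change MvPolynomial.C ((l i a)⁻¹ * l i b) * _ = _
        rw [map_mul]
        ring
      · have h1 : genV Z S i a b = 0 := by
          rw [genV, if_neg hab, dif_neg hm]
        rw [h1, map_zero, mul_zero, zero_mul]
  have hmap : (fun i => (genV Z S i).map τ.toRingHom) = D' * genV Z S * D := by
    funext i
    refine Matrix.ext fun a b => ?_
    change τ (genV Z S i a b) = (D' i * genV Z S i * D i) a b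
    rw [hD, hD', Matrix.mul_diagonal, Matrix.diagonal_mul, hent]
  have hB : (fun w => τ.toRingHom (genB Z S w)) = fun w => MvPolynomial.C (c w) * genB Z S w := by
    funext w
    change τ (genB Z S w) = _
    by_cases hw : w ∈ Z
    · have h1 : genB Z S w = 0 := by
        rw [genB, dif_pos hw]
      rw [h1, map_zero, mul_zero]
    · have h1 : genB Z S w = MvPolynomial.X (Sum.inr ⟨w, hw⟩) := by
        rw [genB, dif_neg hw]
      rw [h1, hτ, MvPolynomial.aeval_X]
      rfl
  have hA' : ρ.pull (RR ρ y s) (genV Z S) A = genB Z S := hA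
  have hdet : ∀ i, (genV Z S i).det = 1 := by
    intro i
    refine det_one (y i) (hg1 i) fun a b hab hn => ?_
    have hm : (⟨i, a, b⟩ : Σ i, Fin (r i) × Fin (r i)) ∉ S := by
      rw [hSmem]
      exact hn
    rw [genV, if_neg hab, dif_neg hm]
  have hdiag : ∀ w : W, (∏ i, ∏ a, (MvPolynomial.C (l i a) : RR ρ y s) ^ ρ.wt w i a) =
      MvPolynomial.C (c w) := by
    intro w
    have h1 : ∀ i a, (MvPolynomial.C (l i a) : RR ρ y s) =
        if (⟨i, a⟩ : Σ i, Fin (r i)) = ⟨i', a'⟩ then MvPolynomial.C 2 else 1 := by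
      intro i a
      rw [hl]
      simp only
      split_ifs
      · rfl
      · exact map_one _
    simp only [h1]
    rw [prod_wt, hc, ← map_pow]
  have hdiag' : ∀ w : W, (∏ i, ∏ a, (MvPolynomial.C (l i a)⁻¹ : RR ρ y s) ^ ρ.wt w i a) =
      MvPolynomial.C (c w)⁻¹ := by
    intro w
    have h1 : ∀ i a, (MvPolynomial.C (l i a)⁻¹ : RR ρ y s) =
        if (⟨i, a⟩ : Σ i, Fin (r i)) = ⟨i', a'⟩ then MvPolynomial.C 2⁻¹ else 1 := by
      intro i a
      rw [hl]
      simp only
      split_ifs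
      · rfl
      · rw [inv_one]
        exact map_one _
    simp only [h1]
    rw [prod_wt, hc, ← map_pow, inv_pow]
  have hτA : ∀ w, τ (A w) = MvPolynomial.C (c w) * A w := by
    have h1 := ρ.pull_map (RR ρ y s) (RR ρ y s) τ.toRingHom (genV Z S) A
    rw [hA', hB, hmap] at h1
    have h2 : ρ.pull (RR ρ y s) (D' * genV Z S * D) (fun w => MvPolynomial.C (c w) * A w) =
        fun w => MvPolynomial.C (c w) * genB Z S w := by
      rw [← ρ.pull_mul, ← ρ.pull_mul]
      have h3 : ρ.pull (RR ρ y s) D' (fun w => MvPolynomial.C (c w) * A w) = A := by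
        funext w
        rw [hD', ρ.pull_diag, hdiag', ← mul_assoc, ← map_mul, inv_mul_cancel₀ (hc0 w), map_one,
          one_mul]
      rw [h3, hA']
      funext w
      rw [hD, ρ.pull_diag, hdiag]
    have h6 : (fun w => τ.toRingHom (A w)) = fun w => MvPolynomial.C (c w) * A w := by
      refine pull_inj ρ (g := D' * genV Z S * D) ?_ (by rw [h1, h2])
      intro i
      rw [← hmap]
      have h7 : ((genV Z S i).map τ.toRingHom).det = 1 := by
        have h8 := RingHom.map_det τ.toRingHom (genV Z S i)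
        rw [hdet i, map_one] at h8
        exact h8.symm
      rw [h7]
      exact isUnit_one
    intro w
    exact congrFun h6 w
  have hsc : ∀ F, MvPolynomial.aeval A (scale c F) = τ (MvPolynomial.aeval A F) := by
    have h2 : (MvPolynomial.aeval A : MvPolynomial W ℚ →ₐ[ℚ] RR ρ y s).comp (scale c) =
        τ.comp (MvPolynomial.aeval A) := by
      apply MvPolynomial.algHom_ext
      intro w
      rw [AlgHom.comp_apply, AlgHom.comp_apply, scale_X, MvPolynomial.aeval_X,
        hτA, map_mul, MvPolynomial.aeval_X, MvPolynomial.aeval_C, MvPolynomial.algebraMap_eq]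
    exact fun F => DFunLike.congr_fun h2 F
  -- the minors
  set n : (Tc y i v → Fin (r i)) → ℕ := fun e =>
    Nat.card {b : Tc y i v // (⟨i, e b⟩ : Σ i, Fin (r i)) = ⟨i', a'⟩} with hn
  have hn1 : ∀ e : Tc y i v → Fin (r i), ∏ b, l i (e b) = 2 ^ n e := by
    intro e
    rw [hl, hn]
    exact prod_two (fun b : Tc y i v => (⟨i, e b⟩ : Σ i, Fin (r i)) = ⟨i', a'⟩) 2
  have hmin : ∀ e, τ (minorV ρ y s i v e) =
      MvPolynomial.C ((2 ^ n e)⁻¹ * 2 ^ n Subtype.val) * minorV ρ y s i v e := by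
    intro e
    have h1 : τ (minorV ρ y s i v e) = Matrix.det (Matrix.of fun a b : Tc y i v =>
        τ (genV Z S i (e a) b.1)) := by
      rw [minorV]
      have h2 := AlgHom.map_det τ (Matrix.of fun a b : Tc y i v => genV Z S i (e a) b.1)
      rw [h2]
      rfl
    have h2 : (Matrix.of fun a b : Tc y i v => τ (genV Z S i (e a) b.1)) =
        Matrix.of fun a b : Tc y i v => MvPolynomial.C (l i (e a))⁻¹ *
          (Matrix.of (fun a b : Tc y i v => MvPolynomial.C (l i b.1) *
            (Matrix.of (fun a b : Tc y i v => genV Z S i (e a) b.1)) a b)) a b := by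
      ext1 a b
      simp only [Matrix.of_apply]
      rw [hent]
      ring
    rw [h1, h2, Matrix.det_mul_column, Matrix.det_mul_row, ← mul_assoc, ← map_prod, ← map_prod,
      ← map_mul, prod_inv_distrib, hn1 e, hn1 Subtype.val]
    rfl
  set Φ' : (Tc y i v → Fin (r i)) → MvPolynomial W ℚ :=
    fun e => MvPolynomial.C (2 ^ n e) * scale c (Φ e) with hΦ'
  have hpr : ∀ e, MvPolynomial.aeval A (Φ' e) =
      minorV ρ y s i v e * MvPolynomial.aeval A (Φ' Subtype.val) := by
    intro e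
    rw [hΦ']
    simp only
    rw [map_mul, map_mul, hsc, hsc, hΦe e, map_mul, hmin, MvPolynomial.aeval_C,
      MvPolynomial.aeval_C, MvPolynomial.algebraMap_eq]
    have h1 : (MvPolynomial.C (2 ^ n e) : RR ρ y s) *
        MvPolynomial.C ((2 ^ n e)⁻¹ * 2 ^ n Subtype.val) = MvPolynomial.C (2 ^ n Subtype.val) := by
      rw [← map_mul, ← mul_assoc, mul_inv_cancel₀ (by positivity), one_mul]
    rw [← mul_assoc, ← mul_assoc, h1]
    ring
  have hcc : ∀ w, c w * (c w)⁻¹ = 1 := fun w => mul_inv_cancel₀ (hc0 w)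
  have hcc' : ∀ w, (c w)⁻¹ * c w = 1 := fun w => inv_mul_cancel₀ (hc0 w)
  have h00 : Φ' Subtype.val ≠ 0 := by
    intro h0
    rcases mul_eq_zero.1 h0 with h1 | h1
    · rw [MvPolynomial.C_eq_zero] at h1
      exact absurd h1 (by positivity)
    · apply hΦ0
      have h2 := scale_scale (c := fun w => (c w)⁻¹) (c' := c) hcc (Φ Subtype.val)
      rw [h1, map_zero] at h2
      exact h2.symm
  obtain ⟨d, hd0, hd⟩ := prim_prop Φ Φ' Subtype.val hΦ0 h00 hΦu (fun Ψ hΨ => by
      have h1 : IsUnit (scale (fun w => (c w)⁻¹) Ψ) := by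
        refine hΦu _ fun e => ?_
        have h2 := map_dvd (scale fun w => (c w)⁻¹) (hΨ e)
        rw [hΦ'] at h2
        simp only at h2
        rw [map_mul, scale_scale (c := fun w => (c w)⁻¹) (c' := c) hcc, scale_C] at h2
        have h3 : IsUnit (MvPolynomial.C (2 ^ n e) : MvPolynomial W ℚ) :=
          (IsUnit.mk0 ((2 : ℚ) ^ n e) (by positivity)).map MvPolynomial.C
        exact (IsUnit.dvd_mul_left h3).1 h2
      have h2 := h1.map (scale c)
      rwa [scale_scale (c := c) (c' := fun w => (c w)⁻¹) hcc'] at h2)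
    (fun e => by
      apply hinj
      have e1 := map_mul (MvPolynomial.aeval A : MvPolynomial W ℚ →ₐ[ℚ] RR ρ y s) (Φ' e)
        (Φ Subtype.val)
      have e2 := map_mul (MvPolynomial.aeval A : MvPolynomial W ℚ →ₐ[ℚ] RR ρ y s)
        (Φ' Subtype.val) (Φ e)
      refine e1.trans (Eq.trans ?_ e2.symm)
      rw [hpr e, hΦe e]
      ring)
  refine ⟨d, fun e m hm => ?_⟩
  have h1 := congrArg (MvPolynomial.coeff m) (hd e)
  rw [hΦ'] at h1
  simp only at h1
  rw [MvPolynomial.coeff_C_mul, MvPolynomial.coeff_C_mul, scale, Slope63.coeff_scale] at h1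
  have h2 : MvPolynomial.coeff m (Φ e) ≠ 0 := MvPolynomial.mem_support_iff.1 hm
  rw [← mul_assoc] at h1
  have h3 := mul_right_cancel₀ h2 h1
  rw [← h3, hc, pow_add, mul_comm]
  congr 1
  rw [← prod_pow_eq_pow_sum]
  exact prod_congr rfl fun w _ => by rw [← pow_mul, mul_comm]

end Torus63

/-- Row StTorus. -/
theorem stTorus63 {k : ℕ} {r : Fin k → ℕ} {W : Type} [Fintype W] (ρ : FRep r W) : StTorus ρ := by
  classical
  intro y s A hA hind i v Φ hΦ
  obtain ⟨m0, hm0⟩ := MvPolynomial.support_nonempty.2 hΦ.1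
  refine ⟨fun i' a' => (∑ w, m0 w * ρ.wt w i' a') +
    Nat.card {b : Tc y i v // (⟨i, b.1⟩ : Σ i, Fin (r i)) = ⟨i', a'⟩}, fun e m hm i' a' => ?_⟩
  obtain ⟨d, hd⟩ := Torus63.key ρ y s A hA hind i v Φ hΦ i' a'
  have h1 := (hd e m hm).trans (hd Subtype.val m0 hm0).symm
  exact pow_right_injective₀ (zero_lt_two : (0 : ℚ) < 2) (by norm_num) h1

end Pool.Agent.Lib.MP_1acd66_nt.AR
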