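import Pool.Agent.Lib.MP_1acd66_nt.AR.NoBirSemi
import Pool.Agent.Lib.MP_1acd66_nt.AR.Semi37
import Pool.Agent.Lib.MP_1acd66_nt.AR.Prim37
import Pool.Agent.Lib.MP_1acd66_nt.AR.Torus63
import Pool.Agent.Lib.MP_1acd66_nt.AR.Slope63
import Pool.Agent.Lib.MP_1acd66_nt.AR.Mod63
import Pool.Agent.Lib.MP_1acd66_nt.AR.RowKer44

/-!
Representations with a nonconstant semi-invariant polynomial.
-/

namespace Pool.Agent.Lib.MP_1acd66_nt.AR

open Finset Pool.Agent.Lib.MP_1acd66_nt.Gen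

variable {k : ℕ} {r : Fin k → ℕ} {W : Type} [Fintype W]

/-- The representation has a nonconstant semi-invariant polynomial. -/
def HasInv (ρ : FRep r W) : Prop :=
  ∃ P : MvPolynomial W ℚ, SemiInv ρ P ∧ ∀ c, P ≠ MvPolynomial.C c

/-- The conditions on a representation and the number `m` of copies. -/
def Many4 (ρ : FRep r W) (m : ℕ) : Prop := HasInv (multRep ρ m) ∨ Many3 ρ m

/-- A representation with a nonconstant semi-invariant has no birational critical pair. -/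
theorem noBir_of_hasInv (ρ : FRep r W) (hJac : StJac ρ) (hr : ∀ i, 0 < r i)
    (hdeg : ∀ i, 0 < ρ.deg i) (h : HasInv ρ) : NoBir ρ := by
  obtain ⟨P, h1, h2⟩ := h
  exact noBir_of_semiInv ρ hr hdeg (stPrim37 ρ) (stTorus63 ρ)
    (stSlope63 ρ hJac (stMod ρ) stKer) (stSemi37 ρ) P h1 h2

theorem many3_of_many4 (ρ : FRep r W) (m : ℕ) (hJac : StJac (multRep ρ m)) (hr : ∀ i, 0 < r i)
    (hdeg : ∀ i, 0 < ρ.deg i) (h : Many4 ρ m) : Many3 ρ m := by
  rcases h with h | h
  · exact Or.inl (noBir_of_hasInv _ hJac hr hdeg h)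
  · exact h

end Pool.Agent.Lib.MP_1acd66_nt.AR
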