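import Pool.Agent.Lib.MP_1acd66_nt.AR.Defs8

/-!
Row StStab: the relations are stable under rational matrices.
-/

set_option autoImplicit false

namespace Pool.Agent.Lib.MP_1acd66_nt.AR

open Finset Pool.Agent.Lib.MP_1acd66_nt.Gen

/-- Row StStab. -/
theorem stStab63 {k : ℕ} {r : Fin k → ℕ} {W : Type} [Fintype W] (ρ : FRep r W) : StStab ρ := by
  classical
  intro g hg F hF
  -- constants
  let κ : ℚ →+* TT r W := (MvPolynomial.C : MvPolynomial W ℚ →+* TT r W).comp MvPolynomial.C
  let G := genG r W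
  let G' : Grp (TT r W) r := fun i => ((g i)⁻¹).map κ * G i
  let Θ : TT r W →+* TT r W := MvPolynomial.eval₂Hom
    ((MvPolynomial.C : MvPolynomial W ℚ →+* TT r W).comp (PW.psub ρ g).toRingHom)
    fun x => G' x.1 x.2.1 x.2.2
  have hΘC : ∀ p : MvPolynomial W ℚ, Θ (MvPolynomial.C p) = MvPolynomial.C (PW.psub ρ g p) :=
    fun p => MvPolynomial.eval₂Hom_C _ _ _
  have hΘX : ∀ x, Θ (MvPolynomial.X x) = G' x.1 x.2.1 x.2.2 :=
    fun x => MvPolynomial.eval₂Hom_X' _ _ _
  have hΘG : (fun i => (G i).map Θ) = G' := by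
    funext i
    ext1 a b
    exact hΘX ⟨i, a, b⟩
  have hgG : (fun i => (g i).map κ) * G' = G := by
    funext i
    change (g i).map κ * (((g i)⁻¹).map κ * G i) = G i
    rw [← Matrix.mul_assoc, ← Matrix.map_mul, Matrix.mul_nonsing_inv _ (Ne.isUnit (hg i)),
      Matrix.map_one _ (map_zero _) (map_one _), Matrix.one_mul]
  have hl : ∀ w, Θ (relG ρ (Sum.inl w)) = relG ρ (Sum.inl w) := by
    intro w
    change Θ (ρ.pull (TT r W) G (fun w => MvPolynomial.C (MvPolynomial.X w)) w) =
      ρ.pull (TT r W) G (fun w => MvPolynomial.C (MvPolynomial.X w)) w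
    have h1 := congrFun (ρ.pull_map (TT r W) (TT r W) Θ G
      fun w => MvPolynomial.C (MvPolynomial.X w)) w
    rw [← h1, hΘG]
    have h2 : (fun w => Θ (MvPolynomial.C (MvPolynomial.X w) : TT r W)) =
        ρ.pull (TT r W) (fun i => (g i).map κ) fun w => MvPolynomial.C (MvPolynomial.X w) := by
      funext w
      rw [hΘC, PW.psub_X]
      exact (congrFun (ρ.pull_map (MvPolynomial W ℚ) (TT r W) MvPolynomial.C
        (fun i => (g i).map (algebraMap ℚ (MvPolynomial W ℚ))) MvPolynomial.X) w).symm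
    rw [h2, ρ.pull_mul, hgG]
  have hr : ∀ i, Θ (relG ρ (Sum.inr i)) =
      MvPolynomial.C (MvPolynomial.C (g i).det⁻¹) * relG ρ (Sum.inr i) := by
    intro i
    change Θ (G i).det = MvPolynomial.C (MvPolynomial.C (g i).det⁻¹) * (G i).det
    have h1 := RingHom.map_det Θ (G i)
    rw [RingHom.mapMatrix_apply] at h1
    rw [h1]
    have h2 : (G i).map Θ = ((g i)⁻¹).map κ * G i := congrFun hΘG i
    rw [h2, Matrix.det_mul]
    congr 1
    have h3 := RingHom.map_det κ ((g i)⁻¹)
    rw [RingHom.mapMatrix_apply] at h3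
    rw [← h3, Matrix.det_nonsing_inv, Ring.inverse_eq_inv']
    rfl
  have h1 := congrArg Θ hF
  rw [map_zero, MvPolynomial.aeval_def, MvPolynomial.hom_eval₂] at h1
  rw [MvPolynomial.aeval_def, MvPolynomial.eval₂_map]
  have h2 : Θ.comp (algebraMap (MvPolynomial W ℚ) (TT r W)) =
      (algebraMap (MvPolynomial W ℚ) (TT r W)).comp (PW.psub ρ g).toRingHom := by
    refine RingHom.ext fun p => ?_
    exact hΘC p
  rw [h2] at h1
  have h3 : (fun x => Θ (relG ρ x)) = Sum.elim (fun w => relG ρ (Sum.inl w)) fun i =>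
      MvPolynomial.C (MvPolynomial.C (g i).det⁻¹) * relG ρ (Sum.inr i) := by
    funext x
    rcases x with w | i
    · exact hl w
    · exact hr i
  rw [← h3]
  exact h1

end Pool.Agent.Lib.MP_1acd66_nt.AR
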