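import Pool.Agent.Lib.MP_1acd66_nt.AR.Many4
import Pool.Agent.Lib.MP_1acd66_nt.AR.Jac63
import Pool.Agent.Lib.MP_1acd66_nt.AR.DimMain
import Pool.Agent.Lib.MP_1acd66_nt.AR.Stab63
import Pool.Agent.Lib.MP_1acd66_nt.AR.Dense63
import Pool.Agent.Lib.MP_1acd66_nt.AR.Ext37

/-!
Representations of large dimension.
-/

namespace Pool.Agent.Lib.MP_1acd66_nt.AR

open Finset Pool.Agent.Lib.MP_1acd66_nt.Gen

variable {k : ℕ} {r : Fin k → ℕ} {W : Type} [Fintype W]

/-- A representation whose dimension is greater than the dimension of the product of the special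
linear groups has a nonconstant semi-invariant. -/
theorem hasInv_of_dim (ρ : FRep r W) (hr : ∀ i, 0 < r i)
    (hdim : ∑ i, (r i ^ 2 - 1) < Fintype.card W) : HasInv ρ := by
  obtain ⟨P, h0, h1, h2⟩ := exists_semiInvQ ρ hr hdim (stStab63 ρ) (stDense63 ρ)
  exact ⟨P, stExt37 ρ P h0 h1, h2⟩

theorem noBir_of_any (ρ : FRep r W) (hr : ∀ i, 0 < r i) (hdeg : ∀ i, 0 < ρ.deg i)
    (h : ∑ i, (r i ^ 2 - 1) < Fintype.card W ∨ HasInv ρ ∨ NoBir ρ) : NoBir ρ := by
  rcases h with h | h | h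
  · exact noBir_of_hasInv ρ (stJac63 ρ) hr hdeg (hasInv_of_dim ρ hr h)
  · exact noBir_of_hasInv ρ (stJac63 ρ) hr hdeg h
  · exact h

end Pool.Agent.Lib.MP_1acd66_nt.AR
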