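import Pool.Agent.Lib.MP_1acd66_nt.AR.Final4
import Pool.Agent.Lib.MP_1acd66_nt.AR.Many5

/-!
The final statement: representations of large dimension, representations with a nonconstant
semi-invariant, and representations without birational critical pairs.
-/

namespace Pool.Agent.Lib.MP_1acd66_nt.AR

open Filter Topology Pool.Agent.Lib.MP_1acd66_nt.Gen

theorem final6 {k : ℕ} (r N : Fin k → ℕ) (hr : ∀ i, 0 < r i) (hN : ∀ i, r i < N i)
    {W : Type} [Fintype W] (ρ : FRep r W) (hdeg : ∀ i, 0 < ρ.deg i)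
    (hW : 2 ≤ Fintype.card W) (hb : ∀ i, ρ.b i ≤ N i)
    (hm : ∑ i, (r i ^ 2 - 1) < Fintype.card W ∨ HasInv ρ ∨ NoBir ρ)
    (h : Gen.AdelicNorm N ρ.toRepData) :
    (∀ B, (Gen.countSet (Good3 ρ) h B).Finite) ∧ ∃ c : ℝ, 0 < c ∧
      Tendsto (fun B : ℝ => ((Gen.countSet (Good3 ρ) h B).ncard : ℝ) /
        (B * Real.log B ^ k)) atTop (𝓝 c) := by
  have hT : StThin1 ρ := stThin1 _ (stVan _) (stAlg2 _ stDual (stLie _))
  have hE : NoExc ρ := noExc_of_noBir ρ
    (stTwice _ (stVan _) (stPermVan _) stBruhat stDom') (stGroup _) (stSieve' _)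
    (noBir_of_any ρ hr hdeg hm)
  exact main4 ρ (crit3_of_noExc ρ hT hE) hr hN hdeg hb hW h

end Pool.Agent.Lib.MP_1acd66_nt.AR
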