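import Pool.Agent.Lib.MP_1acd66_nt.AR.RowA

/-!
Reduction modulo a prime of the integral vectors which do not satisfy the condition.
-/

namespace Pool.Agent.Lib.MP_1acd66_nt.AR

open Finset Pool.Agent.Lib.MP_1acd66_nt.Gen

variable {k : ℕ} {r : Fin k → ℕ} {W : Type} [Fintype W]

theorem stRed (ρ : FRep r W) (hVan : StVan ρ) : StRed ρ := by
  intro p _ A hA
  unfold Good at hA
  push Not at hA
  obtain ⟨g, hg, y, u, hbig, hv⟩ := hA
  set f : ℚ →+* ℚ_[p] := Rat.castHom ℚ_[p] with hf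
  have hg' : ∀ i, ((g i).map f).det ≠ 0 := by
    intro i
    have h1 : ((g i).map f).det = f (g i).det := (RingHom.map_det f (g i)).symm
    rw [h1]
    intro h0
    exact hg i (f.injective (by rw [h0, map_zero]))
  choose σ h V hh hV1 hV0 hgh using fun i => stDecomp p (r i) (y i) (hbig.1 i) ((g i).map f) (hg' i)
  have h1 : ∀ w ∈ Blk ρ y u, ρ.pull ℚ_[p] (fun i => (g i).map f) (fun w => f (ratW A w)) w = 0 := by
    intro w hw
    rw [ρ.pull_map]
    simp only
    rw [hv w hw, map_zero]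
  have h2 : ∀ w ∈ Blk ρ y u,
      ρ.pull ℚ_[p] ((fun i => (g i).map f) * h) (fun w => f (ratW A w)) w = 0 := by
    rw [← ρ.pull_mul]
    exact hVan ℚ_[p] y u h hh _ h1
  have e1 : (fun i => (g i).map f) * h =
      fun i => (perm ℤ_[p] σ V i).map (PadicInt.Coe.ringHom (p := p)) := by
    funext i
    ext a b
    have h3 := hgh i ((σ i).symm a) b
    rw [Equiv.apply_symm_apply] at h3
    exact h3
  have e2 : (fun w => f (ratW A w)) =
      fun w => PadicInt.Coe.ringHom (p := p) ((A w : ℤ) : ℤ_[p]) := by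
    funext w
    rw [map_intCast, hf]
    simp [ratW]
  rw [e1, e2, ρ.pull_map] at h2
  have h3 : ∀ w ∈ Blk ρ y u, ρ.pull ℤ_[p] (perm ℤ_[p] σ V) (fun w => ((A w : ℤ) : ℤ_[p])) w = 0 := by
    intro w hw
    have h4 := h2 w hw
    exact Subtype.coe_injective h4
  refine ⟨y, u, hbig, σ, fun i => (V i).map PadicInt.toZMod, ?_, ?_, ?_⟩
  · intro i a
    have h5 : PadicInt.toZMod (V i a a) = 1 := by rw [hV1, map_one]
    exact h5
  · intro i a b hab hy
    have h5 : PadicInt.toZMod (V i a b) = 0 := by rw [hV0 i a b hab hy, map_zero]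
    exact h5
  · intro w hw
    have h5 := ρ.pull_map ℤ_[p] (ZMod p) PadicInt.toZMod (perm ℤ_[p] σ V)
      (fun w => ((A w : ℤ) : ℤ_[p]))
    have h6 := congrFun h5 w
    rw [h3 w hw, map_zero] at h6
    rw [← h6]
    have h7 : (fun w => ((A w : ℤ) : ZMod p)) = fun w => PadicInt.toZMod ((A w : ℤ) : ℤ_[p]) := by
      funext w
      rw [map_intCast]
    rw [h7]
    rfl

end Pool.Agent.Lib.MP_1acd66_nt.AR
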