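import Pool.Agent.Lib.MP_1acd66_nt.AR.Defs
import Pool.Agent.Lib.MP_1acd66_nt.Gen.FormsDense

/-!
Density zero of the vectors which do not satisfy the condition; invariance of the condition.
-/

namespace Pool.Agent.Lib.MP_1acd66_nt.AR

open Finset Pool.Agent.Lib.MP_1acd66_nt.Gen

variable {k : ℕ} {r : Fin k → ℕ} {W : Type} [Fintype W]

theorem stDens (ρ : FRep r W) (hRed : StRed ρ) (hCount : StCount ρ) : StDens ρ := by
  refine densityZero_of_zmod fun ε hε => ?_
  obtain ⟨C, hC⟩ := hCount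
  obtain ⟨M, hM⟩ := exists_nat_gt ((C : ℝ) / ε)
  obtain ⟨p, hp1, hp2⟩ := Nat.exists_infinite_primes (M + 1)
  have hpf : Fact p.Prime := ⟨hp2⟩
  have hp0 : 0 < p := hp2.pos
  have hp0' : (0 : ℝ) < p := by exact_mod_cast hp0
  obtain ⟨S, hS1, hS2⟩ := hC p
  refine ⟨p, hp0, S, ?_, ?_⟩
  · have h4 : (S.card : ℝ) * p ≤ (C : ℝ) * (p : ℝ) ^ Fintype.card W := by
      exact_mod_cast hS1
    have h5 : (C : ℝ) ≤ ε * p := by
      rw [div_lt_iff₀ hε] at hM
      have h6 : (M : ℝ) ≤ p := by exact_mod_cast (by omega : M ≤ p)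
      nlinarith
    have h6 : (0:ℝ) ≤ (p : ℝ) ^ Fintype.card W := by positivity
    have h7 : (S.card : ℝ) * p ≤ ε * (p : ℝ) ^ Fintype.card W * p := by
      refine h4.trans ?_
      nlinarith
    exact le_of_mul_le_mul_right h7 hp0'
  · intro A hA
    obtain ⟨y, u, hbig, σ, V, h1, h2, h3⟩ := hRed p A hA
    exact hS2 _ y u hbig σ V h1 h2 h3

theorem goodInv (ρ : FRep r W) : GoodInv ρ (Good ρ) where
  smul s A hs := by
    constructor
    · intro h g hg y u hb
      obtain ⟨w, hw, hne⟩ := h g hg y u hb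
      refine ⟨w, hw, fun h0 => hne ?_⟩
      rw [ρ.pull_smul, Pi.smul_apply, h0, smul_zero]
    · intro h g hg y u hb
      obtain ⟨w, hw, hne⟩ := h g hg y u hb
      refine ⟨w, hw, fun h0 => hne ?_⟩
      rw [ρ.pull_smul, Pi.smul_apply, smul_eq_mul] at h0
      exact (mul_eq_zero.1 h0).resolve_left hs
  pull g A hg := by
    constructor
    · intro h g' hg' y u hb
      have hgi : ∀ i, ((g⁻¹ * g') i).det ≠ 0 := by
        intro i
        have e : (g⁻¹ * g') i = (g i)⁻¹ * g' i := rfl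
        rw [e, Matrix.det_mul]
        refine mul_ne_zero ?_ (hg' i)
        rw [Matrix.det_nonsing_inv, Ring.inverse_eq_inv']
        exact inv_ne_zero (hg i)
      obtain ⟨w, hw, hne⟩ := h (g⁻¹ * g') hgi y u hb
      refine ⟨w, hw, fun h0 => hne ?_⟩
      rw [ρ.pull_mul]
      have e : g * (g⁻¹ * g') = g' := by
        funext i
        change g i * ((g i)⁻¹ * g' i) = g' i
        rw [← Matrix.mul_assoc, Matrix.mul_nonsing_inv _ (isUnit_iff_ne_zero.2 (hg i)),
          Matrix.one_mul]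
      rw [e, h0]
    · intro h g' hg' y u hb
      have hgi : ∀ i, ((g * g') i).det ≠ 0 := by
        intro i
        have e : (g * g') i = g i * g' i := rfl
        rw [e, Matrix.det_mul]
        exact mul_ne_zero (hg i) (hg' i)
      obtain ⟨w, hw, hne⟩ := h (g * g') hgi y u hb
      refine ⟨w, hw, fun h0 => hne ?_⟩
      rw [← ρ.pull_mul, h0]

/-- Theorem 1 from its parts. -/
theorem main_of (ρ : FRep r W) (hDens : StDens ρ)
    (hCusp : StCusp ρ) {N : Fin k → ℕ} (hcrit : Crit ρ) (hr : ∀ i, 0 < r i)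
    (hrN : ∀ i, r i < N i) (hdeg : ∀ i, 0 < ρ.deg i) (hb : ∀ i, ρ.b i ≤ N i)
    (hD : 2 ≤ Fintype.card W) (h : Gen.AdelicNorm N ρ.toRepData) :
    (∀ B, (Gen.countSet (Good ρ) h B).Finite) ∧ ∃ c : ℝ, 0 < c ∧
      Filter.Tendsto (fun B : ℝ => ((Gen.countSet (Good ρ) h B).ncard : ℝ) / (B * Real.log B ^ k))
        Filter.atTop (nhds c) :=
  engine (goodInv ρ) (hCusp hcrit (Fintype.card_pos_iff.1 (by omega)) hdeg) hDens hr hrN hb hD h

end Pool.Agent.Lib.MP_1acd66_nt.AR
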