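import Pool.Agent.Lib.MP_1acd66_nt.AR.Defs
import Pool.Agent.Lib.MP_1acd66_nt.Gen.FamTools

/-!
The cusp bound from the weight criterion.
-/

namespace Pool.Agent.Lib.MP_1acd66_nt.AR

open Finset Pool.Agent.Lib.MP_1acd66_nt.Gen

variable {k : ℕ} {r : Fin k → ℕ} {W : Type} [Fintype W]

theorem big_zero (ρ : FRep r W) [Nonempty W] : Big ρ (fun _ _ => 0) 0 := by
  refine ⟨fun i => monotone_const, ?_⟩
  have h1 : flagDim (fun (i : Fin k) (_ : Fin (r i)) => 0) = 0 := by
    unfold flagDim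
    simp
  rw [h1]
  have h2 : Blk ρ (fun _ _ => 0) 0 = univ := by
    unfold Blk
    simp
  rw [h2, card_univ]
  exact Fintype.card_pos

/-- triangularity -/
theorem tri_of (ρ : FRep r W) (hTri : StTri ρ) (hDiag : StDiag ρ) :
    ∃ ht : W → ℕ, ∀ μ : Grp ℝ r, UniLower μ → ∃ U : W → W → ℝ, UniTri ht U ∧
      ∀ (A : W → ℝ) w, ρ.pull ℝ μ A w = ∑ w', U w w' * A w' := by
  classical
  refine tri_of_basis ρ (fun w => pairN ρ (fun i a => a.val) w) ?_
  intro μ hμ
  have hd : ∀ w w', pairN ρ (fun i a => a.val) w = pairN ρ (fun i a => a.val) w' →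
      ρ.pull ℝ μ (Pi.single w' 1) w = if w = w' then 1 else 0 :=
    hDiag ℝ (fun i a => a.val) μ hμ.1 (fun i a b hab hle => hμ.2.1 i a b
      (lt_of_le_of_ne hle hab))
  constructor
  · intro w
    rw [hd w w rfl, if_pos rfl]
  · intro w w' hne hle
    by_contra h0
    have h1 := hTri ℝ (fun i a => a.val) μ (fun i a b hab => hμ.2.1 i a b hab) w w' h0
    have h2 := hd w w' (le_antisymm h1 hle)
    rw [if_neg hne.symm] at h2
    exact h0 h2

/-- vanishing of the integral coordinates in a closed set of positions with large monomials -/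
theorem vanish_of (ρ : FRep r W) (hTri : StTri ρ) (hDiag : StDiag ρ) {μ : Grp ℝ r}
    (hμ : UniLower μ) {l : ∀ i, Fin (r i) → ℝ} (hl : ∀ i a, 0 < l i a) {R : ℝ}
    {A : W → ℤ} (hle : ∀ w, |mono ρ l w * ρ.pull ℝ μ (realW A) w| ≤ R) (T : W → Prop)
    (hT : ∀ w, T w → R < mono ρ l w)
    (y : ∀ i, Fin (r i) → ℕ) (hy : ∀ i, Monotone (y i))
    (hcl : ∀ w w', T w → pairN ρ y w ≤ pairN ρ y w' → T w') : ∀ w, T w → A w = 0 := by
  classical
  set ht : W → ℕ := fun w => pairN ρ (fun i a => a.val) w with hht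
  have hd : ∀ w w', ht w = ht w' →
      ρ.pull ℝ μ (Pi.single w' 1) w = if w = w' then 1 else 0 :=
    hDiag ℝ (fun i a => a.val) μ hμ.1 (fun i a b hab hle => hμ.2.1 i a b
      (lt_of_le_of_ne hle hab))
  intro w
  induction w using (wf_ht ht).induction with
  | _ w ih =>
    intro hw
    have h1 : ρ.pull ℝ μ (realW A) w = (A w : ℝ) := by
      rw [ρ.pull_eq_sum, sum_eq_single w]
      · rw [hd w w rfl, if_pos rfl, one_mul]
        rfl
      · intro w' _ hne
        by_cases h0 : ρ.pull ℝ μ (Pi.single w' 1) w = 0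
        · rw [h0, zero_mul]
        · have h2 := hTri ℝ (fun i a => a.val) μ (fun i a b hab => hμ.2.1 i a b hab) w w' h0
          have h3 : ht w < ht w' := by
            refine lt_of_le_of_ne h2 fun h4 => h0 ?_
            rw [hd w w' h4, if_neg hne.symm]
          have h5 := hTri ℝ y μ (fun i a b hab => hμ.2.1 i a b ((hy i).reflect_lt hab)) w w' h0
          have h6 := ih w' h3 (hcl w w' hw h5)
          rw [realW, h6, Int.cast_zero, mul_zero]
      · intro h
        exact absurd (mem_univ _) h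
    have h2 := hle w
    rw [h1, abs_mul, abs_of_pos (mono_pos ρ hl w)] at h2
    by_contra hne
    have h3 : (1:ℝ) ≤ |(A w : ℝ)| := by
      have : (1:ℤ) ≤ |A w| := Int.one_le_abs hne
      exact_mod_cast this
    have h4 := hT w hw
    have h5 := mono_pos ρ hl w
    nlinarith

theorem stCusp (ρ : FRep r W) (hTri : StTri ρ) (hDiag : StDiag ρ) : StCusp ρ := by
  classical
  intro hcrit hne hdeg
  refine ⟨hdeg, tri_of ρ hTri hDiag, ?_⟩
  obtain ⟨θ, hθ, hcr⟩ := hcrit
  refine ⟨max θ 0, max_lt hθ zero_lt_one, ?_⟩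
  intro c hc
  have hc0 : 0 < c := by linarith
  set lc := Real.log c with hlc'
  have hlogc : 0 ≤ lc := Real.log_nonneg hc
  set D : ℝ := ((∑ i, ρ.deg i : ℕ) : ℝ) with hD
  have hD0 : 0 ≤ D := Nat.cast_nonneg _
  refine ⟨(∑ i, ∑ _a : Fin (r i), ∑ _b : Fin (r i), (1 + lc)) +
    ∑ _w : W, (D + D * lc + 1), ?_⟩
  intro μ hμ l hl hlc R hR A hA hle
  have hr : ∀ i, 0 < r i := by
    intro i
    obtain ⟨w⟩ := hne
    have h1 := ρ.wt_sum w i
    have h2 := hdeg i
    rw [← h1] at h2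
    by_contra h3
    have h4 : r i = 0 := by omega
    have : IsEmpty (Fin (r i)) := by rw [h4]; infer_instance
    rw [univ_eq_empty, sum_empty] at h2
    exact lt_irrefl _ h2
  set i0 : ∀ i, Fin (r i) := fun i => ⟨0, hr i⟩ with hi0
  set x : ∀ i, Fin (r i) → ℝ := fun i a =>
    (univ.filter (fun b => b ≤ a)).sup' ⟨a, by simp⟩ (fun b => Real.log (l i b)) with hx
  have hxm : ∀ i, Monotone (x i) := by
    intro i a b hab
    rw [hx]
    exact sup'_mono _ (fun z hz => by
      rw [mem_filter] at hz ⊢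
      exact ⟨hz.1, hz.2.trans hab⟩) _
  have hx1 : ∀ i a, Real.log (l i a) ≤ x i a := by
    intro i a
    rw [hx]
    exact le_sup' (fun b => Real.log (l i b)) (by simp)
  have hx2 : ∀ i a, x i a ≤ Real.log (l i a) + lc := by
    intro i a
    rw [hx]
    refine sup'_le _ _ fun b hb => ?_
    rw [mem_filter] at hb
    have h1 := Real.log_le_log (hl i b) (hlc i b a hb.2)
    rw [Real.log_mul hc0.ne' (hl i a).ne'] at h1
    linarith
  have hx0 : ∀ i a, 0 ≤ x i a - x i (i0 i) := by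
    intro i a
    have := hxm i (show i0 i ≤ a from Nat.zero_le _)
    linarith
  set y : ∀ i, Fin (r i) → ℕ := fun i a => ⌊x i a - x i (i0 i)⌋₊ with hy
  have hym : ∀ i, Monotone (y i) := by
    intro i a b hab
    exact Nat.floor_mono (by have := hxm i hab; linarith)
  have hy1 : ∀ i a, (y i a : ℝ) ≤ x i a - x i (i0 i) := fun i a => Nat.floor_le (hx0 i a)
  have hy2 : ∀ i a, x i a - x i (i0 i) ≤ y i a + 1 := fun i a => (Nat.lt_floor_add_one _).le
  set κ : ℝ := ∑ i, (ρ.deg i : ℝ) * x i (i0 i) with hκ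
  set P : W → ℝ := fun w => ∑ i, ∑ a, x i a * (ρ.wt w i a : ℝ) with hP
  have hPκ : ∀ w, P w - κ = ∑ i, ∑ a, (x i a - x i (i0 i)) * (ρ.wt w i a : ℝ) := by
    intro w
    rw [hP, hκ, ← sum_sub_distrib]
    refine sum_congr rfl fun i _ => ?_
    rw [← ρ.wt_sum w i]
    push_cast
    rw [sum_mul, ← sum_sub_distrib]
    refine sum_congr rfl fun a _ => ?_
    ring
  have hDw : ∀ w, D = ∑ i, ∑ a, (ρ.wt w i a : ℝ) := by
    intro w
    rw [hD]
    push_cast
    refine sum_congr rfl fun i _ => ?_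
    rw [← ρ.wt_sum w i]
    push_cast
    rfl
  have hp1 : ∀ w, (pairN ρ y w : ℝ) ≤ P w - κ := by
    intro w
    rw [hPκ, pairN]
    push_cast
    refine sum_le_sum fun i _ => sum_le_sum fun a _ => ?_
    exact mul_le_mul_of_nonneg_right (hy1 i a) (Nat.cast_nonneg _)
  have hp2 : ∀ w, P w - κ ≤ pairN ρ y w + D := by
    intro w
    rw [hPκ, hDw w, pairN]
    push_cast
    rw [← sum_add_distrib]
    refine sum_le_sum fun i _ => ?_
    rw [← sum_add_distrib]
    refine sum_le_sum fun a _ => ?_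
    have h1 := mul_le_mul_of_nonneg_right (hy2 i a) (Nat.cast_nonneg (ρ.wt w i a) : (0:ℝ) ≤ _)
    linarith
  have hmono : ∀ w, Real.log (mono ρ l w) = ∑ i, ∑ a, (ρ.wt w i a : ℝ) * Real.log (l i a) := by
    intro w
    rw [mono, Real.log_prod fun i _ => (prod_pos fun a _ => pow_pos (hl i a) _).ne']
    refine sum_congr rfl fun i _ => ?_
    rw [Real.log_prod fun a _ => (pow_pos (hl i a) _).ne']
    refine sum_congr rfl fun a _ => ?_
    rw [Real.log_pow]
  have hL1 : ∀ w, Real.log (mono ρ l w) ≤ P w := by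
    intro w
    rw [hmono, hP]
    refine sum_le_sum fun i _ => sum_le_sum fun a _ => ?_
    have h1 := mul_le_mul_of_nonneg_left (hx1 i a) (Nat.cast_nonneg (ρ.wt w i a) : (0:ℝ) ≤ _)
    linarith
  have hL2 : ∀ w, P w ≤ Real.log (mono ρ l w) + D * lc := by
    intro w
    rw [hmono, hP, hDw w, sum_mul, ← sum_add_distrib]
    refine sum_le_sum fun i _ => ?_
    rw [sum_mul, ← sum_add_distrib]
    refine sum_le_sum fun a _ => ?_
    have h1 := mul_le_mul_of_nonneg_left (hx2 i a) (Nat.cast_nonneg (ρ.wt w i a) : (0:ℝ) ≤ _)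
    linarith
  set v : ℝ := Real.log R + D * lc - κ with hv
  set s : ℕ := ⌈v⌉₊ with hs
  have hsv : v ≤ s := Nat.le_ceil _
  have hvan := vanish_of ρ hTri hDiag hμ hl hle (fun w => s < pairN ρ y w ∨ v < 0) ?_ y hym ?_
  rotate_left
  · intro w hw
    have hm := mono_pos ρ hl w
    refine (Real.log_lt_log_iff hR hm).1 ?_
    have h1 := hL2 w
    have h2 := hp1 w
    rcases hw with h3 | h3
    · have h4 : (s : ℝ) < pairN ρ y w := by exact_mod_cast h3
      linarith
    · have h4 : (0:ℝ) ≤ pairN ρ y w := Nat.cast_nonneg _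
      linarith
  · intro w w' hw hww
    rcases hw with h3 | h3
    · exact Or.inl (lt_of_lt_of_le h3 hww)
    · exact Or.inr h3
  have hv0 : 0 ≤ v := by
    by_contra hv0
    push Not at hv0
    obtain ⟨w, _, hw⟩ := hA 1 (fun i => by
      have : (1 : Grp ℚ r) i = 1 := rfl
      rw [this, Matrix.det_one]; exact one_ne_zero) _ _ (big_zero ρ)
    rw [ρ.pull_one] at hw
    apply hw
    rw [ratW, hvan w (Or.inr hv0), Int.cast_zero]
  have hsum : ((∑ w, (pairN ρ y w - s) : ℕ) : ℝ) ≤ θ * (spreadN y : ℕ) := by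
    rcases hcr y hym s with ⟨y', u', hb, hbl⟩ | h
    · exfalso
      obtain ⟨w, hw1, hw⟩ := hA 1 (fun i => by
        have : (1 : Grp ℚ r) i = 1 := rfl
        rw [this, Matrix.det_one]; exact one_ne_zero) _ _ hb
      rw [ρ.pull_one] at hw
      apply hw
      rw [ratW, hvan w (Or.inl (hbl w hw1)), Int.cast_zero]
    · exact h
  have hs2 : (s : ℝ) < v + 1 := Nat.ceil_lt_add_one hv0
  have hterm : ∀ w, max 0 (Real.log (mono ρ l w) - Real.log R) ≤
      ((pairN ρ y w - s : ℕ) : ℝ) + (D + D * lc + 1) := by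
    intro w
    have h0 : (0:ℝ) ≤ ((pairN ρ y w - s : ℕ) : ℝ) := Nat.cast_nonneg _
    have h1 : (pairN ρ y w : ℝ) - s ≤ ((pairN ρ y w - s : ℕ) : ℝ) := by
      have : pairN ρ y w ≤ (pairN ρ y w - s) + s := by omega
      have h2 : (pairN ρ y w : ℝ) ≤ ((pairN ρ y w - s : ℕ) : ℝ) + s := by exact_mod_cast this
      linarith
    have h2 := hL1 w
    have h3 := hp2 w
    have h4 : 0 ≤ D * lc := mul_nonneg hD0 hlogc
    refine max_le (by linarith) ?_
    linarith
  have hspr : ((spreadN y : ℕ) : ℝ) ≤ ∑ i, spread (fun a => Real.log (l i a)) +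
      ∑ i, ∑ _a : Fin (r i), ∑ _b : Fin (r i), (1 + lc) := by
    rw [spreadN]
    push_cast
    rw [← sum_add_distrib]
    refine sum_le_sum fun i _ => ?_
    rw [spread, ← sum_add_distrib]
    refine sum_le_sum fun a _ => ?_
    rw [← sum_add_distrib]
    refine sum_le_sum fun b _ => ?_
    have h1 := hy1 i a
    have h2 := hy2 i b
    have h3 := hx2 i a
    have h4 := hx1 i b
    have h5 := le_max_left 0 (Real.log (l i a) - Real.log (l i b))
    have h6 := le_max_right 0 (Real.log (l i a) - Real.log (l i b))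
    rcases le_total (y i b) (y i a) with h7 | h7
    · rw [Nat.cast_sub h7]
      linarith
    · rw [Nat.sub_eq_zero_of_le h7, Nat.cast_zero]
      linarith
  have hcst : 0 ≤ ∑ i, ∑ _a : Fin (r i), ∑ _b : Fin (r i), (1 + lc) :=
    sum_nonneg fun i _ => sum_nonneg fun a _ => sum_nonneg fun b _ => by linarith
  calc ∑ w, max 0 (Real.log (mono ρ l w) - Real.log R)
      ≤ ∑ w, (((pairN ρ y w - s : ℕ) : ℝ) + (D + D * lc + 1)) := sum_le_sum fun w _ => hterm w
    _ = ((∑ w, (pairN ρ y w - s) : ℕ) : ℝ) + ∑ _w : W, (D + D * lc + 1) := by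
        rw [sum_add_distrib]
        push_cast
        rfl
    _ ≤ max θ 0 * ((spreadN y : ℕ) : ℝ) + ∑ _w : W, (D + D * lc + 1) := by
        have h1 : θ * ((spreadN y : ℕ) : ℝ) ≤ max θ 0 * ((spreadN y : ℕ) : ℝ) :=
          mul_le_mul_of_nonneg_right (le_max_left _ _) (Nat.cast_nonneg _)
        linarith
    _ ≤ max θ 0 * ∑ i, spread (fun a => Real.log (l i a)) +
        ((∑ i, ∑ _a : Fin (r i), ∑ _b : Fin (r i), (1 + lc)) + ∑ _w : W, (D + D * lc + 1)) := by
        have h1 := mul_le_mul_of_nonneg_left hspr (le_max_right θ 0)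
        have h2 : max θ 0 ≤ 1 := (max_lt hθ zero_lt_one).le
        have h3 := mul_le_mul_of_nonneg_right h2 hcst
        rw [mul_add] at h1
        linarith

end Pool.Agent.Lib.MP_1acd66_nt.AR
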