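import Pool.Agent.Lib.MP_1acd66_nt.AR.Defs

/-!
Row G: the representation on `m` copies and the weight criterion for it.
-/

namespace Pool.Agent.Lib.MP_1acd66_nt.AR

open Finset Pool.Agent.Lib.MP_1acd66_nt.Gen

variable {k : ℕ} {r : Fin k → ℕ} {W : Type} [Fintype W]

/-- `m` copies of a representation. -/
def multRep (ρ : FRep r W) (m : ℕ) : FRep r (Fin m × W) where
  pull K _ g A := fun ew => ρ.pull K g (fun w => A (ew.1, w)) ew.2
  b := fun i => m * ρ.b i
  pull_one K _ A := by
    funext ew
    rw [ρ.pull_one]
  pull_mul K _ g h A := by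
    funext ew
    exact congrFun (ρ.pull_mul K g h (fun w => A (ew.1, w))) ew.2
  pull_add K _ g A B := by
    funext ew
    exact congrFun (ρ.pull_add K g (fun w => A (ew.1, w)) (fun w => B (ew.1, w))) ew.2
  pull_smul K _ g s A := by
    funext ew
    exact congrFun (ρ.pull_smul K g s (fun w => A (ew.1, w))) ew.2
  pull_map K L _ _ f g A := by
    funext ew
    exact congrFun (ρ.pull_map K L f g (fun w => A (ew.1, w))) ew.2
  cont K _ := by
    refine continuous_pi fun ew => ?_
    have h : Continuous (fun x : Grp K r × (Fin m × W → K) =>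
        ((x.1, fun w => x.2 (ew.1, w)) : Grp K r × (W → K))) := by
      refine continuous_fst.prodMk ?_
      exact continuous_pi fun w => (continuous_apply (ew.1, w)).comp continuous_snd
    exact (continuous_apply ew.2).comp ((ρ.cont K).comp h)
  wt := fun ew => ρ.wt ew.2
  pull_diag K _ l A ew := ρ.pull_diag K l (fun w => A (ew.1, w)) ew.2
  deg := ρ.deg
  wt_sum := fun ew i => ρ.wt_sum ew.2 i
  wt_total := fun i a => by
    rw [Fintype.sum_prod_type]
    simp only [ρ.wt_total, sum_const, card_univ, Fintype.card_fin, smul_eq_mul]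

theorem stMult : StMult := by
  intro k r W _ ρ m
  exact ⟨multRep ρ m, fun _ _ _ _ _ _ => rfl, fun _ => rfl, rfl, fun _ _ => rfl⟩

/-- The flag variety has dimension at most half the number of pairs. -/
theorem two_mul_flagDim_le (y : ∀ i, Fin (r i) → ℕ) :
    2 * flagDim y ≤ ∑ i, r i * (r i - 1) := by
  unfold flagDim
  rw [mul_sum]
  refine sum_le_sum fun i _ => ?_
  set P : Finset (Fin (r i) × Fin (r i)) :=
    univ.filter fun p : Fin (r i) × Fin (r i) => y i p.1 < y i p.2 with hP
  set Q : Finset (Fin (r i) × Fin (r i)) :=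
    univ.filter fun p : Fin (r i) × Fin (r i) => y i p.2 < y i p.1 with hQ
  have hcard : Q.card = P.card := by
    refine Finset.card_bij (fun p _ => p.swap) ?_ ?_ ?_
    · intro p hp
      simp only [hQ, hP, mem_filter, mem_univ, true_and, Prod.fst_swap, Prod.snd_swap] at hp ⊢
      exact hp
    · intro p _ q _ h
      exact Prod.swap_injective h
    · intro p hp
      refine ⟨p.swap, ?_, Prod.swap_swap p⟩
      simp only [hQ, hP, mem_filter, mem_univ, true_and, Prod.fst_swap, Prod.snd_swap] at hp ⊢
      exact hp
  have hdis : Disjoint P Q := by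
    rw [disjoint_left]
    intro p hp hq
    simp only [hP, hQ, mem_filter, mem_univ, true_and] at hp hq
    omega
  have hsub : P ∪ Q ⊆ (univ : Finset (Fin (r i))).offDiag := by
    intro p hp
    rw [mem_union] at hp
    rw [mem_offDiag]
    refine ⟨mem_univ _, mem_univ _, ?_⟩
    intro h
    rcases hp with hp | hp
    · simp only [hP, mem_filter, mem_univ, true_and, h] at hp
      exact absurd hp (lt_irrefl _)
    · simp only [hQ, mem_filter, mem_univ, true_and, h] at hp
      exact absurd hp (lt_irrefl _)
  have h1 := card_le_card hsub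
  rw [card_union_of_disjoint hdis, hcard, offDiag_card, card_univ, Fintype.card_fin] at h1
  have h2 : r i * r i - r i = r i * (r i - 1) := by
    rw [Nat.mul_sub_one]
  omega

/-- The pairing on the copies. -/
theorem pairN_mult (ρ : FRep r W) (m : ℕ) (ρ' : FRep r (Fin m × W))
    (h : ∀ e w, ρ'.wt (e, w) = ρ.wt w) (y : ∀ i, Fin (r i) → ℕ) (e : Fin m) (w : W) :
    pairN ρ' y (e, w) = pairN ρ y w := by
  unfold pairN
  rw [h]

theorem stCritMult (ρ : FRep r W) (m : ℕ) (ρ' : FRep r (Fin m × W)) : StCritMult ρ m ρ' := by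
  intro hwt hcase
  refine ⟨0, one_pos, ?_⟩
  intro y hy s
  by_cases hex : ∃ w, s < pairN ρ y w
  · left
    obtain ⟨w0, hw0⟩ := hex
    rcases hcase with hm | ⟨y0, u0, hy0, hbig, htop⟩
    · refine ⟨y, s + 1, ⟨hy, ?_⟩, ?_⟩
      · have h1 := two_mul_flagDim_le y
        have h2 : m ≤ (Blk ρ' y (s + 1)).card := by
          have h3 : (univ : Finset (Fin m)).map
              ⟨fun e => ((e, w0) : Fin m × W), fun a b hab => (Prod.mk.inj hab).1⟩ ⊆
              Blk ρ' y (s + 1) := by
            intro p hp
            rw [mem_map] at hp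
            obtain ⟨e, -, he⟩ := hp
            have he' : p = (e, w0) := he.symm
            subst he'
            simp only [Blk, mem_filter, mem_univ, true_and]
            rw [pairN_mult ρ m ρ' hwt]
            omega
          have h4 := card_le_card h3
          rwa [card_map, card_univ, Fintype.card_fin] at h4
        omega
      · intro p hp
        simp only [Blk, mem_filter, mem_univ, true_and] at hp
        omega
    · refine ⟨y0, u0, ⟨hy0, ?_⟩, ?_⟩
      · have h1 : Blk ρ' y0 u0 = (univ : Finset (Fin m)) ×ˢ Blk ρ y0 u0 := by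
          ext p
          obtain ⟨e, w⟩ := p
          simp only [Blk, mem_filter, mem_univ, true_and, mem_product]
          rw [pairN_mult ρ m ρ' hwt]
        rw [h1, card_product, card_univ, Fintype.card_fin]
        exact hbig
      · rintro ⟨e, w⟩ hp
        simp only [Blk, mem_filter, mem_univ, true_and] at hp
        rw [pairN_mult ρ m ρ' hwt] at hp ⊢
        refine lt_of_lt_of_le hw0 (htop w ?_ y hy w0)
        simp only [Blk, mem_filter, mem_univ, true_and]
        exact hp
  · right
    have h0 : (∑ w, (pairN ρ' y w - s) : ℕ) = 0 := by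
      refine sum_eq_zero fun p _ => ?_
      obtain ⟨e, w⟩ := p
      rw [pairN_mult ρ m ρ' hwt]
      have : ¬ s < pairN ρ y w := fun h => hex ⟨w, h⟩
      omega
    rw [h0]
    simp

end Pool.Agent.Lib.MP_1acd66_nt.AR
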