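import Pool.Agent.Lib.MP_1acd66_nt.AR.RowA
import Pool.Agent.Lib.MP_1acd66_nt.AR.Defs2

/-!
The vectors which do not satisfy the condition lie on a hypersurface.
-/

namespace Pool.Agent.Lib.MP_1acd66_nt.AR

open Finset Pool.Agent.Lib.MP_1acd66_nt.Gen

variable {k : ℕ} {r : Fin k → ℕ} {W : Type} [Fintype W]

/-- the pairs of different slopes -/
def steps (y : ∀ i, Fin (r i) → ℕ) : Finset (Σ i, Fin (r i) × Fin (r i)) :=
  univ.sigma fun i => univ.filter fun p : Fin (r i) × Fin (r i) => y i p.1 < y i p.2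

theorem card_steps (y : ∀ i, Fin (r i) → ℕ) : (steps y).card = flagDim y := by
  rw [steps, card_sigma, flagDim]

theorem stClosed (ρ : FRep r W) (hVan : StVan ρ) (hAlg : StAlg ρ) : StClosed ρ := by
  classical
  unfold StAlg at hAlg
  choose F hF0 hF using hAlg
  have : Fact (Nat.Prime 2) := ⟨Nat.prime_two⟩
  set G : Finset W × Finset (Σ i, Fin (r i) × Fin (r i)) × (∀ i, Equiv.Perm (Fin (r i))) →
      MvPolynomial W ℚ := fun x =>
    if h : x.2.1.card < x.1.card ∧ ∀ z ∈ x.2.1, z.2.1 < z.2.2 then F x.1 x.2.1 h.1 h.2 x.2.2 else 1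
    with hG
  refine ⟨∏ x, G x, ?_, ?_⟩
  · rw [prod_ne_zero_iff]
    intro x _
    rw [hG]
    simp only
    split_ifs with h
    · exact hF0 _ _ _ _ _
    · exact one_ne_zero
  · intro A hA
    unfold Good at hA
    push Not at hA
    obtain ⟨g, hg, y, u, hbig, hv⟩ := hA
    set f : ℚ →+* ℚ_[2] := algebraMap ℚ ℚ_[2] with hf
    have hg' : ∀ i, ((g i).map f).det ≠ 0 := by
      intro i
      have h1 : ((g i).map f).det = f (g i).det := (RingHom.map_det f (g i)).symm
      rw [h1]
      intro h0
      exact hg i (f.injective (by rw [h0, map_zero]))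
    choose σ h V hh hV1 hV0 hgh using
      fun i => stDecomp 2 (r i) (y i) (hbig.1 i) ((g i).map f) (hg' i)
    have h1 : ∀ w ∈ Blk ρ y u, ρ.pull ℚ_[2] (fun i => (g i).map f) (fun w => f (A w)) w = 0 := by
      intro w hw
      rw [ρ.pull_map]
      simp only
      rw [hv w hw, map_zero]
    have h2 : ∀ w ∈ Blk ρ y u,
        ρ.pull ℚ_[2] ((fun i => (g i).map f) * h) (fun w => f (A w)) w = 0 := by
      rw [← ρ.pull_mul]
      exact hVan ℚ_[2] y u h hh _ h1
    set V' : Grp ℚ_[2] r := fun i => (V i).map (PadicInt.Coe.ringHom (p := 2)) with hV'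
    have e1 : (fun i => (g i).map f) * h = perm ℚ_[2] σ V' := by
      funext i
      ext a b
      have h3 := hgh i ((σ i).symm a) b
      rw [Equiv.apply_symm_apply] at h3
      exact h3
    rw [e1] at h2
    have hcond : (steps y).card < (Blk ρ y u).card ∧ ∀ z ∈ steps y, z.2.1 < z.2.2 := by
      refine ⟨by rw [card_steps]; exact hbig.2, ?_⟩
      intro z hz
      rw [steps, mem_sigma, mem_filter] at hz
      exact (hbig.1 z.1).reflect_lt hz.2.2
    have h3 := hF (Blk ρ y u) (steps y) hcond.1 hcond.2 σ ℚ_[2] (fun w => f (A w)) V' ?_ ?_ h2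
    · rw [map_prod]
      refine prod_eq_zero (mem_univ (Blk ρ y u, steps y, σ)) ?_
      have h4 : G (Blk ρ y u, steps y, σ) = F (Blk ρ y u) (steps y) hcond.1 hcond.2 σ := by
        rw [hG]
        simp only
        rw [dif_pos hcond]
      rw [h4]
      have h5 : MvPolynomial.aeval (fun w => f (A w)) (F (Blk ρ y u) (steps y) hcond.1 hcond.2 σ) =
          f (MvPolynomial.eval A (F (Blk ρ y u) (steps y) hcond.1 hcond.2 σ)) := by
        have h6 := MvPolynomial.aeval_algebraMap_apply ℚ_[2] A
          (F (Blk ρ y u) (steps y) hcond.1 hcond.2 σ)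
        have h7 : MvPolynomial.aeval A (F (Blk ρ y u) (steps y) hcond.1 hcond.2 σ) =
            MvPolynomial.eval A (F (Blk ρ y u) (steps y) hcond.1 hcond.2 σ) :=
          DFunLike.congr_fun (MvPolynomial.coe_aeval_eq_eval A) _
        rw [h7] at h6
        exact h6
      rw [h5] at h3
      exact f.injective (by rw [h3, map_zero])
    · intro i a
      have h5 : PadicInt.Coe.ringHom (p := 2) (V i a a) = 1 := by rw [hV1, map_one]
      exact h5
    · intro i a b hab hnot
      have h6 : y i b ≤ y i a := by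
        by_contra hcon
        push Not at hcon
        apply hnot
        rw [steps, mem_sigma, mem_filter]
        exact ⟨mem_univ _, mem_univ _, hcon⟩
      have h5 : PadicInt.Coe.ringHom (p := 2) (V i a b) = 0 := by
        rw [hV0 i a b hab h6, map_zero]
      exact h5

end Pool.Agent.Lib.MP_1acd66_nt.AR
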