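import Pool.Agent.Lib.MP_1acd66_nt.AR.RowB
import Pool.Agent.Lib.MP_1acd66_nt.AR.RowC
import Pool.Agent.Lib.MP_1acd66_nt.AR.RowD
import Pool.Agent.Lib.MP_1acd66_nt.AR.RowE
import Pool.Agent.Lib.MP_1acd66_nt.AR.RowF
import Pool.Agent.Lib.MP_1acd66_nt.AR.RowG
import Pool.Agent.Lib.MP_1acd66_nt.AR.RowJ2

/-!
The asymptotic formula for every representation which satisfies the weight criterion.
-/

namespace Pool.Agent.Lib.MP_1acd66_nt.AR

open Finset Pool.Agent.Lib.MP_1acd66_nt.Gen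

variable {k : ℕ} {r : Fin k → ℕ} {W : Type} [Fintype W]

theorem main1 (ρ : FRep r W) {N : Fin k → ℕ} (hcrit : Crit ρ) (hr : ∀ i, 0 < r i)
    (hrN : ∀ i, r i < N i) (hdeg : ∀ i, 0 < ρ.deg i) (hb : ∀ i, ρ.b i ≤ N i)
    (hD : 2 ≤ Fintype.card W) (h : Gen.AdelicNorm N ρ.toRepData) :
    (∀ B, (Gen.countSet (Good ρ) h B).Finite) ∧ ∃ c : ℝ, 0 < c ∧
      Filter.Tendsto (fun B : ℝ => ((Gen.countSet (Good ρ) h B).ncard : ℝ) / (B * Real.log B ^ k))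
        Filter.atTop (nhds c) :=
  main_of ρ (stDens ρ (stRed ρ (stVan ρ)) (stCount ρ)) (stCusp ρ (stTri ρ) (stDiag ρ)) hcrit hr hrN
    hdeg hb hD h

/-- the block of the highest weight gives the criterion for `m` copies -/
theorem crit_top (ρ : FRep r W) (hTop : StTop ρ) (m : ℕ) {w0 : W} (hw : Top ρ w0)
    (hm : flagDim (ρ.wt w0) < m) : Crit (multRep ρ m) := by
  obtain ⟨h1, h2⟩ := hTop w0 hw
  refine stCritMult ρ m (multRep ρ m) (fun _ _ => rfl) (Or.inr ⟨ρ.wt w0,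
    pairN ρ (ρ.wt w0) w0, h1, ?_, ?_⟩)
  · have h3 : 0 < (Blk ρ (ρ.wt w0) (pairN ρ (ρ.wt w0) w0)).card := by
      rw [card_pos]
      exact ⟨w0, by rw [Blk, mem_filter]; exact ⟨mem_univ _, le_rfl⟩⟩
    nlinarith
  · intro w hwB y hy w'
    have h4 := h2 w hwB
    have h5 : pairN ρ y w = pairN ρ y w0 := by
      unfold pairN
      rw [h4]
    rw [h5]
    exact hw y hy w'

theorem main2 (ρ : FRep r W) (m : ℕ) (hTop : StTop ρ) (hClosed : StClosed (multRep ρ m))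
    {N : Fin k → ℕ} (hr : ∀ i, 0 < r i)
    (hrN : ∀ i, r i < N i) (hdeg : ∀ i, 0 < ρ.deg i) (hb : ∀ i, m * ρ.b i ≤ N i)
    (hW : 2 ≤ m * Fintype.card W)
    (hm : Crit (multRep ρ m) ∨ ∑ i, r i * (r i - 1) < 2 * m ∨ ∃ w, Top ρ w ∧ flagDim (ρ.wt w) < m)
    (h : Gen.AdelicNorm N (multRep ρ m).toRepData) :
    (∃ F : MvPolynomial (Fin m × W) ℚ, F ≠ 0 ∧
      ∀ A, ¬ Good (multRep ρ m) A → MvPolynomial.eval A F = 0) ∧
    (∀ B, (Gen.countSet (Good (multRep ρ m)) h B).Finite) ∧ ∃ c : ℝ, 0 < c ∧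
      Filter.Tendsto (fun B : ℝ => ((Gen.countSet (Good (multRep ρ m)) h B).ncard : ℝ) /
        (B * Real.log B ^ k)) Filter.atTop (nhds c) := by
  refine ⟨hClosed, main1 (multRep ρ m) ?_ hr hrN hdeg hb ?_ h⟩
  · rcases hm with h1 | h1 | ⟨w, h1, h2⟩
    · exact h1
    · exact stCritMult ρ m (multRep ρ m) (fun _ _ => rfl) (Or.inl h1)
    · exact crit_top ρ hTop m h1 h2
  · rw [Fintype.card_prod, Fintype.card_fin]
    exact hW

end Pool.Agent.Lib.MP_1acd66_nt.AR
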