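import Pool.Agent.Lib.MP_1acd66_nt.AR.RowF
import Pool.Agent.Lib.MP_1acd66_nt.AR.Defs3

/-!
The cusp bound, the invariance and the density for the admissible blocks.
-/

namespace Pool.Agent.Lib.MP_1acd66_nt.AR

open Finset Pool.Agent.Lib.MP_1acd66_nt.Gen

variable {k : ℕ} {r : Fin k → ℕ} {W : Type} [Fintype W]

/-- The cusp bound for a set `bs` of blocks. -/
theorem cuspData_of (ρ : FRep r W) (hTri : StTri ρ) (hDiag : StDiag ρ) {G : (W → ℚ) → Prop}
    (bs : (∀ i, Fin (r i) → ℕ) → ℕ → Prop) (hne : Nonempty W) (hdeg : ∀ i, 0 < ρ.deg i)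
    (hG0 : ∀ A : W → ℤ, G (ratW A) → ∃ w, A w ≠ 0)
    (hG : ∀ A : W → ℤ, G (ratW A) → ∀ y u, bs y u → ∃ w ∈ Blk ρ y u, A w ≠ 0)
    (hcrit : ∃ θ : ℝ, θ < 1 ∧ ∀ y : ∀ i, Fin (r i) → ℕ, (∀ i, Monotone (y i)) → ∀ s : ℕ,
      (∃ y' u', bs y' u' ∧ ∀ w ∈ Blk ρ y' u', s < pairN ρ y w) ∨
        ((∑ w, (pairN ρ y w - s) : ℕ) : ℝ) ≤ θ * (spreadN y : ℕ)) : CuspData ρ G := by
  classical
  refine ⟨hdeg, tri_of ρ hTri hDiag, ?_⟩
  obtain ⟨θ, hθ, hcr⟩ := hcrit
  refine ⟨max θ 0, max_lt hθ zero_lt_one, ?_⟩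
  intro c hc
  have hc0 : 0 < c := by linarith
  set lc := Real.log c with hlc'
  have hlogc : 0 ≤ lc := Real.log_nonneg hc
  set D : ℝ := ((∑ i, ρ.deg i : ℕ) : ℝ) with hD
  have hD0 : 0 ≤ D := Nat.cast_nonneg _
  refine ⟨(∑ i, ∑ _a : Fin (r i), ∑ _b : Fin (r i), (1 + lc)) +
    ∑ _w : W, (D + D * lc + 1), ?_⟩
  intro μ hμ l hl hlc R hR A hA hle
  have hr : ∀ i, 0 < r i := by
    intro i
    obtain ⟨w⟩ := hne
    have h1 := ρ.wt_sum w i
    have h2 := hdeg i
    rw [← h1] at h2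
    by_contra h3
    have h4 : r i = 0 := by omega
    have : IsEmpty (Fin (r i)) := by rw [h4]; infer_instance
    rw [univ_eq_empty, sum_empty] at h2
    exact lt_irrefl _ h2
  set i0 : ∀ i, Fin (r i) := fun i => ⟨0, hr i⟩ with hi0
  set x : ∀ i, Fin (r i) → ℝ := fun i a =>
    (univ.filter (fun b => b ≤ a)).sup' ⟨a, by simp⟩ (fun b => Real.log (l i b)) with hx
  have hxm : ∀ i, Monotone (x i) := by
    intro i a b hab
    rw [hx]
    exact sup'_mono _ (fun z hz => by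
      rw [mem_filter] at hz ⊢
      exact ⟨hz.1, hz.2.trans hab⟩) _
  have hx1 : ∀ i a, Real.log (l i a) ≤ x i a := by
    intro i a
    rw [hx]
    exact le_sup' (fun b => Real.log (l i b)) (by simp)
  have hx2 : ∀ i a, x i a ≤ Real.log (l i a) + lc := by
    intro i a
    rw [hx]
    refine sup'_le _ _ fun b hb => ?_
    rw [mem_filter] at hb
    have h1 := Real.log_le_log (hl i b) (hlc i b a hb.2)
    rw [Real.log_mul hc0.ne' (hl i a).ne'] at h1
    linarith
  have hx0 : ∀ i a, 0 ≤ x i a - x i (i0 i) := by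
    intro i a
    have := hxm i (show i0 i ≤ a from Nat.zero_le _)
    linarith
  set y : ∀ i, Fin (r i) → ℕ := fun i a => ⌊x i a - x i (i0 i)⌋₊ with hy
  have hym : ∀ i, Monotone (y i) := by
    intro i a b hab
    exact Nat.floor_mono (by have := hxm i hab; linarith)
  have hy1 : ∀ i a, (y i a : ℝ) ≤ x i a - x i (i0 i) := fun i a => Nat.floor_le (hx0 i a)
  have hy2 : ∀ i a, x i a - x i (i0 i) ≤ y i a + 1 := fun i a => (Nat.lt_floor_add_one _).le
  set κ : ℝ := ∑ i, (ρ.deg i : ℝ) * x i (i0 i) with hκ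
  set P : W → ℝ := fun w => ∑ i, ∑ a, x i a * (ρ.wt w i a : ℝ) with hP
  have hPκ : ∀ w, P w - κ = ∑ i, ∑ a, (x i a - x i (i0 i)) * (ρ.wt w i a : ℝ) := by
    intro w
    rw [hP, hκ, ← sum_sub_distrib]
    refine sum_congr rfl fun i _ => ?_
    rw [← ρ.wt_sum w i]
    push_cast
    rw [sum_mul, ← sum_sub_distrib]
    refine sum_congr rfl fun a _ => ?_
    ring
  have hDw : ∀ w, D = ∑ i, ∑ a, (ρ.wt w i a : ℝ) := by
    intro w
    rw [hD]
    push_cast
    refine sum_congr rfl fun i _ => ?_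
    rw [← ρ.wt_sum w i]
    push_cast
    rfl
  have hp1 : ∀ w, (pairN ρ y w : ℝ) ≤ P w - κ := by
    intro w
    rw [hPκ, pairN]
    push_cast
    refine sum_le_sum fun i _ => sum_le_sum fun a _ => ?_
    exact mul_le_mul_of_nonneg_right (hy1 i a) (Nat.cast_nonneg _)
  have hp2 : ∀ w, P w - κ ≤ pairN ρ y w + D := by
    intro w
    rw [hPκ, hDw w, pairN]
    push_cast
    rw [← sum_add_distrib]
    refine sum_le_sum fun i _ => ?_
    rw [← sum_add_distrib]
    refine sum_le_sum fun a _ => ?_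
    have h1 := mul_le_mul_of_nonneg_right (hy2 i a) (Nat.cast_nonneg (ρ.wt w i a) : (0:ℝ) ≤ _)
    linarith
  have hmono : ∀ w, Real.log (mono ρ l w) = ∑ i, ∑ a, (ρ.wt w i a : ℝ) * Real.log (l i a) := by
    intro w
    rw [mono, Real.log_prod fun i _ => (prod_pos fun a _ => pow_pos (hl i a) _).ne']
    refine sum_congr rfl fun i _ => ?_
    rw [Real.log_prod fun a _ => (pow_pos (hl i a) _).ne']
    refine sum_congr rfl fun a _ => ?_
    rw [Real.log_pow]
  have hL1 : ∀ w, Real.log (mono ρ l w) ≤ P w := by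
    intro w
    rw [hmono, hP]
    refine sum_le_sum fun i _ => sum_le_sum fun a _ => ?_
    have h1 := mul_le_mul_of_nonneg_left (hx1 i a) (Nat.cast_nonneg (ρ.wt w i a) : (0:ℝ) ≤ _)
    linarith
  have hL2 : ∀ w, P w ≤ Real.log (mono ρ l w) + D * lc := by
    intro w
    rw [hmono, hP, hDw w, sum_mul, ← sum_add_distrib]
    refine sum_le_sum fun i _ => ?_
    rw [sum_mul, ← sum_add_distrib]
    refine sum_le_sum fun a _ => ?_
    have h1 := mul_le_mul_of_nonneg_left (hx2 i a) (Nat.cast_nonneg (ρ.wt w i a) : (0:ℝ) ≤ _)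
    linarith
  set v : ℝ := Real.log R + D * lc - κ with hv
  set s : ℕ := ⌈v⌉₊ with hs
  have hsv : v ≤ s := Nat.le_ceil _
  have hvan := vanish_of ρ hTri hDiag hμ hl hle (fun w => s < pairN ρ y w ∨ v < 0) ?_ y hym ?_
  rotate_left
  · intro w hw
    have hm := mono_pos ρ hl w
    refine (Real.log_lt_log_iff hR hm).1 ?_
    have h1 := hL2 w
    have h2 := hp1 w
    rcases hw with h3 | h3
    · have h4 : (s : ℝ) < pairN ρ y w := by exact_mod_cast h3
      linarith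
    · have h4 : (0:ℝ) ≤ pairN ρ y w := Nat.cast_nonneg _
      linarith
  · intro w w' hw hww
    rcases hw with h3 | h3
    · exact Or.inl (lt_of_lt_of_le h3 hww)
    · exact Or.inr h3
  have hv0 : 0 ≤ v := by
    by_contra hv0
    push Not at hv0
    obtain ⟨w, hw⟩ := hG0 A hA
    exact hw (hvan w (Or.inr hv0))
  have hsum : ((∑ w, (pairN ρ y w - s) : ℕ) : ℝ) ≤ θ * (spreadN y : ℕ) := by
    rcases hcr y hym s with ⟨y', u', hb, hbl⟩ | h
    · exfalso
      obtain ⟨w, hw1, hw⟩ := hG A hA _ _ hb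
      exact hw (hvan w (Or.inl (hbl w hw1)))
    · exact h
  have hs2 : (s : ℝ) < v + 1 := Nat.ceil_lt_add_one hv0
  have hterm : ∀ w, max 0 (Real.log (mono ρ l w) - Real.log R) ≤
      ((pairN ρ y w - s : ℕ) : ℝ) + (D + D * lc + 1) := by
    intro w
    have h0 : (0:ℝ) ≤ ((pairN ρ y w - s : ℕ) : ℝ) := Nat.cast_nonneg _
    have h1 : (pairN ρ y w : ℝ) - s ≤ ((pairN ρ y w - s : ℕ) : ℝ) := by
      have : pairN ρ y w ≤ (pairN ρ y w - s) + s := by omega
      have h2 : (pairN ρ y w : ℝ) ≤ ((pairN ρ y w - s : ℕ) : ℝ) + s := by exact_mod_cast this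
      linarith
    have h2 := hL1 w
    have h3 := hp2 w
    have h4 : 0 ≤ D * lc := mul_nonneg hD0 hlogc
    refine max_le (by linarith) ?_
    linarith
  have hspr : ((spreadN y : ℕ) : ℝ) ≤ ∑ i, spread (fun a => Real.log (l i a)) +
      ∑ i, ∑ _a : Fin (r i), ∑ _b : Fin (r i), (1 + lc) := by
    rw [spreadN]
    push_cast
    rw [← sum_add_distrib]
    refine sum_le_sum fun i _ => ?_
    rw [spread, ← sum_add_distrib]
    refine sum_le_sum fun a _ => ?_
    rw [← sum_add_distrib]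
    refine sum_le_sum fun b _ => ?_
    have h1 := hy1 i a
    have h2 := hy2 i b
    have h3 := hx2 i a
    have h4 := hx1 i b
    have h5 := le_max_left 0 (Real.log (l i a) - Real.log (l i b))
    have h6 := le_max_right 0 (Real.log (l i a) - Real.log (l i b))
    rcases le_total (y i b) (y i a) with h7 | h7
    · rw [Nat.cast_sub h7]
      linarith
    · rw [Nat.sub_eq_zero_of_le h7, Nat.cast_zero]
      linarith
  have hcst : 0 ≤ ∑ i, ∑ _a : Fin (r i), ∑ _b : Fin (r i), (1 + lc) :=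
    sum_nonneg fun i _ => sum_nonneg fun a _ => sum_nonneg fun b _ => by linarith
  calc ∑ w, max 0 (Real.log (mono ρ l w) - Real.log R)
      ≤ ∑ w, (((pairN ρ y w - s : ℕ) : ℝ) + (D + D * lc + 1)) := sum_le_sum fun w _ => hterm w
    _ = ((∑ w, (pairN ρ y w - s) : ℕ) : ℝ) + ∑ _w : W, (D + D * lc + 1) := by
        rw [sum_add_distrib]
        push_cast
        rfl
    _ ≤ max θ 0 * ((spreadN y : ℕ) : ℝ) + ∑ _w : W, (D + D * lc + 1) := by
        have h1 : θ * ((spreadN y : ℕ) : ℝ) ≤ max θ 0 * ((spreadN y : ℕ) : ℝ) :=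
          mul_le_mul_of_nonneg_right (le_max_left _ _) (Nat.cast_nonneg _)
        linarith
    _ ≤ max θ 0 * ∑ i, spread (fun a => Real.log (l i a)) +
        ((∑ i, ∑ _a : Fin (r i), ∑ _b : Fin (r i), (1 + lc)) + ∑ _w : W, (D + D * lc + 1)) := by
        have h1 := mul_le_mul_of_nonneg_left hspr (le_max_right θ 0)
        have h2 : max θ 0 ≤ 1 := (max_lt hθ zero_lt_one).le
        have h3 := mul_le_mul_of_nonneg_right h2 hcst
        rw [mul_add] at h1
        linarith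


theorem good2_int (ρ : FRep r W) {A : W → ℤ} (hA : Good2 ρ (ratW A)) {y : ∀ i, Fin (r i) → ℕ}
    {u : ℕ} (hb : Adm ρ y u) : ∃ w ∈ Blk ρ y u, A w ≠ 0 := by
  obtain ⟨w, hw1, hw⟩ := hA 1 (fun i => by
    have : (1 : Grp ℚ r) i = 1 := rfl
    rw [this, Matrix.det_one]; exact one_ne_zero) _ _ hb
  rw [ρ.pull_one] at hw
  refine ⟨w, hw1, fun h0 => hw ?_⟩
  rw [ratW, h0, Int.cast_zero]

theorem stCusp2 (ρ : FRep r W) (hTri : StTri ρ) (hDiag : StDiag ρ) (hcrit : Crit2 ρ)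
    (hne : Nonempty W) (hdeg : ∀ i, 0 < ρ.deg i) : CuspData ρ (Good2 ρ) := by
  refine cuspData_of ρ hTri hDiag (Adm ρ) hne hdeg ?_ ?_ hcrit
  · intro A hA
    obtain ⟨w, _, hw⟩ := good2_int ρ hA (Or.inl (big_zero ρ))
    exact ⟨w, hw⟩
  · intro A hA y u hb
    exact good2_int ρ hA hb

/-- invariance for any set of blocks -/
theorem goodInv_of (ρ : FRep r W) (bs : (∀ i, Fin (r i) → ℕ) → ℕ → Prop) :
    GoodInv ρ (fun A => ∀ g : Grp ℚ r, (∀ i, (g i).det ≠ 0) → ∀ y u, bs y u →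
      ∃ w ∈ Blk ρ y u, ρ.pull ℚ g A w ≠ 0) where
  smul s A hs := by
    constructor
    · intro h g hg y u hb
      obtain ⟨w, hw, hne⟩ := h g hg y u hb
      refine ⟨w, hw, fun h0 => hne ?_⟩
      rw [ρ.pull_smul, Pi.smul_apply, h0, smul_zero]
    · intro h g hg y u hb
      obtain ⟨w, hw, hne⟩ := h g hg y u hb
      refine ⟨w, hw, fun h0 => hne ?_⟩
      rw [ρ.pull_smul, Pi.smul_apply, smul_eq_mul] at h0
      exact (mul_eq_zero.1 h0).resolve_left hs
  pull g A hg := by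
    constructor
    · intro h g' hg' y u hb
      have hgi : ∀ i, ((g⁻¹ * g') i).det ≠ 0 := by
        intro i
        have e : (g⁻¹ * g') i = (g i)⁻¹ * g' i := rfl
        rw [e, Matrix.det_mul]
        refine mul_ne_zero ?_ (hg' i)
        rw [Matrix.det_nonsing_inv, Ring.inverse_eq_inv']
        exact inv_ne_zero (hg i)
      obtain ⟨w, hw, hne⟩ := h (g⁻¹ * g') hgi y u hb
      refine ⟨w, hw, fun h0 => hne ?_⟩
      rw [ρ.pull_mul]
      have e : g * (g⁻¹ * g') = g' := by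
        funext i
        change g i * ((g i)⁻¹ * g' i) = g' i
        rw [← Matrix.mul_assoc, Matrix.mul_nonsing_inv _ (isUnit_iff_ne_zero.2 (hg i)),
          Matrix.one_mul]
      rw [e, h0]
    · intro h g' hg' y u hb
      have hgi : ∀ i, ((g * g') i).det ≠ 0 := by
        intro i
        have e : (g * g') i = g i * g' i := rfl
        rw [e, Matrix.det_mul]
        exact mul_ne_zero (hg i) (hg' i)
      obtain ⟨w, hw, hne⟩ := h (g * g') hgi y u hb
      refine ⟨w, hw, fun h0 => hne ?_⟩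
      rw [← ρ.pull_mul, h0]

theorem goodInv2 (ρ : FRep r W) : GoodInv ρ (Good2 ρ) := goodInv_of ρ (Adm ρ)

end Pool.Agent.Lib.MP_1acd66_nt.AR
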