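import Pool.Agent.Lib.MP_1acd66_nt.AR.Defs3

/-!
The coordinates in the blocks of the vectors of weight `(0, …, 0, deg i)`.
-/

namespace Pool.Agent.Lib.MP_1acd66_nt.AR

open Finset Pool.Agent.Lib.MP_1acd66_nt.Gen

variable {k : ℕ} {r : Fin k → ℕ} {W : Type} [Fintype W]

theorem pairN_yE_le (ρ : FRep r W) (I : Finset (Fin k)) (w : W) :
    pairN ρ (yE r I) w = ∑ i ∈ I, ∑ a, if a.val + 1 = r i then ρ.wt w i a else 0 := by
  classical
  rw [pairN, ← sum_filter_add_sum_filter_not univ (fun i => i ∈ I)]
  have h1 : ∑ i ∈ univ.filter (fun i => ¬ i ∈ I), ∑ a, yE r I i a * ρ.wt w i a = 0 := by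
    refine sum_eq_zero fun i hi => sum_eq_zero fun a _ => ?_
    rw [mem_filter] at hi
    rw [yE, if_neg (fun h => hi.2 h.1), zero_mul]
  rw [h1, add_zero]
  refine sum_congr (by ext i; simp) fun i hi => ?_
  refine sum_congr rfl fun a _ => ?_
  unfold yE
  by_cases h2 : a.val + 1 = r i
  · rw [if_pos ⟨hi, h2⟩, if_pos h2, one_mul]
  · rw [if_neg (fun h => h2 h.2), if_neg h2, zero_mul]

theorem last_le (ρ : FRep r W) (w : W) (i : Fin k) :
    ∑ a, (if a.val + 1 = r i then ρ.wt w i a else 0) ≤ ρ.deg i := by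
  rw [← ρ.wt_sum w i]
  refine sum_le_sum fun a _ => ?_
  split_ifs
  · exact le_rfl
  · exact Nat.zero_le _

theorem mem_BlkE (ρ : FRep r W) {I : Finset (Fin k)} {w : W} :
    w ∈ BlkE ρ I ↔ ∀ i ∈ I, ∀ a, a.val + 1 ≠ r i → ρ.wt w i a = 0 := by
  classical
  rw [BlkE, Blk, mem_filter, pairN_yE_le]
  have key : ∀ i, (∀ a, a.val + 1 ≠ r i → ρ.wt w i a = 0) ↔
      ρ.deg i ≤ ∑ a, (if a.val + 1 = r i then ρ.wt w i a else 0) := by
    intro i
    constructor
    · intro h
      rw [← ρ.wt_sum w i]
      refine sum_le_sum fun a _ => ?_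
      split_ifs with h1
      · exact le_rfl
      · rw [h a h1]
    · intro h a ha
      have h1 := ρ.wt_sum w i
      have h2 : ∑ a, ρ.wt w i a = ∑ a, (if a.val + 1 = r i then ρ.wt w i a else 0) +
          ∑ a, (if a.val + 1 = r i then 0 else ρ.wt w i a) := by
        rw [← sum_add_distrib]
        refine sum_congr rfl fun b _ => ?_
        split_ifs <;> simp
      have h3 : (if a.val + 1 = r i then 0 else ρ.wt w i a) ≤
          ∑ a, (if a.val + 1 = r i then 0 else ρ.wt w i a) :=
        single_le_sum (f := fun a : Fin (r i) => if a.val + 1 = r i then 0 else ρ.wt w i a)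
          (fun _ _ => Nat.zero_le _) (mem_univ a)
      rw [if_neg ha] at h3
      omega
  constructor
  · rintro ⟨_, h⟩ i hi
    rw [key]
    by_contra hcon
    push Not at hcon
    have h1 : ∑ i ∈ I, ∑ a, (if a.val + 1 = r i then ρ.wt w i a else 0) < ∑ i ∈ I, ρ.deg i :=
      sum_lt_sum (fun j _ => last_le ρ w j) ⟨i, hi, hcon⟩
    omega
  · intro h
    refine ⟨mem_univ _, sum_le_sum fun i hi => ?_⟩
    rw [← key]
    exact h i hi

/-- multiplication by the projection to the last columns does not change the coordinates in the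
block -/
theorem pull_mul_proj (ρ : FRep r W) (K : Type) [CommRing K] (I : Finset (Fin k)) (h : Grp K r)
    (A : W → K) {w : W} (hw : w ∈ BlkE ρ I) :
    ρ.pull K (h * fun i => Matrix.diagonal
      (fun a : Fin (r i) => if i ∈ I ∧ a.val + 1 ≠ r i then (0:K) else 1)) A w =
      ρ.pull K h A w := by
  rw [← ρ.pull_mul, ρ.pull_diag]
  rw [mem_BlkE] at hw
  have h1 : ∏ i, ∏ a : Fin (r i), (if i ∈ I ∧ a.val + 1 ≠ r i then (0:K) else 1) ^ ρ.wt w i a = 1 := by
    refine prod_eq_one fun i _ => prod_eq_one fun a _ => ?_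
    by_cases h2 : i ∈ I ∧ a.val + 1 ≠ r i
    · rw [if_pos h2, hw i h2.1 a h2.2, pow_zero]
    · rw [if_neg h2, one_pow]
  rw [h1, one_mul]

theorem stLast (ρ : FRep r W) : StLast ρ := by
  intro K _ I h h' h1 h2 A w hw
  have e : (h * fun i => Matrix.diagonal
      (fun a : Fin (r i) => if i ∈ I ∧ a.val + 1 ≠ r i then (0:K) else 1)) =
      (h' * fun i => Matrix.diagonal
      (fun a : Fin (r i) => if i ∈ I ∧ a.val + 1 ≠ r i then (0:K) else 1)) := by
    funext i
    change h i * Matrix.diagonal _ = h' i * Matrix.diagonal _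
    by_cases hi : i ∈ I
    · ext a b
      rw [Matrix.mul_diagonal, Matrix.mul_diagonal]
      by_cases hb : b.val + 1 = r i
      · rw [h1 i hi a b hb]
      · rw [if_pos ⟨hi, hb⟩, mul_zero, mul_zero]
    · rw [h2 i hi]
  rw [← pull_mul_proj ρ K I h A hw, ← pull_mul_proj ρ K I h' A hw, e]

theorem stPow (ρ : FRep r W) : StPow ρ := by
  classical
  intro K _ I x L B w hw
  rw [ρ.pull_mul]
  have e : rowM I L * colM I x = fun i => Matrix.diagonal (fun a : Fin (r i) =>
      if i ∈ I then (if a.val + 1 = r i then ∑ b, L i b * x i b else 0) else 1) := by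
    funext i
    change rowM I L i * colM I x i = _
    unfold rowM colM
    by_cases hi : i ∈ I
    · rw [if_pos hi, if_pos hi]
      ext a b
      rw [Matrix.mul_apply, Matrix.diagonal_apply]
      simp only [Matrix.of_apply, hi, if_true]
      by_cases ha : a.val + 1 = r i
      · by_cases hb : b.val + 1 = r i
        · have hab : a = b := Fin.ext (by omega)
          simp only [ha, hb, if_true, hab]
        · have hab : a ≠ b := fun h => hb (h ▸ ha)
          simp only [ha, hb, if_true, if_false, hab, mul_zero, sum_const_zero]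
      · by_cases hab : a = b
        · subst hab
          simp only [ha, if_false, if_true, zero_mul, sum_const_zero]
        · simp only [ha, if_false, hab, zero_mul, sum_const_zero]
    · rw [if_neg hi, if_neg hi, Matrix.one_mul]
      simp only [hi, if_false]
      exact Matrix.diagonal_one.symm
  rw [e, ρ.pull_diag]
  rw [mem_BlkE] at hw
  congr 1
  rw [← prod_subset (subset_univ I)]
  · refine prod_congr rfl fun i hi => ?_
    rw [← ρ.wt_sum w i, ← prod_pow_eq_pow_sum]
    refine prod_congr rfl fun a _ => ?_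
    rw [if_pos hi]
    by_cases ha : a.val + 1 = r i
    · rw [if_pos ha]
    · rw [hw i hi a ha, pow_zero, pow_zero]
  · intro i _ hi
    refine prod_eq_one fun a _ => ?_
    rw [if_neg hi, one_pow]

theorem stScal (ρ : FRep r W) : StScal ρ := by
  classical
  intro K _ I x s A w hw
  have e : (colM I fun i => s i • x i) = colM I x * fun i => Matrix.diagonal
      (fun a : Fin (r i) => if i ∈ I then (if a.val + 1 = r i then s i else 0) else 1) := by
    funext i
    change _ = colM I x i * Matrix.diagonal _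
    unfold colM
    by_cases hi : i ∈ I
    · rw [if_pos hi, if_pos hi]
      ext a b
      rw [Matrix.mul_diagonal]
      simp only [Matrix.of_apply, hi, if_true]
      by_cases hb : b.val + 1 = r i
      · simp only [hb, if_true, Pi.smul_apply, smul_eq_mul]
        ring
      · simp only [hb, if_false, zero_mul]
    · rw [if_neg hi, if_neg hi, Matrix.one_mul]
      simp only [hi, if_false]
      exact Matrix.diagonal_one.symm
  rw [e, ← ρ.pull_mul, ρ.pull_diag]
  rw [mem_BlkE] at hw
  congr 1
  rw [← prod_subset (subset_univ I)]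
  · refine prod_congr rfl fun i hi => ?_
    rw [← ρ.wt_sum w i, ← prod_pow_eq_pow_sum]
    refine prod_congr rfl fun a _ => ?_
    rw [if_pos hi]
    by_cases ha : a.val + 1 = r i
    · rw [if_pos ha]
    · rw [hw i hi a ha, pow_zero, pow_zero]
  · intro i _ hi
    refine prod_eq_one fun a _ => ?_
    rw [if_neg hi, one_pow]

end Pool.Agent.Lib.MP_1acd66_nt.AR
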