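import Pool.Agent.Lib.MP_1acd66_nt.AR.RowG
import Pool.Agent.Lib.MP_1acd66_nt.AR.RowI
import Pool.Agent.Lib.MP_1acd66_nt.AR.RowL

/-!
The weight criterion for `m` copies.
-/

namespace Pool.Agent.Lib.MP_1acd66_nt.AR

open Finset Pool.Agent.Lib.MP_1acd66_nt.Gen

variable {k : ℕ} {r : Fin k → ℕ} {W : Type} [Fintype W]

theorem crit2_of_crit {ρ : FRep r W} (h : Crit ρ) : Crit2 ρ := by
  obtain ⟨θ, hθ, h1⟩ := h
  refine ⟨θ, hθ, fun y hy s => ?_⟩
  rcases h1 y hy s with ⟨y', u', h2, h3⟩ | h2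
  · exact Or.inl ⟨y', u', Or.inl h2, h3⟩
  · exact Or.inr h2

/-- an admissible block which is the highest for all slopes -/
theorem crit2_of_block (ρ : FRep r W) {y0 : ∀ i, Fin (r i) → ℕ} {u0 : ℕ} (h0 : Adm ρ y0 u0)
    (h1 : ∀ w ∈ Blk ρ y0 u0, ∀ y : ∀ i, Fin (r i) → ℕ, (∀ i, Monotone (y i)) →
      ∀ w', pairN ρ y w' ≤ pairN ρ y w) : Crit2 ρ := by
  refine ⟨0, zero_lt_one, fun y hy s => ?_⟩
  by_cases h : ∃ w', s < pairN ρ y w'
  · obtain ⟨w', hw'⟩ := h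
    exact Or.inl ⟨y0, u0, h0, fun w hw => lt_of_lt_of_le hw' (h1 w hw y hy w')⟩
  · right
    push Not at h
    have h2 : ∑ w, (pairN ρ y w - s) = 0 :=
      sum_eq_zero fun w _ => Nat.sub_eq_zero_of_le (h w)
    rw [h2]
    simp

/-- `m` copies, top weight -/
theorem crit_topZ (ρ : FRep r W) [DecidableEq (∀ i, Fin (r i) → ℕ)] (m : ℕ) {w0 : W}
    (hw : Top ρ w0)
    (hm : flagDim (ρ.wt w0) < m * (univ.filter fun w => ρ.wt w = ρ.wt w0).card) :
    Crit (multRep ρ m) := by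
  obtain ⟨h1, h2⟩ := stTop ρ w0 hw
  refine stCritMult ρ m (multRep ρ m) (fun _ _ => rfl) (Or.inr ⟨ρ.wt w0,
    pairN ρ (ρ.wt w0) w0, h1, ?_, ?_⟩)
  · have h3 : (univ.filter fun w => ρ.wt w = ρ.wt w0) ⊆
        Blk ρ (ρ.wt w0) (pairN ρ (ρ.wt w0) w0) := by
      intro w hw
      rw [mem_filter] at hw
      rw [Blk, mem_filter]
      refine ⟨mem_univ _, ?_⟩
      have h4 : pairN ρ (ρ.wt w0) w0 = pairN ρ (ρ.wt w0) w := by
        simp only [pairN, hw.2]
      exact h4.le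
    exact lt_of_lt_of_le hm (Nat.mul_le_mul_left _ (card_le_card h3))
  · intro w hwB y hy w'
    have h4 := h2 w hwB
    have h5 : pairN ρ y w = pairN ρ y w0 := by
      simp only [pairN, h4]
    rw [h5]
    exact hw y hy w'

/-- the vectors of weight `(0, …, 0, deg i)` are the highest ones -/
theorem pairN_le_of_mem_BlkE (ρ : FRep r W) (hr : ∀ i, 0 < r i) {w : W} (hw : w ∈ BlkE ρ univ)
    (y : ∀ i, Fin (r i) → ℕ) (hy : ∀ i, Monotone (y i)) (w' : W) :
    pairN ρ y w' ≤ pairN ρ y w := by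
  rw [mem_BlkE] at hw
  set last : ∀ i, Fin (r i) := fun i => ⟨r i - 1, by have := hr i; omega⟩ with hlast
  have h1 : pairN ρ y w = ∑ i, y i (last i) * ρ.deg i := by
    rw [pairN]
    refine sum_congr rfl fun i _ => ?_
    rw [← ρ.wt_sum w i, mul_sum]
    refine sum_congr rfl fun a _ => ?_
    by_cases ha : a.val + 1 = r i
    · have : a = last i := Fin.ext (by rw [hlast]; simp only; omega)
      rw [← this]
    · rw [hw i (mem_univ i) a ha, mul_zero, mul_zero]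
  rw [h1, pairN]
  refine sum_le_sum fun i _ => ?_
  rw [← ρ.wt_sum w' i, mul_sum]
  refine sum_le_sum fun a _ => Nat.mul_le_mul_right _ (hy i ?_)
  rw [Fin.le_def, hlast]
  have := a.2
  simp only
  omega

theorem card_BlkE_mult (ρ : FRep r W) (m : ℕ) (I : Finset (Fin k)) :
    (BlkE (multRep ρ m) I).card = m * (BlkE ρ I).card := by
  classical
  have h1 : BlkE (multRep ρ m) I = (univ : Finset (Fin m)) ×ˢ BlkE ρ I := by
    ext ⟨e, w⟩
    rw [mem_product]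
    simp only [mem_univ, true_and]
    rw [mem_BlkE, mem_BlkE]
    rfl
  rw [h1, card_product, card_univ, Fintype.card_fin]

/-- `m` copies, edge block -/
theorem crit2_edge (ρ : FRep r W) (hr : ∀ i, 0 < r i) (m : ℕ) (hm0 : 0 < m * (BlkE ρ univ).card)
    (hm : m * (BlkE ρ univ).card = ∑ i, (r i - 1)) (hd : ∀ i, 2 ≤ r i → 2 ≤ ρ.deg i) :
    Crit2 (multRep ρ m) := by
  refine crit2_of_block (multRep ρ m) (y0 := yE r univ) (u0 := ∑ i, ρ.deg i)
    (Or.inr ⟨univ, rfl, rfl, ?_, ?_, fun i _ => hd i⟩) ?_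
  · rw [card_BlkE_mult]
    exact hm0
  · rw [card_BlkE_mult]
    exact hm
  · intro w hw y hy w'
    exact pairN_le_of_mem_BlkE (multRep ρ m) hr hw y hy w'

end Pool.Agent.Lib.MP_1acd66_nt.AR
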