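import Pool.Agent.Lib.MP_1acd66_nt.AR.Defs3
import Pool.Agent.Lib.MP_1acd66_nt.Gen.FamBoundary

/-!
Row P: combinations of products of powers of linear forms at three points.
-/

namespace Pool.Agent.Lib.MP_1acd66_nt.AR

open Finset Pool.Agent.Lib.MP_1acd66_nt.Gen

open scoped LinearAlgebra.Projectivization

variable {k : ℕ} {r : Fin k → ℕ}

theorem PI.co_mem {K : Type} [Field K] {I : Finset (Fin k)} (x : PI K r I) {i : Fin k}
    (h : i ∈ I) : x.co i = (x ⟨i, h⟩).rep := by
  simp only [PI.co, dif_pos h]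

theorem PI.co_ne {K : Type} [Field K] {I : Finset (Fin k)} (x : PI K r I) {i : Fin k}
    (h : i ∈ I) : x.co i ≠ 0 := by
  rw [x.co_mem h]
  exact (x ⟨i, h⟩).rep_nonzero

theorem PI.exists_sep {K : Type} [Field K] {I : Finset (Fin k)} {x y : PI K r I} (h : y ≠ x) :
    ∃ i ∈ I, 2 ≤ r i ∧ ∃ L : Fin (r i) → K, ∑ a, L a * x.co i a = 1 ∧
      ∑ a, L a * y.co i a = 0 := by
  obtain ⟨⟨i, hiI⟩, hi⟩ : ∃ i, y i ≠ x i := by
    by_contra hcon
    push Not at hcon
    exact h (funext hcon)
  have h1 : ∀ t : K, x.co i ≠ t • y.co i := by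
    intro t ht
    rw [x.co_mem hiI, y.co_mem hiI] at ht
    apply hi
    rw [← (x ⟨i, hiI⟩).mk_rep, ← (y ⟨i, hiI⟩).mk_rep]
    symm
    rw [Projectivization.mk_eq_mk_iff']
    exact ⟨t, ht.symm⟩
  refine ⟨i, hiI, ?_, exists_lin_sep (y.co_ne hiI) h1⟩
  by_contra hr
  have h2 : r i = 0 ∨ r i = 1 := by omega
  rcases h2 with h2 | h2
  · have : IsEmpty (Fin (r i)) := by rw [h2]; infer_instance
    exact x.co_ne hiI (Subsingleton.elim _ _)
  · obtain ⟨b, hb⟩ : ∃ b, y.co i b ≠ 0 := by
      by_contra hcon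
      push Not at hcon
      exact y.co_ne hiI (funext hcon)
    apply h1 (x.co i b / y.co i b)
    funext c
    have : c = b := by
      apply Fin.ext
      have := c.2
      have := b.2
      omega
    rw [this, Pi.smul_apply, smul_eq_mul, div_mul_cancel₀ _ hb]

theorem two_pow_sub_ne {p : ℕ} [Fact p.Prime] {n : ℕ} (h2 : 2 ≤ n) (hp : 2 ^ n < p) :
    (2 : ZMod p) ^ n - 2 ≠ 0 := by
  intro h
  have h4 : 4 ≤ 2 ^ n := by
    calc 4 = 2 ^ 2 := by norm_num
      _ ≤ 2 ^ n := Nat.pow_le_pow_right (by norm_num) h2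
  have h1 : (((2 ^ n - 2 : ℕ)) : ZMod p) = 0 := by
    rw [Nat.cast_sub (by omega)]
    push_cast
    exact h
  rw [ZMod.natCast_eq_zero_iff] at h1
  have := Nat.le_of_dvd (by omega) h1
  omega

theorem stSep (r d : Fin k → ℕ) : StSep r d := by
  classical
  intro I hd p _ hp x y z hy hz
  obtain ⟨i1, hi1, hr1, L1, hL1, hL1'⟩ := PI.exists_sep hy
  obtain ⟨i2, hi2, hr2, L2, hL2, hL2'⟩ := PI.exists_sep hz
  have hone : ∀ i, ∃ L : Fin (r i) → ZMod p, i ∈ I → ∑ a, L a * x.co i a = 1 := by
    intro i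
    by_cases hi : i ∈ I
    · obtain ⟨L, hL⟩ := exists_lin_one (x.co_ne hi)
      exact ⟨L, fun _ => hL⟩
    · exact ⟨0, fun h => absurd h hi⟩
  choose B hB using hone
  by_cases h12 : i1 = i2
  · subst h12
    have h2 := hd i1 hi1 hr1
    have hne := two_pow_sub_ne h2 (hp i1 hi1)
    set M : Fin 3 → Fin (r i1) → ZMod p := ![L1 + L2, L1, L2] with hM
    have hsplit : ∀ (t : PI (ZMod p) r I) (j : Fin 3),
        ∏ i ∈ I, (∑ a, (Function.update B i1 (M j)) i a * t.co i a) ^ d i =
          (∑ a, M j a * t.co i1 a) ^ d i1 * ∏ i ∈ I.erase i1, (∑ a, B i a * t.co i a) ^ d i := by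
      intro t j
      rw [← Finset.mul_prod_erase _ _ hi1, Function.update_self]
      congr 1
      apply Finset.prod_congr rfl
      intro i hi
      rw [Function.update_of_ne (Finset.ne_of_mem_erase hi)]
    have hadd : ∀ t : PI (ZMod p) r I, ∑ a, (L1 + L2) a * t.co i1 a =
        ∑ a, L1 a * t.co i1 a + ∑ a, L2 a * t.co i1 a := by
      intro t
      simp only [Pi.add_apply, add_mul, Finset.sum_add_distrib]
    refine ⟨3, ![((2 : ZMod p) ^ d i1 - 2)⁻¹, -((2 : ZMod p) ^ d i1 - 2)⁻¹,
      -((2 : ZMod p) ^ d i1 - 2)⁻¹], fun j => Function.update B i1 (M j), ?_, ?_, ?_⟩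
    · beta_reduce
      simp only [hsplit]
      rw [Fin.sum_univ_three]
      simp only [hM, Matrix.cons_val, hadd, hL1, hL2]
      rw [Finset.prod_eq_one (fun i hi => by rw [hB i (Finset.mem_of_mem_erase hi), one_pow])]
      rw [one_pow, one_add_one_eq_two]
      have := inv_mul_cancel₀ hne
      linear_combination this
    · beta_reduce
      simp only [hsplit]
      rw [Fin.sum_univ_three]
      simp only [hM, Matrix.cons_val, hadd, hL1']
      rw [zero_pow (by omega : d i1 ≠ 0), zero_add]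
      ring
    · beta_reduce
      simp only [hsplit]
      rw [Fin.sum_univ_three]
      simp only [hM, Matrix.cons_val, hadd, hL2']
      rw [zero_pow (by omega : d i1 ≠ 0), add_zero]
      ring
  · refine ⟨1, fun _ => 1, fun _ => Function.update (Function.update B i1 L1) i2 L2, ?_, ?_, ?_⟩
    · rw [Fin.sum_univ_one, one_mul]
      apply Finset.prod_eq_one
      intro i hi
      beta_reduce
      by_cases e2 : i = i2
      · subst e2
        rw [Function.update_self, hL2, one_pow]
      · rw [Function.update_of_ne e2]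
        by_cases e1 : i = i1
        · subst e1
          rw [Function.update_self, hL1, one_pow]
        · rw [Function.update_of_ne e1, hB i hi, one_pow]
    · rw [Fin.sum_univ_one, one_mul]
      apply Finset.prod_eq_zero hi1
      have := hd i1 hi1 hr1
      beta_reduce
      rw [Function.update_of_ne h12, Function.update_self, hL1', zero_pow (by omega)]
    · rw [Fin.sum_univ_one, one_mul]
      apply Finset.prod_eq_zero hi2
      have := hd i2 hi2 hr2
      beta_reduce
      rw [Function.update_self, hL2', zero_pow (by omega)]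

end Pool.Agent.Lib.MP_1acd66_nt.AR
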