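import Pool.Agent.Lib.MP_1acd66_nt.AR.Defs3

/-!
Finite unions of sets of density zero.
-/

namespace Pool.Agent.Lib.MP_1acd66_nt.AR

open Finset Pool.Agent.Lib.MP_1acd66_nt.Gen

variable {k : ℕ} {r : Fin k → ℕ} {W : Type} [Fintype W]

theorem card_res_le {q1 q2 : ℕ} (hq1 : 0 < q1) {I1 : Finset (W → ℤ)}
    (S : Finset (W → ℤ)) (hS : ∀ x ∈ S, (∀ w, 0 ≤ x w ∧ x w < ((q1 * q2 : ℕ) : ℤ)) ∧
      (fun w => x w % (q1 : ℤ)) ∈ I1) :
    S.card ≤ I1.card * q2 ^ Fintype.card W := by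
  classical
  have h0 : q2 ^ Fintype.card W = (Fintype.piFinset fun _ : W => Ico (0:ℤ) q2).card := by
    rw [Fintype.card_piFinset, prod_const, card_univ, Int.card_Ico, sub_zero, Int.toNat_natCast]
  rw [h0, ← card_product]
  have hq : (0:ℤ) < q1 := by exact_mod_cast hq1
  refine card_le_card_of_injOn (fun x => ((fun w => x w % (q1 : ℤ)), fun w => x w / (q1 : ℤ)))
    ?_ ?_
  · intro x hx
    obtain ⟨h1, h2⟩ := hS x hx
    rw [mem_coe, mem_product]
    refine ⟨h2, ?_⟩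
    rw [Fintype.mem_piFinset]
    intro w
    rw [mem_Ico]
    refine ⟨Int.ediv_nonneg (h1 w).1 hq.le, ?_⟩
    refine Int.ediv_lt_of_lt_mul hq ?_
    have := (h1 w).2
    push_cast at this
    rw [mul_comm]
    exact this
  · intro x _ y _ hxy
    funext w
    simp only [Prod.mk.injEq] at hxy
    have h1 := congrFun hxy.1 w
    have h2 := congrFun hxy.2 w
    rw [← Int.mul_ediv_add_emod (x w) q1, ← Int.mul_ediv_add_emod (y w) q1, h1, h2]

theorem densityZero_and {G1 G2 : (W → ℚ) → Prop} (h1 : DensityZero G1) (h2 : DensityZero G2) :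
    DensityZero (fun A => G1 A ∧ G2 A) := by
  classical
  intro ε hε
  obtain ⟨q1, hq1, I1, _, hI1, hA1⟩ := h1 (ε / 2) (by positivity)
  obtain ⟨q2, hq2, I2, _, hI2, hA2⟩ := h2 (ε / 2) (by positivity)
  set D := Fintype.card W with hD
  set base : Finset (W → ℤ) := Fintype.piFinset fun _ : W => Ico (0:ℤ) ((q1 * q2 : ℕ) : ℤ)
    with hbase
  have hmem : ∀ x, x ∈ base ↔ ∀ w, 0 ≤ x w ∧ x w < ((q1 * q2 : ℕ) : ℤ) := by
    intro x
    rw [hbase, Fintype.mem_piFinset]
    simp only [mem_Ico]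
  refine ⟨q1 * q2, Nat.mul_pos hq1 hq2, base.filter (fun x => (fun w => x w % (q1 : ℤ)) ∈ I1) ∪
    base.filter (fun x => (fun w => x w % (q2 : ℤ)) ∈ I2), ?_, ?_, ?_⟩
  · intro x hx
    rw [mem_union, mem_filter, mem_filter] at hx
    rcases hx with hx | hx
    · exact (hmem x).1 hx.1
    · exact (hmem x).1 hx.1
  · have c1 := card_res_le (W := W) (q2 := q2) hq1 (I1 := I1)
      (base.filter (fun x => (fun w => x w % (q1 : ℤ)) ∈ I1)) (by
        intro x hx
        rw [mem_filter] at hx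
        exact ⟨(hmem x).1 hx.1, hx.2⟩)
    have c2 := card_res_le (W := W) (q2 := q1) hq2 (I1 := I2)
      (base.filter (fun x => (fun w => x w % (q2 : ℤ)) ∈ I2)) (by
        intro x hx
        rw [mem_filter] at hx
        refine ⟨fun w => ?_, hx.2⟩
        have := (hmem x).1 hx.1 w
        rw [Nat.mul_comm q2 q1]
        exact this)
    have c3 : ((base.filter (fun x => (fun w => x w % (q1 : ℤ)) ∈ I1) ∪
        base.filter (fun x => (fun w => x w % (q2 : ℤ)) ∈ I2)).card : ℝ) ≤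
        I1.card * (q2 : ℝ) ^ D + I2.card * (q1 : ℝ) ^ D := by
      have c4 := card_union_le (base.filter (fun x => (fun w => x w % (q1 : ℤ)) ∈ I1))
        (base.filter (fun x => (fun w => x w % (q2 : ℤ)) ∈ I2))
      have c5 := c4.trans (Nat.add_le_add c1 c2)
      exact_mod_cast c5
    refine c3.trans ?_
    have e1 : (I1.card : ℝ) * (q2 : ℝ) ^ D ≤ ε / 2 * (q1 : ℝ) ^ D * (q2 : ℝ) ^ D :=
      mul_le_mul_of_nonneg_right hI1 (by positivity)
    have e2 : (I2.card : ℝ) * (q1 : ℝ) ^ D ≤ ε / 2 * (q2 : ℝ) ^ D * (q1 : ℝ) ^ D :=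
      mul_le_mul_of_nonneg_right hI2 (by positivity)
    have e3 : ((q1 * q2 : ℕ) : ℝ) ^ D = (q1 : ℝ) ^ D * (q2 : ℝ) ^ D := by
      push_cast
      rw [mul_pow]
    rw [e3]
    nlinarith
  · intro A hA
    have hpos : (0:ℤ) < ((q1 * q2 : ℕ) : ℤ) := by exact_mod_cast Nat.mul_pos hq1 hq2
    have hb : (fun w => A w % ((q1 * q2 : ℕ) : ℤ)) ∈ base := by
      rw [hmem]
      intro w
      exact ⟨Int.emod_nonneg _ hpos.ne', Int.emod_lt_of_pos _ hpos⟩
    rw [mem_union, mem_filter, mem_filter]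
    by_cases hG1 : G1 (ratW A)
    · have hG2 : ¬ G2 (ratW A) := fun h => hA ⟨hG1, h⟩
      right
      refine ⟨hb, ?_⟩
      have e : (fun w => A w % ((q1 * q2 : ℕ) : ℤ) % (q2:ℤ)) = fun w => A w % (q2:ℤ) := by
        funext w
        exact Int.emod_emod_of_dvd _ (by push_cast; exact dvd_mul_left _ _)
      rw [e]
      exact hA2 A hG2
    · left
      refine ⟨hb, ?_⟩
      have e : (fun w => A w % ((q1 * q2 : ℕ) : ℤ) % (q1:ℤ)) = fun w => A w % (q1:ℤ) := by
        funext w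
        exact Int.emod_emod_of_dvd _ (by push_cast; exact dvd_mul_right _ _)
      rw [e]
      exact hA1 A hG1

theorem densityZero_mono {G1 G2 : (W → ℚ) → Prop} (h1 : DensityZero G1)
    (h : ∀ A, G1 A → G2 A) : DensityZero G2 := by
  intro ε hε
  obtain ⟨q, hq, I, a, b, c⟩ := h1 ε hε
  exact ⟨q, hq, I, a, b, fun A hA => c A fun h' => hA (h _ h')⟩

theorem densityZero_forall {ι : Type} (s : Finset ι) {G0 : (W → ℚ) → Prop}
    {G : ι → (W → ℚ) → Prop} (h0 : DensityZero G0) (h : ∀ i ∈ s, DensityZero (G i)) :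
    DensityZero (fun A => G0 A ∧ ∀ i ∈ s, G i A) := by
  classical
  induction s using Finset.induction_on with
  | empty => exact densityZero_mono h0 fun A hA => ⟨hA, fun i hi => absurd hi (notMem_empty i)⟩
  | insert i s hi ih =>
    have h1 := densityZero_and (ih fun j hj => h j (mem_insert_of_mem hj)) (h i (mem_insert_self i s))
    refine densityZero_mono h1 ?_
    rintro A ⟨⟨hA0, hA1⟩, hA2⟩
    refine ⟨hA0, fun j hj => ?_⟩
    rw [mem_insert] at hj
    rcases hj with rfl | hj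
    · exact hA2
    · exact hA1 j hj

theorem stDens2 (ρ : FRep r W) (hr : ∀ i, 0 < r i) (h1 : StDens ρ) (hE : StDensE ρ) :
    DensityZero (Good2 ρ) := by
  classical
  set s : Finset (Finset (Fin k)) := univ.filter (fun I => 0 < (BlkE ρ I).card ∧
    (BlkE ρ I).card = ∑ i ∈ I, (r i - 1) ∧ ∀ i ∈ I, 2 ≤ r i → 2 ≤ ρ.deg i) with hs
  have h2 := densityZero_forall s (G := fun I => GoodE ρ I) h1 (by
    intro I hI
    rw [hs, mem_filter] at hI
    exact hE hr I hI.2.1 hI.2.2.1 hI.2.2.2)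
  refine densityZero_mono h2 ?_
  rintro A ⟨hA, hAE⟩ g hg y u hb
  rcases hb with hb | ⟨I, rfl, rfl, h3, h4, h5⟩
  · exact hA g hg y u hb
  · exact hAE I (by rw [hs, mem_filter]; exact ⟨mem_univ _, h3, h4, h5⟩) g hg

end Pool.Agent.Lib.MP_1acd66_nt.AR
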