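import Pool.Agent.Lib.MP_1acd66_nt.AR.Main
import Pool.Agent.Lib.MP_1acd66_nt.AR.RowF2
import Pool.Agent.Lib.MP_1acd66_nt.AR.RowG2
import Pool.Agent.Lib.MP_1acd66_nt.AR.RowI
import Pool.Agent.Lib.MP_1acd66_nt.AR.RowJ63
import Pool.Agent.Lib.MP_1acd66_nt.AR.RowL
import Pool.Agent.Lib.MP_1acd66_nt.AR.RowP
import Pool.Agent.Lib.MP_1acd66_nt.AR.RowQ
import Pool.Agent.Lib.MP_1acd66_nt.AR.RowU

/-!
The asymptotic formula for every representation which satisfies the weight criterion, with the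
edge blocks.
-/

namespace Pool.Agent.Lib.MP_1acd66_nt.AR

open Finset Filter Topology Pool.Agent.Lib.MP_1acd66_nt.Gen

variable {k : ℕ} {r : Fin k → ℕ} {W : Type} [Fintype W]

theorem main3 (ρ : FRep r W) (hRedE : StRedE ρ) {N : Fin k → ℕ} (hcrit : Crit2 ρ)
    (hr : ∀ i, 0 < r i) (hrN : ∀ i, r i < N i) (hdeg : ∀ i, 0 < ρ.deg i) (hb : ∀ i, ρ.b i ≤ N i)
    (hD : 2 ≤ Fintype.card W) (h : Gen.AdelicNorm N ρ.toRepData) :
    (∀ B, (Gen.countSet (Good2 ρ) h B).Finite) ∧ ∃ c : ℝ, 0 < c ∧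
      Tendsto (fun B : ℝ => ((Gen.countSet (Good2 ρ) h B).ncard : ℝ) / (B * Real.log B ^ k))
        atTop (𝓝 c) :=
  engine (goodInv2 ρ)
    (stCusp2 ρ (stTri ρ) (stDiag ρ) hcrit (Fintype.card_pos_iff.1 (by omega)) hdeg)
    (stDens2 ρ hr (stDens ρ (stRed ρ (stVan ρ)) (stCount ρ))
      (stDensE ρ hRedE (stPow ρ) (stSep r ρ.deg))) hr hrN hb hD h

end Pool.Agent.Lib.MP_1acd66_nt.AR
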