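import Pool.Agent.Lib.MP_1acd66_nt.AR.Defs3
import Pool.Agent.Lib.MP_1acd66_nt.Gen.FamBoundary

/-!
Row R: reduction modulo a prime for the blocks `BlkE`.
-/

namespace Pool.Agent.Lib.MP_1acd66_nt.AR

open Finset Pool.Agent.Lib.MP_1acd66_nt.Gen

open scoped LinearAlgebra.Projectivization

variable {k : ℕ} {r : Fin k → ℕ} {W : Type} [Fintype W]

theorem colM_map {K L : Type} [CommRing K] [CommRing L] (f : K →+* L) (I : Finset (Fin k))
    (x : ∀ i, Fin (r i) → K) :
    (fun i => (colM I x i).map f) = colM I (fun i a => f (x i a)) := by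
  funext i
  unfold colM
  by_cases hi : i ∈ I
  · rw [if_pos hi, if_pos hi]
    ext a b
    rw [Matrix.map_apply, Matrix.of_apply, Matrix.of_apply]
    by_cases hb : b.val + 1 = r i
    · rw [if_pos hb, if_pos hb]
    · rw [if_neg hb, if_neg hb, map_zero]
  · rw [if_neg hi, if_neg hi]
    exact Matrix.map_one f (map_zero f) (map_one f)

theorem stRedE (ρ : FRep r W) (hVan : StVan ρ) (hLast : StLast ρ) (hScal : StScal ρ) :
    StRedE ρ := by
  classical
  intro hr I p _ A hA
  have hp : p.Prime := Fact.out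
  unfold GoodE at hA
  push Not at hA
  obtain ⟨g, hg, hv⟩ := hA
  -- the other factors
  let h : Grp ℚ r := fun i => if i ∈ I then 1 else (g i)⁻¹
  have h1 : ∀ w ∈ BlkE ρ I, ρ.pull ℚ (g * h) (ratW A) w = 0 := by
    intro w hw
    rw [← ρ.pull_mul]
    refine hVan ℚ (yE r I) (∑ i ∈ I, ρ.deg i) h ?_ _ hv w hw
    intro i a b hab
    by_cases hi : i ∈ I
    · simp only [h, if_pos hi]
      refine Matrix.one_apply_ne ?_
      rintro rfl
      exact lt_irrefl _ hab
    · simp only [yE, hi, false_and, if_false] at hab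
      exact absurd hab (lt_irrefl _)
  -- the last columns
  let u : ∀ i, Fin (r i) → ℚ := fun i a => g i a ⟨r i - 1, by have := hr i; omega⟩
  have hu : ∀ i, u i ≠ 0 := by
    intro i h0
    apply hg i
    exact Matrix.det_eq_zero_of_column_eq_zero ⟨r i - 1, by have := hr i; omega⟩
      (fun a => congrFun h0 a)
  have h2 : ∀ w ∈ BlkE ρ I, ρ.pull ℚ (colM I u) (ratW A) w = 0 := by
    intro w hw
    rw [← hLast ℚ I (g * h) (colM I u) ?_ ?_ (ratW A) w hw]
    · exact h1 w hw
    · intro i hi a b hb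
      have e1 : (g * h) i = g i := by
        change g i * h i = g i
        simp only [h, if_pos hi, mul_one]
      rw [e1]
      simp only [colM, if_pos hi, Matrix.of_apply, if_pos hb, u]
      congr 1
      apply Fin.ext
      change b.val = r i - 1
      omega
    · intro i hi
      change g i * h i = colM I u i
      simp only [h, colM, if_neg hi]
      exact Matrix.mul_nonsing_inv _ (isUnit_iff_ne_zero.2 (hg i))
  -- primitive integral vectors
  have hprim : ∀ i, ∃ (t : ℚ) (v : Fin (r i) → ℤ), PrimW v ∧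
      (fun a => (v a : ℚ)) = t • u i := by
    intro i
    obtain ⟨D, y, hD, hy⟩ := clear_denomsW (u i)
    have hy0 : y ≠ 0 := by
      intro h0
      apply hu i
      have hD' : (D:ℚ) ≠ 0 := by exact_mod_cast hD.ne'
      have : (D:ℚ) • u i = 0 := by
        rw [hy, h0]; funext a; simp [ratW]
      exact (smul_eq_zero.1 this).resolve_left hD'
    obtain ⟨l, v, hl, hv, hlv⟩ := Gen.exists_prim hy0
    have hl' : (l:ℚ) ≠ 0 := by exact_mod_cast hl
    refine ⟨(l:ℚ)⁻¹ * D, v, hv, ?_⟩
    rw [mul_smul, hy]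
    funext a
    rw [Pi.smul_apply, smul_eq_mul, ratW, hlv]
    rw [Pi.smul_apply, smul_eq_mul]
    push_cast
    rw [inv_mul_cancel_left₀ hl']
  choose t v hv htv using hprim
  have h3 : ∀ w ∈ BlkE ρ I, ρ.pull ℤ (colM I v) A w = 0 := by
    intro w hw
    have h4 := congrFun (ρ.pull_map ℤ ℚ (Int.castRingHom ℚ) (colM I v) A) w
    rw [colM_map] at h4
    have h5 : (fun i a => Int.castRingHom ℚ (v i a)) = fun i => t i • u i :=
      funext fun i => htv i
    rw [h5, hScal ℚ I u t _ w hw] at h4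
    have h6 : (fun w => Int.castRingHom ℚ (A w)) = ratW A := rfl
    rw [h6, h2 w hw, mul_zero] at h4
    have h7 : ((ρ.pull ℤ (colM I v) A w : ℤ) : ℚ) = 0 := h4.symm
    exact_mod_cast h7
  -- reduction modulo `p`
  have hne : ∀ i, (fun a => ((v i a : ℤ) : ZMod p)) ≠ 0 := by
    intro i h0
    obtain ⟨a, ha⟩ := hv i p hp
    apply ha
    have := congrFun h0 a
    simp only [Pi.zero_apply] at this
    exact (ZMod.intCast_zmod_eq_zero_iff_dvd _ _).1 this
  let x : PI (ZMod p) r I := fun i => Projectivization.mk (ZMod p) _ (hne i.1)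
  refine ⟨x, fun w hw => ?_⟩
  have hrep : ∀ i, ∃ s : ZMod p, x.co i = s • (fun a => ((v i a : ℤ) : ZMod p)) := by
    intro i
    by_cases hi : i ∈ I
    · have e1 : x.co i = (x ⟨i, hi⟩).rep := by
        unfold PI.co
        rw [dif_pos hi]
      have e2 := (x ⟨i, hi⟩).mk_rep
      have e3 : x ⟨i, hi⟩ = Projectivization.mk (ZMod p) _ (hne i) := rfl
      rw [e3, Projectivization.mk_eq_mk_iff'] at e2
      obtain ⟨s, hs⟩ := e2
      refine ⟨s, ?_⟩
      rw [e1, e3]
      exact hs.symm
    · refine ⟨0, ?_⟩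
      rw [zero_smul]
      unfold PI.co
      rw [dif_neg hi]
  choose s hs using hrep
  have e1 : x.co = fun i => s i • (fun a => ((v i a : ℤ) : ZMod p)) := funext hs
  rw [e1, hScal (ZMod p) I _ s _ w hw]
  have h4 := congrFun (ρ.pull_map ℤ (ZMod p) (Int.castRingHom (ZMod p)) (colM I v) A) w
  rw [colM_map] at h4
  have h5 : ρ.pull (ZMod p) (colM I fun i a => ((v i a : ℤ) : ZMod p))
      (fun w => ((A w : ℤ) : ZMod p)) w = 0 := by
    refine Eq.trans h4 ?_
    rw [h3 w hw, map_zero]
  rw [h5, mul_zero]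

end Pool.Agent.Lib.MP_1acd66_nt.AR
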