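import Pool.Agent.Lib.MP_1acd66_nt.AR.RowT
import Pool.Agent.Lib.MP_1acd66_nt.AR.RowR
import Pool.Agent.Lib.MP_1acd66_nt.AR.Defs4

/-!
The conditions on the number of copies.
-/

namespace Pool.Agent.Lib.MP_1acd66_nt.AR

open Finset Pool.Agent.Lib.MP_1acd66_nt.Gen

variable {k : ℕ} {r : Fin k → ℕ} {W : Type} [Fintype W]

/-- The number of basis vectors with the weight of `w0`. -/
noncomputable def multW (ρ : FRep r W) (w0 : W) : ℕ := Nat.card {w : W // ρ.wt w = ρ.wt w0}

/-- The conditions on a representation and the number `m` of copies. -/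
def Many (ρ : FRep r W) (m : ℕ) : Prop :=
  NoExc (multRep ρ m) ∨ ∑ i, r i * (r i - 1) < 2 * m ∨
  (∃ w0, Top ρ w0 ∧ flagDim (ρ.wt w0) < m * multW ρ w0) ∨
  ∃ w0, (∀ i a, a.val + 1 ≠ r i → ρ.wt w0 i a = 0) ∧ m * multW ρ w0 = ∑ i, (r i - 1) ∧
    ∀ i, 2 ≤ r i → 2 ≤ ρ.deg i

theorem multW_eq [DecidableEq (∀ i, Fin (r i) → ℕ)] (ρ : FRep r W) (w0 : W) :
    multW ρ w0 = (univ.filter fun w => ρ.wt w = ρ.wt w0).card := by
  rw [multW, Nat.card_eq_fintype_card, Fintype.card_subtype]

theorem card_BlkE_univ (ρ : FRep r W) {w0 : W}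
    (h0 : ∀ i a, a.val + 1 ≠ r i → ρ.wt w0 i a = 0) : (BlkE ρ univ).card = multW ρ w0 := by
  classical
  rw [multW_eq]
  congr 1
  ext w
  rw [mem_BlkE, mem_filter]
  constructor
  · intro h
    refine ⟨mem_univ _, ?_⟩
    funext i a
    by_cases ha : a.val + 1 = r i
    · have key : ∀ v : W, (∀ a, a.val + 1 ≠ r i → ρ.wt v i a = 0) → ρ.wt v i a = ρ.deg i := by
        intro v hv
        rw [← ρ.wt_sum v i, sum_eq_single a]
        · intro b _ hb
          exact hv b fun hb2 => hb (Fin.ext (by omega))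
        · intro h
          exact absurd (mem_univ _) h
      rw [key w (h i (mem_univ i)), key w0 (h0 i)]
    · rw [h i (mem_univ i) a ha, h0 i a ha]
  · rintro ⟨_, h⟩ i _ a ha
    rw [h]
    exact h0 i a ha

theorem monotone_yE (r : Fin k → ℕ) (I : Finset (Fin k)) (i : Fin k) : Monotone (yE r I i) := by
  intro a b hab
  unfold yE
  split_ifs with h1 h2 h2
  · exact le_rfl
  · exfalso
    apply h2
    refine ⟨h1.1, ?_⟩
    have := b.2
    have : a.val ≤ b.val := hab
    omega
  · exact Nat.zero_le _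
  · exact le_rfl

theorem flagDim_yE_le (hr : ∀ i, 0 < r i) (I : Finset (Fin k)) :
    flagDim (yE r I) ≤ ∑ i ∈ I, (r i - 1) := by
  classical
  unfold flagDim
  rw [← sum_subset (subset_univ I)]
  · refine sum_le_sum fun i _ => ?_
    have h1 : (univ.filter fun p : Fin (r i) × Fin (r i) => yE r I i p.1 < yE r I i p.2).card ≤
        (univ.erase (⟨r i - 1, by have := hr i; omega⟩ : Fin (r i))).card := by
      refine card_le_card_of_injOn (fun p => p.1) ?_ ?_
      · intro p hp
        rw [mem_coe, mem_filter] at hp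
        have h2 := hp.2
        rw [mem_coe, mem_erase]
        refine ⟨fun h3 => ?_, mem_univ _⟩
        unfold yE at h2
        have h4 : p.1.val + 1 = r i := by
          have := congrArg Fin.val h3
          have := hr i
          simp only at *
          omega
        split_ifs at h2 with h5 h6 h6
        · omega
        · omega
        · exact h5 ⟨h6.1, h4⟩
        · omega
      · intro p hp q hq hpq
        rw [mem_coe, mem_filter] at hp hq
        have key : ∀ z : Fin (r i) × Fin (r i), yE r I i z.1 < yE r I i z.2 →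
            z.2.val + 1 = r i := by
          intro z hz
          unfold yE at hz
          split_ifs at hz with h5 h6 h6
          · omega
          · omega
          · exact h6.2
          · omega
        have h1 := key p hp.2
        have h2 := key q hq.2
        exact Prod.ext hpq (Fin.ext (by omega))
    rw [card_erase_of_mem (mem_univ _), card_univ, Fintype.card_fin] at h1
    exact h1
  · intro i _ hi
    rw [card_eq_zero, filter_eq_empty_iff]
    intro p _
    unfold yE
    rw [if_neg fun h => hi h.1, if_neg fun h => hi h.1]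
    exact lt_irrefl _

theorem thin_of_edge (ρ : FRep r W) (hr : ∀ i, 0 < r i) {y : ∀ i, Fin (r i) → ℕ} {u : ℕ}
    (h : Edge ρ y u) : Thin ρ y u := by
  obtain ⟨I, rfl, rfl, h3, h4, h5⟩ := h
  refine ⟨monotone_yE r I, Or.inr ⟨?_, ?_⟩⟩
  · exact (flagDim_yE_le hr I).trans h4.symm.le
  · have h6 := stDensE ρ (stRedE ρ (stVan ρ) (stLast ρ) (stScal ρ)) (stPow ρ) (stSep r ρ.deg)
      hr I h3 h4 h5
    refine densityZero_mono h6 ?_
    rintro A hA ⟨g, hg, hv⟩
    obtain ⟨w, hw, hne⟩ := hA g hg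
    exact hne (hv w hw)

theorem crit3_of_crit2 (ρ : FRep r W) (hr : ∀ i, 0 < r i) (h : Crit2 ρ) : Crit3 ρ := by
  obtain ⟨θ, hθ, h1⟩ := h
  refine ⟨θ, hθ, fun y hy s => ?_⟩
  rcases h1 y hy s with ⟨y', u', h2 | h2, h3⟩ | h2
  · exact Or.inl ⟨y', u', thin_of_big ρ h2, h3⟩
  · exact Or.inl ⟨y', u', thin_of_edge ρ hr h2, h3⟩
  · exact Or.inr h2

theorem crit3_of_many (ρ : FRep r W) (m : ℕ) (hT : StThin1 (multRep ρ m)) (hr : ∀ i, 0 < r i)
    (hm0 : 0 < m) (h : Many ρ m) : Crit3 (multRep ρ m) := by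
  classical
  rcases h with h | h | ⟨w0, h1, h2⟩ | ⟨w0, h1, h2, h3⟩
  · exact crit3_of_noExc _ hT h
  · exact crit3_of_crit2 _ hr
      (crit2_of_crit (stCritMult ρ m (multRep ρ m) (fun _ _ => rfl) (Or.inl h)))
  · rw [multW_eq] at h2
    exact crit3_of_crit2 _ hr (crit2_of_crit (crit_topZ ρ m h1 h2))
  · have h4 := card_BlkE_univ ρ h1
    refine crit3_of_crit2 _ hr (crit2_edge ρ hr m ?_ ?_ h3)
    · rw [h4, multW_eq]
      refine Nat.mul_pos hm0 (card_pos.2 ⟨w0, ?_⟩)
      rw [mem_filter]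
      exact ⟨mem_univ _, rfl⟩
    · rw [h4]
      exact h2

end Pool.Agent.Lib.MP_1acd66_nt.AR
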