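import Pool.Agent.Lib.MP_1acd66_nt.AR.RowPW

/-!
A representation with a nonconstant semi-invariant polynomial has no birational critical pair.
-/

namespace Pool.Agent.Lib.MP_1acd66_nt.AR

open Finset Pool.Agent.Lib.MP_1acd66_nt.Gen J63

variable {k : ℕ} {r : Fin k → ℕ} {W : Type} [Fintype W]

namespace NS

/-- the generic vector exists -/
theorem exists_genA (ρ : FRep r W) {y : ∀ i, Fin (r i) → ℕ} (hy : ∀ i, Monotone (y i)) (s : ℕ) :
    ∃ A, GenA ρ y s A := by
  classical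
  set V : Grp (RR ρ y s) r := genV (Blk ρ y (s + 1)) (stepsT y 1) with hV
  have hd : ∀ i, (V i).det = 1 := by
    intro i
    have h1 := T1.genV_uni ρ y s (RingHom.id _) i
    have h2 : ((genV (Blk ρ y (s + 1)) (stepsT y 1) i).map (RingHom.id (RR ρ y s))) = V i := by
      ext1 a b
      rfl
    rw [h2] at h1
    exact T1.uni_det (hy i) h1
  refine ⟨ρ.pull (RR ρ y s) (fun i => (V i)⁻¹) (genB (Blk ρ y (s + 1)) (stepsT y 1)), ?_⟩
  rw [GenA, ρ.pull_mul]
  have h1 : ((fun i => (V i)⁻¹ : Grp (RR ρ y s) r) * genV (Blk ρ y (s + 1)) (stepsT y 1)) = 1 := by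
    funext i
    change (V i)⁻¹ * V i = 1
    exact Matrix.nonsing_inv_mul _ (by rw [hd i]; exact isUnit_one)
  rw [h1, ρ.pull_one]

/-- the sum of the slopes of a monomial -/
theorem sum_pairN (ρ : FRep r W) (y : ∀ i, Fin (r i) → ℕ) (m : W →₀ ℕ) :
    ∑ w, m w * pairN ρ y w = ∑ i, ∑ a, y i a * ∑ w, m w * ρ.wt w i a := by
  simp only [pairN, mul_sum]
  rw [sum_comm]
  refine sum_congr rfl fun i _ => ?_
  rw [sum_comm]
  refine sum_congr rfl fun a _ => sum_congr rfl fun w _ => ?_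
  ring

theorem sum_deg (ρ : FRep r W) (m : W →₀ ℕ) (i : Fin k) :
    ∑ a, ∑ w, m w * ρ.wt w i a = (∑ w, m w) * ρ.deg i := by
  rw [sum_comm, sum_mul]
  refine sum_congr rfl fun w _ => ?_
  rw [← mul_sum, ρ.wt_sum]

end NS

open NS in
/-- A representation with a nonconstant semi-invariant has no birational critical pair. -/
theorem noBir_of_semiInv (ρ : FRep r W) (hr : ∀ i, 0 < r i) (hdeg : ∀ i, 0 < ρ.deg i)
    (hPrim : StPrim ρ) (hTor : StTorus ρ) (hSl : StSlope ρ) (hSemi : StSemi ρ)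
    (P : MvPolynomial W ℚ) (hP : SemiInv ρ P) (hPc : ∀ c, P ≠ MvPolynomial.C c) : NoBir ρ := by
  classical
  intro y s hc hU
  obtain ⟨A, hA⟩ := exists_genA ρ hc.1 s
  obtain ⟨hind, hR⟩ := stRat ρ y s hc hU A hA
  -- a nonconstant component
  obtain ⟨i, a0, b0, hab⟩ : ∃ i, ∃ a b, y i a < y i b := by
    by_contra hcon
    push Not at hcon
    have h1 : spreadN y = 0 := by
      rw [spreadN]
      refine sum_eq_zero fun i _ => sum_eq_zero fun a _ => sum_eq_zero fun b _ => ?_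
      exact Nat.sub_eq_zero_of_le (hcon i b a)
    exact absurd h1 hc.2.1.ne'
  have hk : 0 < k := (Nat.zero_le _).trans_lt i.2
  set v : ℕ := y i ⟨r i - 1, by have := hr i; omega⟩ with hv
  have hle : ∀ a, y i a ≤ v := fun a => hc.1 i (by
    change a.val ≤ r i - 1
    have := a.2
    omega)
  obtain ⟨Φ, hΦ⟩ := hPrim y s A hA hind hR i v
  obtain ⟨γ, hγ⟩ := hTor y s A hA hind i v Φ hΦ
  have hγc := stPermW ρ y s hc.1 hU A hA hind hR i v Φ hΦ γ hγ
  obtain ⟨m, hm⟩ := MvPolynomial.support_nonempty.2 hΦ.1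
  have hslope := hSl y s hc A hA hind hR i v Φ hΦ m hm
  obtain ⟨m', κ, hpos, hκ, hle'⟩ := hSemi y s A hc.1 hA hind hdeg hk P hP
    (fun h => hPc 0 (by rw [h, MvPolynomial.C_0])) hPc
  -- the numbers
  set c : Fin k → ℕ := fun i' => γ i' ⟨0, hr i'⟩ with hcdef
  set n : ∀ i', Fin (r i') → ℕ := fun i' a' =>
    if (⟨i', a'⟩ : Σ i, Fin (r i)) ∈ (univ.filter fun z : Σ i, Fin (r i) => z.1 = i ∧ v ≤ y z.1 z.2)
      then 1 else 0 with hn
  have hw : ∀ i' a', (∑ w, m w * ρ.wt w i' a') + n i' a' = c i' := by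
    intro i' a'
    change _ = γ i' ⟨0, hr i'⟩
    have h1 := hγ _ m hm i' a'
    rw [hγc i' a' ⟨0, hr i'⟩] at h1
    rw [← h1]
    congr 1
    rw [hn]
    simp only [mem_filter, mem_univ, true_and]
    split_ifs with h2
    · obtain ⟨rfl, h2⟩ := h2
      rw [Nat.card_eq_one_iff_unique.2]
      refine ⟨⟨fun z z' => ?_⟩, ⟨⟨⟨a', h2⟩, rfl⟩⟩⟩
      have h3 := eq_of_heq (Sigma.mk.inj z.2).2
      have h4 := eq_of_heq (Sigma.mk.inj z'.2).2
      exact Subtype.ext (Subtype.ext (h3.trans h4.symm))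
    · symm
      rw [Nat.card_eq_zero]
      left
      refine ⟨fun z => h2 ?_⟩
      have h3 := z.2
      have h4 := z.1.2
      obtain ⟨h5, h6⟩ := Sigma.mk.inj h3
      subst h5
      rw [← eq_of_heq h6]
      exact ⟨rfl, h4⟩
  set t : ℕ := (univ.filter fun a => v ≤ y i a).card with ht
  have htpos : 0 < t := card_pos.2 ⟨⟨r i - 1, by have := hr i; omega⟩, by
    rw [mem_filter]; exact ⟨mem_univ _, hv.le⟩⟩
  have hn1 : ∀ i', ∑ a', n i' a' = if i' = i then t else 0 := by
    intro i'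
    rw [hn]
    simp only [mem_filter, mem_univ, true_and]
    by_cases h : i' = i
    · subst h
      rw [if_pos rfl, ht, card_filter]
      refine sum_congr rfl fun a _ => ?_
      simp only [true_and]
    · rw [if_neg h]
      refine sum_eq_zero fun a _ => if_neg fun h2 => h h2.1
  have hn2 : ∀ i', ∑ a', y i' a' * n i' a' = if i' = i then v * t else 0 := by
    intro i'
    rw [hn]
    simp only [mem_filter, mem_univ, true_and]
    by_cases h : i' = i
    · subst h
      rw [if_pos rfl, ht, card_filter, mul_sum]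
      refine sum_congr rfl fun a _ => ?_
      simp only [true_and]
      split_ifs with h2
      · rw [le_antisymm (hle a) h2]
      · rw [mul_zero, mul_zero]
    · rw [if_neg h]
      refine sum_eq_zero fun a _ => ?_
      rw [if_neg fun h2 => h h2.1, mul_zero]
  set e : ℕ := ∑ w, m w with he
  set d : ℕ := ∑ w, m' w with hd
  have e1 : ∀ i', e * ρ.deg i' + (if i' = i then t else 0) = r i' * c i' := by
    intro i'
    rw [← hn1 i', he, ← sum_deg, ← sum_add_distrib, sum_congr rfl fun a _ => hw i' a,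
      sum_const, card_univ, Fintype.card_fin, smul_eq_mul]
  have e2 : s * e + v * t = ∑ i', c i' * ∑ a, y i' a := by
    have h1 : ∑ i', ∑ a', y i' a' * n i' a' = v * t := by
      rw [sum_congr rfl fun i' _ => hn2 i', sum_ite_eq' univ i fun _ => v * t, if_pos (mem_univ _)]
    rw [← hslope, ← h1, sum_pairN, ← sum_add_distrib]
    refine sum_congr rfl fun i' _ => ?_
    rw [← sum_add_distrib, mul_sum]
    refine sum_congr rfl fun a _ => ?_
    rw [← mul_add, hw, mul_comm]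
  have e3 : ∀ i', d * ρ.deg i' = r i' * κ i' := by
    intro i'
    rw [hd, ← sum_deg, sum_congr rfl fun a _ => hκ i' a, sum_const, card_univ, Fintype.card_fin,
      smul_eq_mul]
  have e4 : ∑ i', κ i' * ∑ a, y i' a ≤ s * d := by
    have h1 : ∑ w, m' w * pairN ρ y w = ∑ i', κ i' * ∑ a, y i' a := by
      rw [sum_pairN]
      refine sum_congr rfl fun i' _ => ?_
      rw [mul_sum]
      refine sum_congr rfl fun a _ => ?_
      rw [hκ, mul_comm]
    rw [← h1, hd, mul_sum]
    refine sum_le_sum fun w _ => ?_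
    by_cases h : m' w = 0
    · rw [h, zero_mul, mul_zero]
    · rw [mul_comm s]
      exact Nat.mul_le_mul_left _ (hle' w h)
  have e5 : ∑ a, y i a < v * r i := by
    have h1 : ∑ a : Fin (r i), y i a < ∑ _a : Fin (r i), v :=
      sum_lt_sum (fun a _ => hle a) ⟨a0, mem_univ _, hab.trans_le (hle b0)⟩
    rwa [sum_const, card_univ, Fintype.card_fin, smul_eq_mul, mul_comm] at h1
  -- rational arithmetic
  have hrq : ∀ i', (0 : ℚ) < r i' := fun i' => Nat.cast_pos.2 (hr i')
  have f1 : ∀ i', (c i' : ℚ) = ((e : ℚ) * ρ.deg i' + (if i' = i then (t : ℚ) else 0)) / r i' := by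
    intro i'
    rw [eq_div_iff (hrq i').ne']
    have := congrArg (Nat.cast : ℕ → ℚ) (e1 i')
    push_cast at this
    rw [this, mul_comm]
  have f2 : ∀ i', (κ i' : ℚ) = (d : ℚ) * ρ.deg i' / r i' := by
    intro i'
    rw [eq_div_iff (hrq i').ne']
    have := congrArg (Nat.cast : ℕ → ℚ) (e3 i')
    push_cast at this
    rw [this, mul_comm]
  set μ : ℚ := ∑ i', (ρ.deg i' : ℚ) / r i' * ((∑ a, y i' a : ℕ) : ℚ) with hμ
  have f3 : (s : ℚ) * e + v * t = e * μ + t / r i * ((∑ a, y i a : ℕ) : ℚ) := by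
    have h1 := congrArg (Nat.cast : ℕ → ℚ) e2
    rw [Nat.cast_sum] at h1
    push_cast at h1
    rw [h1, hμ, mul_sum]
    have h2 : (t : ℚ) / r i * ((∑ a, y i a : ℕ) : ℚ) =
        ∑ i', (if i' = i then (t : ℚ) else 0) / r i' * ((∑ a, y i' a : ℕ) : ℚ) := by
      rw [sum_eq_single i]
      · rw [if_pos rfl]
      · intro i' _ h
        rw [if_neg h, zero_div, zero_mul]
      · intro h
        exact absurd (mem_univ _) h
    rw [h2, ← sum_add_distrib]
    refine sum_congr rfl fun i' _ => ?_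
    rw [f1]
    push_cast
    ring
  have f4 : (d : ℚ) * μ ≤ s * d := by
    have h1 : ((∑ i', κ i' * ∑ a, y i' a : ℕ) : ℚ) ≤ ((s * d : ℕ) : ℚ) := Nat.cast_le.2 e4
    rw [Nat.cast_sum] at h1
    rw [Nat.cast_mul] at h1
    refine le_trans (le_of_eq ?_) h1
    rw [hμ, mul_sum]
    refine sum_congr rfl fun i' _ => ?_
    rw [Nat.cast_mul, f2]
    ring
  have hd0 : (0 : ℚ) < d := Nat.cast_pos.2 hpos
  have f5 : μ ≤ s := by
    rw [mul_comm (s : ℚ)] at f4
    exact le_of_mul_le_mul_left f4 hd0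
  have f6 : (e : ℚ) * μ ≤ e * s := mul_le_mul_of_nonneg_left f5 (Nat.cast_nonneg _)
  have f7 : (v : ℚ) * t ≤ t / r i * ((∑ a, y i a : ℕ) : ℚ) := by linarith
  have ht0 : (0 : ℚ) < t := Nat.cast_pos.2 htpos
  have f8 : ((∑ a, y i a : ℕ) : ℚ) < v * r i := by exact_mod_cast e5
  have f9 : (t : ℚ) / r i * ((∑ a, y i a : ℕ) : ℚ) < t / r i * (v * r i) :=
    mul_lt_mul_of_pos_left f8 (div_pos ht0 (hrq i))
  have f10 : (t : ℚ) / r i * (v * r i) = v * t := by
    rw [div_mul_eq_mul_div, div_eq_iff (hrq i).ne']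
    ring
  linarith

end Pool.Agent.Lib.MP_1acd66_nt.AR
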