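import Pool.Agent.Lib.MP_1acd66_nt.AR.Defs7

/-!
Row StPrim: the primitive polynomial vector of the Plücker coordinates of the last block.
-/

namespace Pool.Agent.Lib.MP_1acd66_nt.AR

open Finset Pool.Agent.Lib.MP_1acd66_nt.Gen J63

namespace Prim73

variable {W R : Type} [CommRing R] [IsDomain R] [Algebra ℚ R]

/-- The elements which are rational functions of `A`. -/
noncomputable def fr (A : W → R) : Subring R where
  carrier := {t | ∃ N D : MvPolynomial W ℚ, MvPolynomial.aeval A D ≠ 0 ∧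
    t * MvPolynomial.aeval A D = MvPolynomial.aeval A N}
  mul_mem' := by
    rintro t t' ⟨N, D, hD, h⟩ ⟨N', D', hD', h'⟩
    refine ⟨N * N', D * D', by rw [map_mul]; exact mul_ne_zero hD hD', ?_⟩
    rw [map_mul, map_mul, ← h, ← h']
    ring
  one_mem' := ⟨1, 1, by simp, by simp⟩
  add_mem' := by
    rintro t t' ⟨N, D, hD, h⟩ ⟨N', D', hD', h'⟩
    refine ⟨N * D' + N' * D, D * D', by rw [map_mul]; exact mul_ne_zero hD hD', ?_⟩
    rw [map_add, map_mul, map_mul, map_mul, ← h, ← h']
    ring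
  zero_mem' := ⟨0, 1, by simp, by simp⟩
  neg_mem' := by
    rintro t ⟨N, D, hD, h⟩
    exact ⟨-N, D, hD, by rw [map_neg, ← h, neg_mul]⟩

omit [IsDomain R] [Algebra ℚ R] in
theorem det_mem {n : Type} [Fintype n] [DecidableEq n] {S : Subring R} {M : Matrix n n R}
    (h : ∀ a b, M a b ∈ S) : M.det ∈ S := by
  rw [Matrix.det_apply]
  exact sum_mem fun σ _ => zsmul_mem (prod_mem fun a _ => h _ _) _

omit [IsDomain R] [Algebra ℚ R] in
/-- A matrix which is unipotent with respect to `y` has determinant one. -/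
theorem det_one {n : Type} [Fintype n] [DecidableEq n] (y : n → ℕ) {V : Matrix n n R}
    (h1 : ∀ a, V a a = 1) (h2 : ∀ a b, a ≠ b → ¬ y a < y b → V a b = 0) : V.det = 1 := by
  classical
  have hbt : Matrix.BlockTriangular V y := by
    intro a b hab
    exact h2 a b (by rintro rfl; exact lt_irrefl _ hab) (by omega)
  rw [hbt.det]
  refine prod_eq_one fun c _ => ?_
  have : V.toSquareBlock y c = 1 := by
    ext a b
    change V a.1 b.1 = _
    by_cases hab : a = b
    · rw [hab, h1, Matrix.one_apply_eq]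
    · rw [Matrix.one_apply_ne hab]
      refine h2 _ _ (fun h => hab (Subtype.ext h)) ?_
      rw [a.2, b.2]
      exact lt_irrefl _
  rw [this, Matrix.det_one]

/-- A primitive vector with given ratios. -/
theorem exists_prim {E : Type} {A : W → R} (hA : AlgebraicIndependent ℚ A) (e0 : E) (m : E → R) :
    ∀ (d : ℕ) (Φ : E → MvPolynomial W ℚ), (Φ e0).totalDegree = d → Φ e0 ≠ 0 →
    (∀ e, MvPolynomial.aeval A (Φ e) = m e * MvPolynomial.aeval A (Φ e0)) →
    ∃ Φ' : E → MvPolynomial W ℚ, Φ' e0 ≠ 0 ∧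
      (∀ e, MvPolynomial.aeval A (Φ' e) = m e * MvPolynomial.aeval A (Φ' e0)) ∧
      ∀ Ψ, (∀ e, Ψ ∣ Φ' e) → IsUnit Ψ := by
  intro d
  induction d using Nat.strong_induction_on with
  | _ d ih =>
    intro Φ hd h0 h
    by_cases hp : ∀ Ψ, (∀ e, Ψ ∣ Φ e) → IsUnit Ψ
    · exact ⟨Φ, h0, h, hp⟩
    · push Not at hp
      obtain ⟨Ψ, hΨ, hu⟩ := hp
      choose Φ' hΦ' using hΨ
      have h1 : Ψ ≠ 0 := by
        rintro rfl
        exact h0 (by rw [hΦ' e0, zero_mul])
      have h2 : Φ' e0 ≠ 0 := fun h2 => h0 (by rw [hΦ' e0, h2, mul_zero])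
      have h3 : (Φ e0).totalDegree = Ψ.totalDegree + (Φ' e0).totalDegree := by
        rw [hΦ' e0]
        exact MvPolynomial.totalDegree_mul_of_isDomain h1 h2
      have h4 : Ψ.totalDegree ≠ 0 := by
        intro h4
        have h5 := MvPolynomial.totalDegree_eq_zero_iff_eq_C.1 h4
        apply hu
        rw [h5] at h1 ⊢
        refine (IsUnit.mk0 _ ?_).map MvPolynomial.C
        intro h6
        exact h1 (by rw [h6, map_zero])
      have h5 : MvPolynomial.aeval A Ψ ≠ 0 := fun h5 =>
        h1 (hA (h5.trans (map_zero (MvPolynomial.aeval A)).symm))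
      refine ih (Φ' e0).totalDegree (by omega) Φ' rfl h2 fun e => ?_
      have h6 := h e
      rw [hΦ' e, hΦ' e0, map_mul, map_mul] at h6
      apply mul_left_cancel₀ h5
      rw [h6]
      ring

end Prim73

open Prim73 in
/-- Row StPrim. -/
theorem stPrim {k : ℕ} {r : Fin k → ℕ} {W : Type} [Fintype W] (ρ : FRep r W) : StPrim ρ := by
  classical
  intro y s A _ hind hrat i v
  set Z := Blk ρ y (s + 1) with hZ
  set S := stepsT y 1 with hS
  have hSmem : ∀ i a b, (⟨i, a, b⟩ : Σ i, Fin (r i) × Fin (r i)) ∈ stepsT y 1 ↔ y i a < y i b := by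
    intro i a b
    rw [stepsT, mem_sigma, mem_filter]
    simp only [mem_univ, true_and]
    omega
  have hg1 : ∀ i a, genV Z S i a a = 1 := by
    intro i a
    simp [genV]
  have hg2 : ∀ i a b, a ≠ b → ¬ y i a < y i b → genV Z S i a b = 0 := by
    intro i a b hab hm
    rw [← hSmem] at hm
    simp only [genV, hab, if_false]
    exact dif_neg hm
  have hgm : ∀ i a b, genV Z S i a b ∈ fr A := by
    intro i a b
    by_cases hab : a = b
    · rw [hab, hg1]
      exact (fr A).one_mem
    · by_cases hm : (⟨i, a, b⟩ : Σ i, Fin (r i) × Fin (r i)) ∈ S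
      · have h1 : genV Z S i a b = MvPolynomial.X (Sum.inl ⟨⟨i, a, b⟩, hm⟩) := by
          simp [genV, hab, hm]
        rw [h1]
        exact hrat ⟨⟨i, a, b⟩, hm⟩
      · rw [hg2 i a b hab (by rwa [← hSmem])]
        exact (fr A).zero_mem
  have hmin : ∀ e, minorV ρ y s i v e ∈ fr A := fun e => det_mem fun a b => hgm i _ _
  have hmin1 : minorV ρ y s i v Subtype.val = 1 := by
    refine det_one (fun a : Tc y i v => y i a.1) (fun a => hg1 i a.1) fun a b hab hn => ?_
    exact hg2 i a.1 b.1 (fun h => hab (Subtype.ext h)) hn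
  choose N D hD hN using hmin
  refine Prim73.exists_prim hind (Subtype.val : Tc y i v → Fin (r i)) (minorV ρ y s i v) _
    (fun e => N e * ∏ e' ∈ univ.erase e, D e') rfl ?_ ?_
  · intro h0
    have h1 : MvPolynomial.aeval A (N Subtype.val *
        ∏ e' ∈ univ.erase (Subtype.val : Tc y i v → Fin (r i)), D e') = 0 := by
      rw [h0, map_zero]
    rw [map_mul, ← hN, hmin1, one_mul, ← map_mul, mul_prod_erase _ _ (mem_univ _), map_prod] at h1
    exact prod_ne_zero_iff.2 (fun e _ => hD e) h1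
  · have key : ∀ e, MvPolynomial.aeval A (N e * ∏ e' ∈ univ.erase e, D e') =
        minorV ρ y s i v e * MvPolynomial.aeval A (∏ e', D e') := by
      intro e
      rw [map_mul, ← hN, mul_assoc, ← map_mul, mul_prod_erase _ _ (mem_univ _)]
    intro e
    show MvPolynomial.aeval A (N e * ∏ e' ∈ univ.erase e, D e') = minorV ρ y s i v e *
      MvPolynomial.aeval A (N Subtype.val * ∏ e' ∈ univ.erase Subtype.val, D e')
    rw [key, key, hmin1, one_mul]

end Pool.Agent.Lib.MP_1acd66_nt.AR
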