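import Pool.Agent.Lib.MP_1acd66_nt.AR.Defs8

/-!
Row StRel: the existence of a relation.
-/

set_option autoImplicit false

namespace Pool.Agent.Lib.MP_1acd66_nt.AR

open Finset Pool.Agent.Lib.MP_1acd66_nt.Gen

/-- Row StRel. -/
theorem stRel63 {k : ℕ} {r : Fin k → ℕ} {W : Type} [Fintype W] (ρ : FRep r W) : StRel ρ := by
  classical
  intro hr hcard
  by_contra hcon
  push Not at hcon
  have h1 : AlgebraicIndependent (MvPolynomial W ℚ) (relG ρ) := by
    rw [algebraicIndependent_iff]
    intro p hp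
    by_contra h0
    exact hcon p h0 hp
  have h2 := h1.cardinalMk_le_trdeg
  rw [MvPolynomial.trdeg_of_isDomain, Cardinal.mk_fintype, Cardinal.mk_fintype,
    Cardinal.lift_natCast, Nat.cast_le, Fintype.card_sum, Fintype.card_fin,
    Fintype.card_sigma] at h2
  have h3 : ∑ i : Fin k, Fintype.card (Fin (r i) × Fin (r i)) = ∑ i, (r i ^ 2 - 1) + k := by
    have h4 : ∀ i : Fin k, Fintype.card (Fin (r i) × Fin (r i)) = (r i ^ 2 - 1) + 1 := by
      intro i
      have h5 : 0 < r i ^ 2 := pow_pos (hr i) 2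
      rw [Fintype.card_prod, Fintype.card_fin, ← pow_two]
      omega
    rw [sum_congr rfl fun i _ => h4 i, sum_add_distrib, sum_const, card_univ, Fintype.card_fin,
      smul_eq_mul, mul_one]
  rw [h3] at h2
  omega

end Pool.Agent.Lib.MP_1acd66_nt.AR
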