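import Pool.Agent.Lib.MP_1acd66_nt.AR.Defs2

/-!
Row H: the weights of a representation are permuted by the Weyl group.
-/

namespace Pool.Agent.Lib.MP_1acd66_nt.AR

open Finset Pool.Agent.Lib.MP_1acd66_nt.Gen

variable {k : ℕ} {r : Fin k → ℕ} {W : Type} [Fintype W]

/-- The weights of a representation are permuted by the Weyl group. -/
theorem exists_wt_perm (ρ : FRep r W) (σ : ∀ i, Equiv.Perm (Fin (r i))) (w : W) :
    ∃ w' : W, ∀ i a, ρ.wt w' i a = ρ.wt w i (σ i a) := by
  classical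
  let P : Grp ℤ r := fun i => Matrix.of fun a b => if a = σ i b then 1 else 0
  let Q : Grp ℤ r := fun i => Matrix.of fun c b => if b = σ i c then 1 else 0
  have hPQ : P * Q = 1 := by
    funext i
    ext a b
    have : (P * Q) i a b = ∑ c, (if a = σ i c then (1:ℤ) else 0) * (if b = σ i c then 1 else 0) := rfl
    rw [this, Finset.sum_eq_single ((σ i).symm a)]
    · rw [Equiv.apply_symm_apply, if_pos rfl, one_mul]
      change _ = (1 : Matrix (Fin (r i)) (Fin (r i)) ℤ) a b
      rw [Matrix.one_apply]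
      exact if_congr eq_comm rfl rfl
    · intro c _ hc
      rw [if_neg, zero_mul]
      intro h
      exact hc (by rw [h, Equiv.symm_apply_apply])
    · intro h
      exact absurd (mem_univ _) h
  have hne : ρ.pull ℤ P (Pi.single w 1) ≠ 0 := by
    intro h
    have h1 := ρ.pull_mul ℤ P Q (Pi.single w 1)
    have h2 : ρ.pull ℤ Q (0 : W → ℤ) = 0 := by
      have h3 := ρ.pull_smul ℤ Q 0 (0 : W → ℤ)
      rwa [zero_smul, zero_smul] at h3
    rw [hPQ, ρ.pull_one, h, h2] at h1
    have h3 := congrFun h1 w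
    rw [Pi.single_eq_same] at h3
    exact zero_ne_one h3
  obtain ⟨w', hw'⟩ := Function.ne_iff.1 hne
  refine ⟨w', fun i0 a0 => ?_⟩
  let l : ∀ i, Fin (r i) → ℤ := fun i a => if (⟨i, a⟩ : Σ i, Fin (r i)) = ⟨i0, σ i0 a0⟩ then 2 else 1
  let l' : ∀ i, Fin (r i) → ℤ := fun i b => l i (σ i b)
  have hcomm : (fun i => Matrix.diagonal (l i) : Grp ℤ r) * P =
      P * (fun i => Matrix.diagonal (l' i) : Grp ℤ r) := by
    funext i
    ext a b
    change (Matrix.diagonal (l i) * P i) a b = (P i * Matrix.diagonal (l' i)) a b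
    rw [Matrix.diagonal_mul, Matrix.mul_diagonal]
    change l i a * (if a = σ i b then 1 else 0) = (if a = σ i b then 1 else 0) * l i (σ i b)
    split_ifs with h
    · rw [h, mul_comm]
    · rw [mul_zero, zero_mul]
  have hprod : ∀ v : W, ∏ i, ∏ a, l i a ^ ρ.wt v i a = 2 ^ ρ.wt v i0 (σ i0 a0) := by
    intro v
    rw [Finset.prod_eq_single i0, Finset.prod_eq_single (σ i0 a0)]
    · simp only [l, if_true]
    · intro a _ ha
      have : ¬ ((⟨i0, a⟩ : Σ i, Fin (r i)) = ⟨i0, σ i0 a0⟩) := by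
        intro h
        exact ha (eq_of_heq (Sigma.mk.inj h).2)
      simp only [l, if_neg this, one_pow]
    · intro h
      exact absurd (mem_univ _) h
    · intro i _ hi
      refine Finset.prod_eq_one fun a _ => ?_
      have : ¬ ((⟨i, a⟩ : Σ i, Fin (r i)) = ⟨i0, σ i0 a0⟩) := by
        intro h
        exact hi (Sigma.mk.inj h).1
      simp only [l, if_neg this, one_pow]
    · intro h
      exact absurd (mem_univ _) h
  have hprod' : ∀ v : W, ∏ i, ∏ a, l' i a ^ ρ.wt v i a = 2 ^ ρ.wt v i0 a0 := by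
    intro v
    rw [Finset.prod_eq_single i0, Finset.prod_eq_single a0]
    · simp only [l', l, if_true]
    · intro a _ ha
      have : ¬ ((⟨i0, σ i0 a⟩ : Σ i, Fin (r i)) = ⟨i0, σ i0 a0⟩) := by
        intro h
        exact ha ((σ i0).injective (eq_of_heq (Sigma.mk.inj h).2))
      simp only [l', l, if_neg this, one_pow]
    · intro h
      exact absurd (mem_univ _) h
    · intro i _ hi
      refine Finset.prod_eq_one fun a _ => ?_
      have : ¬ ((⟨i, σ i a⟩ : Σ i, Fin (r i)) = ⟨i0, σ i0 a0⟩) := by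
        intro h
        exact hi (Sigma.mk.inj h).1
      simp only [l', l, if_neg this, one_pow]
    · intro h
      exact absurd (mem_univ _) h
  have h1 := ρ.pull_mul ℤ (fun i => Matrix.diagonal (l i)) P (Pi.single w 1)
  have h2 := ρ.pull_mul ℤ P (fun i => Matrix.diagonal (l' i)) (Pi.single w 1)
  have h3 : ρ.pull ℤ (fun i => Matrix.diagonal (l i)) (Pi.single w 1) =
      (2 ^ ρ.wt w i0 (σ i0 a0) : ℤ) • (Pi.single w 1 : W → ℤ) := by
    funext v
    rw [ρ.pull_diag, hprod, Pi.smul_apply, smul_eq_mul]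
    by_cases hv : v = w
    · rw [hv]
    · rw [Pi.single_eq_of_ne hv, mul_zero, mul_zero]
  rw [h3, ρ.pull_smul, hcomm, ← h2] at h1
  have h4 := congrFun h1 w'
  rw [Pi.smul_apply, smul_eq_mul, ρ.pull_diag, hprod'] at h4
  have h5 : (2:ℤ) ^ ρ.wt w i0 (σ i0 a0) = 2 ^ ρ.wt w' i0 a0 := mul_right_cancel₀ hw' h4
  exact (Int.pow_right_injective (by decide) h5).symm

/-- Row H. -/
theorem stWeyl (ρ : FRep r W) : StWeyl ρ := fun σ w => exists_wt_perm ρ σ w

end Pool.Agent.Lib.MP_1acd66_nt.AR
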