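import Pool.Agent.Lib.MP_1acd66_nt.AR.Defs5
import Pool.Agent.Lib.MP_1acd66_nt.AR.RowJ63

/-!
Row J2: if generic vectors can be moved so that they vanish in the slopes greater than `s`, the
block of the slopes at least `s + t` has at most as many elements as there are entries with
difference of the slopes at least `t`.
-/

namespace Pool.Agent.Lib.MP_1acd66_nt.AR

open Finset Pool.Agent.Lib.MP_1acd66_nt.Gen TrivSqZeroExt

namespace J63b

variable {k : ℕ} {r : Fin k → ℕ} {W : Type} [Fintype W]

open J63 D63 in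
/-- a relation between the coordinates of the generic vector holds for all vectors -/
theorem spec (ρ : FRep r W) (Z : Finset W) (S : Finset (Σ i, Fin (r i) × Fin (r i)))
    (hS : ∀ x ∈ S, x.2.1 < x.2.2) (σ : ∀ i, Equiv.Perm (Fin (r i)))
    (Ag : W → MvPolynomial (Ix Z S) ℚ)
    (hAg : ρ.pull (MvPolynomial (Ix Z S) ℚ) (perm (MvPolynomial (Ix Z S) ℚ) σ (genV Z S)) Ag =
      genB Z S)
    (F : MvPolynomial W ℚ) (hF0 : MvPolynomial.aeval Ag F = 0)
    (K : Type) [Field K] [Algebra ℚ K] (A : W → K) (V : Grp K r) (hV1 : ∀ i a, V i a a = 1)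
    (hV2 : ∀ i a b, a ≠ b → (⟨i, a, b⟩ : Σ i, Fin (r i) × Fin (r i)) ∉ S → V i a b = 0)
    (hvan : ∀ w ∈ Z, ρ.pull K (perm K σ V) A w = 0) : MvPolynomial.aeval A F = 0 := by
  classical
  have hdet : ∀ i, (V i).det = 1 := by
    intro i
    refine det_upper (hV1 i) fun a b hab => hV2 i a b hab.ne' fun hm => ?_
    exact absurd (hS _ hm) (not_lt.2 hab.le)
  have hg1 : ∀ i a, genV Z S i a a = 1 := by
    intro i a
    simp [genV]
  have hg2 : ∀ i a b, a ≠ b → (⟨i, a, b⟩ : Σ i, Fin (r i) × Fin (r i)) ∉ S →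
      genV Z S i a b = 0 := by
    intro i a b hab hm
    simp [genV, hab, hm]
  set B := ρ.pull K (perm K σ V) A with hB
  set φ : MvPolynomial (Ix Z S) ℚ →ₐ[ℚ] K := MvPolynomial.aeval
    (Sum.elim (fun s => V s.1.1 s.1.2.1 s.1.2.2) fun w => B w.1) with hφ
  have e1 : (fun i => (perm (MvPolynomial (Ix Z S) ℚ) σ (genV Z S) i).map φ.toRingHom) =
      perm K σ V := by
    funext i
    ext a b
    change φ (genV Z S i ((σ i).symm a) b) = V i ((σ i).symm a) b
    generalize (σ i).symm a = c
    by_cases hcb : c = b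
    · subst hcb
      rw [hg1, map_one, hV1]
    · by_cases hm : (⟨i, c, b⟩ : Σ i, Fin (r i) × Fin (r i)) ∈ S
      · have h1 : genV Z S i c b = MvPolynomial.X (Sum.inl ⟨⟨i, c, b⟩, hm⟩) := by
          simp [genV, hcb, hm]
        rw [h1, hφ, MvPolynomial.aeval_X]
        rfl
      · rw [hg2 i c b hcb hm, map_zero, hV2 i c b hcb hm]
  have e2 : (fun w => φ.toRingHom (genB Z S w)) = B := by
    funext w
    change φ (genB Z S w) = B w
    by_cases hw : w ∈ Z
    · rw [hvan w hw]
      have h1 : genB Z S w = 0 := by simp [genB, hw]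
      rw [h1, map_zero]
    · have h1 : genB Z S w = MvPolynomial.X (Sum.inr ⟨w, hw⟩) := by simp [genB, hw]
      rw [h1, hφ, MvPolynomial.aeval_X]
      rfl
  have h1 := ρ.pull_map _ K φ.toRingHom (perm _ σ (genV Z S)) Ag
  rw [e1, hAg, e2] at h1
  have h2 : (fun w => φ.toRingHom (Ag w)) = A := by
    refine pull_inj ρ (perm_det σ V hdet) ?_
    rw [h1]
  rw [← h2]
  have h3 : MvPolynomial.aeval (fun w => φ.toRingHom (Ag w)) F = φ (MvPolynomial.aeval Ag F) := by
    have h4 := MvPolynomial.comp_aeval Ag φ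
    have h5 := DFunLike.congr_fun h4 F
    rw [AlgHom.comp_apply] at h5
    rw [h5]
    rfl
  rw [h3, hF0, map_zero]

/-- the constant part of the dual numbers -/
def dinl (L : Type) [CommRing L] : L →+* DualNumber L where
  toFun x := inl x
  map_one' := rfl
  map_mul' x y := inl_mul L x y
  map_zero' := rfl
  map_add' x y := inl_add L x y

/-- the action of a constant family on a vector over the dual numbers -/
theorem pull_const (ρ : FRep r W) {L : Type} [CommRing L] (M : Grp L r) (A C : W → L) :
    ρ.pull (DualNumber L) (fun i => (M i).map (dinl L)) (fun w => inl (A w) + inr (C w)) =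
      fun w => inl (ρ.pull L M A w) + inr (ρ.pull L M C w) := by
  have h0 : ∀ A : W → L, ρ.pull (DualNumber L) (fun i => (M i).map (dinl L))
      (fun w => (inl (A w) : DualNumber L)) = fun w => inl (ρ.pull L M A w) := by
    intro A
    exact ρ.pull_map L (DualNumber L) (dinl L) M A
  have h1 : (fun w => (inr (C w) : DualNumber L)) =
      (inr 1 : DualNumber L) • fun w => (inl (C w) : DualNumber L) := by
    funext w
    rw [Pi.smul_apply, smul_eq_mul, inr_mul_inl]
    simp
  have h2 : (fun w => (inl (A w) + inr (C w) : DualNumber L)) =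
      (fun w => (inl (A w) : DualNumber L)) + fun w => (inr (C w) : DualNumber L) := rfl
  rw [h2, ρ.pull_add, h0, h1, ρ.pull_smul, h0]
  funext w
  rw [Pi.add_apply, Pi.smul_apply, smul_eq_mul, inr_mul_inl]
  simp

/-- the bound for the number of elements of the block -/
theorem key (ρ : FRep r W) (hLie : StLie ρ) {L : Type} [Field L] (y : ∀ i, Fin (r i) → ℕ)
    (s t : ℕ) (hy : ∀ i, Monotone (y i)) (ht : 0 < t) (σ : ∀ i, Equiv.Perm (Fin (r i)))
    (V : Grp L r) (hV1 : ∀ i a, V i a a = 1)
    (hV2 : ∀ i a b, a ≠ b → y i b ≤ y i a → V i a b = 0) (A : W → L)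
    (hB0 : ∀ w ∈ Blk ρ y (s + 1), ρ.pull L (perm L σ V) A w = 0)
    (hder : ∀ c : W → L, ∃ φ : L →+* DualNumber L, (∀ x, fst (φ x) = x) ∧
      ∀ w, snd (φ (A w)) = c w) :
    (Blk ρ y (s + t)).card ≤ (stepsT y t).card := by
  classical
  set M := perm L σ V with hM
  have hdet : ∀ i, (V i).det = 1 := fun i => D63.det_one (hy i) (hV1 i) (hV2 i)
  have hMu : ∀ i, IsUnit (M i).det := D63.perm_det σ V hdet
  set B := ρ.pull L M A with hB
  obtain ⟨hL1, hL2⟩ := hLie L
  obtain ⟨e, he⟩ := hL2 y s t ht B hB0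
  have hclaim : ∀ c : W → L, ∃ X : Grp L r, ∀ w ∈ Blk ρ y (s + t),
      ρ.pull L M c w = -∑ x ∈ stepsT y t, X x.1 x.2.1 x.2.2 * e x w := by
    intro c
    obtain ⟨φ, hφ1, hφ2⟩ := hder c
    have hφ : ∀ x, φ x = inl x + inr (snd (φ x)) := by
      intro x
      ext
      · rw [fst_add, fst_inl, fst_inr, add_zero, hφ1]
      · rw [snd_add, snd_inl, snd_inr, zero_add]
    set D : L → L := fun x => snd (φ x) with hD
    have hD0 : D 0 = 0 := by
      rw [hD]
      simp
    have hD1 : D 1 = 0 := by
      rw [hD]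
      simp
    set X : Grp L r := fun i => (V i)⁻¹ * (V i).map D with hX
    have hVX : ∀ i, V i * X i = (V i).map D := by
      intro i
      rw [hX]
      change V i * ((V i)⁻¹ * (V i).map D) = _
      rw [← Matrix.mul_assoc, Matrix.mul_nonsing_inv _ (by rw [hdet i]; exact isUnit_one),
        Matrix.one_mul]
    have hXs : ∀ i a b, ¬ y i a < y i b → X i a b = 0 := by
      intro i a b hab
      rw [hX]
      change ((V i)⁻¹ * (V i).map D) a b = 0
      rw [Matrix.mul_apply]
      refine sum_eq_zero fun j _ => ?_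
      rw [Matrix.map_apply]
      by_cases h1 : y i j < y i a
      · have hbt : Matrix.BlockTriangular (V i) (y i) := by
          intro a' b' hab'
          exact hV2 i a' b' (by rintro rfl; exact lt_irrefl _ hab') hab'.le
        have : Invertible (V i) := Matrix.invertibleOfIsUnitDet _ (by rw [hdet i]; exact isUnit_one)
        have h2 := Matrix.blockTriangular_inv_of_blockTriangular hbt
        rw [h2 h1, zero_mul]
      · by_cases h2 : j = b
        · subst h2
          rw [hV1, hD1, mul_zero]
        · rw [hV2 i j b h2 (by omega), hD0, mul_zero]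
    have hMφ : (fun i => (M i).map φ) = (fun i => (M i).map (dinl L)) * onePlus X := by
      funext i
      change (M i).map φ = (M i).map (dinl L) * (1 + (X i).map fun x => (inr x : DualNumber L))
      rw [Matrix.mul_add, Matrix.mul_one]
      ext1 a b
      rw [Matrix.add_apply, Matrix.mul_apply, Matrix.map_apply, Matrix.map_apply]
      have h1 : ∑ j, (M i).map (dinl L) a j * (X i).map (fun x => (inr x : DualNumber L)) j b =
          inr ((V i * X i) ((σ i).symm a) b) := by
        rw [Matrix.mul_apply]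
        have h2 := map_sum (inrHom L L) (fun j => V i ((σ i).symm a) j * X i j b) univ
        rw [inrHom_apply] at h2
        rw [h2]
        refine sum_congr rfl fun j _ => ?_
        rw [inrHom_apply, Matrix.map_apply, Matrix.map_apply]
        change (inl (V i ((σ i).symm a) j) : DualNumber L) * inr (X i j b) = _
        rw [inl_mul_inr, smul_eq_mul]
      rw [h1, hVX i, Matrix.map_apply]
      exact hφ _
    refine ⟨X, fun w hw => ?_⟩
    have hw1 : w ∈ Blk ρ y (s + 1) := by
      unfold Blk at hw ⊢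
      rw [mem_filter] at hw ⊢
      exact ⟨hw.1, by have := hw.2; omega⟩
    have h1 := congrFun (ρ.pull_map L (DualNumber L) φ M A) w
    have h2 : (fun w => φ (A w)) = fun w => inl (A w) + inr (c w) := by
      funext w
      rw [hφ, hφ2]
    rw [hMφ, h2, ← ρ.pull_mul, pull_const, hL1] at h1
    rw [← hB, hB0 w hw1, map_zero] at h1
    have h3 := congrArg snd h1
    rw [snd_add, snd_inl, snd_inr, zero_add, snd_zero, he X hXs w hw] at h3
    linear_combination h3
  -- the dimension
  set v : {x // x ∈ stepsT y t} → ({w // w ∈ Blk ρ y (s + t)} → L) :=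
    fun x w => e x.1 w.1 with hv
  have hspan : Submodule.span L (Set.range v) = ⊤ := by
    rw [Submodule.eq_top_iff']
    intro d
    obtain ⟨c, hc⟩ := J63.pull_surj ρ hMu (fun w => if h : w ∈ Blk ρ y (s + t) then d ⟨w, h⟩ else 0)
    obtain ⟨X, hXc⟩ := hclaim c
    have h1 : d = ∑ x : {x // x ∈ stepsT y t}, (-X x.1.1 x.1.2.1 x.1.2.2) • v x := by
      funext w
      have h2 := hXc w.1 w.2
      rw [hc] at h2
      have h3 : (if h : w.1 ∈ Blk ρ y (s + t) then d ⟨w.1, h⟩ else 0) = d w := dif_pos w.2
      simp only at h2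
      rw [h3] at h2
      rw [h2, Finset.sum_apply, ← sum_coe_sort (stepsT y t), ← sum_neg_distrib]
      refine sum_congr rfl fun x _ => ?_
      rw [Pi.smul_apply, smul_eq_mul, neg_mul]
    rw [h1]
    refine Submodule.sum_mem _ fun x _ => Submodule.smul_mem _ _ (Submodule.subset_span ⟨x, rfl⟩)
  have h1 := finrank_range_le_card (R := L) v
  unfold Set.finrank at h1
  rw [hspan, finrank_top, Module.finrank_fintype_fun_eq_card, Fintype.card_coe,
    Fintype.card_coe] at h1
  exact h1

end J63b

end Pool.Agent.Lib.MP_1acd66_nt.AR
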