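import Pool.Agent.Lib.MP_1acd66_nt.AR.RowJ63b

/-!
Row J2, the end.
-/

namespace Pool.Agent.Lib.MP_1acd66_nt.AR

open Finset Pool.Agent.Lib.MP_1acd66_nt.Gen TrivSqZeroExt

namespace J63b

variable {k : ℕ} {r : Fin k → ℕ} {W : Type} [Fintype W]

/-- the bound over a domain -/
theorem key2 (ρ : FRep r W) (hDual : StDual) (hLie : StLie ρ) {R0 : Type} [CommRing R0]
    [IsDomain R0] [Algebra ℚ R0] [Algebra.FiniteType ℚ R0] {L : Type} [Field L] [Algebra R0 L]
    [IsFractionRing R0 L] (y : ∀ i, Fin (r i) → ℕ)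
    (s t : ℕ) (hy : ∀ i, Monotone (y i)) (ht : 0 < t) (σ : ∀ i, Equiv.Perm (Fin (r i)))
    (g : Grp R0 r) (hg1 : ∀ i a, g i a a = 1)
    (hg2 : ∀ i a b, a ≠ b → y i b ≤ y i a → g i a b = 0) (A : W → R0)
    (hind : AlgebraicIndependent ℚ A)
    (h0 : ∀ w ∈ Blk ρ y (s + 1), ρ.pull R0 (perm R0 σ g) A w = 0) :
    (Blk ρ y (s + t)).card ≤ (stepsT y t).card := by
  let _ : Algebra ℚ L := ((algebraMap R0 L).comp (algebraMap ℚ R0)).toAlgebra
  have hst : IsScalarTower ℚ R0 L := IsScalarTower.of_algebraMap_eq' rfl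
  have hinj : Function.Injective (IsScalarTower.toAlgHom ℚ R0 L) := by
    rw [IsScalarTower.coe_toAlgHom']
    exact IsFractionRing.injective R0 L
  have hindL : AlgebraicIndependent ℚ (fun w => algebraMap R0 L (A w)) := by
    have h := hind.map' hinj
    rw [IsScalarTower.coe_toAlgHom'] at h
    exact h
  have h1 : Algebra.EssFiniteType R0 L :=
    Algebra.EssFiniteType.of_isLocalization _ (nonZeroDivisors R0)
  have h2 : Algebra.EssFiniteType ℚ L := Algebra.EssFiniteType.comp ℚ R0 L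
  refine key ρ hLie (L := L) y s t hy ht σ (fun i => (g i).map (algebraMap R0 L)) ?_ ?_
    (fun w => algebraMap R0 L (A w)) ?_ (hDual L W _ hindL)
  · intro i a
    rw [Matrix.map_apply, hg1, map_one]
  · intro i a b hab hle
    rw [Matrix.map_apply, hg2 i a b hab hle, map_zero]
  · intro w hw
    have h1 := congrFun (ρ.pull_map R0 L (algebraMap R0 L) (perm R0 σ g) A) w
    have h2 : (fun i => (perm R0 σ g i).map (algebraMap R0 L)) =
        perm L σ (fun i => (g i).map (algebraMap R0 L)) := rfl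
    rw [h2] at h1
    rw [h1, h0 w hw, map_zero]

end J63b

open J63 J63b D63 in
/-- Row J2. -/
theorem stAlg2 {k : ℕ} {r : Fin k → ℕ} {W : Type} [Fintype W] (ρ : FRep r W) (hDual : StDual)
    (hLie : StLie ρ) : StAlg2 ρ := by
  classical
  intro y s t hy ht hcard σ
  set Z := Blk ρ y (s + 1) with hZ
  set S := stepsT y 1 with hSdef
  have hmem : ∀ i a b, (⟨i, a, b⟩ : Σ i, Fin (r i) × Fin (r i)) ∉ S ↔ y i b ≤ y i a := by
    intro i a b
    rw [hSdef]
    unfold stepsT
    rw [mem_sigma, mem_filter]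
    simp only [mem_univ, true_and]
    omega
  have hS : ∀ x ∈ S, x.2.1 < x.2.2 := by
    rintro ⟨i, a, b⟩ hx
    by_contra hcon
    have h1 : b ≤ a := not_lt.1 hcon
    exact ((hmem i a b).2 (hy i h1)) hx
  have hg1 : ∀ i a, genV Z S i a a = 1 := by
    intro i a
    simp [genV]
  have hg2 : ∀ i a b, a ≠ b → y i b ≤ y i a → genV Z S i a b = 0 := by
    intro i a b hab hle
    have hm := (hmem i a b).2 hle
    simp [genV, hab, hm]
  have hgdet : ∀ i, (genV Z S i).det = 1 := fun i => det_one (hy i) (hg1 i) (hg2 i)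
  obtain ⟨Ag, hAg⟩ := pull_surj ρ (perm_det σ (genV Z S) hgdet) (genB Z S)
  have hrel : ∃ F : MvPolynomial W ℚ, F ≠ 0 ∧ MvPolynomial.aeval Ag F = 0 := by
    by_contra hcon
    push Not at hcon
    have hind : AlgebraicIndependent ℚ Ag := by
      rw [algebraicIndependent_iff]
      intro p hp
      by_contra h0
      exact hcon p h0 hp
    refine absurd hcard (not_lt.2 ?_)
    refine key2 ρ hDual hLie (L := FractionRing (MvPolynomial (Ix Z S) ℚ)) y s t hy ht σ
      (genV Z S) hg1 hg2 Ag hind ?_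
    intro w hw
    rw [hAg]
    simp [genB, hZ, hw]
  obtain ⟨F, hF, hF0⟩ := hrel
  refine ⟨F, hF, ?_⟩
  intro K _ _ A V hV1 hV2 hvan
  exact spec ρ Z S hS σ Ag hAg F hF0 K A V hV1
    (fun i a b hab hm => hV2 i a b hab ((hmem i a b).1 hm)) hvan

end Pool.Agent.Lib.MP_1acd66_nt.AR
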