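import Pool.Agent.Lib.MP_1acd66_nt.AR.Defs2

/-!
Row K: below the highest weight.
-/

set_option linter.unusedSectionVars false
set_option linter.unusedSimpArgs false

namespace Pool.Agent.Lib.MP_1acd66_nt.AR

open Finset Polynomial Pool.Agent.Lib.MP_1acd66_nt.Gen

variable {k : ℕ} {r : Fin k → ℕ} {W : Type} [Fintype W]

/-- Row K: if two neighbouring entries of the highest weight are different, then the weight in
which they are one step closer to each other occurs. -/
def StLow (ρ : FRep r W) : Prop :=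
  ∀ w0, Top ρ w0 → ∀ (i : Fin k) (a b : Fin (r i)), b.val = a.val + 1 →
    ρ.wt w0 i a < ρ.wt w0 i b →
    ∃ w', (∀ j, j ≠ i → ρ.wt w' j = ρ.wt w0 j) ∧
      (∀ c, c ≠ a → c ≠ b → ρ.wt w' i c = ρ.wt w0 i c) ∧
      ρ.wt w' i a = ρ.wt w0 i a + 1 ∧ ρ.wt w' i b + 1 = ρ.wt w0 i b

namespace K91

/-- An elementary matrix in the factor `i`. -/
def tv (K : Type) [CommRing K] (i : Fin k) (x y : Fin (r i)) (c : K) : Grp K r :=
  Function.update (1 : Grp K r) i (Matrix.transvection x y c)

variable {K : Type} [CommRing K] {i : Fin k} {x y : Fin (r i)}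

theorem tv_same (c : K) : tv K i x y c i = Matrix.transvection x y c := by
  simp [tv]

theorem tv_ne (c : K) {j : Fin k} (hj : j ≠ i) : tv K i x y c j = 1 := by
  simp [tv, hj]

theorem tv_zero : tv K i x y 0 = 1 := by
  funext j
  by_cases hj : j = i
  · subst hj
    rw [tv_same]
    simp
  · rw [tv_ne _ hj]
    rfl

theorem tv_mul (hxy : x ≠ y) (c d : K) : tv K i x y c * tv K i x y d = tv K i x y (c + d) := by
  funext j
  rw [Pi.mul_apply]
  by_cases hj : j = i
  · subst hj
    rw [tv_same, tv_same, tv_same, Matrix.transvection_mul_transvection_same _ _ hxy]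
  · rw [tv_ne _ hj, tv_ne _ hj, tv_ne _ hj, one_mul]

theorem tv_map {L : Type} [CommRing L] (f : K →+* L) (c : K) :
    (fun j => (tv K i x y c j).map f) = tv L i x y (f c) := by
  funext j
  by_cases hj : j = i
  · subst hj
    rw [tv_same, tv_same]
    ext1 a b
    simp only [Matrix.transvection, Matrix.map_apply, Matrix.add_apply, Matrix.one_apply,
      Matrix.single_apply]
    split_ifs <;> simp
  · rw [tv_ne _ hj, tv_ne _ hj]
    exact Matrix.map_one _ (map_zero _) (map_one _)

theorem diag_tv (l : ∀ i, Fin (r i) → K) (α β : K) (hl : l i x * α = β * l i y) :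
    (fun j => Matrix.diagonal (l j)) * tv K i x y α =
      tv K i x y β * (fun j => Matrix.diagonal (l j) : Grp K r) := by
  funext j
  rw [Pi.mul_apply, Pi.mul_apply]
  by_cases hj : j = i
  · subst hj
    rw [tv_same, tv_same]
    ext1 a b
    simp only [Matrix.diagonal_mul, Matrix.mul_diagonal, Matrix.transvection, Matrix.add_apply,
      Matrix.one_apply, Matrix.single_apply]
    by_cases h1 : a = b
    · subst h1
      by_cases h2 : x = a ∧ y = a
      · obtain ⟨rfl, rfl⟩ := h2
        simp only [if_true, and_self]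
        linear_combination hl
      · simp only [if_true, if_neg h2]
        ring
    · by_cases h2 : x = a ∧ y = b
      · obtain ⟨rfl, rfl⟩ := h2
        simp only [if_neg h1, and_self, if_true]
        linear_combination hl
      · simp only [if_neg h1, if_neg h2]
        ring
  · rw [tv_ne _ hj, tv_ne _ hj, mul_one, one_mul]

variable (ρ : FRep r W) [DecidableEq W]

/-- The curve of the elementary matrix through a basis vector. -/
noncomputable def cur (i : Fin k) (x y : Fin (r i)) (w0 : W) : W → ℚ[X] :=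
  ρ.pull ℚ[X] (tv ℚ[X] i x y X) (Pi.single w0 1)

theorem single_map {L M : Type} [CommRing L] [CommRing M] (f : L →+* M) (w0 : W) :
    (fun w => f ((Pi.single w0 1 : W → L) w)) = (Pi.single w0 1 : W → M) := by
  funext w
  by_cases h : w = w0
  · subst h
    simp
  · simp [Pi.single_eq_of_ne h]

theorem cur_comp (i : Fin k) (x y : Fin (r i)) (w0 : W) (α : ℚ) :
    ρ.pull ℚ[X] (tv ℚ[X] i x y (C α * X)) (Pi.single w0 1) =
      fun w => (cur ρ i x y w0 w).comp (C α * X) := by
  have h := ρ.pull_map ℚ[X] ℚ[X] (compRingHom (C α * X)) (tv ℚ[X] i x y X) (Pi.single w0 1)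
  rw [tv_map, single_map] at h
  simpa [cur] using h

theorem cur_eval (i : Fin k) (x y : Fin (r i)) (w0 : W) (u : ℚ) :
    ρ.pull ℚ (tv ℚ i x y u) (Pi.single w0 1) = fun w => (cur ρ i x y w0 w).eval u := by
  have h := ρ.pull_map ℚ[X] ℚ (evalRingHom u) (tv ℚ[X] i x y X) (Pi.single w0 1)
  rw [tv_map, single_map] at h
  simpa [cur] using h

theorem diag_single (l : ∀ i, Fin (r i) → K) (w0 : W) :
    ρ.pull K (fun i => Matrix.diagonal (l i)) (Pi.single w0 1) =
      (∏ i, ∏ a, l i a ^ ρ.wt w0 i a) • (Pi.single w0 1 : W → K) := by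
  funext w
  rw [ρ.pull_diag, Pi.smul_apply, smul_eq_mul]
  by_cases h : w = w0
  · subst h
    rfl
  · rw [Pi.single_eq_of_ne h, mul_zero, mul_zero]

theorem wt_rel (i : Fin k) (x y : Fin (r i)) (w0 w : W) (n : ℕ) (l : ∀ i, Fin (r i) → ℚ)
    (α β : ℚ) (hl : l i x * α = β * l i y) :
    (∏ i, ∏ a, l i a ^ ρ.wt w0 i a) * ((cur ρ i x y w0 w).coeff n * α ^ n) =
      (∏ i, ∏ a, l i a ^ ρ.wt w i a) * ((cur ρ i x y w0 w).coeff n * β ^ n) := by
  let L : ∀ i, Fin (r i) → ℚ[X] := fun i a => C (l i a)
  have hL : L i x * (C α * X) = (C β * X) * L i y := by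
    have := congrArg (C : ℚ → ℚ[X]) hl
    rw [C_mul, C_mul] at this
    simp only [L]
    linear_combination X * this
  have h1 := ρ.pull_mul ℚ[X] (fun j => Matrix.diagonal (L j)) (tv ℚ[X] i x y (C α * X))
    (Pi.single w0 1)
  have h2 := ρ.pull_mul ℚ[X] (tv ℚ[X] i x y (C β * X)) (fun j => Matrix.diagonal (L j))
    (Pi.single w0 1)
  rw [diag_tv L _ _ hL, ← h2, diag_single, ρ.pull_smul, cur_comp, cur_comp] at h1
  have h3 := congrFun h1 w
  rw [ρ.pull_diag, Pi.smul_apply, smul_eq_mul] at h3
  have hc : ∀ v : W, (∏ i, ∏ a, L i a ^ ρ.wt v i a) = C (∏ i, ∏ a, l i a ^ ρ.wt v i a) := by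
    intro v
    simp only [L, map_prod, map_pow]
  rw [hc, hc] at h3
  have h4 := congrArg (fun q : ℚ[X] => q.coeff n) h3
  simp only [coeff_C_mul, comp_C_mul_X_coeff] at h4
  exact h4

/-- The value two at one place. -/
def two (i : Fin k) (c : Fin (r i)) : ∀ i, Fin (r i) → ℚ :=
  Function.update (fun _ _ => 1) i (Function.update (fun _ => 1) c 2)

theorem two_same (i : Fin k) (c : Fin (r i)) : two i c i c = 2 := by simp [two]

theorem two_ne (i : Fin k) (c : Fin (r i)) {d : Fin (r i)} (hd : d ≠ c) : two i c i d = 1 := by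
  simp [two, hd]

theorem two_ne' (i : Fin k) (c : Fin (r i)) {j : Fin k} (hj : j ≠ i) (d : Fin (r j)) :
    two i c j d = 1 := by
  simp [two, hj]

theorem prod_two (i : Fin k) (c : Fin (r i)) (m : ∀ i, Fin (r i) → ℕ) :
    (∏ j, ∏ a, two i c j a ^ m j a) = 2 ^ m i c := by
  rw [Finset.prod_eq_single i, Finset.prod_eq_single c]
  · rw [two_same]
  · intro d _ hd
    rw [two_ne i c hd, one_pow]
  · intro h
    exact absurd (Finset.mem_univ c) h
  · intro j _ hj
    apply Finset.prod_eq_one
    intro a _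
    rw [two_ne' i c hj, one_pow]
  · intro h
    exact absurd (Finset.mem_univ i) h

theorem pow2_inj {m n : ℕ} (h : (2 : ℚ) ^ m = 2 ^ n) : m = n :=
  pow_right_injective₀ (by norm_num) (by norm_num) h

variable {ρ}

theorem wt_other {w0 w : W} {n : ℕ} (h : (cur ρ i x y w0 w).coeff n ≠ 0) {j : Fin k}
    (hj : j ≠ i) : ρ.wt w j = ρ.wt w0 j := by
  funext c
  have h1 := wt_rel ρ i x y w0 w n (two j c) 1 1 (by
    rw [two_ne' j c hj.symm, two_ne' j c hj.symm])
  rw [prod_two, prod_two, one_pow, mul_one] at h1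
  exact (pow2_inj (mul_right_cancel₀ h h1)).symm

theorem wt_rest {w0 w : W} {n : ℕ} (h : (cur ρ i x y w0 w).coeff n ≠ 0) {c : Fin (r i)}
    (hx : c ≠ x) (hy : c ≠ y) : ρ.wt w i c = ρ.wt w0 i c := by
  have h1 := wt_rel ρ i x y w0 w n (two i c) 1 1 (by
    rw [two_ne i c hx.symm, two_ne i c hy.symm])
  rw [prod_two, prod_two, one_pow, mul_one] at h1
  exact (pow2_inj (mul_right_cancel₀ h h1)).symm

theorem wt_x (hxy : x ≠ y) {w0 w : W} {n : ℕ} (h : (cur ρ i x y w0 w).coeff n ≠ 0) :
    ρ.wt w0 i x = ρ.wt w i x + n := by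
  have h1 := wt_rel ρ i x y w0 w n (two i x) 1 2 (by
    rw [two_same, two_ne i x hxy.symm])
  rw [prod_two, prod_two, one_pow, mul_one] at h1
  apply pow2_inj
  apply mul_right_cancel₀ h
  rw [h1, pow_add]
  ring

theorem wt_y (hxy : x ≠ y) {w0 w : W} {n : ℕ} (h : (cur ρ i x y w0 w).coeff n ≠ 0) :
    ρ.wt w i y = ρ.wt w0 i y + n := by
  have h1 := wt_rel ρ i x y w0 w n (two i y) 2 1 (by
    rw [two_same, two_ne i y hxy])
  rw [prod_two, prod_two, one_pow, mul_one] at h1
  apply pow2_inj
  apply mul_right_cancel₀ h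
  rw [← h1, pow_add]
  ring

theorem cur_zero (w0 w : W) : (cur ρ i x y w0 w).eval 0 = (Pi.single w0 1 : W → ℚ) w := by
  have h := congrFun (cur_eval ρ i x y w0 0) w
  rw [tv_zero, ρ.pull_one] at h
  exact h.symm

theorem fixed_of_coeff {w0 : W} (h : ∀ w n, (cur ρ i x y w0 w).coeff (n + 1) = 0) (u : ℚ) :
    ρ.pull ℚ (tv ℚ i x y u) (Pi.single w0 1) = Pi.single w0 1 := by
  rw [cur_eval]
  funext w
  have h1 : cur ρ i x y w0 w = C ((cur ρ i x y w0 w).coeff 0) := by
    ext n
    cases n with
    | zero => simp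
    | succ n => rw [h w n]; simp
  rw [h1, eval_C, ← cur_zero (ρ := ρ) (i := i) (x := x) (y := y) w0 w]
  conv_rhs => rw [h1]
  rw [eval_C]

/-- Without a linear term the curve is constant. -/
theorem fixed_of_linear (hxy : x ≠ y) {w0 : W} (h : ∀ w, (cur ρ i x y w0 w).coeff 1 = 0) (u : ℚ) :
    ρ.pull ℚ (tv ℚ i x y u) (Pi.single w0 1) = Pi.single w0 1 := by
  apply fixed_of_coeff
  -- the derivative vanishes everywhere
  have key : ∀ w (u : ℚ), ((cur ρ i x y w0 w).comp (X + C u)).coeff 1 = 0 := by
    intro w u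
    -- the part without constant term is divisible by the square of the variable
    have hdiv : ∀ w, ∃ q : ℚ[X], cur ρ i x y w0 w = C ((Pi.single w0 1 : W → ℚ) w) + X ^ 2 * q := by
      intro w
      have h0 : (cur ρ i x y w0 w).coeff 0 = (Pi.single w0 1 : W → ℚ) w := by
        rw [← cur_zero (ρ := ρ) (i := i) (x := x) (y := y) w0 w, coeff_zero_eq_eval_zero]
      have h2 : (X : ℚ[X]) ^ 2 ∣ cur ρ i x y w0 w - C ((Pi.single w0 1 : W → ℚ) w) := by
        rw [X_pow_dvd_iff]
        intro d hd
        interval_cases d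
        · rw [coeff_sub, h0, coeff_C_zero, sub_self]
        · rw [coeff_sub, h w, coeff_C_of_ne_zero (by norm_num), sub_self]
      obtain ⟨q, hq⟩ := h2
      exact ⟨q, by linear_combination hq⟩
    choose q hq using hdiv
    have e1 : cur ρ i x y w0 = (Pi.single w0 1 : W → ℚ[X]) + (X ^ 2 : ℚ[X]) • q := by
      funext v
      rw [Pi.add_apply, Pi.smul_apply, smul_eq_mul, hq v]
      congr 1
      exact congrFun (single_map (C : ℚ →+* ℚ[X]) w0) v
    have e2 : ρ.pull ℚ[X] (tv ℚ[X] i x y (X + C u)) (Pi.single w0 1) =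
        fun w => (cur ρ i x y w0 w).comp (X + C u) := by
      have h := ρ.pull_map ℚ[X] ℚ[X] (compRingHom (X + C u)) (tv ℚ[X] i x y X) (Pi.single w0 1)
      rw [tv_map, single_map] at h
      simpa [cur] using h
    have e3 : ρ.pull ℚ[X] (tv ℚ[X] i x y (X + C u)) (Pi.single w0 1) =
        ρ.pull ℚ[X] (tv ℚ[X] i x y (C u)) (cur ρ i x y w0) := by
      rw [cur, ρ.pull_mul, tv_mul hxy]
    have e4 : ρ.pull ℚ[X] (tv ℚ[X] i x y (C u)) (Pi.single w0 1) =
        fun w => C ((cur ρ i x y w0 w).eval u) := by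
      have h := ρ.pull_map ℚ ℚ[X] C (tv ℚ i x y u) (Pi.single w0 1)
      rw [tv_map, single_map, cur_eval] at h
      exact h
    rw [e1, ρ.pull_add, ρ.pull_smul, e4] at e3
    have e5 := congrFun (e2.symm.trans e3) w
    simp only [Pi.add_apply, Pi.smul_apply, smul_eq_mul] at e5
    rw [e5, coeff_add, coeff_C_of_ne_zero (by norm_num), zero_add, coeff_X_pow_mul']
    simp
  have hder : ∀ w, derivative (cur ρ i x y w0 w) = 0 := by
    intro w
    apply Polynomial.funext
    intro u
    have h1 := key w u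
    rw [eval_zero]
    have h2 : ((cur ρ i x y w0 w).comp (X + C u)).coeff 1 =
        (derivative ((cur ρ i x y w0 w).comp (X + C u))).eval 0 := by
      rw [← coeff_zero_eq_eval_zero, coeff_derivative]
      simp
    rw [h2, derivative_comp] at h1
    simpa using h1
  intro w n
  have h1 := congrArg (fun q : ℚ[X] => q.coeff n) (hder w)
  simp only [coeff_derivative, coeff_zero] at h1
  rcases mul_eq_zero.1 h1 with h2 | h2
  · exact h2
  · exfalso
    have : (0 : ℚ) < (n : ℚ) + 1 := by positivity
    exact this.ne' h2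

theorem four (hxy : x ≠ y) :
    tv ℚ i x y 1 * tv ℚ i y x 1 * tv ℚ i x y (-1 / 2) * tv ℚ i y x (-2) =
      (fun j => Matrix.diagonal ((Function.update (fun _ _ => 1) i
        (Function.update (Function.update (fun _ => 1) x 2) y (1 / 2)) :
          ∀ i, Fin (r i) → ℚ) j) : Grp ℚ r) := by
  funext j
  simp only [Pi.mul_apply]
  by_cases hj : j = i
  · subst hj
    simp only [tv_same, Function.update_self]
    have e : ∀ c d : ℚ, Matrix.transvection x y c * Matrix.transvection y x d =
        1 + Matrix.single x y c + Matrix.single y x d + Matrix.single x x (c * d) := by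
      intro c d
      simp only [Matrix.transvection, add_mul, mul_add, one_mul, mul_one,
        Matrix.single_mul_single_same]
      abel
    rw [mul_assoc (Matrix.transvection x y 1 * Matrix.transvection y x 1), e, e]
    have hyx : y ≠ x := hxy.symm
    simp only [add_mul, mul_add, one_mul, mul_one, Matrix.single_mul_single_same,
      Matrix.single_mul_single_of_ne _ _ _ _ hxy, Matrix.single_mul_single_of_ne _ _ _ _ hyx]
    ext1 a b
    simp only [Matrix.add_apply, Matrix.one_apply, Matrix.single_apply, Matrix.diagonal_apply,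
      Matrix.zero_apply, Function.update_apply]
    by_cases hab : a = b
    · subst hab
      by_cases h1 : a = y
      · subst h1
        simp [hxy, hyx]
        try norm_num
      · by_cases h2 : a = x
        · subst h2
          simp [hxy, hyx]
          try norm_num
        · simp [h1, h2, Ne.symm h1, Ne.symm h2]
    · by_cases h1 : x = a
      · subst h1
        by_cases h2 : y = b
        · subst h2
          simp [hxy, hyx]
          try norm_num
        · simp [hab, h2, hxy, hyx]
      · by_cases h3 : y = a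
        · subst h3
          by_cases h4 : x = b
          · subst h4
            simp [hxy, hyx]
            try norm_num
          · simp [hab, h4, hxy, hyx]
        · simp [hab, h1, h3]
  · simp only [tv_ne _ hj, mul_one, Function.update_of_ne hj]
    symm
    exact Matrix.diagonal_one

theorem wt_eq_of_fixed (hxy : x ≠ y) {w0 : W}
    (h1 : ∀ u, ρ.pull ℚ (tv ℚ i x y u) (Pi.single w0 1) = Pi.single w0 1)
    (h2 : ∀ u, ρ.pull ℚ (tv ℚ i y x u) (Pi.single w0 1) = Pi.single w0 1) :
    ρ.wt w0 i x = ρ.wt w0 i y := by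
  have h3 : ρ.pull ℚ (tv ℚ i x y 1 * tv ℚ i y x 1 * tv ℚ i x y (-1 / 2) * tv ℚ i y x (-2))
      (Pi.single w0 1) = Pi.single w0 1 := by
    rw [← ρ.pull_mul, ← ρ.pull_mul, ← ρ.pull_mul, h1, h2, h1, h2]
  rw [four hxy, diag_single] at h3
  have h4 := congrFun h3 w0
  rw [Pi.smul_apply, smul_eq_mul, Pi.single_eq_same, mul_one] at h4
  have h5 : (∏ j, ∏ a, (Function.update (fun _ _ => 1) i
        (Function.update (Function.update (fun _ => 1) x 2) y (1 / 2)) :
          ∀ i, Fin (r i) → ℚ) j a ^ ρ.wt w0 j a) = 2 ^ ρ.wt w0 i x * (1 / 2) ^ ρ.wt w0 i y := by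
    rw [Finset.prod_eq_single i]
    · simp only [Function.update_self]
      rw [← Finset.mul_prod_erase _ _ (Finset.mem_univ x),
        ← Finset.mul_prod_erase _ _ (Finset.mem_erase.2 ⟨hxy.symm, Finset.mem_univ y⟩)]
      rw [Finset.prod_eq_one]
      · simp [hxy]
      · intro c hc
        rw [Finset.mem_erase, Finset.mem_erase] at hc
        simp [hc.1, hc.2.1]
    · intro j _ hj
      apply Finset.prod_eq_one
      intro a _
      simp [hj]
    · intro h
      exact absurd (Finset.mem_univ i) h
  rw [h5, one_div, inv_pow, ← div_eq_mul_inv, div_eq_one_iff_eq (by positivity)] at h4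
  exact pow2_inj h4

end K91

open K91 in
theorem stLow (ρ : FRep r W) : StLow ρ := by
  classical
  intro w0 htop i a b hab hlt
  have hne : a ≠ b := by
    intro h
    rw [h] at hab
    omega
  by_contra hcon
  -- raising
  have hup : ∀ u, ρ.pull ℚ (tv ℚ i a b u) (Pi.single w0 1) = Pi.single w0 1 := by
    apply fixed_of_coeff
    intro w n
    by_contra hc
    have e1 := wt_x hne hc
    have e2 := wt_y hne hc
    -- the slope which is one from `b` on
    let s : ∀ i, Fin (r i) → ℕ :=
      Function.update (fun _ _ => 0) i (fun c => if b ≤ c then 1 else 0)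
    have hs : ∀ j, Monotone (s j) := by
      intro j
      by_cases hj : j = i
      · subst hj
        simp only [s, Function.update_self]
        intro c d hcd
        by_cases h1 : b ≤ c
        · simp [h1, h1.trans hcd]
        · simp [h1]
      · simp only [s, Function.update_of_ne hj]
        exact monotone_const
    have hv : ∀ v, pairN ρ s v = ∑ c ∈ univ.filter (fun c => b ≤ c), ρ.wt v i c := by
      intro v
      rw [pairN, Finset.sum_eq_single i]
      · simp only [s, Function.update_self, ite_mul, one_mul, zero_mul, Finset.sum_filter]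
      · intro j _ hj
        simp [s, Function.update_of_ne hj]
      · intro h
        exact absurd (Finset.mem_univ i) h
    have h1 := htop s hs w
    rw [hv, hv] at h1
    have hb : b ∈ univ.filter (fun c : Fin (r i) => b ≤ c) := by simp
    rw [← Finset.add_sum_erase _ _ hb, ← Finset.add_sum_erase _ _ hb] at h1
    have h2 : ∑ c ∈ (univ.filter (fun c : Fin (r i) => b ≤ c)).erase b, ρ.wt w i c =
        ∑ c ∈ (univ.filter (fun c : Fin (r i) => b ≤ c)).erase b, ρ.wt w0 i c := by
      apply Finset.sum_congr rfl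
      intro c hc'
      rw [Finset.mem_erase, Finset.mem_filter] at hc'
      apply wt_rest hc _ hc'.1
      rintro rfl
      have := hc'.2.2
      rw [Fin.le_def] at this
      omega
    rw [h2] at h1
    omega
  have hdown : ∀ u, ρ.pull ℚ (tv ℚ i b a u) (Pi.single w0 1) = Pi.single w0 1 := by
    apply fixed_of_linear hne.symm
    intro w
    by_contra hc
    apply hcon
    refine ⟨w, fun j hj => wt_other hc hj, fun c h1 h2 => wt_rest hc h2 h1, wt_y hne.symm hc,
      (wt_x hne.symm hc).symm⟩
  have := wt_eq_of_fixed hne hup hdown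
  omega

end Pool.Agent.Lib.MP_1acd66_nt.AR
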