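import Pool.Agent.Lib.MP_1acd66_nt.AR.Defs6

/-!
Row N5: the sieve.
-/

namespace Pool.Agent.Lib.MP_1acd66_nt.AR

open Finset Pool.Agent.Lib.MP_1acd66_nt.Gen

variable {k : ℕ} {r : Fin k → ℕ} {W : Type} [Fintype W]

namespace N5_63

/-- Reduction modulo a prime: an integral vector which vanishes on a block in some rational frame
vanishes on it in some frame modulo every prime. -/
theorem red (ρ : FRep r W) {p : ℕ} [Fact p.Prime] {A : W → ℤ} {y : ∀ i, Fin (r i) → ℕ} {u : ℕ}
    (hy : ∀ i, Monotone (y i)) (hA : Van ρ (Blk ρ y u) (ratW A)) :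
    ∃ g : Grp (ZMod p) r, (∀ i, (g i).det ≠ 0) ∧
      ∀ w ∈ Blk ρ y u, ρ.pull (ZMod p) g (fun w => (A w : ZMod p)) w = 0 := by
  obtain ⟨g, hg, hv⟩ := hA
  set f : ℚ →+* ℚ_[p] := Rat.castHom ℚ_[p] with hf
  have hg' : ∀ i, ((g i).map f).det ≠ 0 := by
    intro i
    have h1 : ((g i).map f).det = f (g i).det := (RingHom.map_det f (g i)).symm
    rw [h1]
    intro h0
    exact hg i (f.injective (by rw [h0, map_zero]))
  choose σ h V hh hV1 hV0 hgh using fun i => stDecomp p (r i) (y i) (hy i) ((g i).map f) (hg' i)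
  have h1 : ∀ w ∈ Blk ρ y u, ρ.pull ℚ_[p] (fun i => (g i).map f) (fun w => f (ratW A w)) w = 0 := by
    intro w hw
    rw [ρ.pull_map]
    simp only
    rw [hv w hw, map_zero]
  have h2 : ∀ w ∈ Blk ρ y u,
      ρ.pull ℚ_[p] ((fun i => (g i).map f) * h) (fun w => f (ratW A w)) w = 0 := by
    rw [← ρ.pull_mul]
    exact stVan ρ ℚ_[p] y u h hh _ h1
  have e1 : (fun i => (g i).map f) * h =
      fun i => (perm ℤ_[p] σ V i).map (PadicInt.Coe.ringHom (p := p)) := by
    funext i
    ext a b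
    have h3 := hgh i ((σ i).symm a) b
    rw [Equiv.apply_symm_apply] at h3
    exact h3
  have e2 : (fun w => f (ratW A w)) =
      fun w => PadicInt.Coe.ringHom (p := p) ((A w : ℤ) : ℤ_[p]) := by
    funext w
    rw [map_intCast, hf]
    simp [ratW]
  rw [e1, e2, ρ.pull_map] at h2
  have h3 : ∀ w ∈ Blk ρ y u, ρ.pull ℤ_[p] (perm ℤ_[p] σ V) (fun w => ((A w : ℤ) : ℤ_[p])) w = 0 := by
    intro w hw
    have h4 := h2 w hw
    exact Subtype.coe_injective h4
  refine ⟨fun i => (perm ℤ_[p] σ V i).map PadicInt.toZMod, ?_, ?_⟩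
  · intro i
    change (((V i).map PadicInt.toZMod).submatrix (σ i).symm id :
      Matrix (Fin (r i)) (Fin (r i)) (ZMod p)).det ≠ 0
    rw [Matrix.det_permute]
    have h5 : ((V i).map (PadicInt.toZMod (p := p))).det = 1 := by
      rw [Matrix.det_of_upperTriangular]
      · refine prod_eq_one fun a _ => ?_
        change PadicInt.toZMod (V i a a) = 1
        rw [hV1, map_one]
      · intro a b hab
        change PadicInt.toZMod (V i a b) = 0
        have hab' : b < a := hab
        rw [hV0 i a b hab'.ne' (hy i hab'.le), map_zero]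
    rw [h5, mul_one]
    rcases Int.units_eq_one_or (Equiv.Perm.sign (σ i).symm) with h6 | h6
    · rw [h6]
      simp
    · rw [h6]
      simp
  · intro w hw
    have h5 := ρ.pull_map ℤ_[p] (ZMod p) PadicInt.toZMod (perm ℤ_[p] σ V)
      (fun w => ((A w : ℤ) : ℤ_[p]))
    have h6 := congrFun h5 w
    rw [h3 w hw, map_zero] at h6
    rw [← h6]
    have h7 : (fun w => ((A w : ℤ) : ZMod p)) = fun w => PadicInt.toZMod ((A w : ℤ) : ℤ_[p]) := by
      funext w
      rw [map_intCast]
    rw [h7]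

/-- The sieve: vectors which avoid a positive proportion of the residue classes modulo every
large prime. -/
theorem sieve {G : (W → ℤ) → Prop} {δ : ℝ} (hδ1 : δ ≤ 1) {p0 : ℕ}
    (S : ∀ p : ℕ, Set (W → ZMod p))
    (hS : ∀ p : ℕ, p.Prime → p0 ≤ p → ((S p).ncard : ℝ) ≤ (1 - δ) * (p : ℝ) ^ Fintype.card W)
    (hG : ∀ A, G A → ∀ p : ℕ, p.Prime → p0 ≤ p → (fun w => (A w : ZMod p)) ∈ S p) (m : ℕ) :
    ∃ q : ℕ, 0 < q ∧ ∃ I : Finset (W → ℤ), (∀ x ∈ I, ∀ w, 0 ≤ x w ∧ x w < q) ∧
      (I.card : ℝ) ≤ (1 - δ) ^ m * (q : ℝ) ^ Fintype.card W ∧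
      ∀ A, G A → (fun w => A w % (q:ℤ)) ∈ I := by
  classical
  induction m with
  | zero =>
    refine ⟨1, one_pos, {fun _ => 0}, ?_, ?_, ?_⟩
    · intro x hx w
      rw [mem_singleton] at hx
      rw [hx]
      simp
    · simp
    · intro A _
      rw [mem_singleton]
      funext w
      simp
  | succ m ih =>
    obtain ⟨q, hq, I, hI, hIc, hIA⟩ := ih
    obtain ⟨p, hp, hpp⟩ := Nat.exists_infinite_primes (max p0 (q + 1))
    have hp0 : p0 ≤ p := (le_max_left _ _).trans hp
    have hpq : q + 1 ≤ p := (le_max_right _ _).trans hp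
    have : NeZero p := ⟨hpp.ne_zero⟩
    have hcop : Nat.Coprime q p := by
      refine ((Nat.Prime.coprime_iff_not_dvd hpp).2 fun h => ?_).symm
      have := Nat.le_of_dvd hq h
      omega
    have hpos : (0:ℤ) < ((q * p : ℕ) : ℤ) := by exact_mod_cast Nat.mul_pos hq hpp.pos
    set base : Finset (W → ℤ) := Fintype.piFinset fun _ : W => Ico (0:ℤ) ((q * p : ℕ) : ℤ)
      with hbase
    have hmem : ∀ x, x ∈ base ↔ ∀ w, 0 ≤ x w ∧ x w < ((q * p : ℕ) : ℤ) := by
      intro x
      rw [hbase, Fintype.mem_piFinset]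
      simp only [mem_Ico]
    set T : Finset (W → ZMod p) := univ.filter fun x => x ∈ S p with hT
    have hTc : (T.card : ℝ) ≤ (1 - δ) * (p : ℝ) ^ Fintype.card W := by
      have h1 : (S p).ncard = T.card := by
        rw [← Set.ncard_coe_finset]
        congr 1
        ext x
        rw [hT, mem_coe, mem_filter]
        exact ⟨fun h => ⟨mem_univ _, h⟩, fun h => h.2⟩
      rw [← h1]
      exact hS p hpp hp0
    set I' : Finset (W → ℤ) := base.filter fun x => (fun w => x w % (q : ℤ)) ∈ I ∧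
      (fun w => (x w : ZMod p)) ∈ S p with hI'
    have hcard : I'.card ≤ I.card * T.card := by
      rw [← card_product]
      refine card_le_card_of_injOn
        (fun x => ((fun w => x w % (q : ℤ)), fun w => (x w : ZMod p))) ?_ ?_
      · intro x hx
        rw [mem_coe, hI', mem_filter] at hx
        rw [mem_coe, mem_product, hT, mem_filter]
        exact ⟨hx.2.1, mem_univ _, hx.2.2⟩
      · intro x hx x' hx' hxx
        rw [mem_coe, hI', mem_filter, hmem] at hx hx'
        funext w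
        simp only [Prod.mk.injEq] at hxx
        have h1 : x w % (q : ℤ) = x' w % (q : ℤ) := congrFun hxx.1 w
        have h2 : (x w : ZMod p) = (x' w : ZMod p) := congrFun hxx.2 w
        have h3 : x w ≡ x' w [ZMOD q] := h1
        have h4 : x w ≡ x' w [ZMOD p] := (ZMod.intCast_eq_intCast_iff _ _ _).1 h2
        have h5 : x w ≡ x' w [ZMOD (q * p : ℤ)] := by
          refine (Int.modEq_and_modEq_iff_modEq_mul ?_).1 ⟨h3, h4⟩
          simpa using hcop
        have h6 : x w % ((q * p : ℕ) : ℤ) = x' w % ((q * p : ℕ) : ℤ) := by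
          push_cast
          exact h5
        rwa [Int.emod_eq_of_lt (hx.1 w).1 (hx.1 w).2, Int.emod_eq_of_lt (hx'.1 w).1 (hx'.1 w).2]
          at h6
    refine ⟨q * p, Nat.mul_pos hq hpp.pos, I', ?_, ?_, ?_⟩
    · intro x hx
      rw [hI', mem_filter] at hx
      exact (hmem x).1 hx.1
    · have h1 : (I'.card : ℝ) ≤ I.card * T.card := by exact_mod_cast hcard
      refine h1.trans ?_
      have h0 : 0 ≤ 1 - δ := by linarith
      calc (I.card : ℝ) * T.card ≤ ((1 - δ) ^ m * (q : ℝ) ^ Fintype.card W) *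
            ((1 - δ) * (p : ℝ) ^ Fintype.card W) := by gcongr
        _ = _ := by
          push_cast
          rw [mul_pow]
          ring
    · intro A hA
      rw [hI', mem_filter, hmem]
      refine ⟨fun w => ⟨Int.emod_nonneg _ hpos.ne', Int.emod_lt_of_pos _ hpos⟩, ?_, ?_⟩
      · have e : (fun w => A w % ((q * p : ℕ) : ℤ) % (q:ℤ)) = fun w => A w % (q:ℤ) := by
          funext w
          exact Int.emod_emod_of_dvd _ (by push_cast; exact dvd_mul_right _ _)
        rw [e]
        exact hIA A hA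
      · have e : (fun w => ((A w % ((q * p : ℕ) : ℤ) : ℤ) : ZMod p)) =
            fun w => (A w : ZMod p) := by
          funext w
          rw [ZMod.intCast_eq_intCast_iff]
          refine Int.emod_emod_of_dvd _ ?_
          push_cast
          exact dvd_mul_left _ _
        rw [e]
        exact hG A hA p hpp hp0

end N5_63

open N5_63 in
/-- Row N5. -/
theorem stSieve63 (ρ : FRep r W) : StSieve ρ := by
  intro y u hy hδ ε hε
  obtain ⟨δ0, p0, hδ0, hS⟩ := hδ
  set δ := min δ0 1 with hδ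
  have hδpos : 0 < δ := lt_min hδ0 one_pos
  have hδ1 : δ ≤ 1 := min_le_right _ _
  obtain ⟨m, hm⟩ := exists_pow_lt_of_lt_one hε (show 1 - δ < 1 by linarith)
  obtain ⟨q, hq, I, hI, hIc, hIA⟩ := sieve (W := W) (G := fun A => Van ρ (Blk ρ y u) (ratW A))
    hδ1 (p0 := p0) (fun p => {A : W → ZMod p | ∃ g : Grp (ZMod p) r, (∀ i, (g i).det ≠ 0) ∧
      ∀ w ∈ Blk ρ y u, ρ.pull (ZMod p) g A w = 0}) (by
      intro p hp hp0
      have : Fact p.Prime := ⟨hp⟩
      refine (hS p hp0).trans ?_
      have : δ ≤ δ0 := min_le_left _ _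
      gcongr) (by
      intro A hA p hp hp0
      have : Fact p.Prime := ⟨hp⟩
      exact red ρ hy hA) m
  refine ⟨q, hq, I, hI, hIc.trans ?_, fun A hA => hIA A (not_not.1 hA)⟩
  gcongr

end Pool.Agent.Lib.MP_1acd66_nt.AR
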