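import Pool.Agent.Lib.MP_1acd66_nt.AR.Defs6
import Pool.Agent.Lib.MP_1acd66_nt.AR.RowJ63

/-!
If the flag is not unique, a positive proportion of the vectors modulo `p` have two flags.
-/

namespace Pool.Agent.Lib.MP_1acd66_nt.AR

open Finset Pool.Agent.Lib.MP_1acd66_nt.Gen J63

variable {k : ℕ} {r : Fin k → ℕ} {W : Type} [Fintype W]

namespace N6

/-- the parabolic subalgebra of `y` -/
def Par {K : Type} [CommRing K] {n : ℕ} (y : Fin n → ℕ) (M : Matrix (Fin n) (Fin n) K) : Prop :=
  ∀ a b, y a < y b → M a b = 0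

theorem par_mul {K : Type} [CommRing K] {n : ℕ} {y : Fin n → ℕ} {M N : Matrix (Fin n) (Fin n) K}
    (hM : Par y M) (hN : Par y N) : Par y (M * N) := by
  intro a b hab
  rw [Matrix.mul_apply]
  refine sum_eq_zero fun c _ => ?_
  by_cases h : y a < y c
  · rw [hM a c h, zero_mul]
  · rw [hN c b (by omega), mul_zero]

theorem par_inv {K : Type} [Field K] {n : ℕ} {y : Fin n → ℕ} {M : Matrix (Fin n) (Fin n) K}
    (hM : Par y M) (hd : M.det ≠ 0) : Par y M⁻¹ := by
  have h1 : M.BlockTriangular (OrderDual.toDual ∘ y) := fun i j hij => hM i j hij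
  have h2 : Invertible M := Matrix.invertibleOfIsUnitDet M (isUnit_iff_ne_zero.2 hd)
  have h3 := Matrix.blockTriangular_inv_of_blockTriangular h1
  exact fun a b hab => h3 hab

/-- lower unitriangular -/
def Low {K : Type} [CommRing K] {n : ℕ} (v : Matrix (Fin n) (Fin n) K) : Prop :=
  (∀ a, v a a = 1) ∧ ∀ a b, a < b → v a b = 0

theorem low_det {K : Type} [CommRing K] {n : ℕ} {v : Matrix (Fin n) (Fin n) K} (hv : Low v) :
    v.det = 1 := by
  rw [← Matrix.det_transpose]
  exact det_upper (fun a => hv.1 a) fun a b hab => hv.2 b a hab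

theorem low_inv {K : Type} [Field K] {n : ℕ} {v : Matrix (Fin n) (Fin n) K} (hv : Low v) :
    Low v⁻¹ := by
  have hd := low_det hv
  have h1 : Par (fun a : Fin n => a.val) v := fun a b hab => hv.2 a b hab
  have h2 := par_inv h1 (by rw [hd]; exact one_ne_zero)
  refine ⟨fun a => ?_, fun a b hab => h2 a b hab⟩
  have h3 : (v * v⁻¹) a a = 1 := by
    rw [Matrix.mul_nonsing_inv _ (by rw [hd]; exact isUnit_one), Matrix.one_apply_eq]
  rw [Matrix.mul_apply, sum_eq_single a] at h3
  · rwa [hv.1, one_mul] at h3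
  · intro c _ hc
    rcases lt_or_gt_of_ne hc with h | h
    · rw [h2 c a h, mul_zero]
    · rw [hv.2 a c h, zero_mul]
  · intro h
    exact absurd (mem_univ _) h

theorem low_par {K : Type} [CommRing K] {n : ℕ} {y : Fin n → ℕ} (hy : Monotone y)
    {v : Matrix (Fin n) (Fin n) K} (hv : Low v) : Par y v := by
  intro a b hab
  refine hv.2 a b ?_
  by_contra h
  exact absurd (hy (not_lt.1 h)) (not_le.2 hab)

/-- the permutation matrix -/
theorem mul_perm_apply {K : Type} [CommRing K] (σ : ∀ i, Equiv.Perm (Fin (r i))) (v : Grp K r)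
    (i : Fin k) (a b : Fin (r i)) : (v * perm K σ 1) i a b = v i a (σ i b) := by
  change (v i * perm K σ 1 i) a b = _
  rw [Matrix.mul_apply, sum_eq_single (σ i b)]
  · have : perm K σ (1 : Grp K r) i (σ i b) b = 1 := by
      change (1 : Matrix _ _ K) ((σ i).symm (σ i b)) b = 1
      rw [Equiv.symm_apply_apply, Matrix.one_apply_eq]
    rw [this, mul_one]
  · intro c _ hc
    have : perm K σ (1 : Grp K r) i c b = 0 := by
      change (1 : Matrix _ _ K) ((σ i).symm c) b = 0
      refine Matrix.one_apply_ne fun h => hc ?_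
      rw [← h, Equiv.apply_symm_apply]
    rw [this, mul_zero]
  · intro h
    exact absurd (mem_univ _) h

theorem perm_one_apply {K : Type} [CommRing K] (σ : ∀ i, Equiv.Perm (Fin (r i)))
    (i : Fin k) (a b : Fin (r i)) : perm K σ 1 i a b = if a = σ i b then 1 else 0 := by
  change (1 : Matrix _ _ K) ((σ i).symm a) b = _
  rw [Matrix.one_apply]
  congr 1
  rw [Equiv.symm_apply_eq]

/-- the second block -/
def Zs (ρ : FRep r W) (y : ∀ i, Fin (r i) → ℕ) (u : ℕ) (σ : ∀ i, Equiv.Perm (Fin (r i))) :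
    Finset W := Blk ρ (fun i a => y i ((σ i).symm a)) u

/-- the index set of the variables -/
abbrev Tau (ρ : FRep r W) (y : ∀ i, Fin (r i) → ℕ) (u : ℕ) (σ : ∀ i, Equiv.Perm (Fin (r i))) :
    Type :=
  {x : Σ i, Fin (r i) × Fin (r i) // x.2.2 < x.2.1} ⊕ {w // w ∉ Blk ρ y u ∧ w ∉ Zs ρ y u σ}

variable (ρ : FRep r W) (y : ∀ i, Fin (r i) → ℕ) (u : ℕ) (σ : ∀ i, Equiv.Perm (Fin (r i)))

open scoped Classical in
/-- the generic lower unitriangular family -/
noncomputable def genL : Grp (MvPolynomial (Tau ρ y u σ) ℤ) r := fun i a b =>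
  if a = b then 1 else
    if h : b < a then MvPolynomial.X (Sum.inl ⟨⟨i, a, b⟩, h⟩) else 0

open scoped Classical in
/-- the generic vector with zeros on the two blocks -/
noncomputable def genC : W → MvPolynomial (Tau ρ y u σ) ℤ := fun w =>
  if h : w ∉ Blk ρ y u ∧ w ∉ Zs ρ y u σ then MvPolynomial.X (Sum.inr ⟨w, h⟩) else 0

/-- the polynomial map -/
noncomputable def phi (w : {w // w ∉ Blk ρ y u}) : MvPolynomial (Tau ρ y u σ) ℤ :=
  ρ.pull _ (genL ρ y u σ) (genC ρ y u σ) w.1

/-- specialization -/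
theorem spec {K : Type} [CommRing K] (v : Grp K r) (hv : ∀ i, Low (v i)) (A : W → K)
    (hA : ∀ w ∈ Blk ρ y u, A w = 0) (hA' : ∀ w ∈ Zs ρ y u σ, A w = 0) (w : W) :
    MvPolynomial.aeval (Sum.elim (fun x => v x.1.1 x.1.2.1 x.1.2.2) fun w => A w.1 :
      Tau ρ y u σ → K) (ρ.pull _ (genL ρ y u σ) (genC ρ y u σ) w) = ρ.pull K v A w := by
  classical
  set t : Tau ρ y u σ → K := Sum.elim (fun x => v x.1.1 x.1.2.1 x.1.2.2) fun w => A w.1 with ht
  set f : MvPolynomial (Tau ρ y u σ) ℤ →+* K := (MvPolynomial.aeval t).toRingHom with hf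
  have h1 := congrFun (ρ.pull_map _ K f (genL ρ y u σ) (genC ρ y u σ)) w
  have e1 : (fun i => (genL ρ y u σ i).map f) = v := by
    funext i
    refine Matrix.ext fun a b => ?_
    rw [Matrix.map_apply]
    rcases lt_trichotomy a b with h | h | h
    · have : genL ρ y u σ i a b = 0 := by simp [genL, h.ne, h.le]
      rw [this, map_zero, (hv i).2 a b h]
    · subst h
      have : genL ρ y u σ i a a = 1 := by simp [genL]
      rw [this, map_one, (hv i).1]
    · have : genL ρ y u σ i a b = MvPolynomial.X (Sum.inl ⟨⟨i, a, b⟩, h⟩) := by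
        simp [genL, h.ne', h]
      rw [this]
      change MvPolynomial.aeval t _ = _
      rw [MvPolynomial.aeval_X]
      rfl
  have e2 : (fun w => f (genC ρ y u σ w)) = A := by
    funext w
    by_cases h : w ∉ Blk ρ y u ∧ w ∉ Zs ρ y u σ
    · have : genC ρ y u σ w = MvPolynomial.X (Sum.inr ⟨w, h⟩) := by
        unfold genC
        rw [dif_pos h]
      rw [this]
      change MvPolynomial.aeval t _ = _
      rw [MvPolynomial.aeval_X]
      rfl
    · have : genC ρ y u σ w = 0 := by
        unfold genC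
        rw [dif_neg h]
      rw [this, map_zero]
      rw [not_and_or, not_not, not_not] at h
      rcases h with h | h
      · rw [hA w h]
      · rw [hA' w h]
  rw [e1, e2] at h1
  exact h1.symm

/-- if the flag is not unique, one of the polynomial maps is dominant -/
theorem exists_dom (hVan : StVan ρ) (hPerm : StPermVan ρ) (hB : StBruhat)
    (hy : ∀ i, Monotone (y i)) (hU : ¬ Unique ρ y u) :
    ∃ σ : ∀ i, Equiv.Perm (Fin (r i)), (∃ i a, y i (σ i a) ≠ y i a) ∧
      AlgebraicIndependent ℚ fun w =>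
        MvPolynomial.map (Int.castRingHom ℚ) (phi ρ y u σ w) := by
  classical
  by_contra hcon
  have hrel : ∀ σ : ∀ i, Equiv.Perm (Fin (r i)), ∃ F : MvPolynomial {w // w ∉ Blk ρ y u} ℚ,
      F ≠ 0 ∧ ((∃ i a, y i (σ i a) ≠ y i a) → MvPolynomial.aeval
        (fun w => MvPolynomial.map (Int.castRingHom ℚ) (phi ρ y u σ w)) F = 0) := by
    intro σ
    by_cases h : ∃ i a, y i (σ i a) ≠ y i a
    · have h1 : ¬ AlgebraicIndependent ℚ fun w =>
          MvPolynomial.map (Int.castRingHom ℚ) (phi ρ y u σ w) := fun h2 => hcon ⟨σ, h, h2⟩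
      rw [algebraicIndependent_iff] at h1
      push Not at h1
      obtain ⟨q, hq, hq0⟩ := h1
      exact ⟨q, hq0, fun _ => hq⟩
    · exact ⟨1, one_ne_zero, fun h' => absurd h' h⟩
  choose F hF0 hF using hrel
  apply hU
  refine ⟨∏ σ, MvPolynomial.rename Subtype.val (F σ), ?_, ?_⟩
  · have h1 : ∏ σ, F σ ≠ 0 := prod_ne_zero_iff.2 fun σ _ => hF0 σ
    obtain ⟨a, ha⟩ : ∃ a : {w // w ∉ Blk ρ y u} → ℚ, MvPolynomial.eval a (∏ σ, F σ) ≠ 0 := by
      by_contra h
      push Not at h
      exact h1 (MvPolynomial.funext fun x => by rw [h x, map_zero])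
    refine ⟨fun w => if h : w ∈ Blk ρ y u then 0 else a ⟨w, h⟩, fun w hw => dif_pos hw, ?_⟩
    have h2 : MvPolynomial.eval (fun w => if h : w ∈ Blk ρ y u then 0 else a ⟨w, h⟩)
        (∏ σ, MvPolynomial.rename Subtype.val (F σ)) = MvPolynomial.eval a (∏ σ, F σ) := by
      rw [map_prod, map_prod]
      refine prod_congr rfl fun σ _ => ?_
      rw [MvPolynomial.eval_rename]
      have h3 : ((fun w => if h : w ∈ Blk ρ y u then 0 else a ⟨w, h⟩) ∘ Subtype.val) = a := by
        funext w
        exact dif_neg w.2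
      rw [h3]
    rwa [h2]
  · intro K _ _ A hA hFA g hg hgA
    by_contra hne
    choose σ v h hv1 hv2 hh1 hh2 hgh using fun i => hB K (r i) (g i) (hg i)
    have hlow : ∀ i, Low (v i) := fun i => ⟨hv1 i, hv2 i⟩
    have hhP : ∀ i a b, y i a < y i b → h i a b = 0 := by
      intro i a b hab
      refine hh1 i a b ?_
      by_contra hle
      exact absurd (hy i (not_lt.1 hle)) (not_le.2 hab)
    have e1 : g * h = v * perm K σ 1 := by
      funext i
      refine Matrix.ext fun a b => ?_
      rw [mul_perm_apply]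
      exact hgh i a b
    have h1 := hVan K y u h hhP _ hgA
    rw [ρ.pull_mul, e1, ← ρ.pull_mul] at h1
    set A' := ρ.pull K v A with hA'
    have h2 : ∀ w ∈ Zs ρ y u σ, A' w = 0 := (hPerm K σ y u A').1 h1
    have h3 : ∀ w ∈ Blk ρ y u, A' w = 0 :=
      hVan K y u v (fun i a b hab => low_par (hy i) (hlow i) a b hab) A hA
    set v' : Grp K r := fun i => (v i)⁻¹ with hv'
    have hv'l : ∀ i, Low (v' i) := fun i => low_inv (hlow i)
    have h4 : ρ.pull K v' A' = A := by
      have : v * v' = 1 := by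
        funext i
        exact Matrix.mul_nonsing_inv _ (by rw [low_det (hlow i)]; exact isUnit_one)
      rw [hA', ρ.pull_mul, this, ρ.pull_one]
    have hmov : ∃ i a, y i (σ i a) ≠ y i a := by
      by_contra hm
      push Not at hm
      apply hne
      intro i
      have h5 : N6.Par (y i) (g i) := by
        have h6 : g i = (v * perm K σ 1) i * (h i)⁻¹ := by
          rw [← e1]
          change g i = g i * h i * (h i)⁻¹
          rw [Matrix.mul_nonsing_inv_cancel_right _ _ (isUnit_iff_ne_zero.2 (hh2 i))]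
        rw [h6]
        refine par_mul ?_ (par_inv (hhP i) (hh2 i))
        intro a b hab
        rw [mul_perm_apply]
        exact low_par (hy i) (hlow i) a (σ i b) (by rw [hm]; exact hab)
      exact h5
    have h5 := hF σ hmov
    set t : Tau ρ y u σ → K := Sum.elim (fun x => v' x.1.1 x.1.2.1 x.1.2.2) fun w => A' w.1 with ht
    have h6 : MvPolynomial.aeval (fun w : {w // w ∉ Blk ρ y u} => A w.1) (F σ) = 0 := by
      have h7 := congrArg (MvPolynomial.aeval t : MvPolynomial (Tau ρ y u σ) ℚ →ₐ[ℚ] K) h5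
      rw [map_zero] at h7
      have h8 := DFunLike.congr_fun (MvPolynomial.comp_aeval
        (fun w => MvPolynomial.map (Int.castRingHom ℚ) (phi ρ y u σ w))
        (MvPolynomial.aeval t : MvPolynomial (Tau ρ y u σ) ℚ →ₐ[ℚ] K)) (F σ)
      rw [AlgHom.comp_apply, h7] at h8
      have h9 : (fun w : {w // w ∉ Blk ρ y u} => MvPolynomial.aeval t
          (MvPolynomial.map (Int.castRingHom ℚ) (phi ρ y u σ w))) = fun w => A w.1 := by
        funext w
        have h10 : MvPolynomial.aeval t (MvPolynomial.map (Int.castRingHom ℚ) (phi ρ y u σ w)) =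
            MvPolynomial.aeval t (phi ρ y u σ w) :=
          MvPolynomial.aeval_map_algebraMap ℚ t (phi ρ y u σ w)
        rw [h10]
        have h11 := spec ρ y u σ v' hv'l A' h3 h2 w.1
        rw [h4] at h11
        exact h11
      rw [h9] at h8
      exact h8.symm
    apply hFA
    rw [map_prod]
    refine prod_eq_zero (mem_univ σ) ?_
    rw [MvPolynomial.aeval_rename]
    exact h6

end N6

open N6 in
/-- Row N6. -/
theorem stTwice (ρ : FRep r W) (hVan : StVan ρ) (hPerm : StPermVan ρ) (hB : StBruhat)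
    (hDom : StDom) : StTwice ρ := by
  classical
  intro y u hy hU
  obtain ⟨σ, ⟨i0, a0, hσ⟩, hind⟩ := exists_dom ρ y u hVan hPerm hB hy hU
  obtain ⟨δ, p0, hδ, hp⟩ := hDom _ _ (phi ρ y u σ) hind
  refine ⟨δ, p0, hδ, fun p _ hp0 => ?_⟩
  have h1 := hp p hp0
  set T : Set (W → ZMod p) := {A : W → ZMod p | (∀ w ∈ Blk ρ y u, A w = 0) ∧
    ∃ g : Grp (ZMod p) r, (∀ i, (g i).det ≠ 0) ∧
      (∀ w ∈ Blk ρ y u, ρ.pull (ZMod p) g A w = 0) ∧ ∃ i a b, y i a < y i b ∧ g i a b ≠ 0} with hT
  have hle : (Set.range fun (t : Tau ρ y u σ → ZMod p) (w : {w // w ∉ Blk ρ y u}) =>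
      MvPolynomial.aeval t (phi ρ y u σ w)).ncard ≤ T.ncard := by
    refine Set.ncard_le_ncard_of_injOn
      (fun a w => if h : w ∈ Blk ρ y u then 0 else a ⟨w, h⟩) ?_ ?_ (Set.toFinite _)
    · rintro _ ⟨t, rfl⟩
      obtain ⟨v, hv⟩ : ∃ v : Grp (ZMod p) r, v = fun i a b => if a = b then 1 else
        if h : b < a then t (Sum.inl ⟨⟨i, a, b⟩, h⟩) else 0 := ⟨_, rfl⟩
      obtain ⟨A', hA'⟩ : ∃ A' : W → ZMod p, A' = fun w =>
        if h : w ∉ Blk ρ y u ∧ w ∉ Zs ρ y u σ then t (Sum.inr ⟨w, h⟩) else 0 := ⟨_, rfl⟩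
      have hlow : ∀ i, Low (v i) := by
        intro i
        refine ⟨fun a => ?_, fun a b hab => ?_⟩
        · rw [hv]
          exact if_pos rfl
        · rw [hv]
          change (if a = b then (1 : ZMod p) else _) = 0
          rw [if_neg hab.ne, dif_neg (not_lt.2 hab.le)]
      have hA1 : ∀ w ∈ Blk ρ y u, A' w = 0 := by
        intro w hw
        rw [hA']
        exact dif_neg fun h => h.1 hw
      have hA2 : ∀ w ∈ Zs ρ y u σ, A' w = 0 := by
        intro w hw
        rw [hA']
        exact dif_neg fun h => h.2 hw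
      have ht : (Sum.elim (fun x => v x.1.1 x.1.2.1 x.1.2.2) fun w => A' w.1 :
          Tau ρ y u σ → ZMod p) = t := by
        funext x
        rcases x with x | w
        · obtain ⟨⟨i, a, b⟩, hx⟩ := x
          change v i a b = _
          rw [hv]
          change (if a = b then (1 : ZMod p) else
            if h : b < a then t (Sum.inl ⟨⟨i, a, b⟩, h⟩) else 0) = _
          have hx' : b < a := hx
          rw [if_neg hx'.ne', dif_pos hx']
        · change A' w.1 = _
          rw [hA']
          exact dif_pos w.2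
      have hext : (fun w => if h : w ∈ Blk ρ y u then (0 : ZMod p) else
          MvPolynomial.aeval t (phi ρ y u σ ⟨w, h⟩)) = ρ.pull (ZMod p) v A' := by
        funext w
        by_cases hw : w ∈ Blk ρ y u
        · rw [dif_pos hw]
          exact (hVan _ y u v (fun i a b hab => low_par (hy i) (hlow i) a b hab) A' hA1 w hw).symm
        · rw [dif_neg hw, ← ht]
          exact spec ρ y u σ v hlow A' hA1 hA2 w
      change (fun w => if h : w ∈ Blk ρ y u then (0 : ZMod p) else
          MvPolynomial.aeval t (phi ρ y u σ ⟨w, h⟩)) ∈ T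
      rw [hext]
      set v' : Grp (ZMod p) r := fun i => (v i)⁻¹ with hv'
      have hv'l : ∀ i, Low (v' i) := fun i => low_inv (hlow i)
      have hvv : v * v' = 1 := by
        funext i
        exact Matrix.mul_nonsing_inv _ (by rw [low_det (hlow i)]; exact isUnit_one)
      refine ⟨hVan _ y u v (fun i a b hab => low_par (hy i) (hlow i) a b hab) A' hA1,
        v' * perm (ZMod p) σ 1, ?_, ?_, ?_⟩
      · intro i
        change (v' i * perm (ZMod p) σ 1 i).det ≠ 0
        rw [Matrix.det_mul, low_det (hv'l i), one_mul]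
        exact (D63.perm_det σ 1 (fun i => Matrix.det_one) i).ne_zero
      · rw [ρ.pull_mul, ← mul_assoc, hvv, one_mul]
        exact (hPerm _ σ y u A').2 hA2
      · by_contra hcon
        push Not at hcon
        have h5 : ∀ a b, y i0 a < y i0 b → perm (ZMod p) σ 1 i0 a b = 0 := by
          have h6 : perm (ZMod p) σ 1 i0 = v i0 * (v' * perm (ZMod p) σ 1) i0 := by
            change _ = v i0 * (v' i0 * perm (ZMod p) σ 1 i0)
            rw [← Matrix.mul_assoc]
            have : v i0 * v' i0 = 1 := congrFun hvv i0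
            rw [this, Matrix.one_mul]
          rw [h6]
          exact par_mul (low_par (hy i0) (hlow i0)) (hcon i0)
        have h7 : ∀ b, y i0 b ≤ y i0 (σ i0 b) := by
          intro b
          by_contra hb
          have := h5 (σ i0 b) b (not_le.1 hb)
          rw [perm_one_apply, if_pos rfl] at this
          exact one_ne_zero this
        have h8 : ∑ b, y i0 b = ∑ b, y i0 (σ i0 b) := (Equiv.sum_comp (σ i0) (y i0)).symm
        have h9 := (sum_eq_sum_iff_of_le fun b _ => h7 b).1 h8 a0 (mem_univ _)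
        exact hσ h9.symm
    · intro a _ b _ hab
      funext w
      have := congrFun hab w.1
      simp only at this
      rwa [dif_neg w.2, dif_neg w.2] at this
  have hcard : Fintype.card W = Fintype.card {w // w ∉ Blk ρ y u} + (Blk ρ y u).card := by
    rw [Fintype.card_subtype_compl, Fintype.card_coe, Nat.sub_add_cancel (card_le_univ _)]
  have h2 : (0:ℝ) ≤ (p:ℝ) ^ (Blk ρ y u).card := by positivity
  calc δ * (p:ℝ) ^ Fintype.card W
      = (p:ℝ) ^ (Blk ρ y u).card * (δ * (p:ℝ) ^ Fintype.card {w // w ∉ Blk ρ y u}) := by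
        rw [hcard, pow_add]
        ring
    _ ≤ (p:ℝ) ^ (Blk ρ y u).card * (T.ncard : ℝ) :=
        mul_le_mul_of_nonneg_left (h1.trans (by exact_mod_cast hle)) h2

end Pool.Agent.Lib.MP_1acd66_nt.AR
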