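import Pool.Agent.Lib.MP_1acd66_nt.AR.RowT1
import Pool.Agent.Lib.MP_1acd66_nt.AR.PrimLem

/-!
The weights of the primitive vector of the Plücker coordinates are invariant under permutations.
-/

namespace Pool.Agent.Lib.MP_1acd66_nt.AR

open Finset Pool.Agent.Lib.MP_1acd66_nt.Gen J63

variable {k : ℕ} {r : Fin k → ℕ} {W : Type} [Fintype W]

namespace PW

/-- The substitution of a rational matrix. -/
noncomputable def psub (ρ : FRep r W) (g : Grp ℚ r) : MvPolynomial W ℚ →ₐ[ℚ] MvPolynomial W ℚ :=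
  MvPolynomial.aeval (ρ.pull (MvPolynomial W ℚ)
    (fun i => (g i).map (algebraMap ℚ (MvPolynomial W ℚ))) MvPolynomial.X)

theorem psub_X (ρ : FRep r W) (g : Grp ℚ r) (w : W) :
    psub ρ g (MvPolynomial.X w) = ρ.pull (MvPolynomial W ℚ)
      (fun i => (g i).map (algebraMap ℚ (MvPolynomial W ℚ))) MvPolynomial.X w :=
  MvPolynomial.aeval_X _ _

theorem psub_sub (ρ : FRep r W) (g h : Grp ℚ r) (p : MvPolynomial W ℚ) :
    psub ρ h (psub ρ g p) = psub ρ (h * g) p := by
  have h1 : (psub ρ h).comp (psub ρ g) = psub ρ (h * g) := by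
    refine MvPolynomial.algHom_ext fun w => ?_
    change psub ρ h (psub ρ g (MvPolynomial.X w)) = _
    rw [psub_X, psub_X]
    have h2 := congrFun (ρ.pull_map (MvPolynomial W ℚ) (MvPolynomial W ℚ)
      (psub ρ h).toRingHom (fun i => (g i).map (algebraMap ℚ (MvPolynomial W ℚ)))
      MvPolynomial.X) w
    change _ = psub ρ h _ at h2
    rw [← h2]
    have h3 : (fun i => ((g i).map (algebraMap ℚ (MvPolynomial W ℚ))).map (psub ρ h).toRingHom :
        Grp (MvPolynomial W ℚ) r) = fun i => (g i).map (algebraMap ℚ (MvPolynomial W ℚ)) := by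
      funext i
      ext1 a b
      exact (psub ρ h).commutes _
    have h4 : (fun w => (psub ρ h).toRingHom (MvPolynomial.X w)) = ρ.pull (MvPolynomial W ℚ)
        (fun i => (h i).map (algebraMap ℚ (MvPolynomial W ℚ))) MvPolynomial.X := by
      funext w
      exact psub_X ρ h w
    rw [h3, h4, ρ.pull_mul]
    have h5 : (fun i => (h i).map (algebraMap ℚ (MvPolynomial W ℚ)) : Grp (MvPolynomial W ℚ) r) *
        (fun i => (g i).map (algebraMap ℚ (MvPolynomial W ℚ))) =
        fun i => ((h * g) i).map (algebraMap ℚ (MvPolynomial W ℚ)) := by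
      funext i
      exact (Matrix.map_mul (L := h i) (M := g i) (f := algebraMap ℚ (MvPolynomial W ℚ))).symm
    rw [h5]
  exact DFunLike.congr_fun h1 p

theorem psub_one (ρ : FRep r W) (p : MvPolynomial W ℚ) : psub ρ 1 p = p := by
  have h1 : psub ρ 1 = AlgHom.id ℚ (MvPolynomial W ℚ) := by
    refine MvPolynomial.algHom_ext fun w => ?_
    rw [psub_X]
    have h5 : (fun i => ((1 : Grp ℚ r) i).map (algebraMap ℚ (MvPolynomial W ℚ)) :
        Grp (MvPolynomial W ℚ) r) = 1 := by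
      funext i
      exact Matrix.map_one _ (map_zero _) (map_one _)
    rw [h5, ρ.pull_one]
    rfl
  rw [h1]
  rfl

theorem psub_inj (ρ : FRep r W) {g h : Grp ℚ r} (hg : h * g = 1) :
    Function.Injective (psub ρ g) := by
  intro p q hpq
  have h1 := congrArg (psub ρ h) hpq
  rwa [psub_sub, psub_sub, hg, psub_one, psub_one] at h1

/-- the scaling of one coordinate -/
noncomputable def scl (i0 : Fin k) (a0 : Fin (r i0)) : Grp ℚ r := fun i =>
  Matrix.diagonal fun a => if (⟨i, a⟩ : Σ i, Fin (r i)) = ⟨i0, a0⟩ then 2 else 1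

theorem prod_scl {K : Type} [CommRing K] (i0 : Fin k) (a0 : Fin (r i0)) (c : K)
    (n : ∀ i, Fin (r i) → ℕ) :
    ∏ i, ∏ a, (if (⟨i, a⟩ : Σ i, Fin (r i)) = ⟨i0, a0⟩ then c else 1) ^ n i a = c ^ n i0 a0 := by
  rw [Finset.prod_eq_single i0, Finset.prod_eq_single a0]
  · rw [if_pos rfl]
  · intro a _ ha
    have : ¬ ((⟨i0, a⟩ : Σ i, Fin (r i)) = ⟨i0, a0⟩) := by
      intro h
      exact ha (eq_of_heq (Sigma.mk.inj h).2)
    rw [if_neg this, one_pow]
  · intro h
    exact absurd (mem_univ _) h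
  · intro i _ hi
    refine Finset.prod_eq_one fun a _ => ?_
    have : ¬ ((⟨i, a⟩ : Σ i, Fin (r i)) = ⟨i0, a0⟩) := by
      intro h
      exact hi (Sigma.mk.inj h).1
    rw [if_neg this, one_pow]
  · intro h
    exact absurd (mem_univ _) h

theorem psub_scl_X (ρ : FRep r W) (i0 : Fin k) (a0 : Fin (r i0)) (w : W) :
    psub ρ (scl i0 a0) (MvPolynomial.X w) =
      MvPolynomial.C (2 ^ ρ.wt w i0 a0) * MvPolynomial.X w := by
  rw [psub_X]
  have h1 : (fun i => ((scl i0 a0 : Grp ℚ r) i).map (algebraMap ℚ (MvPolynomial W ℚ)) :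
      Grp (MvPolynomial W ℚ) r) = fun i => Matrix.diagonal fun a =>
        if (⟨i, a⟩ : Σ i, Fin (r i)) = ⟨i0, a0⟩ then MvPolynomial.C 2 else 1 := by
    funext i
    rw [scl, Matrix.diagonal_map (map_zero _)]
    congr 1
    funext a
    split_ifs
    · rfl
    · exact map_one _
  rw [h1, ρ.pull_diag, prod_scl, ← map_pow]

theorem psub_scl (ρ : FRep r W) (i0 : Fin k) (a0 : Fin (r i0)) (n : ℕ) (Q : MvPolynomial W ℚ)
    (hQ : ∀ m ∈ Q.support, ∑ w, m w * ρ.wt w i0 a0 = n) :
    psub ρ (scl i0 a0) Q = MvPolynomial.C (2 ^ n) * Q := by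
  classical
  have h1 : psub ρ (scl i0 a0) = MvPolynomial.aeval fun w =>
      MvPolynomial.C (2 ^ ρ.wt w i0 a0) * MvPolynomial.X w := by
    refine MvPolynomial.algHom_ext fun w => ?_
    rw [psub_scl_X, MvPolynomial.aeval_X]
  rw [h1, MvPolynomial.aeval_def, MvPolynomial.eval₂_eq']
  have h0 : MvPolynomial.C (2 ^ n) * Q =
      ∑ m ∈ Q.support, MvPolynomial.C (2 ^ n) * MvPolynomial.monomial m (MvPolynomial.coeff m Q) := by
    rw [← mul_sum, MvPolynomial.support_sum_monomial_coeff Q]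
  rw [h0]
  refine sum_congr rfl fun m hm => ?_
  have h2 : ∏ w, (MvPolynomial.C (2 ^ ρ.wt w i0 a0) * MvPolynomial.X w) ^ m w =
      MvPolynomial.C (2 ^ n) * MvPolynomial.monomial m (1 : ℚ) := by
    simp only [mul_pow]
    rw [prod_mul_distrib, ← hQ m hm, ← Finset.prod_pow_eq_pow_sum, map_prod]
    congr 1
    · refine prod_congr rfl fun w _ => ?_
      rw [← map_pow, ← pow_mul, mul_comm]
    · rw [MvPolynomial.monomial_eq, map_one, one_mul, Finsupp.prod_fintype]
      intro i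
      exact pow_zero _
  rw [h2]
  have h3 : MvPolynomial.monomial m (MvPolynomial.coeff m Q) =
      MvPolynomial.C (MvPolynomial.coeff m Q) * MvPolynomial.monomial m (1 : ℚ) := by
    rw [MvPolynomial.C_mul_monomial, mul_one]
  rw [h3]
  change MvPolynomial.C _ * _ = _
  ring

/-- the field of rational functions -/
abbrev MM (W : Type) : Type := FractionRing (MvPolynomial W ℚ)

/-- the inclusion -/
noncomputable def jM (W : Type) : MvPolynomial W ℚ →+* MM W := algebraMap _ _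

theorem jM_inj (W : Type) : Function.Injective (jM W) := IsFractionRing.injective _ _

/-- the generic vector -/
noncomputable def XM (W : Type) : W → MM W := fun w => jM W (MvPolynomial.X w)

/-- The generic frame over the field of rational functions. -/
theorem genM (ρ : FRep r W) (y : ∀ i, Fin (r i) → ℕ) (s : ℕ) {A : W → RR ρ y s}
    (hA : GenA ρ y s A) (hind : AlgebraicIndependent ℚ A) (hR : RatV ρ y s A) :
    ∃ VM : Grp (MM W) r, (∀ i, T1.Uni (y i) (VM i)) ∧
      (∀ w ∈ Blk ρ y (s + 1), ρ.pull (MM W) VM (XM W) w = 0) ∧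
      (∀ F : MvPolynomial W ℚ,
        (∃ A : W → ℚ, (∀ w ∈ Blk ρ y (s + 1), A w = 0) ∧ MvPolynomial.eval A F ≠ 0) →
        MvPolynomial.aeval (ρ.pull (MM W) VM (XM W)) F ≠ 0) ∧
      ∀ i v Φ, Prim ρ y s A i v Φ → ∀ e, jM W (Φ e) =
        Matrix.det (Matrix.of fun a b : Tc y i v => VM i (e a) b.1) * jM W (Φ Subtype.val) := by
  classical
  set L : Type := FractionRing (RR ρ y s) with hL
  set ι : RR ρ y s →+* L := algebraMap (RR ρ y s) L with hι
  have hinj : Function.Injective ι := IsFractionRing.injective (RR ρ y s) L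
  have hg : Function.Injective (ι.comp (MvPolynomial.aeval A : MvPolynomial W ℚ →ₐ[ℚ] _).toRingHom) :=
    hinj.comp hind
  let φ : MM W →+* L := IsFractionRing.lift hg
  have hφ : ∀ p, φ (jM W p) = ι (MvPolynomial.aeval A p) := fun p =>
    IsFractionRing.lift_algebraMap hg p
  choose N D hD hND using hR
  let VM : Grp (MM W) r := fun i a b => if a = b then 1 else
    if h : (⟨i, a, b⟩ : Σ i, Fin (r i) × Fin (r i)) ∈ stepsT y 1 then
      jM W (N ⟨_, h⟩) / jM W (D ⟨_, h⟩) else 0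
  have hφV : ∀ i, (VM i).map φ = (genV (Blk ρ y (s + 1)) (stepsT y 1) i).map ι := by
    intro i
    ext1 a b
    rw [Matrix.map_apply, Matrix.map_apply]
    change φ (if a = b then 1 else
      if h : (⟨i, a, b⟩ : Σ i, Fin (r i) × Fin (r i)) ∈ stepsT y 1 then
      jM W (N ⟨_, h⟩) / jM W (D ⟨_, h⟩) else 0) = _
    rw [genV]
    split_ifs with h1 h2
    · rw [map_one, map_one]
    · rw [map_div₀, hφ, hφ, div_eq_iff, ← map_mul, hND]
      rw [← map_zero ι]
      exact fun h => hD _ (hinj h)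
    · rw [map_zero, map_zero]
  have hφA : (fun w => φ (XM W w)) = fun w => ι (A w) := by
    funext w
    rw [XM, hφ, MvPolynomial.aeval_X]
  have hφB : ∀ w, φ (ρ.pull (MM W) VM (XM W) w) =
      ι (genB (Blk ρ y (s + 1)) (stepsT y 1) w) := by
    intro w
    have h1 := congrFun (ρ.pull_map (MM W) L φ VM (XM W)) w
    have h2 := congrFun (ρ.pull_map (RR ρ y s) L ι (genV (Blk ρ y (s + 1)) (stepsT y 1)) A) w
    rw [hA] at h2
    rw [← h1, ← h2, funext hφV, hφA]
  refine ⟨VM, fun i => ⟨fun a => if_pos rfl, fun a b hab hn => ?_⟩, fun w hw => ?_,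
    fun F hF h0 => ?_, fun i v Φ hΦ e => ?_⟩
  · change (if a = b then (1 : MM W) else
      if h : (⟨i, a, b⟩ : Σ i, Fin (r i) × Fin (r i)) ∈ stepsT y 1 then
      jM W (N ⟨_, h⟩) / jM W (D ⟨_, h⟩) else 0) = 0
    rw [if_neg hab, dif_neg]
    rw [T1.mem_stepsT]
    exact hn
  · apply φ.injective
    rw [hφB, T1.genB_zero ρ y s hw, map_zero, map_zero]
  · apply T1.genB_ne ρ y s F hF
    apply hinj
    rw [map_zero, ← map_zero φ, ← h0, MvPolynomial.aeval_def, MvPolynomial.aeval_def,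
      MvPolynomial.hom_eval₂, MvPolynomial.hom_eval₂]
    have h1 : (fun w => φ (ρ.pull (MM W) VM (XM W) w)) =
        fun w => ι (genB (Blk ρ y (s + 1)) (stepsT y 1) w) := funext hφB
    rw [h1]
    congr 1
    exact Subsingleton.elim _ _
  · apply φ.injective
    rw [map_mul, hφ, hφ, hΦ.2.1 e, map_mul]
    congr 1
    rw [minorV, RingHom.map_det, RingHom.map_det]
    congr 1
    ext1 a b
    exact (congrFun (congrFun (hφV i) (e a)) b.1).symm

theorem perm_mul (K : Type) [CommRing K] (σ : ∀ i, Equiv.Perm (Fin (r i))) (V : Grp K r)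
    (i : Fin k) (a b : Fin (r i)) : (perm K σ 1 i * V i) a b = V i ((σ i).symm a) b := by
  change ((1 : Matrix (Fin (r i)) (Fin (r i)) K) * V i) ((σ i).symm a) b = _
  rw [Matrix.one_mul]

end PW

open PW in
/-- Row T4b. -/
theorem stPermW (ρ : FRep r W) : StPermW ρ := by
  classical
  intro y s hy hU A hA hind hR i v Φ hΦ γ hγ i' a b
  obtain ⟨VM, hV1, hV2, hV3, hV4⟩ := genM ρ y s hA hind hR
  have hd := hV4 i v Φ hΦ
  obtain ⟨F, hF1, hF2⟩ := hU
  set σ : ∀ i, Equiv.Perm (Fin (r i)) := Function.update (fun _ => 1) i' (Equiv.swap a b) with hσ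
  have hσ' : ∀ j x, (σ j).symm ((σ j).symm x) = x := by
    intro j x
    rw [hσ]
    by_cases hj : j = i'
    · subst hj
      rw [Function.update_self, Equiv.symm_swap, Equiv.swap_apply_self]
    · rw [Function.update_of_ne hj]
      rfl
  have hσab : (σ i').symm a = b := by
    rw [hσ, Function.update_self, Equiv.symm_swap, Equiv.swap_apply_left]
  set P : Grp ℚ r := perm ℚ σ 1 with hP
  have hPP : P * P = 1 := by
    funext j
    ext1 x z
    change (perm ℚ σ 1 j * P j) x z = _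
    rw [perm_mul]
    change (1 : Matrix (Fin (r j)) (Fin (r j)) ℚ) ((σ j).symm ((σ j).symm x)) z = _
    rw [hσ']
    rfl
  set τ := psub ρ P with hτ
  have hτi : Function.Injective τ := psub_inj ρ hPP
  have hττ : ∀ p, τ (τ p) = p := fun p => by rw [hτ, psub_sub, hPP, psub_one]
  have hg : Function.Injective ((jM W).comp τ.toRingHom) := (jM_inj W).comp hτi
  let τM : MM W →+* MM W := IsFractionRing.lift hg
  have hτM : ∀ p, τM (jM W p) = jM W (τ p) := fun p => IsFractionRing.lift_algebraMap hg p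
  set V' : Grp (MM W) r := fun j => (VM j).map τM with hV'
  have hV'1 : ∀ j, T1.Uni (y j) (V' j) := by
    intro j
    refine ⟨fun x => ?_, fun x z hxz hn => ?_⟩
    · change τM (VM j x x) = 1
      rw [(hV1 j).1, map_one]
    · change τM (VM j x z) = 0
      rw [(hV1 j).2 x z hxz hn, map_zero]
  set PM : Grp (MM W) r := perm (MM W) σ 1 with hPM
  have hPPM : ∀ j, PM j * PM j = 1 := by
    intro j
    ext1 x z
    change (perm (MM W) σ 1 j * PM j) x z = _
    rw [perm_mul]
    change (1 : Matrix (Fin (r j)) (Fin (r j)) (MM W)) ((σ j).symm ((σ j).symm x)) z = _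
    rw [hσ']
  have hX' : (fun w => τM (XM W w)) = ρ.pull (MM W) PM (XM W) := by
    have h1 := ρ.pull_map (MvPolynomial W ℚ) (MM W) (jM W)
      (fun i => (P i).map (algebraMap ℚ (MvPolynomial W ℚ))) MvPolynomial.X
    have h2 : (fun i => ((P i).map (algebraMap ℚ (MvPolynomial W ℚ))).map (jM W) :
        Grp (MM W) r) = PM := by
      funext j
      ext1 x z
      rw [Matrix.map_apply, Matrix.map_apply]
      change jM W (algebraMap ℚ (MvPolynomial W ℚ)
        ((1 : Matrix (Fin (r j)) (Fin (r j)) ℚ) ((σ j).symm x) z)) =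
        (1 : Matrix (Fin (r j)) (Fin (r j)) (MM W)) ((σ j).symm x) z
      rw [Matrix.one_apply, Matrix.one_apply]
      split_ifs
      · rw [map_one, map_one]
      · rw [map_zero, map_zero]
    rw [h2] at h1
    funext w
    have h3 := congrFun h1 w
    rw [XM, hτM, hτ, psub_X]
    exact h3.symm
  have hPV : ∀ w ∈ Blk ρ y (s + 1), ρ.pull (MM W) (PM * V') (XM W) w = 0 := by
    intro w hw
    have h1 := congrFun (ρ.pull_map (MM W) (MM W) τM VM (XM W)) w
    rw [hX', ρ.pull_mul] at h1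
    rw [hV', h1, hV2 w hw, map_zero]
  have hdV : ∀ j, (VM j).det = 1 := fun j => T1.uni_det (hy j) (hV1 j)
  have hdV' : ∀ j, (V' j).det = 1 := fun j => T1.uni_det (hy j) (hV'1 j)
  set g : Grp (MM W) r := fun j => (VM j)⁻¹ * (PM j * V' j) with hgdef
  have hVg : VM * g = PM * V' := by
    funext j
    change VM j * ((VM j)⁻¹ * (PM j * V' j)) = PM j * V' j
    rw [← Matrix.mul_assoc, Matrix.mul_nonsing_inv _ (by rw [hdV j]; exact isUnit_one),
      Matrix.one_mul]
  have hgd : ∀ j, (g j).det ≠ 0 := by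
    intro j h0
    have h3 : (VM j * g j).det = (PM j * V' j).det := congrArg Matrix.det (congrFun hVg j)
    rw [Matrix.det_mul, h0, mul_zero, Matrix.det_mul, hdV', mul_one] at h3
    have h4 := congrArg Matrix.det (hPPM j)
    rw [Matrix.det_mul, ← h3, mul_zero, Matrix.det_one] at h4
    exact zero_ne_one h4
  have hgz := hF2 (MM W) (ρ.pull (MM W) VM (XM W)) hV2 (hV3 F hF1) g hgd fun w hw => by
    rw [ρ.pull_mul, hVg]
    exact hPV w hw
  -- the minors
  set mi : Grp (MM W) r → (Tc y i v → Fin (r i)) → MM W := fun V e =>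
    Matrix.det (Matrix.of fun a b : Tc y i v => V i (e a) b.1) with hmi
  set δ : MM W := Matrix.det (Matrix.of fun c b : Tc y i v => g i c.1 b.1) with hδ
  have hmm : ∀ e : Tc y i v → Fin (r i), mi V' (fun c => (σ i).symm (e c)) = mi VM e * δ := by
    intro e
    rw [hmi, hδ]
    change Matrix.det (Matrix.of fun a b : Tc y i v => V' i ((σ i).symm (e a)) b.1) =
      Matrix.det (Matrix.of fun a b : Tc y i v => VM i (e a) b.1) * _
    rw [← Matrix.det_mul]
    congr 1
    ext1 x z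
    rw [Matrix.of_apply, Matrix.mul_apply]
    have h1 : (VM i * g i) (e x) z.1 = (PM i * V' i) (e x) z.1 :=
      congrFun (congrFun (congrFun hVg i) (e x)) z.1
    rw [hPM, perm_mul] at h1
    rw [← h1, Matrix.mul_apply,
      ← Fintype.sum_subtype_add_sum_subtype (fun c => v ≤ y i c)
        (fun c => VM i (e x) c * g i c z.1)]
    have h2 : ∑ c : {c // ¬ v ≤ y i c}, VM i (e x) c.1 * g i c.1 z.1 = 0 := by
      refine sum_eq_zero fun c _ => ?_
      rw [hgz i c.1 z.1 (by have := c.2; have := z.2; omega), mul_zero]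
    rw [h2, add_zero]
    rfl
  have hτmi : ∀ e, τM (mi VM e) = mi V' e := by
    intro e
    rw [hmi]
    change τM (Matrix.det _) = Matrix.det _
    rw [RingHom.map_det]
    rfl
  have hdj : ∀ e, jM W (Φ e) = mi VM e * jM W (Φ Subtype.val) := hd
  have hΦ0 : jM W (Φ Subtype.val) ≠ 0 := by
    rw [← map_zero (jM W)]
    exact fun h => hΦ.1 (jM_inj W h)
  have hval : mi VM Subtype.val = 1 := by
    have h1 := hdj Subtype.val
    exact (mul_eq_right₀ hΦ0).1 h1.symm
  have hδ0 : δ ≠ 0 := by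
    intro h0
    have h1 := hmm fun c => (σ i).symm c.1
    rw [h0, mul_zero] at h1
    have h2 : (fun c : Tc y i v => (σ i).symm ((σ i).symm c.1)) = Subtype.val := by
      funext c
      exact hσ' i c.1
    rw [h2, ← hτmi, hval, map_one] at h1
    exact one_ne_zero h1
  set Φ' : (Tc y i v → Fin (r i)) → MvPolynomial W ℚ :=
    fun e => τ (Φ fun c => (σ i).symm (e c)) with hΦ'
  have hj' : ∀ e, jM W (Φ' e) = mi VM e * δ * jM W (τ (Φ Subtype.val)) := by
    intro e
    rw [hΦ', ← hτM, hdj, map_mul, hτmi, hmm, hτM]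
  have hτ0 : jM W (τ (Φ Subtype.val)) ≠ 0 := by
    rw [← map_zero (jM W)]
    intro h
    have h1 := jM_inj W h
    rw [← map_zero τ] at h1
    exact hΦ.1 (hτi h1)
  have hv' : Φ' Subtype.val ≠ 0 := by
    intro h0
    have h1 := hj' Subtype.val
    rw [h0, map_zero, hval, one_mul] at h1
    exact mul_ne_zero hδ0 hτ0 h1.symm
  obtain ⟨c, hc0, hc⟩ := prim_prop Φ Φ' Subtype.val hΦ.1 hv' hΦ.2.2
    (fun Ψ hΨ => by
      have h1 : IsUnit (τ Ψ) := by
        refine hΦ.2.2 _ fun e => ?_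
        have h2 := map_dvd τ (hΨ fun c => (σ i).symm (e c))
        rw [hΦ', hττ] at h2
        have h3 : (fun c => (σ i).symm ((σ i).symm (e c))) = e := by
          funext c
          exact hσ' i (e c)
        rwa [h3] at h2
      have h2 := h1.map τ
      rwa [hττ] at h2)
    (fun e => by
      apply jM_inj W
      rw [map_mul, map_mul, hj', hj', hdj e, hval]
      ring)
  -- weights
  set Q := Φ fun c => (σ i).symm c.1 with hQ
  have hQ' : τ Q = MvPolynomial.C c * Φ Subtype.val := hc Subtype.val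
  have hQ0 : Q ≠ 0 := by
    intro h0
    rw [h0, map_zero] at hQ'
    exact mul_ne_zero (fun h => hc0 (MvPolynomial.C_eq_zero.1 h)) hΦ.1 hQ'.symm
  obtain ⟨m1, hm1⟩ := MvPolynomial.support_nonempty.2 hQ0
  obtain ⟨m2, hm2⟩ := MvPolynomial.support_nonempty.2 hΦ.1
  have e1 := hγ _ m1 hm1 i' b
  have e2 := hγ _ m2 hm2 i' a
  have s1 := psub_scl ρ i' b (∑ w, m1 w * ρ.wt w i' b) Q fun m hm => by
    have := hγ _ m hm i' b
    omega
  have s2 := psub_scl ρ i' a (∑ w, m2 w * ρ.wt w i' a) (Φ Subtype.val) fun m hm => by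
    have := hγ _ m hm i' a
    omega
  have hiff : ∀ j x, ((⟨j, (σ j).symm x⟩ : Σ i, Fin (r i)) = ⟨i', b⟩) ↔
      (⟨j, x⟩ : Σ i, Fin (r i)) = ⟨i', a⟩ := by
    intro j x
    let f : (Σ i, Fin (r i)) → Σ i, Fin (r i) := fun z => ⟨z.1, (σ z.1).symm z.2⟩
    have hf : Function.Injective f := by
      intro z z' hz
      have h1 : ∀ z, f (f z) = z := fun z => Sigma.ext rfl (heq_of_eq (hσ' z.1 z.2))
      rw [← h1 z, hz, h1]
    have h1 : f ⟨i', a⟩ = ⟨i', b⟩ := Sigma.ext rfl (heq_of_eq hσab)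
    rw [← h1]
    exact (hf.eq_iff : f ⟨j, x⟩ = f ⟨i', a⟩ ↔ _)
  have hcomm : (scl i' a : Grp ℚ r) * P = P * scl i' b := by
    funext j
    ext1 x z
    change (Matrix.diagonal (fun x => if (⟨j, x⟩ : Σ i, Fin (r i)) = ⟨i', a⟩ then (2 : ℚ) else 1) *
      P j) x z = (P j * Matrix.diagonal
        (fun x => if (⟨j, x⟩ : Σ i, Fin (r i)) = ⟨i', b⟩ then (2 : ℚ) else 1)) x z
    rw [Matrix.diagonal_mul, Matrix.mul_diagonal]
    change _ * (1 : Matrix (Fin (r j)) (Fin (r j)) ℚ) ((σ j).symm x) z =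
      (1 : Matrix (Fin (r j)) (Fin (r j)) ℚ) ((σ j).symm x) z * _
    by_cases h : (σ j).symm x = z
    · rw [← h, Matrix.one_apply_eq, one_mul, mul_one]
      by_cases h1 : (⟨j, x⟩ : Σ i, Fin (r i)) = ⟨i', a⟩
      · rw [if_pos h1, if_pos ((hiff j x).2 h1)]
      · rw [if_neg h1, if_neg fun h2 => h1 ((hiff j x).1 h2)]
    · rw [Matrix.one_apply_ne h, mul_zero, zero_mul]
  have s3 : psub ρ (scl i' a) (τ Q) = τ (psub ρ (scl i' b) Q) := by
    rw [hτ, psub_sub, psub_sub, hcomm]
  have s4 : psub ρ (scl i' a) (τ Q) = MvPolynomial.C (2 ^ ∑ w, m2 w * ρ.wt w i' a) * τ Q := by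
    have h1 : psub ρ (scl i' a) (MvPolynomial.C c) = MvPolynomial.C c :=
      (psub ρ (scl i' a)).commutes c
    rw [hQ', map_mul, s2, h1]
    ring
  have s5 : τ (psub ρ (scl i' b) Q) = MvPolynomial.C (2 ^ ∑ w, m1 w * ρ.wt w i' b) * τ Q := by
    have h1 : τ (MvPolynomial.C (2 ^ ∑ w, m1 w * ρ.wt w i' b)) =
        MvPolynomial.C (2 ^ ∑ w, m1 w * ρ.wt w i' b) := τ.commutes _
    rw [s1, map_mul, h1]
  have hτQ : τ Q ≠ 0 := by
    rw [← map_zero τ]
    exact fun h => hQ0 (hτi h)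
  have s6 := MvPolynomial.C_injective _ _ (mul_right_cancel₀ hτQ (s4.symm.trans (s3.trans s5)))
  have s7 := pow_right_injective₀ (zero_lt_two : (0 : ℚ) < 2) (by norm_num) s6
  have s8 : Nat.card {x : Tc y i v // (⟨i, (σ i).symm x.1⟩ : Σ i, Fin (r i)) = ⟨i', b⟩} =
      Nat.card {x : Tc y i v // (⟨i, x.1⟩ : Σ i, Fin (r i)) = ⟨i', a⟩} :=
    Nat.card_congr (Equiv.subtypeEquivRight fun x => hiff i x.1)
  rw [← e1, ← e2, s8, s7]

end Pool.Agent.Lib.MP_1acd66_nt.AR
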