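import Pool.Agent.Lib.MP_1acd66_nt.AR.Thin
import Pool.Agent.Lib.MP_1acd66_nt.AR.Defs5

/-!
The weight criterion holds up to equality: from the inequality to a uniform constant.
-/

namespace Pool.Agent.Lib.MP_1acd66_nt.AR

open Finset Pool.Agent.Lib.MP_1acd66_nt.Gen

variable {k : ℕ} {r : Fin k → ℕ} {W : Type} [Fintype W]

theorem sub_eq_card {n s T : ℕ} (h : n ≤ T) :
    n - s = ∑ t ∈ Icc 1 T, if s + t ≤ n then 1 else 0 := by
  rw [← card_filter]
  have h1 : (Icc 1 T).filter (fun t => s + t ≤ n) = Icc 1 (n - s) := by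
    ext t
    simp only [mem_filter, mem_Icc]
    omega
  rw [h1, Nat.card_Icc]
  omega

theorem sum_excess (ρ : FRep r W) (y : ∀ i, Fin (r i) → ℕ) (s T : ℕ)
    (hT : ∀ w, pairN ρ y w ≤ T) :
    ∑ w, (pairN ρ y w - s) = ∑ t ∈ Icc 1 T, (Blk ρ y (s + t)).card := by
  have h1 : ∑ w, (pairN ρ y w - s) = ∑ w, ∑ t ∈ Icc 1 T, if s + t ≤ pairN ρ y w then 1 else 0 :=
    sum_congr rfl fun w _ => sub_eq_card (hT w)
  rw [h1, sum_comm]
  refine sum_congr rfl fun t _ => ?_
  rw [Blk, card_filter]

theorem spreadN_eq (y : ∀ i, Fin (r i) → ℕ) (T : ℕ) (hT : ∀ i a, y i a ≤ T) :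
    spreadN y = ∑ t ∈ Icc 1 T, (stepsT y t).card := by
  have h1 : ∀ t, (stepsT y t).card = ∑ i, ∑ a, ∑ b, if y i b + t ≤ y i a then 1 else 0 := by
    intro t
    rw [stepsT, card_sigma]
    refine sum_congr rfl fun i _ => ?_
    rw [card_filter, Fintype.sum_prod_type, sum_comm]
  have h3 : ∑ t ∈ Icc 1 T, (stepsT y t).card =
      ∑ t ∈ Icc 1 T, ∑ i, ∑ a, ∑ b, if y i b + t ≤ y i a then 1 else 0 :=
    sum_congr rfl fun t _ => h1 t
  rw [h3, sum_comm]
  unfold spreadN
  refine sum_congr rfl fun i _ => ?_
  conv_rhs => rw [sum_comm]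
  refine sum_congr rfl fun a _ => ?_
  conv_rhs => rw [sum_comm]
  refine sum_congr rfl fun b _ => ?_
  exact sub_eq_card (hT i a)

/-- the hypersurface type -/
theorem card_le_of_not_thin (ρ : FRep r W) (hT : StThin1 ρ) {y : ∀ i, Fin (r i) → ℕ} {s : ℕ}
    (hy : ∀ i, Monotone (y i)) (h : ¬ Thin ρ y (s + 1)) {t : ℕ} (ht : 0 < t) :
    (Blk ρ y (s + t)).card ≤ (stepsT y t).card := by
  by_contra hcon
  push Not at hcon
  obtain ⟨F, hF, h1⟩ := hT y s t hy ht hcon
  refine h ⟨hy, Or.inl ⟨F, hF, ?_⟩⟩
  rintro A ⟨g, hg, hv⟩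
  exact h1 A g hg hv

theorem exists_bound (ρ : FRep r W) (y : ∀ i, Fin (r i) → ℕ) :
    ∃ T : ℕ, (∀ w, pairN ρ y w ≤ T) ∧ ∀ i a, y i a ≤ T := by
  refine ⟨∑ w, pairN ρ y w + ∑ i, ∑ a, y i a, fun w => ?_, fun i a => ?_⟩
  · have h1 : pairN ρ y w ≤ ∑ w, pairN ρ y w :=
      single_le_sum (f := fun w => pairN ρ y w) (fun _ _ => Nat.zero_le _) (mem_univ w)
    omega
  · have h1 : y i a ≤ ∑ a, y i a :=
      single_le_sum (f := fun a => y i a) (fun _ _ => Nat.zero_le _) (mem_univ a)
    have h2 : ∑ a, y i a ≤ ∑ i, ∑ a, y i a :=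
      single_le_sum (f := fun i => ∑ a, y i a) (fun _ _ => Nat.zero_le _) (mem_univ i)
    omega

/-- The inequality for every representation. -/
theorem excess_le (ρ : FRep r W) (hT : StThin1 ρ) {y : ∀ i, Fin (r i) → ℕ} {s : ℕ}
    (hy : ∀ i, Monotone (y i)) (h : ¬ Thin ρ y (s + 1)) :
    ∑ w, (pairN ρ y w - s) ≤ spreadN y := by
  obtain ⟨T, h1, h2⟩ := exists_bound ρ y
  rw [sum_excess ρ y s T h1, spreadN_eq y T h2]
  refine sum_le_sum fun t ht => ?_
  rw [mem_Icc] at ht
  exact card_le_of_not_thin ρ hT hy h (by omega)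

theorem stepsT_one (y : ∀ i, Fin (r i) → ℕ) : (stepsT y 1).card = flagDim y := by
  rw [stepsT, card_sigma, flagDim]
  rfl

/-- The pair `(y, s)` is critical: `y` is nondecreasing, not constant, and for all `t ≥ 1` there are
as many basis vectors of slope at least `s + t` as matrix entries of slope at least `t`. -/
def Critical (ρ : FRep r W) (y : ∀ i, Fin (r i) → ℕ) (s : ℕ) : Prop :=
  (∀ i, Monotone (y i)) ∧ 0 < spreadN y ∧
    ∀ t, 0 < t → (Blk ρ y (s + t)).card = (stepsT y t).card

/-- The hypothesis on the critical pairs: the vectors which vanish in some rational frame on the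
block of slope greater than `s` have density zero. -/
def NoExc (ρ : FRep r W) : Prop :=
  ∀ (y : ∀ i, Fin (r i) → ℕ) (s : ℕ), Critical ρ y s →
    DensityZero fun A => ¬ Van ρ (Blk ρ y (s + 1)) A

/-- In the case of equality the pair is critical. -/
theorem critical_of_eq (ρ : FRep r W) (hT : StThin1 ρ) {y : ∀ i, Fin (r i) → ℕ} {s : ℕ}
    (hy : ∀ i, Monotone (y i)) (h : ¬ Thin ρ y (s + 1))
    (he : ∑ w, (pairN ρ y w - s) = spreadN y) (hpos : 0 < spreadN y) : Critical ρ y s := by
  refine ⟨hy, hpos, fun t ht => ?_⟩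
  obtain ⟨T, h1, h2⟩ := exists_bound ρ y
  by_cases htT : t ≤ T
  · rw [sum_excess ρ y s T h1, spreadN_eq y T h2] at he
    have h3 : ∀ t ∈ Icc 1 T, (Blk ρ y (s + t)).card ≤ (stepsT y t).card := by
      intro t ht
      rw [mem_Icc] at ht
      exact card_le_of_not_thin ρ hT hy h (by omega)
    exact (sum_eq_sum_iff_of_le h3).1 he t (by rw [mem_Icc]; omega)
  · have e1 : Blk ρ y (s + t) = ∅ := by
      rw [Blk, filter_eq_empty_iff]
      intro w _
      have := h1 w
      omega
    have e2 : stepsT y t = ∅ := by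
      rw [stepsT, eq_empty_iff_forall_notMem]
      intro x hx
      rw [mem_sigma, mem_filter] at hx
      have := h2 x.1 x.2.2
      have := hx.2.2
      omega
    rw [e1, e2, card_empty, card_empty]

theorem excess_lt (ρ : FRep r W) (hT : StThin1 ρ) (hE : NoExc ρ) {y : ∀ i, Fin (r i) → ℕ} {s : ℕ}
    (hy : ∀ i, Monotone (y i)) (h : ¬ Thin ρ y (s + 1)) (hpos : 0 < spreadN y) :
    ∑ w, (pairN ρ y w - s) < spreadN y := by
  refine lt_of_le_of_ne (excess_le ρ hT hy h) fun he => ?_
  have hc := critical_of_eq ρ hT hy h he hpos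
  refine h ⟨hy, Or.inr ⟨?_, hE y s hc⟩⟩
  rw [hc.2.2 1 one_pos, stepsT_one]

section dickson

/-- the coordinates of a pair `(y, s)` -/
abbrev Co (r : Fin k → ℕ) (W : Type) : Type :=
  (Σ i, Fin (r i)) ⊕ (Σ i, Fin (r i) × Fin (r i)) ⊕ W ⊕ Unit

open Classical in
/-- the coordinates of a pair `(y, s)` -/
noncomputable def co (ρ : FRep r W) (Z : Finset W) (y : ∀ i, Fin (r i) → ℕ) (s : ℕ) :
    Co r W → ℕ
  | Sum.inl x => y x.1 x.2
  | Sum.inr (Sum.inl x) => y x.1 x.2.2 - y x.1 x.2.1
  | Sum.inr (Sum.inr (Sum.inl w)) => if w ∈ Z then pairN ρ y w - s else s - pairN ρ y w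
  | Sum.inr (Sum.inr (Sum.inr _)) => s

/-- the cone of `Z` -/
def Cone (ρ : FRep r W) (Z : Finset W) (y : ∀ i, Fin (r i) → ℕ) (s : ℕ) : Prop :=
  (∀ i, Monotone (y i)) ∧ (∀ w ∈ Z, s ≤ pairN ρ y w) ∧ ∀ w, w ∉ Z → pairN ρ y w ≤ s

theorem pairN_sub (ρ : FRep r W) {y y' : ∀ i, Fin (r i) → ℕ} (h : ∀ i a, y' i a ≤ y i a) (w : W) :
    pairN ρ y w = pairN ρ y' w + pairN ρ (fun i a => y i a - y' i a) w := by
  unfold pairN
  rw [← sum_add_distrib]
  refine sum_congr rfl fun i _ => ?_
  rw [← sum_add_distrib]
  refine sum_congr rfl fun a _ => ?_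
  rw [← add_mul]
  congr 1
  have := h i a
  simp only
  omega

/-- the bound on one cone -/
theorem cone_bound (ρ : FRep r W) (Z : Finset W)
    (h1 : ∀ y s, Cone ρ Z y s → ∑ w, (pairN ρ y w - s) ≤ spreadN y)
    (h2 : ∀ y s, Cone ρ Z y s → 0 < spreadN y → ∑ w, (pairN ρ y w - s) < spreadN y) :
    ∃ N : ℕ, ∀ N', N ≤ N' → ∀ y s, Cone ρ Z y s →
      (N' + 1) * ∑ w, (pairN ρ y w - s) ≤ N' * spreadN y := by
  classical
  set S : Set (Co r W → ℕ) := {v | v ≠ 0 ∧ ∃ y s, Cone ρ Z y s ∧ co ρ Z y s = v} with hS
  set B : Set (Co r W → ℕ) := {v | Minimal (fun v => v ∈ S) v} with hB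
  have hpwo : S.IsPWO := Set.isPWO_of_wellQuasiOrderedLE S
  have hBfin : B.Finite := by
    have hanti : IsAntichain (· ≤ ·) B := by
      intro a ha b hb hab hle
      exact hab (le_antisymm hle (hb.2 ha.1 hle))
    have hBS : B ⊆ S := fun v hv => hv.1
    exact hanti.finite_of_partiallyWellOrderedOn (hpwo.mono hBS)
  set sp : (Co r W → ℕ) → ℕ := fun v => ∑ x : (Σ i, Fin (r i) × Fin (r i)),
    v (Sum.inr (Sum.inl x)) with hsp
  have hspco : ∀ y s, sp (co ρ Z y s) = spreadN y := by
    intro y s
    rw [hsp, spreadN]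
    simp only [co]
    rw [Fintype.sum_sigma]
    refine sum_congr rfl fun i _ => ?_
    rw [Fintype.sum_prod_type, sum_comm]
  refine ⟨∑ v ∈ hBfin.toFinset, sp v, fun N hN => ?_⟩
  have key : ∀ n : ℕ, ∀ y s, Cone ρ Z y s → ∑ x, co ρ Z y s x = n →
      (N + 1) * ∑ w, (pairN ρ y w - s) ≤ N * spreadN y := by
    intro n
    induction n using Nat.strong_induction_on with
    | _ n ih =>
      intro y s hc hn
      by_cases h0 : co ρ Z y s = 0
      · have hy0 : ∀ i a, y i a = 0 := fun i a => congrFun h0 (Sum.inl ⟨i, a⟩)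
        have hp : ∀ w, pairN ρ y w - s = 0 := by
          intro w
          have : pairN ρ y w = 0 := by
            unfold pairN
            exact sum_eq_zero fun i _ => sum_eq_zero fun a _ => by rw [hy0, zero_mul]
          rw [this, Nat.zero_sub]
        rw [sum_eq_zero fun w _ => hp w, mul_zero]
        exact Nat.zero_le _
      · have hxS : co ρ Z y s ∈ S := ⟨h0, y, s, hc, rfl⟩
        obtain ⟨v, hv, hvB⟩ := exists_minimal_le_of_wellFoundedLT (fun v => v ∈ S) (co ρ Z y s) hxS
        obtain ⟨hv0, y', s', hc', hco⟩ := hvB.1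
        have hle : ∀ x, co ρ Z y' s' x ≤ co ρ Z y s x := by
          intro x
          rw [hco]
          exact hv x
        have hyy : ∀ i a, y' i a ≤ y i a := fun i a => hle (Sum.inl ⟨i, a⟩)
        have hdd : ∀ i a b, y' i b - y' i a ≤ y i b - y i a :=
          fun i a b => hle (Sum.inr (Sum.inl ⟨i, a, b⟩))
        have hww : ∀ w, (if w ∈ Z then pairN ρ y' w - s' else s' - pairN ρ y' w) ≤
            if w ∈ Z then pairN ρ y w - s else s - pairN ρ y w :=
          fun w => hle (Sum.inr (Sum.inr (Sum.inl w)))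
        have hss : s' ≤ s := hle (Sum.inr (Sum.inr (Sum.inr ())))
        set y'' : ∀ i, Fin (r i) → ℕ := fun i a => y i a - y' i a with hy''
        have hpair : ∀ w, pairN ρ y w = pairN ρ y' w + pairN ρ y'' w :=
          fun w => pairN_sub ρ hyy w
        have hc'' : Cone ρ Z y'' (s - s') := by
          refine ⟨fun i a b hab => ?_, fun w hw => ?_, fun w hw => ?_⟩
          · have a1 := hc.1 i hab
            have a2 := hc'.1 i hab
            have a3 := hdd i a b
            have a4 := hyy i a
            have a5 := hyy i b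
            simp only [hy'']
            omega
          · have a1 := hww w
            rw [if_pos hw, if_pos hw] at a1
            have a2 := hc.2.1 w hw
            have a3 := hc'.2.1 w hw
            have a4 := hpair w
            omega
          · have a1 := hww w
            rw [if_neg hw, if_neg hw] at a1
            have a2 := hc.2.2 w hw
            have a3 := hc'.2.2 w hw
            have a4 := hpair w
            omega
        have hE : ∑ w, (pairN ρ y w - s) =
            ∑ w, (pairN ρ y' w - s') + ∑ w, (pairN ρ y'' w - (s - s')) := by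
          rw [← sum_add_distrib]
          refine sum_congr rfl fun w _ => ?_
          have a4 := hpair w
          by_cases hw : w ∈ Z
          · have a2 := hc.2.1 w hw
            have a3 := hc'.2.1 w hw
            have a5 := hc''.2.1 w hw
            omega
          · have a2 := hc.2.2 w hw
            have a3 := hc'.2.2 w hw
            have a5 := hc''.2.2 w hw
            omega
        have hSp : spreadN y = spreadN y' + spreadN y'' := by
          unfold spreadN
          rw [← sum_add_distrib]
          refine sum_congr rfl fun i _ => ?_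
          rw [← sum_add_distrib]
          refine sum_congr rfl fun a _ => ?_
          rw [← sum_add_distrib]
          refine sum_congr rfl fun b _ => ?_
          have a4 := hyy i a
          have a5 := hyy i b
          have a6 := hdd i a b
          have a7 := hdd i b a
          simp only [hy'']
          rcases le_total a b with hab | hab
          · have a1 := hc.1 i hab
            have a2 := hc'.1 i hab
            omega
          · have a1 := hc.1 i hab
            have a2 := hc'.1 i hab
            omega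
        have hadd : ∀ x, co ρ Z y s x = co ρ Z y' s' x + co ρ Z y'' (s - s') x := by
          rintro (x | x | w | u)
          · have a4 := hyy x.1 x.2
            simp only [co, hy'']
            omega
          · have a4 := hyy x.1 x.2.1
            have a5 := hyy x.1 x.2.2
            have a6 := hdd x.1 x.2.1 x.2.2
            have a7 := hdd x.1 x.2.2 x.2.1
            simp only [co, hy'']
            rcases le_total x.2.1 x.2.2 with hab | hab
            · have a1 := hc.1 x.1 hab
              have a2 := hc'.1 x.1 hab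
              omega
            · have a1 := hc.1 x.1 hab
              have a2 := hc'.1 x.1 hab
              omega
          · have a4 := hpair w
            simp only [co]
            by_cases hw : w ∈ Z
            · simp only [hw, if_true]
              have a2 := hc.2.1 w hw
              have a3 := hc'.2.1 w hw
              have a5 := hc''.2.1 w hw
              omega
            · simp only [hw, if_false]
              have a2 := hc.2.2 w hw
              have a3 := hc'.2.2 w hw
              have a5 := hc''.2.2 w hw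
              omega
          · simp only [co]
            omega
        have hpos : 0 < ∑ x, co ρ Z y' s' x := by
          rw [hco]
          obtain ⟨x, hx⟩ := Function.ne_iff.1 hv0
          refine lt_of_lt_of_le (Nat.pos_of_ne_zero hx) ?_
          exact single_le_sum (f := fun x => v x) (fun _ _ => Nat.zero_le _) (mem_univ x)
        have hlt : ∑ x, co ρ Z y'' (s - s') x < n := by
          have e : ∑ x, co ρ Z y s x = ∑ x, co ρ Z y' s' x + ∑ x, co ρ Z y'' (s - s') x := by
            rw [← sum_add_distrib]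
            exact sum_congr rfl fun x _ => hadd x
          omega
        have hI := ih _ hlt y'' (s - s') hc'' rfl
        have hvN : spreadN y' ≤ N := by
          refine le_trans ?_ hN
          have e : spreadN y' = sp v := by rw [← hco, hspco]
          rw [e]
          exact single_le_sum (f := sp) (fun _ _ => Nat.zero_le _)
            (hBfin.mem_toFinset.2 hvB)
        have hb : (N + 1) * ∑ w, (pairN ρ y' w - s') ≤ N * spreadN y' := by
          rcases Nat.eq_zero_or_pos (spreadN y') with h3 | h3
          · have h4 := h1 y' s' hc'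
            rw [h3] at h4
            rw [Nat.le_zero.1 h4, mul_zero]
            exact Nat.zero_le _
          · have h4 := h2 y' s' hc' h3
            have h5 : ∑ w, (pairN ρ y' w - s') ≤ spreadN y' - 1 := by omega
            calc (N + 1) * ∑ w, (pairN ρ y' w - s') ≤ (N + 1) * (spreadN y' - 1) :=
                  Nat.mul_le_mul_left _ h5
              _ ≤ N * spreadN y' := by
                  obtain ⟨q, hq⟩ : ∃ q, spreadN y' = q + 1 := ⟨spreadN y' - 1, by omega⟩
                  rw [hq] at hvN ⊢
                  rw [Nat.add_sub_cancel]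
                  nlinarith
        rw [hE, hSp, mul_add, mul_add]
        exact Nat.add_le_add hb hI
  intro y s hc
  exact key _ y s hc rfl

end dickson

/-- The weight criterion for every representation without exceptional cases of equality. -/
theorem crit3_of_noExc (ρ : FRep r W) (hT : StThin1 ρ) (hE : NoExc ρ) : Crit3 ρ := by
  classical
  have h : ∀ Z : Finset W, ∃ N : ℕ, (∀ y u, Thin ρ y u → ¬ Blk ρ y u ⊆ Z) →
      ∀ N', N ≤ N' → ∀ y s, Cone ρ Z y s →
      (N' + 1) * ∑ w, (pairN ρ y w - s) ≤ N' * spreadN y := by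
    intro Z
    by_cases hZ : ∀ y u, Thin ρ y u → ¬ Blk ρ y u ⊆ Z
    · have hnt : ∀ y s, Cone ρ Z y s → ¬ Thin ρ y (s + 1) := by
        intro y s hc ht
        refine hZ y (s + 1) ht fun w hw => ?_
        by_contra hw'
        rw [Blk, mem_filter] at hw
        have := hc.2.2 w hw'
        omega
      obtain ⟨N, hN⟩ := cone_bound ρ Z (fun y s hc => excess_le ρ hT hc.1 (hnt y s hc))
        (fun y s hc hp => excess_lt ρ hT hE hc.1 (hnt y s hc) hp)
      exact ⟨N, fun _ => hN⟩
    · exact ⟨0, fun h => absurd h hZ⟩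
  choose N hN using h
  set N0 := ∑ Z, N Z with hN0
  refine ⟨(N0 : ℝ) / (N0 + 1), ?_, ?_⟩
  · rw [div_lt_one (by positivity)]
    linarith
  · intro y hy s
    by_cases hth : ∃ y' u', Thin ρ y' u' ∧ Blk ρ y' u' ⊆ Blk ρ y (s + 1)
    · left
      obtain ⟨y', u', h1, h2⟩ := hth
      refine ⟨y', u', h1, fun w hw => ?_⟩
      have h3 := h2 hw
      rw [Blk, mem_filter] at h3
      omega
    · right
      push Not at hth
      have hcone : Cone ρ (Blk ρ y (s + 1)) y s := by
        refine ⟨hy, fun w hw => ?_, fun w hw => ?_⟩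
        · rw [Blk, mem_filter] at hw
          omega
        · rw [Blk, mem_filter] at hw
          by_contra hcon
          exact hw ⟨mem_univ _, by omega⟩
      have h1 := hN (Blk ρ y (s + 1)) (fun y' u' ht => hth y' u' ht) N0
        (single_le_sum (f := N) (fun _ _ => Nat.zero_le _) (mem_univ _)) y s hcone
      have h2 : ((N0 : ℝ) + 1) * ((∑ w, (pairN ρ y w - s) : ℕ) : ℝ) ≤ (N0 : ℝ) * (spreadN y : ℕ) := by
        exact_mod_cast h1
      rw [div_mul_eq_mul_div, le_div_iff₀ (by positivity)]
      linarith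

end Pool.Agent.Lib.MP_1acd66_nt.AR
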