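import Pool.Agent.Lib.MP_1acd66_nt.AR.Defs7
import Pool.Agent.Lib.MP_1acd66_nt.AR.FieldLem

/-!
If the flag is unique, the entries of the generic frame are rational functions of the generic
vector.
-/

namespace Pool.Agent.Lib.MP_1acd66_nt.AR

open Finset Pool.Agent.Lib.MP_1acd66_nt.Gen J63

variable {k : ℕ} {r : Fin k → ℕ} {W : Type} [Fintype W]

namespace T1

/-- unipotent with support in the steps -/
def Uni {K : Type} [CommRing K] {n : ℕ} (y : Fin n → ℕ) (V : Matrix (Fin n) (Fin n) K) : Prop :=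
  (∀ a, V a a = 1) ∧ ∀ a b, a ≠ b → ¬ y a < y b → V a b = 0

theorem uni_det {K : Type} [CommRing K] {n : ℕ} {y : Fin n → ℕ} (hy : Monotone y)
    {V : Matrix (Fin n) (Fin n) K} (hV : Uni y V) : V.det = 1 :=
  det_upper hV.1 fun a b hab => hV.2 a b hab.ne' fun h => absurd (hy hab.le) (not_le.2 h)

theorem uni_eq {K : Type} [CommRing K] {n : ℕ} {y : Fin n → ℕ} {V V' g : Matrix (Fin n) (Fin n) K}
    (hV : Uni y V) (hV' : Uni y V') (hg : ∀ a b, y a < y b → g a b = 0) (h : V * g = V') :
    g = 1 := by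
  classical
  obtain ⟨T, hT⟩ : ∃ T : ℕ, ∀ a, y a ≤ T :=
    ⟨∑ a, y a, fun a => single_le_sum (f := y) (fun _ _ => Nat.zero_le _) (mem_univ a)⟩
  have key : ∀ m : ℕ, ∀ a b, T - y a = m → g a b = (1 : Matrix (Fin n) (Fin n) K) a b := by
    intro m
    induction m using Nat.strong_induction_on with
    | _ m ih =>
      intro a b hm
      have h1 : (V * g) a b = V' a b := by rw [h]
      by_cases hab : y a < y b
      · rw [hg a b hab, Matrix.one_apply_ne]
        intro h2
        rw [h2] at hab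
        exact lt_irrefl _ hab
      · rw [Matrix.mul_apply, sum_eq_single a] at h1
        · rw [hV.1, one_mul] at h1
          rw [h1]
          by_cases h2 : a = b
          · rw [h2, hV'.1, Matrix.one_apply_eq]
          · rw [hV'.2 a b h2 hab, Matrix.one_apply_ne h2]
        · intro c _ hca
          by_cases hac : y a < y c
          · rw [ih (T - y c) (by have := hT c; omega) c b rfl, Matrix.one_apply_ne, mul_zero]
            intro h2
            rw [h2] at hac
            exact hab hac
          · rw [hV.2 a c hca.symm hac, zero_mul]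
        · intro h
          exact absurd (mem_univ _) h
  exact Matrix.ext fun a b => key _ a b rfl

variable (ρ : FRep r W) (y : ∀ i, Fin (r i) → ℕ) (s : ℕ)

theorem mem_stepsT {i : Fin k} {a b : Fin (r i)} :
    (⟨i, a, b⟩ : Σ i, Fin (r i) × Fin (r i)) ∈ stepsT y 1 ↔ y i a < y i b := by
  rw [stepsT, mem_sigma, mem_filter]
  simp only [mem_univ, true_and]
  omega

theorem genV_uni {K : Type} [CommRing K] (f : RR ρ y s →+* K) (i : Fin k) :
    Uni (y i) ((genV (Blk ρ y (s + 1)) (stepsT y 1) i).map f) := by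
  refine ⟨fun a => ?_, fun a b hab hn => ?_⟩
  · rw [Matrix.map_apply]
    have : genV (Blk ρ y (s + 1)) (stepsT y 1) i a a = 1 := by simp [genV]
    rw [this, map_one]
  · rw [Matrix.map_apply]
    have : genV (Blk ρ y (s + 1)) (stepsT y 1) i a b = 0 := by
      have h1 : (⟨i, a, b⟩ : Σ i, Fin (r i) × Fin (r i)) ∉ stepsT y 1 := by
        rw [mem_stepsT]
        exact hn
      simp [genV, hab, h1]
    rw [this, map_zero]

theorem genV_step (x : {x // x ∈ stepsT y 1}) :
    genV (Blk ρ y (s + 1)) (stepsT y 1) x.1.1 x.1.2.1 x.1.2.2 =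
      (MvPolynomial.X (Sum.inl x) : RR ρ y s) := by
  obtain ⟨⟨i, a, b⟩, hx⟩ := x
  have hab : a ≠ b := by
    intro h
    rw [mem_stepsT, h] at hx
    exact lt_irrefl _ hx
  simp [genV, hab, hx]

theorem genB_zero {w : W} (hw : w ∈ Blk ρ y (s + 1)) :
    (genB (Blk ρ y (s + 1)) (stepsT y 1) w : RR ρ y s) = 0 := by
  simp [genB, hw]

theorem genB_X (w : {w // w ∉ Blk ρ y (s + 1)}) :
    (genB (Blk ρ y (s + 1)) (stepsT y 1) w.1 : RR ρ y s) = MvPolynomial.X (Sum.inr w) := by
  simp [genB, w.2]

/-- a polynomial which does not vanish on all rational vectors with zeros on the block does not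
vanish on the generic one -/
theorem genB_ne (F : MvPolynomial W ℚ)
    (hF : ∃ A : W → ℚ, (∀ w ∈ Blk ρ y (s + 1), A w = 0) ∧ MvPolynomial.eval A F ≠ 0) :
    MvPolynomial.aeval (genB (Blk ρ y (s + 1)) (stepsT y 1) : W → RR ρ y s) F ≠ 0 := by
  classical
  obtain ⟨A, hA, hFA⟩ := hF
  intro h0
  apply hFA
  let f : RR ρ y s →ₐ[ℚ] ℚ := MvPolynomial.aeval (Sum.elim (fun _ => 0) fun w => A w.1)
  have h1 := congrArg f h0
  rw [map_zero] at h1
  have h2 := DFunLike.congr_fun (MvPolynomial.comp_aeval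
    (genB (Blk ρ y (s + 1)) (stepsT y 1) : W → RR ρ y s) f) F
  rw [AlgHom.comp_apply, h1] at h2
  have h3 : (fun w => f (genB (Blk ρ y (s + 1)) (stepsT y 1) w)) = A := by
    funext w
    by_cases hw : w ∈ Blk ρ y (s + 1)
    · rw [genB_zero ρ y s hw, map_zero, hA w hw]
    · rw [genB_X ρ y s ⟨w, hw⟩]
      exact MvPolynomial.aeval_X _ _
  rw [h3] at h2
  rw [h2]
  exact (DFunLike.congr_fun (MvPolynomial.coe_aeval_eq_eval A) F).symm

/-- two embeddings which agree on the generic vector agree on the generic frame -/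
theorem two (hy : ∀ i, Monotone (y i)) (hU : Unique ρ y (s + 1)) {A : W → RR ρ y s}
    (hA : GenA ρ y s A) {K : Type} [Field K] (f1 f2 : RR ρ y s →+* K)
    (h1 : Function.Injective f1) (h12 : ∀ w, f1 (A w) = f2 (A w)) (x : {x // x ∈ stepsT y 1}) :
    f1 (MvPolynomial.X (Sum.inl x)) = f2 (MvPolynomial.X (Sum.inl x)) := by
  classical
  obtain ⟨F, hF1, hF2⟩ := hU
  set V : Grp (RR ρ y s) r := genV (Blk ρ y (s + 1)) (stepsT y 1) with hV
  set B : W → RR ρ y s := genB (Blk ρ y (s + 1)) (stepsT y 1) with hB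
  set V1 : Grp K r := fun i => (V i).map f1 with hV1
  set V2 : Grp K r := fun i => (V i).map f2 with hV2
  have hu1 : ∀ i, Uni (y i) (V1 i) := genV_uni ρ y s f1
  have hu2 : ∀ i, Uni (y i) (V2 i) := genV_uni ρ y s f2
  have hd1 : ∀ i, (V1 i).det = 1 := fun i => uni_det (hy i) (hu1 i)
  have hd2 : ∀ i, (V2 i).det = 1 := fun i => uni_det (hy i) (hu2 i)
  have e1 : ρ.pull K V1 (fun w => f1 (A w)) = fun w => f1 (B w) := by
    have := ρ.pull_map (RR ρ y s) K f1 V A
    rw [hA] at this
    exact this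
  have e2 : ρ.pull K V2 (fun w => f1 (A w)) = fun w => f2 (B w) := by
    have := ρ.pull_map (RR ρ y s) K f2 V A
    rw [hA] at this
    rw [show (fun w => f1 (A w)) = fun w => f2 (A w) from funext h12]
    exact this
  set g : Grp K r := fun i => (V1 i)⁻¹ * V2 i with hg
  have hVg : V1 * g = V2 := by
    funext i
    change V1 i * ((V1 i)⁻¹ * V2 i) = V2 i
    rw [← Matrix.mul_assoc, Matrix.mul_nonsing_inv _ (by rw [hd1 i]; exact isUnit_one),
      Matrix.one_mul]
  have hgd : ∀ i, (g i).det ≠ 0 := by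
    intro i h0
    have h3 : (V1 i * g i).det = (V2 i).det := congrArg Matrix.det (congrFun hVg i)
    rw [Matrix.det_mul, h0, mul_zero, hd2] at h3
    exact zero_ne_one h3
  have e3 : ρ.pull K g (fun w => f1 (B w)) = fun w => f2 (B w) := by
    rw [← e1, ρ.pull_mul, hVg, e2]
  let _ : Algebra ℚ K := (f1.comp (algebraMap ℚ (RR ρ y s))).toAlgebra
  have hFB : MvPolynomial.aeval (fun w => f1 (B w)) F ≠ 0 := by
    intro h0
    apply genB_ne ρ y s F hF1
    apply h1
    rw [map_zero, ← h0]
    let f1' : RR ρ y s →ₐ[ℚ] K := { f1 with commutes' := fun _ => rfl }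
    have h3 := DFunLike.congr_fun (MvPolynomial.comp_aeval B f1') F
    exact h3
  have h4 := hF2 K (fun w => f1 (B w)) (fun w hw => by rw [hB, genB_zero ρ y s hw, map_zero]) hFB
    g hgd (fun w hw => by
      rw [e3]
      change f2 (B w) = 0
      rw [hB, genB_zero ρ y s hw, map_zero])
  have h5 : g x.1.1 = 1 := uni_eq (hu1 x.1.1) (hu2 x.1.1) (h4 x.1.1) (congrFun hVg x.1.1)
  have h6 : V1 x.1.1 = V2 x.1.1 := by
    have h7 := congrFun hVg x.1.1
    change V1 x.1.1 * g x.1.1 = V2 x.1.1 at h7
    rw [h5, Matrix.mul_one] at h7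
    exact h7
  have h7 := congrFun (congrFun h6 x.1.2.1) x.1.2.2
  change f1 (V x.1.1 x.1.2.1 x.1.2.2) = f2 (V x.1.1 x.1.2.1 x.1.2.2) at h7
  rw [hV, genV_step] at h7
  exact h7

end T1

open scoped IntermediateField.algebraAdjoinAdjoin in
/-- Row T1. -/
theorem stRat (ρ : FRep r W) : StRat ρ := by
  classical
  intro y s hcrit hU A hA
  set L : Type := FractionRing (RR ρ y s) with hL
  set ι : RR ρ y s →+* L := algebraMap (RR ρ y s) L with hι
  have hinj : Function.Injective ι := IsFractionRing.injective (RR ρ y s) L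
  set a : W → L := fun w => ι (A w) with ha
  set K0 : IntermediateField ℚ L := IntermediateField.adjoin ℚ (Set.range a) with hK0
  have haK : ∀ w, a w ∈ K0 := fun w => IntermediateField.subset_adjoin ℚ _ ⟨w, rfl⟩
  have hagree : ∀ {Ω : Type} [Field Ω] (f1 f2 : L →+* Ω),
      (∀ c : K0, f1 (algebraMap K0 L c) = f2 (algebraMap K0 L c)) →
      ∀ x : {x // x ∈ stepsT y 1}, f1 (ι (MvPolynomial.X (Sum.inl x))) =
        f2 (ι (MvPolynomial.X (Sum.inl x))) := by
    intro Ω _ f1 f2 h12 x
    exact T1.two ρ y s hcrit.1 hU hA (f1.comp ι) (f2.comp ι) (f1.injective.comp hinj)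
      (fun w => h12 ⟨a w, haK w⟩) x
  -- the entries of the frame are algebraic
  have halgV : ∀ x : {x // x ∈ stepsT y 1}, IsAlgebraic K0 (ι (MvPolynomial.X (Sum.inl x))) := by
    intro x
    by_contra hcon
    obtain ⟨Ω, iΩ, f1, f2, h12, hne⟩ := move_transc (K0 := K0) (L := L) hcon
    exact hne (hagree f1 f2 h12 x)
  set Ka : IntermediateField K0 L := algebraicClosure K0 L with hKa
  have hmem : ∀ z : L, z ∈ Ka ↔ IsAlgebraic K0 z := fun z => mem_algebraicClosure_iff
  have hVK : ∀ i b c, ι (genV (Blk ρ y (s + 1)) (stepsT y 1) i b c) ∈ Ka := by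
    intro i b c
    rw [genV]
    split_ifs with h1 h2
    · rw [map_one]; exact one_mem Ka
    · exact (hmem _).2 (halgV ⟨⟨i, b, c⟩, h2⟩)
    · rw [map_zero]; exact zero_mem Ka
  have hAK : ∀ w, a w ∈ Ka := by
    intro w
    rw [hmem]
    exact isAlgebraic_algebraMap (⟨a w, haK w⟩ : K0)
  have hBK : ∀ w, ι (genB (Blk ρ y (s + 1)) (stepsT y 1) w) ∈ Ka := by
    intro w
    have h1 := ρ.pull_map (RR ρ y s) L ι (genV (Blk ρ y (s + 1)) (stepsT y 1)) A
    rw [hA] at h1
    have h2 := ρ.pull_map Ka L (algebraMap Ka L)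
      (fun i => Matrix.of fun b c => ⟨ι (genV (Blk ρ y (s + 1)) (stepsT y 1) i b c), hVK i b c⟩)
      (fun w => ⟨a w, hAK w⟩)
    have h3 : (fun i => ((Matrix.of fun b c => (⟨ι (genV (Blk ρ y (s + 1)) (stepsT y 1) i b c),
        hVK i b c⟩ : Ka)).map (algebraMap Ka L) : Matrix (Fin (r i)) (Fin (r i)) L)) =
        fun i => (genV (Blk ρ y (s + 1)) (stepsT y 1) i).map ι := by
      funext i
      rfl
    rw [h3] at h2
    have h4 := congrFun (h1.symm.trans h2) w
    rw [h4]
    exact Subtype.property _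
  have hall : ∀ p : RR ρ y s, ι p ∈ Ka := by
    intro p
    induction p using MvPolynomial.induction_on with
    | C c =>
      have : ι (MvPolynomial.C c) = algebraMap ℚ L c := by
        rw [IsScalarTower.algebraMap_apply ℚ (RR ρ y s) L]
        rfl
      rw [this, hmem]
      exact isAlgebraic_algebraMap (algebraMap ℚ K0 c)
    | add p q hp hq => rw [map_add]; exact add_mem hp hq
    | mul_X p j hp =>
      rw [map_mul]
      refine mul_mem hp ?_
      obtain x | w := j
      · exact (hmem _).2 (halgV x)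
      · have h1 := hBK w.1
        rwa [T1.genB_X ρ y s w] at h1
  have : Algebra.IsAlgebraic K0 L := by
    refine ⟨fun z => ?_⟩
    obtain ⟨p, q, hz⟩ := IsFractionRing.div_surjective (A := RR ρ y s) z
    rw [← hmem, ← hz.2]
    exact div_mem (hall _) (hall _)
  have hcard : Fintype.card (Ix (Blk ρ y (s + 1)) (stepsT y 1)) = Fintype.card W := by
    have h1 := hcrit.2.2 1 one_pos
    rw [Fintype.card_sum, Fintype.card_coe, ← h1, Fintype.card_subtype_compl, Fintype.card_coe]
    exact Nat.add_sub_cancel' (card_le_univ _)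
  refine ⟨?_, ?_⟩
  · have hind : AlgebraicIndependent ℚ a := by
      have h1 : Algebra.IsAlgebraic (Algebra.adjoin ℚ (Set.range a)) L :=
        (IsFractionRing.comap_isAlgebraic_iff (A := Algebra.adjoin ℚ (Set.range a)) (K := K0)
          (C := L)).2 this
      obtain ⟨u, hu, hbas⟩ := exists_isTranscendenceBasis_subset (R := ℚ) (A := L) (Set.range a)
      have h2 : AlgebraicIndependent ℚ fun j : Ix (Blk ρ y (s + 1)) (stepsT y 1) =>
          ι (MvPolynomial.X j) := by
        have h3 : AlgebraicIndependent ℚ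
            (MvPolynomial.X : Ix (Blk ρ y (s + 1)) (stepsT y 1) → RR ρ y s) :=
          MvPolynomial.algebraicIndependent_X _ _
        exact h3.map' (f := IsScalarTower.toAlgHom ℚ (RR ρ y s) L) hinj
      have h3 := h2.cardinalMk_le_trdeg
      rw [← hbas.cardinalMk_eq_trdeg] at h3
      have hfin : (Set.range a).Finite := Set.finite_range a
      have hufin : u.Finite := hfin.subset hu
      have h4 : Fintype.card W ≤ u.ncard := by
        have : Fintype u := hufin.fintype
        rw [Cardinal.mk_fintype, Cardinal.mk_fintype, Nat.cast_le, hcard] at h3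
        rwa [← Nat.card_coe_set_eq, Nat.card_eq_fintype_card]
      have h5 : (Set.range a).ncard ≤ Fintype.card W := by
        rw [← Set.image_univ]
        refine (Set.ncard_image_le Set.finite_univ).trans ?_
        rw [Set.ncard_univ, Nat.card_eq_fintype_card]
      have h6 : u = Set.range a := Set.eq_of_subset_of_ncard_le hu (h5.trans h4) hfin
      have h7 : Function.Injective a := by
        have h8 : (a '' Set.univ).ncard = (Set.univ : Set W).ncard := by
          rw [Set.image_univ, Set.ncard_univ, Nat.card_eq_fintype_card]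
          exact le_antisymm h5 (h6 ▸ h4)
        have h9 := (Set.ncard_image_iff Set.finite_univ).1 h8
        exact Set.injOn_univ.1 h9
      have h8 := hbas.1
      rw [h6] at h8
      exact h8.comp (fun w => ⟨a w, w, rfl⟩) fun w w' h => h7 (Subtype.ext_iff.1 h)
    exact AlgebraicIndependent.of_comp (IsScalarTower.toAlgHom ℚ (RR ρ y s) L) hind
  · intro x
    have h1 : ι (MvPolynomial.X (Sum.inl x)) ∈ Set.range (algebraMap K0 L) := by
      by_contra hcon
      obtain ⟨Ω, iΩ, f1, f2, h12, hne⟩ := move_alg (K0 := K0) (L := L) hcon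
      exact hne (hagree f1 f2 h12 x)
    obtain ⟨z, hz⟩ := h1
    have h2 : ι (MvPolynomial.X (Sum.inl x)) ∈ IntermediateField.adjoin ℚ (Set.range a) := by
      rw [← hz]
      exact z.2
    rw [IntermediateField.mem_adjoin_range_iff] at h2
    obtain ⟨N, D, hND⟩ := h2
    have hev : ∀ P : MvPolynomial W ℚ, MvPolynomial.aeval a P = ι (MvPolynomial.aeval A P) := by
      intro P
      exact (DFunLike.congr_fun (MvPolynomial.comp_aeval A
        (IsScalarTower.toAlgHom ℚ (RR ρ y s) L)) P).symm
    rw [hev, hev] at hND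
    have hD : MvPolynomial.aeval A D ≠ 0 := by
      intro h0
      rw [h0, map_zero, div_zero] at hND
      rw [← map_zero ι] at hND
      exact MvPolynomial.X_ne_zero _ (hinj hND)
    refine ⟨N, D, hD, ?_⟩
    apply hinj
    have h3 : ι (MvPolynomial.aeval A D) ≠ 0 := by
      rw [← map_zero ι]
      exact fun h => hD (hinj h)
    rw [map_mul, hND, div_mul_cancel₀ _ h3]

end Pool.Agent.Lib.MP_1acd66_nt.AR
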