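import Pool.Agent.Lib.MP_1acd66_nt.AR.Main2

/-!
Thin blocks: the blocks which generic vectors do not miss in any rational frame.
-/

namespace Pool.Agent.Lib.MP_1acd66_nt.AR

open Finset Filter Topology Pool.Agent.Lib.MP_1acd66_nt.Gen

variable {k : ℕ} {r : Fin k → ℕ} {W : Type} [Fintype W]

/-- In some rational frame all coordinates in `Z` vanish. -/
def Van (ρ : FRep r W) (Z : Finset W) (A : W → ℚ) : Prop :=
  ∃ g : Grp ℚ r, (∀ i, (g i).det ≠ 0) ∧ ∀ w ∈ Z, ρ.pull ℚ g A w = 0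

/-- The block of slope at least `u` is thin: the vectors which vanish on it in some rational frame
lie on one hypersurface, or the block has at least as many elements as the dimension of the flag
variety of `y`, and these vectors have density zero. -/
def Thin (ρ : FRep r W) (y : ∀ i, Fin (r i) → ℕ) (u : ℕ) : Prop :=
  (∀ i, Monotone (y i)) ∧
    ((∃ F : MvPolynomial W ℚ, F ≠ 0 ∧ ∀ A, Van ρ (Blk ρ y u) A → MvPolynomial.eval A F = 0) ∨
      (flagDim y ≤ (Blk ρ y u).card ∧ DensityZero fun A => ¬ Van ρ (Blk ρ y u) A))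

/-- In no rational frame does the vector vanish on a thin block. -/
def Good3 (ρ : FRep r W) (A : W → ℚ) : Prop :=
  ∀ y u, Thin ρ y u → ¬ Van ρ (Blk ρ y u) A

/-- The weight criterion. -/
def Crit3 (ρ : FRep r W) : Prop :=
  ∃ θ : ℝ, θ < 1 ∧ ∀ y : ∀ i, Fin (r i) → ℕ, (∀ i, Monotone (y i)) → ∀ s : ℕ,
    (∃ y' u', Thin ρ y' u' ∧ ∀ w ∈ Blk ρ y' u', s < pairN ρ y w) ∨
      ((∑ w, (pairN ρ y w - s) : ℕ) : ℝ) ≤ θ * (spreadN y : ℕ)

theorem exists_int_poly (F : MvPolynomial W ℚ) : ∃ (n : ℕ) (F' : MvPolynomial W ℤ), 0 < n ∧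
    MvPolynomial.map (Int.castRingHom ℚ) F' = MvPolynomial.C (n : ℚ) * F := by
  classical
  induction F using MvPolynomial.induction_on with
  | C a =>
    refine ⟨a.den, MvPolynomial.C a.num, a.den_pos, ?_⟩
    rw [MvPolynomial.map_C, ← MvPolynomial.C_mul]
    congr 1
    rw [eq_intCast, mul_comm]
    exact (Rat.mul_den_eq_num a).symm
  | add p q hp hq =>
    obtain ⟨n1, F1, h1, e1⟩ := hp
    obtain ⟨n2, F2, h2, e2⟩ := hq
    refine ⟨n1 * n2, MvPolynomial.C (n2 : ℤ) * F1 + MvPolynomial.C (n1 : ℤ) * F2,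
      Nat.mul_pos h1 h2, ?_⟩
    rw [map_add, map_mul, map_mul, e1, e2, MvPolynomial.map_C, MvPolynomial.map_C]
    push_cast
    rw [MvPolynomial.C_mul]
    simp only [eq_intCast, Int.cast_natCast]
    ring
  | mul_X p i hp =>
    obtain ⟨n1, F1, h1, e1⟩ := hp
    refine ⟨n1, F1 * MvPolynomial.X i, h1, ?_⟩
    rw [map_mul, e1, MvPolynomial.map_X]
    ring

theorem densityZero_of_ratPoly {G : (W → ℚ) → Prop} {F : MvPolynomial W ℚ} (hF : F ≠ 0)
    (h : ∀ A, ¬ G A → MvPolynomial.eval A F = 0) : DensityZero G := by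
  obtain ⟨n, F', hn, e⟩ := exists_int_poly F
  have hn' : (n : ℚ) ≠ 0 := by exact_mod_cast hn.ne'
  refine densityZero_of_poly F' ?_ ?_
  · rintro rfl
    rw [map_zero] at e
    rcases mul_eq_zero.1 e.symm with h1 | h1
    · rw [MvPolynomial.C_eq_zero] at h1
      exact hn' h1
    · exact hF h1
  · intro A hA
    have h1 := h (ratW A) hA
    have h2 : MvPolynomial.eval (ratW A) (MvPolynomial.map (Int.castRingHom ℚ) F') = 0 := by
      rw [e, map_mul, h1, mul_zero]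
    rw [MvPolynomial.eval_map] at h2
    have h3 : MvPolynomial.eval₂ (Int.castRingHom ℚ) (ratW A) F' =
        ((MvPolynomial.eval A F' : ℤ) : ℚ) := by
      have h4 := MvPolynomial.eval₂_comp_left (Int.castRingHom ℚ) (RingHom.id ℤ) A F'
      rw [RingHom.comp_id] at h4
      exact h4.symm
    rw [h3] at h2
    exact_mod_cast h2

theorem thin_density (ρ : FRep r W) {y : ∀ i, Fin (r i) → ℕ} {u : ℕ} (h : Thin ρ y u) :
    DensityZero fun A => ¬ Van ρ (Blk ρ y u) A := by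
  rcases h with ⟨_, ⟨F, hF, h1⟩ | ⟨_, h1⟩⟩
  · refine densityZero_of_ratPoly hF fun A hA => h1 A ?_
    exact not_not.1 hA
  · exact h1

theorem stDens3 (ρ : FRep r W) : DensityZero (Good3 ρ) := by
  classical
  set s : Finset (Finset W) := univ.filter (fun Z => ∃ y u, Thin ρ y u ∧ Blk ρ y u = Z) with hs
  have h0 : DensityZero (fun _ : W → ℚ => True) := by
    intro ε hε
    exact ⟨1, one_pos, ∅, by simp, by simp; positivity, fun A hA => absurd trivial hA⟩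
  have h2 := densityZero_forall s (G := fun Z A => ¬ Van ρ Z A) h0 (by
    intro Z hZ
    rw [hs, mem_filter] at hZ
    obtain ⟨_, y, u, h1, rfl⟩ := hZ
    exact thin_density ρ h1)
  refine densityZero_mono h2 ?_
  rintro A ⟨_, hA⟩ y u hb
  exact hA _ (by rw [hs, mem_filter]; exact ⟨mem_univ _, y, u, hb, rfl⟩)

theorem thin_of_big (ρ : FRep r W) {y : ∀ i, Fin (r i) → ℕ} {u : ℕ} (h : Big ρ y u) :
    Thin ρ y u := by
  refine ⟨h.1, Or.inl ?_⟩
  obtain ⟨F, hF, h1⟩ := stClosed ρ (stVan ρ) (stAlg ρ)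
  refine ⟨F, hF, fun A hA => h1 A fun hgood => ?_⟩
  obtain ⟨g, hg, hv⟩ := hA
  obtain ⟨w, hw, hne⟩ := hgood g hg y u h
  exact hne (hv w hw)

theorem good3_iff (ρ : FRep r W) (A : W → ℚ) : Good3 ρ A ↔
    ∀ g : Grp ℚ r, (∀ i, (g i).det ≠ 0) → ∀ y u, Thin ρ y u →
      ∃ w ∈ Blk ρ y u, ρ.pull ℚ g A w ≠ 0 := by
  constructor
  · intro h g hg y u hb
    by_contra hcon
    push Not at hcon
    exact h y u hb ⟨g, hg, hcon⟩
  · rintro h y u hb ⟨g, hg, hv⟩
    obtain ⟨w, hw, hne⟩ := h g hg y u hb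
    exact hne (hv w hw)

theorem goodInv3 (ρ : FRep r W) : GoodInv ρ (Good3 ρ) := by
  have h := goodInv_of ρ (Thin ρ)
  refine ⟨fun s A hs => ?_, fun g A hg => ?_⟩
  · rw [good3_iff, good3_iff]
    exact h.smul s A hs
  · rw [good3_iff, good3_iff]
    exact h.pull g A hg

theorem good3_int (ρ : FRep r W) {A : W → ℤ} (hA : Good3 ρ (ratW A)) {y : ∀ i, Fin (r i) → ℕ}
    {u : ℕ} (hb : Thin ρ y u) : ∃ w ∈ Blk ρ y u, A w ≠ 0 := by
  obtain ⟨w, hw1, hw⟩ := (good3_iff ρ _).1 hA 1 (fun i => by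
    have : (1 : Grp ℚ r) i = 1 := rfl
    rw [this, Matrix.det_one]; exact one_ne_zero) _ _ hb
  rw [ρ.pull_one] at hw
  refine ⟨w, hw1, fun h0 => hw ?_⟩
  rw [ratW, h0, Int.cast_zero]

theorem stCusp3 (ρ : FRep r W) (hcrit : Crit3 ρ) (hne : Nonempty W) (hdeg : ∀ i, 0 < ρ.deg i) :
    CuspData ρ (Good3 ρ) := by
  refine cuspData_of ρ (stTri ρ) (stDiag ρ) (Thin ρ) hne hdeg ?_ ?_ hcrit
  · intro A hA
    obtain ⟨w, _, hw⟩ := good3_int ρ hA (thin_of_big ρ (big_zero ρ))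
    exact ⟨w, hw⟩
  · intro A hA y u hb
    exact good3_int ρ hA hb

/-- The asymptotic formula for every representation which satisfies the weight criterion. -/
theorem main4 (ρ : FRep r W) {N : Fin k → ℕ} (hcrit : Crit3 ρ)
    (hr : ∀ i, 0 < r i) (hrN : ∀ i, r i < N i) (hdeg : ∀ i, 0 < ρ.deg i) (hb : ∀ i, ρ.b i ≤ N i)
    (hD : 2 ≤ Fintype.card W) (h : Gen.AdelicNorm N ρ.toRepData) :
    (∀ B, (Gen.countSet (Good3 ρ) h B).Finite) ∧ ∃ c : ℝ, 0 < c ∧
      Tendsto (fun B : ℝ => ((Gen.countSet (Good3 ρ) h B).ncard : ℝ) / (B * Real.log B ^ k))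
        atTop (𝓝 c) :=
  engine (goodInv3 ρ) (stCusp3 ρ hcrit (Fintype.card_pos_iff.1 (by omega)) hdeg) (stDens3 ρ)
    hr hrN hb hD h

end Pool.Agent.Lib.MP_1acd66_nt.AR
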